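import Mathlib

set_option autoImplicit false

namespace Pool.Agent.Work.MP_67f4ac_gt.SieveAux

open Finset

theorem box_bound {k : ℕ} (p : Fin k → ℕ) (hp : ∀ i, (p i).Prime) (hinj : Function.Injective p)
    (Ω : ∀ i, Finset (ZMod (p i) × ZMod (p i))) (hΩ : ∀ i, 4 * (Ω i).card ≤ 3 * (p i) ^ 2)
    (S : Set (ℤ × ℤ)) (hS : ∀ x ∈ S, ∀ i, (((x.1 : ℤ) : ZMod (p i)), ((x.2 : ℤ) : ZMod (p i))) ∈ Ω i)
    (M : ℕ) :
    ((S ∩ {x | |x.1| ≤ (M : ℤ) ∧ |x.2| ≤ (M : ℤ)}).ncard : ℝ) ≤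
      (3 / 4 : ℝ) ^ k * (2 * M + (∏ i, p i : ℕ)) ^ 2 := by
  classical
  set N : ℕ := ∏ i, p i with hN
  have hNpos : 0 < N := Finset.prod_pos (fun i _ => (hp i).pos)
  have : NeZero N := ⟨hNpos.ne'⟩
  have hcop : Pairwise (Function.onFun Nat.Coprime p) := by
    intro i j hij
    exact (Nat.coprime_primes (hp i) (hp j)).mpr (fun h => hij (hinj h))
  set e := ZMod.prodEquivPi p hcop with he
  set T : Finset (ZMod N × ZMod N) :=
    univ.filter (fun w => ∀ i, (e w.1 i, e w.2 i) ∈ Ω i) with hT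
  have hTcard : T.card ≤ ∏ i, (Ω i).card := by
    rw [← Fintype.card_piFinset]
    refine Finset.card_le_card_of_injOn (fun w i => (e w.1 i, e w.2 i)) ?_ ?_
    · intro w hw
      rw [mem_coe, hT, mem_filter] at hw
      rw [mem_coe, Fintype.mem_piFinset]
      exact hw.2
    · intro w _ w' _ h
      have h1 : e w.1 = e w'.1 := by
        funext i
        have := congrFun h i
        exact (Prod.mk.inj this).1
      have h2 : e w.2 = e w'.2 := by
        funext i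
        have := congrFun h i
        exact (Prod.mk.inj this).2
      exact Prod.ext (e.injective h1) (e.injective h2)
  have hTreal : (T.card : ℝ) ≤ (3 / 4 : ℝ) ^ k * (N : ℝ) ^ 2 := by
    have h1 : (T.card : ℝ) ≤ ∏ i, ((Ω i).card : ℝ) := by exact_mod_cast hTcard
    refine h1.trans ?_
    have h2 : ∏ i, ((Ω i).card : ℝ) ≤ ∏ i, ((3 / 4 : ℝ) * (p i : ℝ) ^ 2) := by
      refine Finset.prod_le_prod (fun i _ => Nat.cast_nonneg _) (fun i _ => ?_)
      have : (4 : ℝ) * (Ω i).card ≤ 3 * (p i : ℝ) ^ 2 := by exact_mod_cast hΩ i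
      linarith
    refine h2.trans (le_of_eq ?_)
    rw [Finset.prod_mul_distrib, prod_const, card_univ, Fintype.card_fin, hN]
    push_cast
    rw [Finset.prod_pow]
  obtain ⟨L, hL⟩ : ∃ L : ℕ, L = 2 * M / N := ⟨_, rfl⟩
  -- the injection
  set B : Set (ℤ × ℤ) := S ∩ {x | |x.1| ≤ (M : ℤ) ∧ |x.2| ≤ (M : ℤ)} with hB
  have hNint : (0 : ℤ) < N := by exact_mod_cast hNpos
  have hquot : ∀ m : ℤ, |m| ≤ (M : ℤ) → ((m + M) / N).toNat ∈ range (L + 1) := by
    intro m hm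
    rw [abs_le] at hm
    rw [mem_range]
    have h1 : (m + M) / N ≤ (2 * M : ℤ) / N := Int.ediv_le_ediv hNint (by linarith [hm.2])
    have h2 : ((2 * M : ℤ) / N) = ((L : ℕ) : ℤ) := by rw [hL]; push_cast; rfl
    rw [h2] at h1
    omega
  have hinjm : ∀ m m' : ℤ, |m| ≤ (M : ℤ) → |m'| ≤ (M : ℤ) → ((m : ℤ) : ZMod N) = ((m' : ℤ) : ZMod N) →
      ((m + M) / N).toNat = ((m' + M) / N).toNat → m = m' := by
    intro m m' hm hm' h1 h2
    rw [abs_le] at hm hm'
    have h3 : (0 : ℤ) ≤ (m + M) / N := Int.ediv_nonneg (by linarith) hNint.le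
    have h4 : (0 : ℤ) ≤ (m' + M) / N := Int.ediv_nonneg (by linarith) hNint.le
    have h5 : (m + M) / N = (m' + M) / N := by omega
    rw [ZMod.intCast_eq_intCast_iff] at h1
    have h6 : (m + M) % N = (m' + M) % N := (h1.add_right (M : ℤ))
    have h7 := Int.emod_add_mul_ediv (m + M) N
    have h8 := Int.emod_add_mul_ediv (m' + M) N
    rw [h5, h6] at h7
    linarith
  have hcard : (B.ncard : ℝ) ≤ T.card * ((L + 1 : ℕ) : ℝ) ^ 2 := by
    have hle : B.ncard ≤ (T ×ˢ (range (L + 1) ×ˢ range (L + 1))).card := by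
      rw [← Set.ncard_coe_finset]
      refine Set.ncard_le_ncard_of_injOn
        (fun x : ℤ × ℤ => ((((x.1 : ℤ) : ZMod N), ((x.2 : ℤ) : ZMod N)),
          (((x.1 + M) / N).toNat, ((x.2 + M) / N).toNat))) ?_ ?_ (Finset.finite_toSet _)
      · intro x hx
        rw [mem_coe, mem_product, mem_product]
        refine ⟨?_, hquot _ hx.2.1, hquot _ hx.2.2⟩
        rw [hT, mem_filter]
        refine ⟨mem_univ _, fun i => ?_⟩
        have := hS x hx.1 i
        simpa using this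
      · intro x hx x' hx' h
        simp only [Prod.mk.injEq] at h
        exact Prod.ext (hinjm _ _ hx.2.1 hx'.2.1 h.1.1 h.2.1) (hinjm _ _ hx.2.2 hx'.2.2 h.1.2 h.2.2)
    rw [card_product, card_product, card_range] at hle
    have : (B.ncard : ℝ) ≤ ((T.card * ((L + 1) * (L + 1)) : ℕ) : ℝ) := by exact_mod_cast hle
    refine this.trans (le_of_eq ?_)
    push_cast; ring
  refine hcard.trans ?_
  have hLr : ((L + 1 : ℕ) : ℝ) * N ≤ 2 * M + N := by
    have : L * N ≤ 2 * M := by rw [hL]; exact Nat.div_mul_le_self _ _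
    have h' : (L : ℝ) * N ≤ 2 * M := by exact_mod_cast this
    push_cast
    linarith
  calc (T.card : ℝ) * ((L + 1 : ℕ) : ℝ) ^ 2 ≤ ((3 / 4 : ℝ) ^ k * (N : ℝ) ^ 2) * ((L + 1 : ℕ) : ℝ) ^ 2 := by
        gcongr
    _ = (3 / 4 : ℝ) ^ k * (((L + 1 : ℕ) : ℝ) * N) ^ 2 := by ring
    _ ≤ (3 / 4 : ℝ) ^ k * (2 * M + N) ^ 2 := by
        gcongr

end Pool.Agent.Work.MP_67f4ac_gt.SieveAux
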