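import Mathlib

set_option autoImplicit false

namespace Pool.Agent.Work.MP_67f4ac_gt.SieveAux

open Finset

section
variable {F : Type*} [Field F] [Fintype F] [DecidableEq F]

theorem sum_char_shift (hF : ringChar F ≠ 2) {d : F} (hd : d ≠ 0) :
    ∑ m : F, quadraticChar F m * quadraticChar F (m + d) = -1 := by
  have h0 : ∑ u : F, quadraticChar F (1 + u) = 0 := by
    rw [← quadraticChar_sum_zero hF]
    exact Fintype.sum_equiv (Equiv.addLeft (1 : F)) _ _ (fun u => rfl)
  have h1 : ∑ u ∈ univ.erase (0 : F), quadraticChar F (1 + u) = -1 := by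
    have := Finset.add_sum_erase univ (fun u : F => quadraticChar F (1 + u)) (mem_univ (0 : F))
    rw [h0] at this
    simp only [add_zero, map_one] at this
    linarith
  have h2 : ∑ m : F, quadraticChar F m * quadraticChar F (m + d) =
      ∑ m ∈ univ.erase (0 : F), quadraticChar F m * quadraticChar F (m + d) := by
    rw [← Finset.add_sum_erase univ _ (mem_univ (0 : F))]
    simp
  rw [h2, ← h1]
  refine Finset.sum_bij' (fun m _ => d / m) (fun u _ => d / u) ?_ ?_ ?_ ?_ ?_
  · intro m hm
    rw [mem_erase] at hm ⊢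
    exact ⟨div_ne_zero hd hm.1, mem_univ _⟩
  · intro m hm
    rw [mem_erase] at hm ⊢
    exact ⟨div_ne_zero hd hm.1, mem_univ _⟩
  · intro m hm
    rw [mem_erase] at hm
    have := hm.1
    field_simp
  · intro m hm
    rw [mem_erase] at hm
    have := hm.1
    field_simp
  · intro m hm
    rw [mem_erase] at hm
    have hm0 := hm.1
    rw [← map_mul]
    have : m * (m + d) = m ^ 2 * (1 + d / m) := by field_simp
    rw [this, map_mul, quadraticChar_sq_one' hm0, one_mul]

theorem sum_char_sq_sub_four (hF : ringChar F ≠ 2) :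
    ∑ u : F, quadraticChar F (u ^ 2 - 4) = -1 := by
  have h2 : (2 : F) ≠ 0 := Ring.two_ne_zero hF
  have h4 : (4 : F) ≠ 0 := by
    have : (4 : F) = 2 * 2 := by norm_num
    rw [this]; exact mul_ne_zero h2 h2
  rw [← sum_char_shift hF h4]
  refine Fintype.sum_equiv (Equiv.subRight (2 : F)) _ _ (fun u => ?_)
  simp only [Equiv.subRight_apply]
  rw [← map_mul]
  congr 1
  ring

open Classical in
theorem sq_count_aux (hF : ringChar F ≠ 2) :
    2 * ((univ.filter (fun w : F × F => IsSquare ((w.1 ^ 2 - 4) * (w.2 ^ 2 - 4)))).card : ℤ) ≤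
      (Fintype.card F : ℤ) ^ 2 + 1 + 4 * Fintype.card F := by
  have key : ∀ x : F, (2 : ℤ) * (if IsSquare x then 1 else 0) =
      1 + quadraticChar F x + (if x = 0 then 1 else 0) := by
    intro x
    by_cases hx : x = 0
    · subst hx; simp
    · by_cases hs : IsSquare x
      · rw [if_pos hs, if_neg hx, (quadraticChar_one_iff_isSquare hx).mpr hs]; norm_num
      · rw [if_neg hs, if_neg hx, quadraticChar_neg_one_iff_not_isSquare.mpr hs]; norm_num
  rw [Finset.card_filter]
  push_cast
  rw [Finset.mul_sum]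
  simp only [key]
  rw [Finset.sum_add_distrib, Finset.sum_add_distrib]
  have e1 : ∑ w : F × F, (1 : ℤ) = (Fintype.card F : ℤ) ^ 2 := by
    rw [sum_const, card_univ, Fintype.card_prod]
    simp only [nsmul_eq_mul, mul_one]
    push_cast; ring
  have e2 : ∑ w : F × F, quadraticChar F ((w.1 ^ 2 - 4) * (w.2 ^ 2 - 4)) = 1 := by
    rw [Fintype.sum_prod_type]
    simp only [map_mul]
    simp only [← Finset.mul_sum, ← Finset.sum_mul, sum_char_sq_sub_four hF]
    norm_num
  have e3 : ∑ w : F × F, (if (w.1 ^ 2 - 4) * (w.2 ^ 2 - 4) = 0 then (1 : ℤ) else 0) ≤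
      4 * Fintype.card F := by
    have hs : (univ.filter (fun w : F × F => (w.1 ^ 2 - 4) * (w.2 ^ 2 - 4) = 0)) ⊆
        ({2, -2} : Finset F) ×ˢ univ ∪ univ ×ˢ ({2, -2} : Finset F) := by
      intro w hw
      rw [mem_filter] at hw
      rw [mem_union, mem_product, mem_product]
      have h4 : ∀ u : F, u ^ 2 - 4 = 0 → u ∈ ({2, -2} : Finset F) := by
        intro u hu
        have : (u - 2) * (u + 2) = 0 := by linear_combination hu
        rw [mem_insert, mem_singleton]
        rcases mul_eq_zero.mp this with h | h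
        · left; linear_combination h
        · right; linear_combination h
      rcases mul_eq_zero.mp hw.2 with h | h
      · left; exact ⟨h4 _ h, mem_univ _⟩
      · right; exact ⟨mem_univ _, h4 _ h⟩
    have hc : (univ.filter (fun w : F × F => (w.1 ^ 2 - 4) * (w.2 ^ 2 - 4) = 0)).card ≤
        4 * Fintype.card F := by
      refine (card_le_card hs).trans ((card_union_le _ _).trans ?_)
      rw [card_product, card_product, card_univ]
      have : ({2, -2} : Finset F).card ≤ 2 := card_le_two
      nlinarith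
    rw [← Finset.sum_filter]
    rw [sum_const, nsmul_eq_mul, mul_one]
    exact_mod_cast hc
  rw [e1, e2]
  linarith

end

open Classical in
theorem sq_count (p : ℕ) [Fact p.Prime] (hp : 11 ≤ p) :
    4 * (univ.filter (fun w : ZMod p × ZMod p => IsSquare ((w.1 ^ 2 - 4) * (w.2 ^ 2 - 4)))).card ≤
      3 * p ^ 2 := by
  have hF : ringChar (ZMod p) ≠ 2 := by
    rw [ZMod.ringChar_zmod_n]; omega
  have h := sq_count_aux hF
  rw [ZMod.card] at h
  have h2 : ((4 * (univ.filter (fun w : ZMod p × ZMod p =>
      IsSquare ((w.1 ^ 2 - 4) * (w.2 ^ 2 - 4)))).card : ℕ) : ℤ) ≤ ((3 * p ^ 2 : ℕ) : ℤ) := by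
    push_cast
    have hp' : (11 : ℤ) ≤ p := by exact_mod_cast hp
    nlinarith
  exact_mod_cast h2

end Pool.Agent.Work.MP_67f4ac_gt.SieveAux
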