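import Mathlib

set_option autoImplicit false

namespace Pool.Agent.Work.MP_67f4ac_gt.SieveAux

open Polynomial

theorem exists_root_mod (f : ℤ[X]) (hf : 0 < f.natDegree) (B : ℕ) :
    ∃ p : ℕ, B < p ∧ p.Prime ∧ ∃ a : ℤ, (p : ℤ) ∣ f.eval a := by
  by_cases h0 : f.eval 0 = 0
  · obtain ⟨p, hp, hpp⟩ := Nat.exists_infinite_primes (B + 1)
    exact ⟨p, by omega, hpp, 0, by rw [h0]; exact dvd_zero _⟩
  obtain ⟨a0, ha0⟩ : ∃ a0 : ℤ, a0 = f.eval 0 := ⟨_, rfl⟩
  obtain ⟨P, hP⟩ : ∃ P : ℤ, P = ((B.factorial : ℕ) : ℤ) := ⟨_, rfl⟩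
  have hP0 : P ≠ 0 := by rw [hP]; exact_mod_cast B.factorial_ne_zero
  rw [← ha0] at h0
  have hn : ∃ n : ℤ, (f.eval (a0 * P * n) - a0) * (f.eval (a0 * P * n) + a0) ≠ 0 := by
    by_contra hcon
    push Not at hcon
    have hcomp : ((f - C a0) * (f + C a0)).comp (C (a0 * P) * X) = 0 := by
      apply Polynomial.funext
      intro n
      simp only [eval_comp, eval_mul, eval_sub, eval_add, eval_C, eval_X, eval_zero]
      exact hcon n
    rcases comp_eq_zero_iff.mp hcomp with h | h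
    · rcases mul_eq_zero.mp h with h1 | h1
      · have : f = C a0 := sub_eq_zero.mp h1
        rw [this, natDegree_C] at hf
        exact lt_irrefl _ hf
      · have : f = C (-a0) := by
          rw [C_neg]; exact eq_neg_of_add_eq_zero_left h1
        rw [this, natDegree_C] at hf
        exact lt_irrefl _ hf
    · have h2 := congrArg natDegree h.2
      rw [natDegree_C, natDegree_C_mul_X _ (mul_ne_zero h0 hP0)] at h2
      exact one_ne_zero h2
  obtain ⟨n, hn⟩ := hn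
  obtain ⟨s, hs⟩ := sub_dvd_eval_sub (a0 * P * n) 0 f
  rw [sub_zero, ← ha0] at hs
  have hval : f.eval (a0 * P * n) = a0 * (1 + P * n * s) := by linear_combination hs
  have hne : (1 + P * n * s).natAbs ≠ 1 := by
    intro h
    apply hn
    rcases Int.natAbs_eq_iff.mp h with h | h
    · rw [hval, h]; push_cast; ring
    · rw [hval, h]; push_cast; ring
  obtain ⟨q, hq, hqd⟩ := Nat.exists_prime_and_dvd hne
  have hqd' : (q : ℤ) ∣ 1 + P * n * s := Int.natCast_dvd.mpr hqd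
  refine ⟨q, ?_, hq, a0 * P * n, by rw [hval]; exact hqd'.mul_left _⟩
  by_contra hle
  push Not at hle
  have hqP : (q : ℤ) ∣ P := by
    rw [hP]
    exact_mod_cast (hq.dvd_factorial).mpr hle
  have h1 : (q : ℤ) ∣ 1 := by
    have h2 : (q : ℤ) ∣ P * n * s := (hqP.mul_right n).mul_right s
    exact (Int.dvd_add_left h2).mp hqd'
  have : q ∣ 1 := by exact_mod_cast h1
  exact hq.one_lt.ne' (Nat.dvd_one.mp this)

theorem aeval_int {p : ℕ} [Fact p.Prime] (r : ℤ) (f : ℤ[X]) :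
    (aeval ((r : ℤ) : ℤ_[p])) f = ((f.eval r : ℤ) : ℤ_[p]) := by
  have h1 : ((r : ℤ) : ℤ_[p]) = algebraMap ℤ ℤ_[p] r := by simp
  rw [h1, aeval_algebraMap_apply]
  simp

theorem norm_le_one_of_integral {p : ℕ} [Fact p.Prime] {x : ℚ_[p]} (hx : IsIntegral ℤ x) :
    ‖x‖ ≤ 1 := by
  have h1 : IsIntegral ℤ_[p] x := hx.tower_top
  obtain ⟨y, hy⟩ := IsIntegrallyClosed.isIntegral_iff.mp h1
  rw [← hy]
  exact y.2

theorem exists_bound_norm {k : Type*} [Field k] [Algebra ℚ k] [FiniteDimensional ℚ k] (e : k) :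
    ∃ N : ℕ, ∀ (p : ℕ) (_ : Fact p.Prime) (σ : k →+* ℚ_[p]), N < p → ‖σ e‖ ≤ 1 := by
  have halg : IsAlgebraic ℤ e := by
    have h1 : IsAlgebraic ℚ e := Algebra.IsAlgebraic.isAlgebraic e
    exact (IsFractionRing.isAlgebraic_iff ℤ ℚ k).mpr h1
  obtain ⟨m, hm0, hm⟩ := halg.exists_integral_multiple
  refine ⟨m.natAbs, fun p hp σ hlt => ?_⟩
  have hint : IsIntegral ℤ (σ (m • e)) := hm.map (σ : k →+* ℚ_[p]).toIntAlgHom
  have h1 := norm_le_one_of_integral hint
  rw [zsmul_eq_mul, map_mul, norm_mul, map_intCast] at h1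
  have hmn : ‖((m : ℤ) : ℚ_[p])‖ = 1 := by
    rw [Padic.norm_intCast_eq_one_iff]
    refine ((Nat.prime_iff_prime_int.mp hp.out).coprime_iff_not_dvd.mpr ?_).symm
    intro hd
    have := Nat.le_of_dvd (Int.natAbs_pos.mpr hm0) (Int.natCast_dvd.mp hd)
    omega
  rwa [hmn, one_mul] at h1

theorem exists_padic (k : Type) [Field k] [Algebra ℚ k] [FiniteDimensional ℚ k] (E : Finset k)
    (B : ℕ) : ∃ (p : ℕ) (_ : Fact p.Prime) (σ : k →+* ℚ_[p]), B < p ∧ ∀ e ∈ E, ‖σ e‖ ≤ 1 := by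
  classical
  set pb := Field.powerBasisOfFiniteOfSeparable ℚ k with hpb
  set μ := minpoly ℚ pb.gen with hμ
  have hirr : Irreducible μ := minpoly.irreducible (Algebra.IsIntegral.isIntegral pb.gen)
  have hsep : μ.Separable := hirr.separable
  obtain ⟨u, v, huv⟩ := hsep
  obtain ⟨f, b, hb0, hf⟩ : ∃ (f : ℤ[X]) (b : ℤ), b ≠ 0 ∧ f.map (algebraMap ℤ ℚ) = (b : ℚ) • μ := by
    obtain ⟨b, hb, h⟩ := IsLocalization.integerNormalization_spec (nonZeroDivisors ℤ) μ
    exact ⟨_, b, nonZeroDivisors.ne_zero hb, by rw [h]; ext; simp⟩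
  obtain ⟨U, b₁, hb₁0, hU⟩ : ∃ (f : ℤ[X]) (b : ℤ), b ≠ 0 ∧
      f.map (algebraMap ℤ ℚ) = (b : ℚ) • u := by
    obtain ⟨b, hb, h⟩ := IsLocalization.integerNormalization_spec (nonZeroDivisors ℤ) u
    exact ⟨_, b, nonZeroDivisors.ne_zero hb, by rw [h]; ext; simp⟩
  obtain ⟨V, b₂, hb₂0, hV⟩ : ∃ (f : ℤ[X]) (b : ℤ), b ≠ 0 ∧
      f.map (algebraMap ℤ ℚ) = (b : ℚ) • v := by
    obtain ⟨b, hb, h⟩ := IsLocalization.integerNormalization_spec (nonZeroDivisors ℤ) v
    exact ⟨_, b, nonZeroDivisors.ne_zero hb, by rw [h]; ext; simp⟩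
  have hbez : C b₂ * U * f + C b₁ * V * derivative f = C (b * b₁ * b₂) := by
    apply Polynomial.map_injective (algebraMap ℤ ℚ) (algebraMap ℤ ℚ).injective_int
    simp only [Polynomial.map_add, Polynomial.map_mul, map_C, ← derivative_map, hf, hU, hV]
    simp only [algebraMap_int_eq, eq_intCast, derivative_smul]
    simp only [smul_eq_C_mul, Int.cast_mul, C_mul]
    linear_combination (C (b₂ : ℚ) * C (b₁ : ℚ) * C (b : ℚ)) * huv
  have hfdeg : 0 < f.natDegree := by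
    have h1 : (f.map (algebraMap ℤ ℚ)).natDegree = μ.natDegree := by
      rw [hf]
      exact natDegree_smul_of_smul_regular _ (IsSMulRegular.of_ne_zero (by exact_mod_cast hb0))
    rw [natDegree_map_eq_of_injective (algebraMap ℤ ℚ).injective_int] at h1
    rw [h1]
    exact minpoly.natDegree_pos (Algebra.IsIntegral.isIntegral pb.gen)
  choose Nf hNf using fun e : k => exists_bound_norm e
  obtain ⟨p, hpB, hp, r, hr⟩ := exists_root_mod f hfdeg
    (max B (max (E.sup Nf) (b * b₁ * b₂).natAbs))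
  have hB : B < p := lt_of_le_of_lt (le_max_left _ _) hpB
  have hE : E.sup Nf < p := lt_of_le_of_lt ((le_max_left _ _).trans (le_max_right _ _)) hpB
  have hD : (b * b₁ * b₂).natAbs < p :=
    lt_of_le_of_lt ((le_max_right _ _).trans (le_max_right _ _)) hpB
  have hfact : Fact p.Prime := ⟨hp⟩
  have hpD : ¬ (p : ℤ) ∣ b * b₁ * b₂ := by
    intro hd
    have h1 : p ∣ (b * b₁ * b₂).natAbs := Int.natCast_dvd.mp hd
    have h2 : (b * b₁ * b₂) ≠ 0 := mul_ne_zero (mul_ne_zero hb0 hb₁0) hb₂0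
    have := Nat.le_of_dvd (Int.natAbs_pos.mpr h2) h1
    omega
  have hderiv : ¬ (p : ℤ) ∣ (derivative f).eval r := by
    intro hd
    apply hpD
    have h1 := congrArg (Polynomial.eval r) hbez
    simp only [eval_add, eval_mul, eval_C] at h1
    rw [← h1]
    exact dvd_add (hr.mul_left _) (hd.mul_left _)
  have hn1 : ‖(aeval ((r : ℤ) : ℤ_[p])) f‖ < 1 := by
    have : (aeval ((r : ℤ) : ℤ_[p])) f = ((f.eval r : ℤ) : ℤ_[p]) := aeval_int r f
    rw [this]
    exact (PadicInt.norm_int_lt_one_iff_dvd _).mpr hr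
  have hn2 : ‖(aeval ((r : ℤ) : ℤ_[p])) (derivative f)‖ = 1 := by
    have : (aeval ((r : ℤ) : ℤ_[p])) (derivative f) = (((derivative f).eval r : ℤ) : ℤ_[p]) :=
      aeval_int r (derivative f)
    rw [this]
    apply le_antisymm (PadicInt.norm_le_one _)
    by_contra hlt
    push Not at hlt
    exact hderiv ((PadicInt.norm_int_lt_one_iff_dvd _).mp hlt)
  obtain ⟨z, hz, -⟩ := hensels_lemma (F := f) (a := ((r : ℤ) : ℤ_[p])) (by rw [hn2]; simpa using hn1)
  have hzμ : aeval ((z : ℤ_[p]) : ℚ_[p]) μ = 0 := by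
    have h1 : aeval ((z : ℤ_[p]) : ℚ_[p]) f = 0 := by
      have h2 := aeval_algebraMap_apply ℚ_[p] z f
      rw [hz, map_zero] at h2
      exact h2
    rw [← aeval_map_algebraMap ℚ, hf, map_smul, smul_eq_zero] at h1
    exact h1.resolve_left (by exact_mod_cast hb0)
  refine ⟨p, hfact, (pb.lift _ hzμ : k →ₐ[ℚ] ℚ_[p]).toRingHom, hB, fun e he => ?_⟩
  exact hNf e p hfact _ (lt_of_le_of_lt (Finset.le_sup he) hE)

end Pool.Agent.Work.MP_67f4ac_gt.SieveAux
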