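import Mathlib

set_option autoImplicit false

namespace Pool.Agent.Work.MP_67f4ac_gt.SieveAux

open MvPolynomial

theorem fin_of_top {F E : Type*} [Field F] [Field E] [Algebra F E]
    (h : FiniteDimensional F (⊤ : IntermediateField F E)) : FiniteDimensional F E :=
  Module.Finite.equiv (IntermediateField.topEquiv (F := F) (E := E)).toLinearEquiv

theorem exists_specialization (K : Type) [Field K] [CharZero K]
    (hK : (⊤ : IntermediateField ℚ K).FG) (E : Finset K) :
    ∃ (C : Subring K) (k : Type) (_ : Field k) (_ : Algebra ℚ k) (_ : FiniteDimensional ℚ k)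
      (_ : C →+* k), (∀ e ∈ E, e ∈ C) ∧ (∀ y : K, y ^ 2 ∈ C → y ∈ C) := by
  classical
  obtain ⟨G, hG⟩ := hK
  set A : Subalgebra ℚ K := Algebra.adjoin ℚ ((G ∪ E : Finset K) : Set K) with hA
  have hAfg : A.FG := ⟨G ∪ E, rfl⟩
  have hAft : Algebra.FiniteType ℚ A := A.fg_iff_finiteType.mp hAfg
  obtain ⟨s, g, hginj, hgint⟩ := exists_integral_inj_algHom_of_fg ℚ A
  let R₀ := MvPolynomial (Fin s) ℚ
  let ι : R₀ →+* K := (A.val : A →ₐ[ℚ] K).toRingHom.comp g.toRingHom
  let _ : Algebra R₀ K := ι.toAlgebra
  have hιinj : Function.Injective (algebraMap R₀ K) := by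
    intro x y hxy
    exact hginj (Subtype.ext hxy)
  have : FaithfulSMul R₀ K := (faithfulSMul_iff_algebraMap_injective R₀ K).mpr hιinj
  let _ : Algebra (FractionRing R₀) K := FractionRing.liftAlgebra R₀ K
  have : IsScalarTower R₀ (FractionRing R₀) K := FractionRing.isScalarTower_liftAlgebra R₀ K
  have hint : ∀ a ∈ A, IsIntegral R₀ a := by
    intro a ha
    have h1 : g.toRingHom.IsIntegralElem ⟨a, ha⟩ := hgint ⟨a, ha⟩
    obtain ⟨p, hp, hp0⟩ := h1
    refine ⟨p, hp, ?_⟩
    have h2 := congrArg (A.val : A →ₐ[ℚ] K).toRingHom hp0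
    rw [map_zero, Polynomial.hom_eval₂] at h2
    exact h2
  have hfin : FiniteDimensional (FractionRing R₀) K := by
    have h1 : FiniteDimensional (FractionRing R₀)
        (IntermediateField.adjoin (FractionRing R₀) (G : Set K)) := by
      apply IntermediateField.finiteDimensional_adjoin
      intro x hx
      have : IsIntegral R₀ x := hint x (Algebra.subset_adjoin (by simp [Finset.mem_coe.mp hx]))
      exact this.tower_top
    have h2 : IntermediateField.adjoin (FractionRing R₀) (G : Set K) = ⊤ := by
      rw [eq_top_iff]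
      intro x _
      have h3 : x ∈ IntermediateField.adjoin ℚ (G : Set K) := by rw [hG]; exact IntermediateField.mem_top
      have h4 : IntermediateField.adjoin ℚ (G : Set K) ≤
          (IntermediateField.adjoin (FractionRing R₀) (G : Set K)).restrictScalars ℚ := by
        rw [IntermediateField.adjoin_le_iff]
        intro y hy
        have h5 : y ∈ IntermediateField.adjoin (FractionRing R₀) (G : Set K) :=
          IntermediateField.subset_adjoin (FractionRing R₀) (G : Set K) hy
        exact h5
      exact h4 h3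
    rw [h2] at h1
    exact fin_of_top h1
  let C := integralClosure R₀ K
  have hCfin : Module.Finite R₀ C := IsIntegralClosure.finite R₀ (FractionRing R₀) K C
  let _ : Algebra ℚ C := ((algebraMap R₀ C).comp (algebraMap ℚ R₀)).toAlgebra
  have : IsScalarTower ℚ R₀ C := IsScalarTower.of_algebraMap_eq (fun _ => rfl)
  have hCft : Algebra.FiniteType ℚ C := Algebra.FiniteType.trans (S := R₀) inferInstance inferInstance
  obtain ⟨m, hm⟩ := Ideal.exists_maximal C
  let _ : Field (C ⧸ m) := Ideal.Quotient.field m
  have hkft : Algebra.FiniteType ℚ (C ⧸ m) := Algebra.FiniteType.trans (S := C) hCft inferInstance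
  have hkfin : Module.Finite ℚ (C ⧸ m) := finite_of_finite_type_of_isJacobsonRing ℚ (C ⧸ m)
  refine ⟨C.toSubring, C ⧸ m, inferInstance, inferInstance, hkfin, Ideal.Quotient.mk m, ?_, ?_⟩
  · intro e he
    exact hint e (Algebra.subset_adjoin (by simp [he]))
  · intro y hy
    exact IsIntegral.of_pow (n := 2) (by norm_num) hy

end Pool.Agent.Work.MP_67f4ac_gt.SieveAux
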