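import Mathlib
import Pool.Agent.Work.MP_67f4ac_gt.SieveCount
import Pool.Agent.Work.MP_67f4ac_gt.SieveBox
import Pool.Agent.Work.MP_67f4ac_gt.SievePadic
import Pool.Agent.Work.MP_67f4ac_gt.SieveSpec

set_option autoImplicit false

namespace Pool.Agent.Work.MP_67f4ac_gt

open Filter Topology

namespace SieveAux

theorem exists_good_prime (K : Type) [Field K] [CharZero K]
    (hK : (⊤ : IntermediateField ℚ K).FG) (E : Finset K) (B : ℕ) :
    ∃ (p : ℕ) (_ : Fact p.Prime) (R : Type) (_ : CommRing R) (j : R →+* K) (_ : R →+* ZMod p),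
      B < p ∧ Function.Injective j ∧ (∀ e ∈ E, ∃ r, j r = e) ∧
      (∀ y : K, (∃ r, j r = y ^ 2) → ∃ r, j r = y) := by
  classical
  obtain ⟨C, k, _, _, _, φ, hE, hsq⟩ := exists_specialization K hK E
  have hpad := exists_padic k (E.attach.image (fun e : {x // x ∈ E} => φ ⟨e.1, hE e.1 e.2⟩)) B
  obtain ⟨p, hp, σ, hB, hσ⟩ := hpad
  let C'' : Subring C := (PadicInt.subring p).comap (σ.comp φ)
  have hmem : ∀ x : C, x ∈ C'' ↔ ‖σ (φ x)‖ ≤ 1 := fun x => Iff.rfl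
  let ρ : C'' →+* ℤ_[p] :=
    ((σ.comp φ).comp C''.subtype).codRestrict (PadicInt.subring p) (fun x => x.2)
  refine ⟨p, hp, C'', inferInstance, C.subtype.comp C''.subtype, (PadicInt.toZMod).comp ρ, hB,
    ?_, ?_, ?_⟩
  · exact Subtype.val_injective.comp Subtype.val_injective
  · intro e he
    refine ⟨⟨⟨e, hE e he⟩, ?_⟩, rfl⟩
    rw [hmem]
    apply hσ
    rw [Finset.mem_image]
    exact ⟨⟨e, he⟩, Finset.mem_attach _ _, rfl⟩
  · rintro y ⟨r, hr⟩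
    have hr' : (r.1 : C).1 = y ^ 2 := hr
    have hyC : y ∈ C := hsq y (by rw [← hr']; exact r.1.2)
    refine ⟨⟨⟨y, hyC⟩, ?_⟩, rfl⟩
    rw [hmem]
    have h1 : (⟨y, hyC⟩ : C) ^ 2 = r.1 := by
      apply Subtype.ext
      rw [hr']
      rfl
    have h2 : ‖σ (φ (r.1))‖ ≤ 1 := (hmem _).mp r.2
    rw [← h1, map_pow, map_pow, norm_pow] at h2
    by_contra hlt
    push Not at hlt
    have : 1 < ‖σ (φ ⟨y, hyC⟩)‖ ^ 2 := one_lt_pow₀ hlt (by norm_num)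
    linarith

end SieveAux

open SieveAux in
/-- MODULE B1 -/
theorem sieve (K : Type) [Field K] [CharZero K] (hK : (⊤ : IntermediateField ℚ K).FG)
    (t t' c c' w w' : K) (hD : c * c' * (w - w') ≠ 0) (ε : ℝ) (hε : 0 < ε) :
    ∀ᶠ M : ℕ in atTop,
      (Set.ncard {p : ℤ × ℤ | |p.1| ≤ M ∧ |p.2| ≤ M ∧
        ∃ y : K, y ^ 2 = ((t + c * (p.1 + p.2 * w)) ^ 2 - 4) * ((t' + c' * (p.1 + p.2 * w')) ^ 2 - 4)} : ℝ)
        ≤ ε * (M : ℝ) ^ 2 := by
  classical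
  set S : Set (ℤ × ℤ) := {p : ℤ × ℤ | ∃ y : K, y ^ 2 =
    ((t + c * (p.1 + p.2 * w)) ^ 2 - 4) * ((t' + c' * (p.1 + p.2 * w')) ^ 2 - 4)} with hS
  let Good : ℕ → Prop := fun p => p.Prime ∧ ∃ Ω : Finset (ZMod p × ZMod p),
    4 * Ω.card ≤ 3 * p ^ 2 ∧ ∀ x ∈ S, (((x.1 : ℤ) : ZMod p), ((x.2 : ℤ) : ZMod p)) ∈ Ω
  have hgood : ∀ B : ℕ, ∃ p > B, Good p := by
    intro B
    obtain ⟨p, hp, R, _, j, ψ, hB, hinj, hE, hsq⟩ := exists_good_prime K hK
      {t, t', c, c', w, w', (c * c' * (w - w'))⁻¹} (max B 11)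
    have hBp : B < p := lt_of_le_of_lt (le_max_left _ _) hB
    have h11 : 11 ≤ p := (lt_of_le_of_lt (le_max_right _ _) hB).le
    obtain ⟨rt, hrt⟩ := hE t (by simp)
    obtain ⟨rt', hrt'⟩ := hE t' (by simp)
    obtain ⟨rc, hrc⟩ := hE c (by simp)
    obtain ⟨rc', hrc'⟩ := hE c' (by simp)
    obtain ⟨rw, hrw⟩ := hE w (by simp)
    obtain ⟨rw', hrw'⟩ := hE w' (by simp)
    obtain ⟨rD, hrD⟩ := hE (c * c' * (w - w'))⁻¹ (by simp)
    have hone : rc * rc' * (rw - rw') * rD = 1 := by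
      apply hinj
      simp only [map_mul, map_sub, map_one, hrc, hrc', hrw, hrw', hrD]
      exact mul_inv_cancel₀ hD
    have hψ : ψ rc * ψ rc' * (ψ rw - ψ rw') ≠ 0 := by
      intro h0
      have := congrArg ψ hone
      rw [map_mul, map_mul, map_mul, map_sub, map_one, h0, zero_mul] at this
      exact zero_ne_one this
    have hψc : ψ rc ≠ 0 := left_ne_zero_of_mul (left_ne_zero_of_mul hψ)
    have hψc' : ψ rc' ≠ 0 := right_ne_zero_of_mul (left_ne_zero_of_mul hψ)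
    have hψw : ψ rw - ψ rw' ≠ 0 := right_ne_zero_of_mul hψ
    refine ⟨p, hBp, hp.out, Finset.univ.filter (fun x : ZMod p × ZMod p =>
      IsSquare (((ψ rt + ψ rc * (x.1 + x.2 * ψ rw)) ^ 2 - 4) *
        ((ψ rt' + ψ rc' * (x.1 + x.2 * ψ rw')) ^ 2 - 4))), ?_, ?_⟩
    · refine le_trans ?_ (sq_count p h11)
      apply Nat.mul_le_mul_left
      refine Finset.card_le_card_of_injOn
        (fun x : ZMod p × ZMod p => (ψ rt + ψ rc * (x.1 + x.2 * ψ rw),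
          ψ rt' + ψ rc' * (x.1 + x.2 * ψ rw'))) ?_ ?_
      · intro x hx
        rw [Finset.mem_coe, Finset.mem_filter] at hx ⊢
        exact ⟨Finset.mem_univ _, hx.2⟩
      · intro x _ x' _ h
        simp only [Prod.mk.injEq, add_right_inj] at h
        have h1 := mul_left_cancel₀ hψc h.1
        have h2 := mul_left_cancel₀ hψc' h.2
        have h3 : (x.2 - x'.2) * (ψ rw - ψ rw') = 0 := by linear_combination h1 - h2
        have h4 : x.2 = x'.2 := sub_eq_zero.mp ((mul_eq_zero.mp h3).resolve_right hψw)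
        have h5 : x.1 = x'.1 := by rw [h4] at h1; exact add_right_cancel h1
        exact Prod.ext h5 h4
    · rintro x ⟨y, hy⟩
      rw [Finset.mem_filter]
      refine ⟨Finset.mem_univ _, ?_⟩
      have hj : j (((rt + rc * ((x.1 : R) + (x.2 : R) * rw)) ^ 2 - 4) *
          ((rt' + rc' * ((x.1 : R) + (x.2 : R) * rw')) ^ 2 - 4)) = y ^ 2 := by
        rw [hy]
        simp only [map_mul, map_sub, map_pow, map_add, map_intCast, map_ofNat, hrc, hrc', hrw, hrw',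
          hrt, hrt']
      obtain ⟨ry, hry⟩ := hsq y ⟨_, hj⟩
      have h1 : ry ^ 2 = ((rt + rc * ((x.1 : R) + (x.2 : R) * rw)) ^ 2 - 4) *
          ((rt' + rc' * ((x.1 : R) + (x.2 : R) * rw')) ^ 2 - 4) := by
        apply hinj
        rw [hj, map_pow, hry]
      refine ⟨ψ ry, ?_⟩
      rw [← sq, ← map_pow, h1]
      simp only [map_mul, map_sub, map_pow, map_add, map_intCast, map_ofNat]
  obtain ⟨φ, hφm, hφ⟩ := Nat.exists_strictMono_subsequence hgood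
  obtain ⟨k, hk⟩ : ∃ k : ℕ, (3 / 4 : ℝ) ^ k < ε / 9 :=
    exists_pow_lt_of_lt_one (by positivity) (by norm_num)
  set N : ℕ := ∏ i : Fin k, φ i with hN
  choose hpr Ω hΩ1 hΩ2 using hφ
  filter_upwards [eventually_ge_atTop N] with M hM
  have hbox := box_bound (fun i : Fin k => φ i) (fun i => hpr i)
    (fun i i' h => Fin.ext (hφm.injective h)) (fun i => Ω i) (fun i => hΩ1 i) S
    (fun x hx i => hΩ2 i x hx) M
  have hset : {p : ℤ × ℤ | |p.1| ≤ M ∧ |p.2| ≤ M ∧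
        ∃ y : K, y ^ 2 = ((t + c * (p.1 + p.2 * w)) ^ 2 - 4) *
          ((t' + c' * (p.1 + p.2 * w')) ^ 2 - 4)} =
      S ∩ {x | |x.1| ≤ (M : ℤ) ∧ |x.2| ≤ (M : ℤ)} := by
    ext x
    simp only [hS, Set.mem_inter_iff, Set.mem_setOf_eq]
    tauto
  rw [hset]
  refine hbox.trans ?_
  have hMN : (N : ℝ) ≤ M := by exact_mod_cast hM
  have h1 : (2 * (M : ℝ) + ((∏ i : Fin k, φ i : ℕ) : ℝ)) ^ 2 ≤ 9 * (M : ℝ) ^ 2 := by
    have h2 : 2 * (M : ℝ) + ((∏ i : Fin k, φ i : ℕ) : ℝ) ≤ 3 * M := by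
      have : ((∏ i : Fin k, φ i : ℕ) : ℝ) = (N : ℝ) := rfl
      rw [this]; linarith
    have h3 : 0 ≤ 2 * (M : ℝ) + ((∏ i : Fin k, φ i : ℕ) : ℝ) := by positivity
    calc (2 * (M : ℝ) + ((∏ i : Fin k, φ i : ℕ) : ℝ)) ^ 2 ≤ (3 * M) ^ 2 := pow_le_pow_left₀ h3 h2 2
      _ = 9 * (M : ℝ) ^ 2 := by ring
  calc (3 / 4 : ℝ) ^ k * (2 * (M : ℝ) + ((∏ i : Fin k, φ i : ℕ) : ℝ)) ^ 2
      ≤ (ε / 9) * (9 * (M : ℝ) ^ 2) := mul_le_mul hk.le h1 (by positivity) (by positivity)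
    _ = ε * (M : ℝ) ^ 2 := by ring

end Pool.Agent.Work.MP_67f4ac_gt
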