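import Mathlib

set_option autoImplicit false

namespace Pool.Agent.Work.MP_67f4ac_gt

open Filter Topology

/-- `SL₂(ℂ)` -/
abbrev SL2C := Matrix.SpecialLinearGroup (Fin 2) ℂ

/-- the translation `z ↦ z + w` -/
noncomputable def T (w : ℂ) : SL2C := ⟨!![1, w; 0, 1], by simp⟩

/-- the trace -/
noncomputable def tr (g : SL2C) : ℂ := g.1 0 0 + g.1 1 1

/-- `4 cosh ℓ` as a function of the trace -/
noncomputable def f (τ : ℂ) : ℝ := ‖τ‖ ^ 2 + ‖τ ^ 2 - 4‖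

/-- the growth condition: `liminf` of the number of distinct values is finite -/
def BoundedGrowth (G : Subgroup SL2C) : Prop :=
  ∃ C : ℝ, ∃ᶠ n : ℕ in atTop,
    {v : ℝ | v ≤ 4 * Real.cosh n ∧ ∃ g ∈ G, v = f (tr g)}.Finite ∧
    (({v : ℝ | v ≤ 4 * Real.cosh n ∧ ∃ g ∈ G, v = f (tr g)}.ncard : ℝ) ≤ C * Real.exp n)

/-- union of finitely many cosets `t i + c i (ℤ + ℤ ω)`, in the disc of radius `X` -/
def W {ι : Type} (ω : ℂ) (t c : ι → ℂ) (X : ℝ) : Set ℂ :=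
  {τ | ‖τ‖ ≤ X ∧ ∃ i, ∃ m n : ℤ, τ = t i + c i * (m + n * ω)}

/-- hyperbolic 3-space -/
abbrev H3 := {p : ℂ × ℝ // 0 < p.2}

/-- `2 cosh d - 2` -/
noncomputable def rho (x y : H3) : ℝ :=
  (‖x.1.1 - y.1.1‖ ^ 2 + (x.1.2 - y.1.2) ^ 2) / (x.1.2 * y.1.2)

/-- `γ` is an isometry -/
def IsIso (γ : Equiv.Perm H3) : Prop := ∀ x y : H3, rho (γ x) (γ y) = rho x y

end Pool.Agent.Work.MP_67f4ac_gt
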