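import Mathlib

set_option autoImplicit false
set_option linter.all false

namespace Pool.Agent.Work.MP_67f4ac_gt

/-- the homogenised Chebyshev sequence -/
def chebS {R : Type} [CommRing R] (a q : R) : ℕ → R
  | 0 => 0
  | 1 => 1
  | (n + 2) => a * chebS a q (n + 1) - q ^ 2 * chebS a q n

variable {R : Type} [CommRing R]

lemma chebS_succ_succ (a q : R) (n : ℕ) :
    chebS a q (n + 2) = a * chebS a q (n + 1) - q ^ 2 * chebS a q n := by rw [chebS]

lemma chebS_identity (a q : R) (n : ℕ) :
    q * chebS a q (n + 1) ^ 2 - a * chebS a q (n + 1) * (q * chebS a q n) + q * (q * chebS a q n) ^ 2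
      = q ^ (2 * n + 1) := by
  induction n with
  | zero => simp [chebS]
  | succ n ih =>
    have h : q ^ (2 * (n + 1) + 1) = q ^ 2 * q ^ (2 * n + 1) := by ring
    rw [h, ← ih, chebS_succ_succ]
    ring

variable [IsDomain R] [IsDedekindDomain R]

theorem pow_le_chebS (a q : R) (hq : q ≠ 0) (n : ℕ) :
    (Ideal.span {a, q}) ^ n ≤ Ideal.span {q * chebS a q n, chebS a q (n + 1)} := by
  set g : Ideal R := Ideal.span {a, q} with hg
  have hag : a ∈ g := Ideal.subset_span (by simp)
  have hqg : q ∈ g := Ideal.subset_span (by simp)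
  have hg0 : g ≠ 0 := by
    intro h
    rw [h] at hqg
    exact hq (by simpa using hqg)
  -- (i)
  have hi : ∀ n, chebS a q (n + 1) ∈ g ^ n ∧ q * chebS a q n ∈ g ^ n := by
    intro n
    induction n with
    | zero => simp
    | succ n ih =>
      constructor
      · have : chebS a q (n + 1 + 1) = a * chebS a q (n + 1) - q * (q * chebS a q n) := by
          rw [chebS_succ_succ]; ring
        rw [this, pow_succ']
        exact sub_mem (Ideal.mul_mem_mul hag ih.1) (Ideal.mul_mem_mul hqg ih.2)
      · rw [pow_succ']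
        exact Ideal.mul_mem_mul hqg ih.1
  set J : Ideal R := Ideal.span {q * chebS a q n, chebS a q (n + 1)} with hJ
  have hJle : J ≤ g ^ n := by
    rw [hJ, Ideal.span_le]
    intro x hx
    rcases hx with rfl | hx
    · exact (hi n).2
    · rw [Set.mem_singleton_iff] at hx; rw [hx]; exact (hi n).1
  obtain ⟨K, hK⟩ := Ideal.dvd_iff_le.mpr hJle
  -- (iv)
  obtain ⟨b', hb'⟩ := Ideal.dvd_iff_le.mpr ((Ideal.span_singleton_le_iff_mem g).mpr hqg)
  obtain ⟨a', ha'⟩ := Ideal.dvd_iff_le.mpr ((Ideal.span_singleton_le_iff_mem g).mpr hag)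
  have hab : a' ⊔ b' = ⊤ := by
    have h1 : g = g * (a' ⊔ b') := by
      rw [Ideal.mul_sup, ← ha', ← hb', hg, Ideal.span_insert]
    have h2 : g * 1 = g * (a' ⊔ b') := by rw [mul_one]; exact h1
    have := mul_left_cancel₀ hg0 h2
    rw [← this, Ideal.one_eq_top]
  -- (v)
  have hv : b' ^ (2 * n + 1) ≤ K ^ 2 := by
    have h1 : g ^ (2 * n + 1) * b' ^ (2 * n + 1) ≤ g ^ (2 * n + 1) * K ^ 2 := by
      rw [← mul_pow, ← hb', Ideal.span_singleton_pow, Ideal.span_singleton_le_iff_mem,
        ← chebS_identity a q n]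
      have e : g ^ (2 * n + 1) * K ^ 2 = g * J * J := by rw [hK]; ring
      rw [e]
      have hs : chebS a q (n + 1) ∈ J := Ideal.subset_span (by simp)
      have hs' : q * chebS a q n ∈ J := Ideal.subset_span (by simp)
      refine add_mem (sub_mem ?_ ?_) ?_
      · have : q * chebS a q (n + 1) ^ 2 = q * chebS a q (n + 1) * chebS a q (n + 1) := by ring
        rw [this]; exact Ideal.mul_mem_mul (Ideal.mul_mem_mul hqg hs) hs
      · exact Ideal.mul_mem_mul (Ideal.mul_mem_mul hag hs) hs'
      · have : q * (q * chebS a q n) ^ 2 = q * (q * chebS a q n) * (q * chebS a q n) := by ring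
        rw [this]; exact Ideal.mul_mem_mul (Ideal.mul_mem_mul hqg hs') hs'
    have h2 := Ideal.dvd_iff_le.mpr h1
    have h3 := (mul_dvd_mul_iff_left (pow_ne_zero (2 * n + 1) hg0)).mp h2
    exact Ideal.dvd_iff_le.mp h3
  -- (vi)
  have hKtop : K = ⊤ := by
    by_contra hKne
    obtain ⟨p, hp, hKp⟩ := Ideal.exists_le_maximal K hKne
    have hpp := hp.isPrime
    have hb'p : b' ≤ p := by
      apply Ideal.IsPrime.le_of_pow_le (n := 2 * n + 1)
      exact hv.trans ((Ideal.pow_le_self two_ne_zero).trans hKp)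
    have hdiff : ∀ n, chebS a q (n + 1) - a ^ n ∈ g ^ n * b' := by
      intro n
      induction n with
      | zero => simp [chebS]
      | succ n ih =>
        have : chebS a q (n + 1 + 1) - a ^ (n + 1) =
            a * (chebS a q (n + 1) - a ^ n) - q * (q * chebS a q n) := by
          rw [chebS_succ_succ]; ring
        rw [this]
        refine sub_mem ?_ ?_
        · rw [pow_succ', mul_assoc]
          exact Ideal.mul_mem_mul hag ih
        · have e : g ^ (n + 1) * b' = (g * b') * g ^ n := by ring
          rw [e, ← hb']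
          exact Ideal.mul_mem_mul (Ideal.mem_span_singleton_self q) (hi n).2
    have han : a ^ n ∈ g ^ n * p := by
      have h1 : a ^ n = chebS a q (n + 1) - (chebS a q (n + 1) - a ^ n) := by ring
      rw [h1]
      refine sub_mem ?_ ?_
      · have : chebS a q (n + 1) ∈ J := Ideal.subset_span (by simp)
        rw [hK] at this
        exact Ideal.mul_mono_right hKp this
      · exact Ideal.mul_mono_right hb'p (hdiff n)
    have ha'p : a' ≤ p := by
      apply Ideal.IsPrime.le_of_pow_le (n := n)
      have h1 : g ^ n * a' ^ n ≤ g ^ n * p := by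
        rw [← mul_pow, ← ha', Ideal.span_singleton_pow, Ideal.span_singleton_le_iff_mem]
        exact han
      have h2 := Ideal.dvd_iff_le.mpr h1
      have h3 := (mul_dvd_mul_iff_left (pow_ne_zero n hg0)).mp h2
      exact Ideal.dvd_iff_le.mp h3
    have : (⊤ : Ideal R) ≤ p := by rw [← hab]; exact sup_le ha'p hb'p
    exact hp.ne_top (top_le_iff.mp this)
  rw [hK, hKtop, Ideal.mul_top]

end Pool.Agent.Work.MP_67f4ac_gt
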