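import Mathlib

set_option autoImplicit false

namespace Pool.Agent.Work.MP_67f4ac_gt

open NumberField IsDedekindDomain

variable {K : Type} [Field K] [NumberField K]

/-- the classes modulo `P₀` of the coset `x + I` -/
def cosetMod (P₀ : Ideal (𝓞 K)) (x : 𝓞 K) (I : Ideal (𝓞 K)) : Set (𝓞 K ⧸ P₀) :=
  {u | ∃ y, y - x ∈ I ∧ Ideal.Quotient.mk P₀ y = u}

lemma cosetMod_eq_fiber {P₀ I : Ideal (𝓞 K)} (h : P₀ ≤ I) (x : 𝓞 K) :
    cosetMod P₀ x I = (Ideal.Quotient.factor h) ⁻¹' {Ideal.Quotient.mk I x} := by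
  ext u
  simp only [cosetMod, Set.mem_setOf_eq, Set.mem_preimage, Set.mem_singleton_iff]
  constructor
  · rintro ⟨y, hy, rfl⟩
    rw [Ideal.Quotient.factor_mk]
    exact Ideal.Quotient.eq.mpr hy
  · intro hu
    obtain ⟨y, rfl⟩ := Ideal.Quotient.mk_surjective u
    rw [Ideal.Quotient.factor_mk] at hu
    exact ⟨y, Ideal.Quotient.eq.mp hu, rfl⟩

lemma card_cosetMod {P₀ I : Ideal (𝓞 K)} (hP : P₀ ≠ ⊥) (h : P₀ ≤ I) (x : 𝓞 K) :
    (cosetMod P₀ x I).ncard * Ideal.absNorm I = Ideal.absNorm P₀ := by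
  have hI : I ≠ ⊥ := fun hI => hP (le_bot_iff.mp (hI ▸ h))
  haveI : Finite (𝓞 K ⧸ P₀) := Ideal.finiteQuotientOfFreeOfNeBot P₀ hP
  haveI : Finite (𝓞 K ⧸ I) := Ideal.finiteQuotientOfFreeOfNeBot I hI
  have hsurj : Function.Surjective (Ideal.Quotient.factor h) := Ideal.Quotient.factor_surjective h
  -- every fiber has the cardinality of the kernel
  have hfib : ∀ z : 𝓞 K ⧸ I, ((Ideal.Quotient.factor h) ⁻¹' {z}).ncard =
      ((Ideal.Quotient.factor h) ⁻¹' {Ideal.Quotient.mk I x}).ncard := by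
    intro z
    obtain ⟨a, ha⟩ := hsurj z
    obtain ⟨b, hb⟩ := hsurj (Ideal.Quotient.mk I x)
    have : ((Ideal.Quotient.factor h) ⁻¹' {z}) =
        (fun w => w + (a - b)) '' ((Ideal.Quotient.factor h) ⁻¹' {Ideal.Quotient.mk I x}) := by
      ext w
      simp only [Set.mem_preimage, Set.mem_singleton_iff, Set.mem_image]
      constructor
      · intro hw
        refine ⟨w - (a - b), ?_, by ring⟩
        rw [map_sub, map_sub, hw, ha, hb]; ring
      · rintro ⟨v, hv, rfl⟩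
        rw [map_add, map_sub, hv, ha, hb]; ring
    rw [this]
    exact Set.ncard_image_of_injective _ (add_left_injective _)
  rw [cosetMod_eq_fiber h]
  have h1 : Nat.card (𝓞 K ⧸ P₀) = ∑ᶠ z : 𝓞 K ⧸ I, ((Ideal.Quotient.factor h) ⁻¹' {z}).ncard := by
    classical
    haveI := Fintype.ofFinite (𝓞 K ⧸ P₀)
    haveI := Fintype.ofFinite (𝓞 K ⧸ I)
    rw [finsum_eq_sum_of_fintype, Nat.card_eq_fintype_card, ← Finset.card_univ,
      Finset.card_eq_sum_card_fiberwise (f := Ideal.Quotient.factor h) (t := Finset.univ)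
        (fun _ _ => Finset.mem_univ _)]
    refine Finset.sum_congr rfl fun z _ => ?_
    rw [← Set.ncard_coe_finset]
    congr 1
    ext w; simp
  have h2 : Ideal.absNorm P₀ = Nat.card (𝓞 K ⧸ P₀) := by
    rw [Ideal.absNorm_apply, Submodule.cardQuot_apply]
  have h3 : Ideal.absNorm I = Nat.card (𝓞 K ⧸ I) := by
    rw [Ideal.absNorm_apply, Submodule.cardQuot_apply]
  rw [h2, h1]
  simp_rw [hfib]
  haveI := Fintype.ofFinite (𝓞 K ⧸ I)
  rw [finsum_eq_sum_of_fintype, Finset.sum_const, Finset.card_univ, h3, Nat.card_eq_fintype_card,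
    smul_eq_mul, mul_comm]

lemma card_cosetMod_inter_le {P₀ I J M : Ideal (𝓞 K)} (hP : P₀ ≠ ⊥) (hI : P₀ ≤ I) (hJ : P₀ ≤ J)
    (hIJ : I ⊓ J ≤ M) (x y : 𝓞 K) :
    (cosetMod P₀ x I ∩ cosetMod P₀ y J).ncard * Ideal.absNorm M ≤ Ideal.absNorm P₀ := by
  haveI : Finite (𝓞 K ⧸ P₀) := Ideal.finiteQuotientOfFreeOfNeBot P₀ hP
  rcases Set.eq_empty_or_nonempty (cosetMod P₀ x I ∩ cosetMod P₀ y J) with h | ⟨u, ⟨z, hz, hzu⟩, z', hz', hzu'⟩
  · rw [h]; simp
  · have hzz : z - z' ∈ P₀ := Ideal.Quotient.eq.mp (hzu.trans hzu'.symm)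
    have hsub : cosetMod P₀ x I ∩ cosetMod P₀ y J ⊆ cosetMod P₀ z M := by
      rintro v ⟨⟨a, ha, hav⟩, b, hb, hbv⟩
      have hab : a - b ∈ P₀ := Ideal.Quotient.eq.mp (hav.trans hbv.symm)
      refine ⟨a, hIJ ⟨?_, ?_⟩, hav⟩
      · have : a - z = (a - x) - (z - x) := by ring
        rw [this]; exact I.sub_mem ha hz
      · have : a - z = ((a - b) + (b - y)) - ((z' - y) + (z - z')) := by ring
        rw [this]
        exact J.sub_mem (J.add_mem (hJ hab) hb) (J.add_mem hz' (hJ hzz))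
    have hM : P₀ ≤ M := (le_inf hI hJ).trans hIJ
    calc (cosetMod P₀ x I ∩ cosetMod P₀ y J).ncard * Ideal.absNorm M
        ≤ (cosetMod P₀ z M).ncard * Ideal.absNorm M :=
          Nat.mul_le_mul_right _ (Set.ncard_le_ncard hsub (Set.toFinite _))
      _ = Ideal.absNorm P₀ := card_cosetMod hP hM z

end Pool.Agent.Work.MP_67f4ac_gt
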