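import Mathlib
import Pool.Agent.Work.MP_67f4ac_gt.IdealCount

set_option autoImplicit false
set_option linter.all false

namespace Pool.Agent.Work.MP_67f4ac_gt

open NumberField IsDedekindDomain

/-- second moment lower bound for a union -/
lemma sq_sum_card_le {α ι : Type} [Fintype α] [DecidableEq α] (s : Finset ι) (V : ι → Finset α) :
    (∑ i ∈ s, ((V i).card : ℝ)) ^ 2 ≤
      ((s.biUnion V).card : ℝ) * ∑ i ∈ s, ∑ j ∈ s, ((V i ∩ V j).card : ℝ) := by
  classical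
  -- r x = number of i with x ∈ V i
  set U := s.biUnion V with hU
  let r : α → ℝ := fun x => ∑ i ∈ s, if x ∈ V i then (1 : ℝ) else 0
  have h1 : ∑ i ∈ s, ((V i).card : ℝ) = ∑ x ∈ U, r x := by
    simp only [r]
    rw [Finset.sum_comm]
    refine Finset.sum_congr rfl fun i hi => ?_
    rw [← Finset.sum_filter, Finset.sum_const, nsmul_eq_mul, mul_one]
    congr 2
    ext x
    simp only [Finset.mem_filter]
    exact ⟨fun hx => ⟨Finset.mem_biUnion.mpr ⟨i, hi, hx⟩, hx⟩, fun hx => hx.2⟩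
  have h2 : ∑ x ∈ U, r x ^ 2 = ∑ i ∈ s, ∑ j ∈ s, ((V i ∩ V j).card : ℝ) := by
    have : ∀ x, r x ^ 2 = ∑ i ∈ s, ∑ j ∈ s, if x ∈ V i ∩ V j then (1 : ℝ) else 0 := by
      intro x
      simp only [r]
      rw [sq, Finset.sum_mul_sum]
      refine Finset.sum_congr rfl fun i _ => Finset.sum_congr rfl fun j _ => ?_
      by_cases hi : x ∈ V i <;> by_cases hj : x ∈ V j <;> simp [hi, hj]
    simp_rw [this]
    rw [Finset.sum_comm]
    refine Finset.sum_congr rfl fun i hi => ?_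
    rw [Finset.sum_comm]
    refine Finset.sum_congr rfl fun j hj => ?_
    rw [← Finset.sum_filter, Finset.sum_const, nsmul_eq_mul, mul_one]
    congr 2
    ext x
    simp only [Finset.mem_filter]
    exact ⟨fun hx => hx.2, fun hx => ⟨Finset.mem_biUnion.mpr ⟨i, hi, (Finset.mem_inter.mp hx).1⟩, hx⟩⟩
  rw [h1, ← h2]
  have h3 := Finset.sum_mul_sq_le_sq_mul_sq U (fun _ => (1 : ℝ)) r
  simpa using h3

variable {K : Type} [Field K] [NumberField K]

/-- reciprocal norm of a prime -/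
noncomputable def rn (v : HeightOneSpectrum (𝓞 K)) : ℝ := 1 / (Ideal.absNorm v.asIdeal : ℝ)

lemma absNorm_pos_of_ne_bot {I : Ideal (𝓞 K)} (hI : I ≠ ⊥) : 0 < Ideal.absNorm I :=
  Nat.pos_of_ne_zero fun h => hI (Ideal.absNorm_eq_zero_iff.mp h)

lemma rn_pos (v : HeightOneSpectrum (𝓞 K)) : 0 < rn v := by
  unfold rn
  have := absNorm_pos_of_ne_bot v.ne_bot
  positivity

lemma one_lt_absNorm (v : HeightOneSpectrum (𝓞 K)) : 1 < Ideal.absNorm v.asIdeal := by
  have h0 := absNorm_pos_of_ne_bot v.ne_bot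
  have h1 : Ideal.absNorm v.asIdeal ≠ 1 := fun h => v.isPrime.ne_top (Ideal.absNorm_eq_one_iff.mp h)
  omega

lemma rn_le_one (v : HeightOneSpectrum (𝓞 K)) : rn v ≤ 1 := by
  unfold rn
  have h1 : (1 : ℝ) ≤ Ideal.absNorm v.asIdeal := by exact_mod_cast (one_lt_absNorm v).le
  rw [div_le_one (by linarith)]
  exact h1

/-- coprimality of two families of primes -/
lemma prod_inf_ge {r : ℕ} (q q' : Fin r → HeightOneSpectrum (𝓞 K))
    (hd : ∀ i j, i ≠ j → q i ≠ q j ∧ q i ≠ q' j ∧ q' i ≠ q j ∧ q' i ≠ q' j) (g : Ideal (𝓞 K)) (hg : g ≠ ⊥) :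
    (g * ∏ i, (q i).asIdeal) ⊓ (g * ∏ i, (q' i).asIdeal) ≤ g * ∏ i, ((q i).asIdeal ⊓ (q' i).asIdeal) := by
  classical
  intro x hx
  obtain ⟨hx1, hx2⟩ := Submodule.mem_inf.mp hx
  -- span x = g * X
  have hle : g * ∏ i, (q i).asIdeal ≤ g := Ideal.mul_le_left
  have hxg : Ideal.span {x} ≤ g := by
    rw [Ideal.span_singleton_le_iff_mem]; exact hle hx1
  obtain ⟨X, hX⟩ := Ideal.dvd_iff_le.mpr hxg
  have h1 : X ≤ ∏ i, (q i).asIdeal := by
    have : g * X ≤ g * ∏ i, (q i).asIdeal := by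
      rw [← hX, Ideal.span_singleton_le_iff_mem]; exact hx1
    rw [← Ideal.dvd_iff_le] at this ⊢
    exact (mul_dvd_mul_iff_left hg).mp this
  have h2 : X ≤ ∏ i, (q' i).asIdeal := by
    have : g * X ≤ g * ∏ i, (q' i).asIdeal := by
      rw [← hX, Ideal.span_singleton_le_iff_mem]; exact hx2
    rw [← Ideal.dvd_iff_le] at this ⊢
    exact (mul_dvd_mul_iff_left hg).mp this
  have hcop : ∀ v w : HeightOneSpectrum (𝓞 K), v ≠ w → IsCoprime v.asIdeal w.asIdeal := by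
    intro v w hvw
    rw [Ideal.isCoprime_iff_sup_eq]
    haveI := v.isMaximal
    haveI := w.isMaximal
    exact Ideal.IsMaximal.coprime_of_ne v.isMaximal w.isMaximal (fun h => hvw (HeightOneSpectrum.ext h))
  have h3 : X ≤ ∏ i, ((q i).asIdeal ⊓ (q' i).asIdeal) := by
    rw [← Ideal.dvd_iff_le]
    refine Finset.prod_dvd_of_coprime ?_ ?_
    · intro i _ j _ hij
      obtain ⟨a, b, c, d⟩ := hd i j hij
      have key : IsCoprime ((q i).asIdeal * (q' i).asIdeal) ((q j).asIdeal * (q' j).asIdeal) :=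
        IsCoprime.mul_left ((hcop _ _ a).mul_right (hcop _ _ b)) ((hcop _ _ c).mul_right (hcop _ _ d))
      rw [Function.onFun]
      rw [Ideal.isCoprime_iff_sup_eq] at key ⊢
      rw [eq_top_iff] at key ⊢
      exact key.trans (sup_le_sup Ideal.mul_le_inf Ideal.mul_le_inf)
    · intro i _
      rw [Ideal.dvd_iff_le]
      refine le_inf ?_ ?_
      · refine h1.trans ?_
        rw [← Ideal.dvd_iff_le]
        exact Finset.dvd_prod_of_mem _ (Finset.mem_univ i)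
      · refine h2.trans ?_
        rw [← Ideal.dvd_iff_le]
        exact Finset.dvd_prod_of_mem (fun i => (q' i).asIdeal) (Finset.mem_univ i)
  have h4 : g * X ≤ g * ∏ i, ((q i).asIdeal ⊓ (q' i).asIdeal) := Ideal.mul_mono_right h3
  rw [← hX, Ideal.span_singleton_le_iff_mem] at h4
  exact h4

/-- reciprocal norm of the intersection of two primes -/
noncomputable def rn2 (v w : HeightOneSpectrum (𝓞 K)) : ℝ := 1 / (Ideal.absNorm (v.asIdeal ⊓ w.asIdeal) : ℝ)

lemma rn2_self (v : HeightOneSpectrum (𝓞 K)) : rn2 v v = rn v := by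
  unfold rn2 rn; rw [inf_idem]

lemma rn2_ne {v w : HeightOneSpectrum (𝓞 K)} (h : v ≠ w) : rn2 v w = rn v * rn w := by
  have hc : IsCoprime v.asIdeal w.asIdeal := by
    rw [Ideal.isCoprime_iff_sup_eq]
    exact Ideal.IsMaximal.coprime_of_ne v.isMaximal w.isMaximal (fun h' => h (HeightOneSpectrum.ext h'))
  unfold rn2 rn
  rw [← Ideal.mul_eq_inf_of_isCoprime hc, map_mul]
  push_cast
  rw [one_div_mul_one_div]

lemma sum_rn2_le (Q : Finset (HeightOneSpectrum (𝓞 K))) :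
    ∑ v ∈ Q, ∑ w ∈ Q, rn2 v w ≤ (∑ v ∈ Q, rn v) ^ 2 + ∑ v ∈ Q, rn v := by
  classical
  have h1 : ∀ v ∈ Q, ∑ w ∈ Q, rn2 v w ≤ rn v * (∑ w ∈ Q, rn w) + rn v := by
    intro v hv
    rw [Finset.mul_sum, ← Finset.sum_erase_add Q (fun w => rn2 v w) hv,
      ← Finset.sum_erase_add Q (fun w => rn v * rn w) hv, rn2_self]
    have h2 : ∑ w ∈ Q.erase v, rn2 v w = ∑ w ∈ Q.erase v, rn v * rn w :=
      Finset.sum_congr rfl fun w hw => rn2_ne (Finset.ne_of_mem_erase hw).symm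
    rw [h2]
    have := mul_pos (rn_pos v) (rn_pos v)
    linarith
  calc ∑ v ∈ Q, ∑ w ∈ Q, rn2 v w ≤ ∑ v ∈ Q, (rn v * (∑ w ∈ Q, rn w) + rn v) := Finset.sum_le_sum h1
    _ = (∑ v ∈ Q, rn v) ^ 2 + ∑ v ∈ Q, rn v := by
        rw [Finset.sum_add_distrib, ← Finset.sum_mul, sq]

end Pool.Agent.Work.MP_67f4ac_gt

namespace Pool.Agent.Work.MP_67f4ac_gt

open NumberField IsDedekindDomain

variable {K : Type} [Field K] [NumberField K]

lemma prod_ratio_ge {r : ℕ} (S : Fin r → ℝ) (hS : ∀ i, 2 * (r : ℝ) ≤ S i) (hS1 : ∀ i, 0 < S i) :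
    ∏ i, (S i ^ 2 + S i) ≤ 2 * ∏ i, S i ^ 2 := by
  rcases Nat.eq_zero_or_pos r with h0 | hr
  · subst h0; simp
  have hr' : (0 : ℝ) < r := by exact_mod_cast hr
  -- each factor: S²+S ≤ S² (1 + 1/(2r))
  have h1 : ∀ i, S i ^ 2 + S i ≤ S i ^ 2 * (1 + 1 / (2 * r)) := by
    intro i
    have := hS i
    have h2 := hS1 i
    have : S i ≤ S i ^ 2 * (1 / (2 * r)) := by
      rw [mul_one_div, le_div_iff₀ (by positivity)]
      nlinarith
    linarith
  have h2 : ∏ i, (S i ^ 2 + S i) ≤ ∏ i, (S i ^ 2 * (1 + 1 / (2 * r))) :=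
    Finset.prod_le_prod (fun i _ => by have := hS1 i; positivity) (fun i _ => h1 i)
  rw [Finset.prod_mul_distrib, Finset.prod_const, Finset.card_univ, Fintype.card_fin] at h2
  have h3 : (1 + 1 / (2 * (r : ℝ))) ^ r ≤ 2 := by
    have h4 : 1 + 1 / (2 * (r : ℝ)) ≤ Real.exp (1 / (2 * r)) := by
      have := Real.add_one_le_exp (1 / (2 * (r : ℝ)))
      linarith
    calc (1 + 1 / (2 * (r : ℝ))) ^ r ≤ (Real.exp (1 / (2 * r))) ^ r :=
          pow_le_pow_left₀ (by positivity) h4 r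
      _ = Real.exp (1 / 2) := by
          rw [← Real.exp_nat_mul]; congr 1; field_simp
      _ ≤ 2 := by
          have h5 : Real.exp (1 / 2) ^ 2 ≤ 2 ^ 2 := by
            rw [← Real.exp_nat_mul]
            have := Real.exp_one_lt_d9
            norm_num
            linarith
          exact le_of_sq_le_sq h5 (by norm_num)
  have h5 : 0 ≤ ∏ i, S i ^ 2 := Finset.prod_nonneg fun i _ => sq_nonneg _
  nlinarith

/-- second moment method for products of primes -/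
theorem union_cosets_ge {r : ℕ} (Q : Fin r → Finset (HeightOneSpectrum (𝓞 K)))
    (hdisj : ∀ i j, i ≠ j → Disjoint (Q i) (Q j))
    (hS : ∀ i, 2 * (r : ℝ) ≤ ∑ v ∈ Q i, rn v) (hne : ∀ i, (Q i).Nonempty)
    (g : Ideal (𝓞 K)) (hg : g ≠ ⊥)
    (y : (Fin r → HeightOneSpectrum (𝓞 K)) → 𝓞 K) (x : (Fin r → HeightOneSpectrum (𝓞 K)) → 𝓞 K)
    (hy : ∀ q ∈ Fintype.piFinset Q, Ideal.span {y q} = g * ∏ i, (q i).asIdeal)
    (P₀ : Ideal (𝓞 K)) (hP : P₀ ≠ ⊥) (hPy : ∀ q ∈ Fintype.piFinset Q, P₀ ≤ Ideal.span {y q}) :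
    (Ideal.absNorm P₀ : ℝ) ≤ 2 * Ideal.absNorm g *
      (⋃ q ∈ Fintype.piFinset Q, cosetMod P₀ (x q) (Ideal.span {y q})).ncard := by
  classical
  haveI : Finite (𝓞 K ⧸ P₀) := Ideal.finiteQuotientOfFreeOfNeBot P₀ hP
  haveI := Fintype.ofFinite (𝓞 K ⧸ P₀)
  set N : ℝ := ((Ideal.absNorm P₀ : ℕ) : ℝ) with hN
  have hNpos : 0 < N := by
    rw [hN]; exact_mod_cast absNorm_pos_of_ne_bot hP
  set G : ℝ := ((Ideal.absNorm g : ℕ) : ℝ) with hG
  have hGpos : 0 < G := by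
    rw [hG]; exact_mod_cast absNorm_pos_of_ne_bot hg
  let V : (Fin r → HeightOneSpectrum (𝓞 K)) → Finset (𝓞 K ⧸ P₀) := fun q =>
    (cosetMod P₀ (x q) (Ideal.span {y q})).toFinset
  set s := Fintype.piFinset Q with hs
  -- first moment
  have hcard : ∀ q ∈ s, ((V q).card : ℝ) = N / G * ∏ i, rn (q i) := by
    intro q hq
    have h1 := card_cosetMod hP (hPy q hq) (x q)
    rw [hy q hq, map_mul, map_prod] at h1
    have h2 : ((cosetMod P₀ (x q) (Ideal.span {y q})).ncard : ℝ) = (V q).card := by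
      rw [Set.ncard_eq_toFinset_card']
    have h3 : ((V q).card : ℝ) * (G * ∏ i, (Ideal.absNorm (q i).asIdeal : ℝ)) = N := by
      rw [← h2, hG, hN, ← h1, hy q hq]; push_cast; ring
    have h4 : ∏ i, (Ideal.absNorm (q i).asIdeal : ℝ) ≠ 0 :=
      Finset.prod_ne_zero_iff.mpr fun i _ => by
        have := absNorm_pos_of_ne_bot (q i).ne_bot
        positivity
    have h5 : ∏ i, rn (q i) = (∏ i, (Ideal.absNorm (q i).asIdeal : ℝ))⁻¹ := by
      unfold rn
      rw [← Finset.prod_inv_distrib]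
      exact Finset.prod_congr rfl fun i _ => one_div _
    rw [h5, ← h3]
    field_simp
  have hfirst : ∑ q ∈ s, ((V q).card : ℝ) = N / G * ∏ i, ∑ v ∈ Q i, rn v := by
    rw [Finset.sum_congr rfl hcard, ← Finset.mul_sum, Finset.prod_univ_sum]
  -- second moment
  have hpair : ∀ q ∈ s, ∀ q' ∈ s, ((V q ∩ V q').card : ℝ) ≤ N / G * ∏ i, rn2 (q i) (q' i) := by
    intro q hq q' hq'
    set M : Ideal (𝓞 K) := g * ∏ i, ((q i).asIdeal ⊓ (q' i).asIdeal) with hM
    have hle : Ideal.span {y q} ⊓ Ideal.span {y q'} ≤ M := by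
      rw [hy q hq, hy q' hq']
      refine prod_inf_ge q q' ?_ g hg
      intro i j hij
      have e1 := Fintype.mem_piFinset.mp hq
      have e2 := Fintype.mem_piFinset.mp hq'
      have hd := hdisj i j hij
      refine ⟨?_, ?_, ?_, ?_⟩
      · intro h; exact Finset.disjoint_left.mp hd (e1 i) (h ▸ e1 j)
      · intro h; exact Finset.disjoint_left.mp hd (e1 i) (h ▸ e2 j)
      · intro h; exact Finset.disjoint_left.mp hd (e2 i) (h ▸ e1 j)
      · intro h; exact Finset.disjoint_left.mp hd (e2 i) (h ▸ e2 j)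
    have h1 := card_cosetMod_inter_le hP (hPy q hq) (hPy q' hq') hle (x q) (x q')
    have h2 : ((cosetMod P₀ (x q) (Ideal.span {y q}) ∩ cosetMod P₀ (x q') (Ideal.span {y q'})).ncard : ℝ)
        = (V q ∩ V q').card := by
      rw [Set.ncard_eq_toFinset_card', Set.toFinset_inter]
    rw [hM, map_mul, map_prod] at h1
    have h3 : ((V q ∩ V q').card : ℝ) *
        (G * ∏ i, (Ideal.absNorm ((q i).asIdeal ⊓ (q' i).asIdeal) : ℝ)) ≤ N := by
      rw [← h2, hG, hN]; exact_mod_cast h1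
    have h4 : 0 < ∏ i, (Ideal.absNorm ((q i).asIdeal ⊓ (q' i).asIdeal) : ℝ) := by
      refine Finset.prod_pos fun i _ => ?_
      have : (q i).asIdeal ⊓ (q' i).asIdeal ≠ ⊥ := by
        intro h
        have h5 : (q i).asIdeal * (q' i).asIdeal ≤ ⊥ := h ▸ Ideal.mul_le_inf
        rw [le_bot_iff, Ideal.mul_eq_bot] at h5
        exact h5.elim (q i).ne_bot (q' i).ne_bot
      exact_mod_cast absNorm_pos_of_ne_bot this
    have h5 : ∏ i, rn2 (q i) (q' i) =
        (∏ i, (Ideal.absNorm ((q i).asIdeal ⊓ (q' i).asIdeal) : ℝ))⁻¹ := by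
      unfold rn2
      rw [← Finset.prod_inv_distrib]
      exact Finset.prod_congr rfl fun i _ => one_div _
    rw [h5]
    rw [div_mul_eq_mul_div, le_div_iff₀ hGpos, ← div_eq_mul_inv, le_div_iff₀ h4]
    linarith
  have hsecond : ∑ q ∈ s, ∑ q' ∈ s, ((V q ∩ V q').card : ℝ) ≤
      N / G * ∏ i, ((∑ v ∈ Q i, rn v) ^ 2 + ∑ v ∈ Q i, rn v) := by
    calc ∑ q ∈ s, ∑ q' ∈ s, ((V q ∩ V q').card : ℝ)
        ≤ ∑ q ∈ s, ∑ q' ∈ s, N / G * ∏ i, rn2 (q i) (q' i) :=
          Finset.sum_le_sum fun q hq => Finset.sum_le_sum fun q' hq' => hpair q hq q' hq'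
      _ = N / G * ∑ q ∈ s, ∏ i, ∑ w ∈ Q i, rn2 (q i) w := by
          rw [Finset.mul_sum]
          refine Finset.sum_congr rfl fun q _ => ?_
          rw [← Finset.mul_sum, Finset.prod_univ_sum]
      _ = N / G * ∏ i, ∑ v ∈ Q i, ∑ w ∈ Q i, rn2 v w := by
          rw [Finset.prod_univ_sum]
      _ ≤ N / G * ∏ i, ((∑ v ∈ Q i, rn v) ^ 2 + ∑ v ∈ Q i, rn v) := by
          apply mul_le_mul_of_nonneg_left _ (by positivity)
          refine Finset.prod_le_prod (fun i _ => ?_) (fun i _ => sum_rn2_le _)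
          refine Finset.sum_nonneg fun v _ => Finset.sum_nonneg fun w _ => ?_
          unfold rn2; positivity
  have hSpos : ∀ i, 0 < ∑ v ∈ Q i, rn v := fun i => Finset.sum_pos (fun v _ => rn_pos v) (hne i)
  have hprod := prod_ratio_ge (fun i => ∑ v ∈ Q i, rn v) hS hSpos
  have hcs := sq_sum_card_le s V
  have hU : ((s.biUnion V).card : ℝ) =
      ((⋃ q ∈ s, cosetMod P₀ (x q) (Ideal.span {y q})).ncard : ℝ) := by
    rw [← Set.ncard_coe_finset]
    congr 2
    ext u; simp [V]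
  rw [← hU]
  set U : ℝ := ((s.biUnion V).card : ℝ) with hUdef
  have hU0 : 0 ≤ U := Nat.cast_nonneg _
  rw [hfirst] at hcs
  set A : ℝ := ∏ i, ∑ v ∈ Q i, rn v with hA
  have hApos : 0 < A := Finset.prod_pos fun i _ => hSpos i
  have hA2 : ∏ i, (∑ v ∈ Q i, rn v) ^ 2 = A ^ 2 := by rw [hA, Finset.prod_pow]
  rw [hA2] at hprod
  have h6 : (N / G * A) ^ 2 ≤ U * (N / G * (2 * A ^ 2)) := by
    refine hcs.trans ?_
    apply mul_le_mul_of_nonneg_left _ hU0
    refine hsecond.trans ?_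
    exact mul_le_mul_of_nonneg_left hprod (by positivity)
  have h7 : N / G ≤ 2 * U := by
    have h8 : 0 < N / G * A ^ 2 := by positivity
    have h9 : (N / G) * (N / G * A ^ 2) ≤ (2 * U) * (N / G * A ^ 2) := by nlinarith
    exact le_of_mul_le_mul_right h9 h8
  rw [div_le_iff₀ hGpos] at h7
  linarith

end Pool.Agent.Work.MP_67f4ac_gt
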