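import Mathlib
import Pool.Agent.Work.MP_67f4ac_gt.CauchySchwarz

set_option autoImplicit false
set_option linter.all false

namespace Pool.Agent.Work.MP_67f4ac_gt

open NumberField IsDedekindDomain

variable {K : Type} [Field K] [NumberField K]

/-- two primes which can be exchanged modulo `m` -/
def Rel (m : Ideal (𝓞 K)) (v w : HeightOneSpectrum (𝓞 K)) : Prop :=
  ∃ b : Ideal (𝓞 K), b ≠ ⊥ ∧ ∃ z z' : 𝓞 K, z ≠ 0 ∧ z' ≠ 0 ∧ v.asIdeal * b = Ideal.span {z} ∧
    w.asIdeal * b = Ideal.span {z'} ∧ z' - z ∈ m * b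

theorem exists_label (m : Ideal (𝓞 K)) (hm : m ≠ ⊥) :
    ∃ (L : Type) (_ : Finite L) (l : HeightOneSpectrum (𝓞 K) → L), ∀ v w, l v = l w → Rel m v w := by
  classical
  -- representatives of inverse classes
  have hb : ∀ κ : ClassGroup (𝓞 K), ∃ b : Ideal (𝓞 K), ∃ hb : b ∈ nonZeroDivisors (Ideal (𝓞 K)),
      ClassGroup.mk0 ⟨b, hb⟩ = κ⁻¹ := by
    intro κ
    obtain ⟨⟨b, hb⟩, h⟩ := ClassGroup.mk0_surjective κ⁻¹
    exact ⟨b, hb, h⟩
  choose b hb hbκ using hb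
  have hv0 : ∀ v : HeightOneSpectrum (𝓞 K), v.asIdeal ∈ nonZeroDivisors (Ideal (𝓞 K)) := fun v =>
    mem_nonZeroDivisors_of_ne_zero v.ne_bot
  let κ : HeightOneSpectrum (𝓞 K) → ClassGroup (𝓞 K) := fun v => ClassGroup.mk0 ⟨v.asIdeal, hv0 v⟩
  have hz : ∀ v, ∃ z : 𝓞 K, v.asIdeal * b (κ v) = Ideal.span {z} := by
    intro v
    have h1 : ClassGroup.mk0 (⟨v.asIdeal, hv0 v⟩ * ⟨b (κ v), hb (κ v)⟩ : nonZeroDivisors (Ideal (𝓞 K))) = 1 := by
      rw [map_mul, hbκ]; exact mul_inv_cancel _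
    have h2 := (ClassGroup.mk0_eq_one_iff (I := v.asIdeal * b (κ v))
      (mul_mem (hv0 v) (hb (κ v)))).mp h1
    obtain ⟨z, hz⟩ := h2
    exact ⟨z, hz⟩
  choose z hz using hz
  have hbne : ∀ c, b c ≠ ⊥ := fun c => nonZeroDivisors.ne_zero (hb c)
  haveI : ∀ c, Finite (𝓞 K ⧸ (m * b c)) := fun c =>
    Ideal.finiteQuotientOfFreeOfNeBot _ (mul_ne_zero hm (hbne c))
  refine ⟨Σ c : ClassGroup (𝓞 K), 𝓞 K ⧸ (m * b c), inferInstance,
    fun v => ⟨κ v, Ideal.Quotient.mk _ (z v)⟩, ?_⟩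
  intro v w hvw
  rw [Sigma.mk.injEq] at hvw
  obtain ⟨h1, h2⟩ := hvw
  have hzne : ∀ v, z v ≠ 0 := by
    intro v h
    have := hz v
    rw [h, Ideal.span_singleton_eq_bot.mpr rfl, Ideal.mul_eq_bot] at this
    exact this.elim v.ne_bot (hbne _)
  have hw : w.asIdeal * b (κ v) = Ideal.span {z w} := by rw [h1]; exact hz w
  refine ⟨b (κ v), hbne _, z v, z w, hzne v, hzne w, hz v, hw, ?_⟩
  have h3 : (Ideal.Quotient.mk (m * b (κ v)) (z v)) = Ideal.Quotient.mk (m * b (κ v)) (z w) := by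
    have aux : ∀ (c c' : ClassGroup (𝓞 K)) (h : c = c') (x y : 𝓞 K),
        HEq (Ideal.Quotient.mk (m * b c) x) (Ideal.Quotient.mk (m * b c') y) →
        Ideal.Quotient.mk (m * b c) x = Ideal.Quotient.mk (m * b c) y := by
      intro c c' h x y hh
      subst h
      exact eq_of_heq hh
    exact aux _ _ h1 _ _ h2
  exact Ideal.Quotient.eq.mp h3.symm

/-- replace one prime -/
lemma replace_one {m₀ : 𝓞 K} {n m c : Ideal (𝓞 K)} (hnm : n * m = Ideal.span {m₀})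
    {v w : HeightOneSpectrum (𝓞 K)} (hrel : Rel m v w) {W : 𝓞 K}
    (hW : Ideal.span {W} = n * (v.asIdeal * c)) :
    ∃ x : 𝓞 K, Ideal.span {W + m₀ * x} = n * (w.asIdeal * c) := by
  obtain ⟨b, hb, z, z', hz, hz', h1, h2, h3⟩ := hrel
  have h4 : W * (z' - z) ∈ Ideal.span {m₀ * z} := by
    have h5 : W * (z' - z) ∈ (n * (v.asIdeal * c)) * (m * b) := by
      refine Ideal.mul_mem_mul ?_ h3
      rw [← hW]; exact Ideal.mem_span_singleton_self W
    have h6 : (n * (v.asIdeal * c)) * (m * b) = (n * m) * ((v.asIdeal * b) * c) := by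
      simp only [mul_assoc, mul_left_comm, mul_comm]
    rw [h6, hnm, h1] at h5
    have h7 : Ideal.span {m₀} * (Ideal.span {z} * c) ≤ Ideal.span {m₀ * z} := by
      rw [← mul_assoc, Ideal.span_singleton_mul_span_singleton]
      exact Ideal.mul_le_left
    exact h7 h5
  obtain ⟨x, hx⟩ := Ideal.mem_span_singleton'.mp h4
  refine ⟨x, ?_⟩
  have h8 : (W + m₀ * x) * z = W * z' := by linear_combination hx
  have h9 : Ideal.span {W + m₀ * x} * Ideal.span {z} = (n * (w.asIdeal * c)) * Ideal.span {z} := by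
    rw [Ideal.span_singleton_mul_span_singleton, h8, ← Ideal.span_singleton_mul_span_singleton,
      hW, ← h1, ← h2]
    simp only [mul_assoc, mul_left_comm, mul_comm]
  have hz0 : (Ideal.span {z} : Ideal (𝓞 K)) ≠ 0 := by
    rw [Ne, Ideal.zero_eq_bot, Ideal.span_singleton_eq_bot]; exact hz
  exact mul_right_cancel₀ hz0 h9

/-- replace all primes in a product -/
lemma replace_all {m₀ a₀ : 𝓞 K} {n m : Ideal (𝓞 K)} (hnm : n * m = Ideal.span {m₀})
    (l l' : List (HeightOneSpectrum (𝓞 K))) (hl : List.Forall₂ (Rel m) l l') :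
    ∀ (c : Ideal (𝓞 K)) (lam : 𝓞 K),
      Ideal.span {a₀ + m₀ * lam} = n * ((l.map (fun v => v.asIdeal)).prod * c) →
      ∃ lam' : 𝓞 K, Ideal.span {a₀ + m₀ * lam'} = n * ((l'.map (fun v => v.asIdeal)).prod * c) := by
  induction hl with
  | nil => intro c lam h; exact ⟨lam, h⟩
  | @cons v w l l' hvw hl ih =>
    intro c lam h
    rw [List.map_cons, List.prod_cons, mul_assoc] at h
    obtain ⟨x, hx⟩ := replace_one hnm hvw h
    have hx' : Ideal.span {a₀ + m₀ * (lam + x)} =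
        n * ((l.map (fun v => v.asIdeal)).prod * (w.asIdeal * c)) := by
      have e1 : a₀ + m₀ * (lam + x) = a₀ + m₀ * lam + m₀ * x := by ring
      rw [e1, hx]
      congr 1
      ring
    obtain ⟨lam', h'⟩ := ih (w.asIdeal * c) (lam + x) hx'
    refine ⟨lam', ?_⟩
    rw [h', List.map_cons, List.prod_cons]
    congr 1
    ring

/-- function version -/
lemma replace_fin {m₀ a₀ : 𝓞 K} {n m : Ideal (𝓞 K)} (hnm : n * m = Ideal.span {m₀}) {r : ℕ}
    (q q' : Fin r → HeightOneSpectrum (𝓞 K)) (hq : ∀ i, Rel m (q i) (q' i)) (lam : 𝓞 K)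
    (h : Ideal.span {a₀ + m₀ * lam} = n * ∏ i, (q i).asIdeal) :
    ∃ lam' : 𝓞 K, Ideal.span {a₀ + m₀ * lam'} = n * ∏ i, (q' i).asIdeal := by
  have h1 : ∀ q : Fin r → HeightOneSpectrum (𝓞 K),
      ∏ i, (q i).asIdeal = ((List.ofFn q).map (fun v => v.asIdeal)).prod := by
    intro q
    rw [List.map_ofFn, List.prod_ofFn]
    rfl
  have h2 : List.Forall₂ (Rel m) (List.ofFn q) (List.ofFn q') := by
    rw [List.forall₂_iff_get]
    refine ⟨by simp, ?_⟩
    intro i hi hi'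
    simp only [List.get_eq_getElem, List.getElem_ofFn]
    exact hq _
  rw [h1] at h
  obtain ⟨lam', h'⟩ := replace_all hnm _ _ h2 1 lam (by rw [mul_one]; exact h)
  exact ⟨lam', by rw [h', mul_one, h1]⟩

end Pool.Agent.Work.MP_67f4ac_gt
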