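import Mathlib

set_option autoImplicit false

namespace Pool.Agent.Work.MP_67f4ac_gt

open NumberField IsDedekindDomain

/-- separated points in a disc -/
lemma card_le_of_separated (S : Finset ℂ) (δ Y : ℝ) (hδ : 0 < δ) (hY : 0 ≤ Y)
    (hS : ∀ z ∈ S, ‖z‖ ≤ Y) (hsep : ∀ z ∈ S, ∀ w ∈ S, z ≠ w → δ ≤ ‖z - w‖) :
    (S.card : ℝ) ≤ 32 * Y ^ 2 / δ ^ 2 + 18 := by
  set s : ℝ := δ / 2 with hs
  have hs0 : 0 < s := by positivity
  let φ : ℂ → ℤ × ℤ := fun z => (⌊z.re / s⌋, ⌊z.im / s⌋)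
  set L : ℤ := ⌊Y / s⌋ + 1 with hL
  have hL0 : 0 ≤ L := by
    have : 0 ≤ ⌊Y / s⌋ := Int.floor_nonneg.mpr (by positivity)
    omega
  have hLle : (L : ℝ) ≤ Y / s + 1 := by
    rw [hL]; push_cast; linarith [Int.floor_le (Y / s)]
  have hmaps : ∀ z ∈ S, φ z ∈ Finset.Icc (-L) L ×ˢ Finset.Icc (-L) L := by
    intro z hz
    have h1 := hS z hz
    have hre : |z.re| ≤ Y := (Complex.abs_re_le_norm z).trans h1
    have him : |z.im| ≤ Y := (Complex.abs_im_le_norm z).trans h1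
    have key : ∀ x : ℝ, |x| ≤ Y → ⌊x / s⌋ ∈ Finset.Icc (-L) L := by
      intro x hx
      rw [abs_le] at hx
      rw [Finset.mem_Icc]
      constructor
      · rw [Int.le_floor]
        have h2 : Y / s < L := by rw [hL]; push_cast; exact Int.lt_floor_add_one _
        have h3 : -(Y / s) ≤ x / s := by
          rw [← neg_div]; exact div_le_div_of_nonneg_right hx.1 hs0.le
        push_cast
        linarith
      · have h2 : ⌊x / s⌋ ≤ ⌊Y / s⌋ := Int.floor_le_floor (div_le_div_of_nonneg_right hx.2 hs0.le)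
        omega
    exact Finset.mem_product.mpr ⟨key _ hre, key _ him⟩
  have hinj : Set.InjOn φ (S : Set ℂ) := by
    intro z hz w hw h
    by_contra hne
    have h1 := hsep z hz w hw hne
    have hfl : ∀ x y : ℝ, ⌊x / s⌋ = ⌊y / s⌋ → |x - y| < s := by
      intro x y hxy
      have := Int.abs_sub_lt_one_of_floor_eq_floor hxy
      rw [← sub_div, abs_div, abs_of_pos hs0, div_lt_one hs0] at this
      exact this
    have e1 : |(z - w).re| < s := by
      rw [Complex.sub_re]; exact hfl _ _ (congrArg Prod.fst h)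
    have e2 : |(z - w).im| < s := by
      rw [Complex.sub_im]; exact hfl _ _ (congrArg Prod.snd h)
    have h2 : ‖z - w‖ ≤ |(z - w).re| + |(z - w).im| := Complex.norm_le_abs_re_add_abs_im _
    have : ‖z - w‖ < δ := by rw [hs] at e1 e2; linarith
    linarith
  have hcard : S.card ≤ (Finset.Icc (-L) L ×ˢ Finset.Icc (-L) L).card :=
    Finset.card_le_card_of_injOn φ hmaps hinj
  rw [Finset.card_product, Int.card_Icc] at hcard
  have h3 : ((L + 1 - -L).toNat : ℝ) = 2 * L + 1 := by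
    have h4 : ((L + 1 - -L).toNat : ℤ) = 2 * L + 1 := by
      rw [Int.toNat_of_nonneg (by omega)]; ring
    have h5 : (((L + 1 - -L).toNat : ℤ) : ℝ) = ((2 * L + 1 : ℤ) : ℝ) := by rw [h4]
    push_cast at h5
    exact h5
  have h5 : (S.card : ℝ) ≤ (2 * L + 1) * (2 * L + 1) := by
    rw [← h3]; exact_mod_cast hcard
  have hL0' : (0 : ℝ) ≤ L := by exact_mod_cast hL0
  have h6 : (2 * (L : ℝ) + 1) ≤ 2 * (Y / s) + 3 := by linarith
  have h7 : (2 * (L : ℝ) + 1) * (2 * L + 1) ≤ (2 * (Y / s) + 3) * (2 * (Y / s) + 3) :=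
    mul_le_mul h6 h6 (by positivity) (by positivity)
  have h8 : Y / s = 2 * (Y / δ) := by rw [hs]; field_simp
  rw [h8] at h7
  have h9 : 32 * Y ^ 2 / δ ^ 2 = 32 * (Y / δ) ^ 2 := by rw [div_pow]; ring
  rw [h9]
  nlinarith [sq_nonneg (2 * (2 * (Y / δ)) - 3)]

end Pool.Agent.Work.MP_67f4ac_gt
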