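import Mathlib
import Pool.Agent.Work.MP_67f4ac_gt.Packing
import Pool.Agent.Work.MP_67f4ac_gt.Labels

set_option autoImplicit false
set_option linter.all false

namespace Pool.Agent.Work.MP_67f4ac_gt

open NumberField IsDedekindDomain

variable {K : Type} [Field K] [NumberField K]

section sigma

variable (σ : K →+* ℂ) (hσ : ∀ x : K, ((Algebra.norm ℚ x : ℚ) : ℝ) = ‖σ x‖ ^ 2)

include hσ

lemma absNorm_span_eq (x : 𝓞 K) : (Ideal.absNorm (Ideal.span {x}) : ℝ) = ‖σ x‖ ^ 2 := by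
  rw [Ideal.absNorm_span_singleton, ← hσ]
  have h1 : (Algebra.norm ℚ (x : K) : ℚ) = ((Algebra.norm ℤ x : ℤ) : ℚ) := (Algebra.coe_norm_int x).symm
  have h2 : (0 : ℝ) ≤ ((Algebra.norm ℤ x : ℤ) : ℝ) := by
    have h3 := hσ x
    rw [h1] at h3
    have : (0 : ℝ) ≤ ‖σ x‖ ^ 2 := sq_nonneg _
    rw [← h3] at this
    exact_mod_cast this
  have h3 : (0 : ℤ) ≤ Algebra.norm ℤ x := by exact_mod_cast h2
  rw [h1, Nat.cast_natAbs, abs_of_nonneg h3]
  push_cast
  rfl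

lemma absNorm_le_of_mem {I : Ideal (𝓞 K)} {x : 𝓞 K} (hx : x ∈ I) (hx0 : x ≠ 0) :
    (Ideal.absNorm I : ℝ) ≤ ‖σ x‖ ^ 2 := by
  rw [← absNorm_span_eq σ hσ]
  have h1 : Ideal.absNorm I ∣ Ideal.absNorm (Ideal.span {x}) :=
    Ideal.absNorm_dvd_absNorm_of_le (by rw [Ideal.span_singleton_le_iff_mem]; exact hx)
  have h2 : 0 < Ideal.absNorm (Ideal.span {x}) :=
    absNorm_pos_of_ne_bot (by rw [Ne, Ideal.span_singleton_eq_bot]; exact hx0)
  exact_mod_cast Nat.le_of_dvd h2 h1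

lemma finrank_eq_two : Module.finrank ℚ K = 2 := by
  have h1 := hσ ((algebraMap ℚ K) 2)
  rw [Algebra.norm_algebraMap] at h1
  have h2 : σ ((algebraMap ℚ K) 2) = 2 := by
    rw [map_ofNat (algebraMap ℚ K) 2, map_ofNat σ 2]
  rw [h2] at h1
  push_cast at h1
  have h3 : (2 : ℝ) ^ Module.finrank ℚ K = 2 ^ 2 := by rw [h1]; norm_num
  have h4 : (2 : ℕ) ^ Module.finrank ℚ K = 2 ^ 2 := by exact_mod_cast h3
  exact Nat.pow_right_injective le_rfl h4

lemma absNorm_nat (P : ℕ) : (Ideal.absNorm (Ideal.span {(P : 𝓞 K)}) : ℝ) = (P : ℝ) ^ 2 := by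
  rw [absNorm_span_eq σ hσ]
  simp

end sigma

lemma diff_mem {m₀ a₀ : 𝓞 K} {m : Ideal (𝓞 K)} (hm₀ : m₀ ≠ 0)
    (hnm : Ideal.span {m₀, a₀} * m = Ideal.span {m₀}) (v : HeightOneSpectrum (𝓞 K)) {x y : 𝓞 K}
    (hx : a₀ + m₀ * x ∈ Ideal.span {m₀, a₀} * v.asIdeal)
    (hy : a₀ + m₀ * y ∈ Ideal.span {m₀, a₀} * v.asIdeal) : x - y ∈ v.asIdeal := by
  set n := Ideal.span {m₀, a₀} with hn
  have hn0 : n ≠ 0 := by
    intro h
    have : m₀ ∈ n := Ideal.subset_span (by simp)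
    rw [h] at this
    exact hm₀ this
  have h1 : m₀ * (x - y) ∈ n * v.asIdeal := by
    have : m₀ * (x - y) = (a₀ + m₀ * x) - (a₀ + m₀ * y) := by ring
    rw [this]; exact Ideal.sub_mem _ hx hy
  -- v does not divide m
  have h2 : ¬ m ≤ v.asIdeal := by
    intro h
    have h3 : m₀ ∈ n * v.asIdeal := by
      have h4 : m₀ ∈ n * m := by rw [hnm]; exact Ideal.mem_span_singleton_self _
      exact Ideal.mul_mono_right h h4
    have h5 : a₀ ∈ n * v.asIdeal := by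
      have : a₀ = (a₀ + m₀ * x) - m₀ * x := by ring
      rw [this]
      exact Ideal.sub_mem _ hx (Ideal.mul_mem_right _ _ h3)
    have h6 : n ≤ n * v.asIdeal := by
      rw [hn, Ideal.span_le]
      intro w hw
      rcases hw with rfl | hw
      · exact h3
      · rw [Set.mem_singleton_iff] at hw; subst hw; exact h5
    have h7 : v.asIdeal ∣ 1 := by
      rw [← Ideal.dvd_iff_le] at h6
      have : n * v.asIdeal ∣ n * 1 := by rwa [mul_one]
      exact (mul_dvd_mul_iff_left hn0).mp this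
    exact v.isPrime.ne_top (Ideal.isUnit_iff.mp (isUnit_of_dvd_one h7))
  -- m * (x - y) ≤ v
  have h3 : m * Ideal.span {x - y} ≤ v.asIdeal := by
    have h4 : n * (m * Ideal.span {x - y}) ≤ n * v.asIdeal := by
      rw [← mul_assoc, hnm, Ideal.span_singleton_mul_span_singleton, Ideal.span_singleton_le_iff_mem]
      exact h1
    rw [← Ideal.dvd_iff_le] at h4 ⊢
    exact (mul_dvd_mul_iff_left hn0).mp h4
  rcases (v.isPrime.mul_le).mp h3 with h | h
  · exact absurd h h2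
  · rwa [Ideal.span_singleton_le_iff_mem] at h

lemma shift_mem {m₀ a₀ : 𝓞 K} (v : HeightOneSpectrum (𝓞 K)) {x y : 𝓞 K}
    (hx : a₀ + m₀ * x ∈ Ideal.span {m₀, a₀} * v.asIdeal) (hxy : y - x ∈ v.asIdeal) :
    a₀ + m₀ * y ∈ Ideal.span {m₀, a₀} * v.asIdeal := by
  have h1 : m₀ * (y - x) ∈ Ideal.span {m₀, a₀} * v.asIdeal :=
    Ideal.mul_mem_mul (Ideal.subset_span (by simp)) hxy
  have : a₀ + m₀ * y = (a₀ + m₀ * x) + m₀ * (y - x) := by ring
  rw [this]; exact Ideal.add_mem _ hx h1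

lemma finite_primes_le (Z : ℝ) : {v : HeightOneSpectrum (𝓞 K) | (Ideal.absNorm v.asIdeal : ℝ) ≤ Z}.Finite := by
  have h1 : {I : Ideal (𝓞 K) | Ideal.absNorm I ≤ ⌊Z⌋₊}.Finite := Ideal.finite_setOfPred_absNorm_le _
  refine (h1.preimage (f := fun v : HeightOneSpectrum (𝓞 K) => v.asIdeal) ?_).subset ?_
  · intro v _ w _ h; exact HeightOneSpectrum.ext h
  · intro v hv
    simp only [Set.mem_preimage, Set.mem_setOf_eq] at hv ⊢
    exact Nat.le_floor hv

lemma finite_primes_mem {x : 𝓞 K} (hx : x ≠ 0) : {v : HeightOneSpectrum (𝓞 K) | x ∈ v.asIdeal}.Finite := by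
  have h1 : (Ideal.span {x} : Ideal (𝓞 K)) ≠ 0 := by
    rw [Ne, Ideal.zero_eq_bot, Ideal.span_singleton_eq_bot]; exact hx
  refine (Ideal.finite_factors h1).subset ?_
  intro v hv
  simp only [Set.mem_setOf_eq] at hv ⊢
  rw [Ideal.dvd_span_singleton]; exact hv

/-- choose a residue class avoiding finitely many primes -/
lemma exists_avoid {m₀ a₀ : 𝓞 K} {m : Ideal (𝓞 K)} (hm₀ : m₀ ≠ 0)
    (hnm : Ideal.span {m₀, a₀} * m = Ideal.span {m₀}) (s : Finset (HeightOneSpectrum (𝓞 K))) :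
    ∃ x : 𝓞 K, ∀ v ∈ s, a₀ + m₀ * x ∉ Ideal.span {m₀, a₀} * v.asIdeal := by
  classical
  let c : HeightOneSpectrum (𝓞 K) → 𝓞 K := fun v =>
    if a₀ + m₀ * 0 ∈ Ideal.span {m₀, a₀} * v.asIdeal then 1 else 0
  have hc : ∀ v, a₀ + m₀ * c v ∉ Ideal.span {m₀, a₀} * v.asIdeal := by
    intro v hv
    by_cases h : a₀ + m₀ * 0 ∈ Ideal.span {m₀, a₀} * v.asIdeal
    · simp only [c, if_pos h] at hv
      have := diff_mem hm₀ hnm v hv h
      rw [sub_zero] at this
      exact v.isPrime.ne_top ((Ideal.eq_top_iff_one _).mpr this)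
    · simp only [c, if_neg h] at hv
      exact h hv
  obtain ⟨y, hy⟩ := IsDedekindDomain.exists_forall_sub_mem_ideal (s := s)
    (fun v : HeightOneSpectrum (𝓞 K) => v.asIdeal) (fun _ => 1) (fun v _ => v.prime)
    (fun v _ w _ hvw h => hvw (HeightOneSpectrum.ext h)) (fun v => c v)
  refine ⟨y, fun v hv h => hc v ?_⟩
  have := hy v hv
  rw [pow_one] at this
  have h2 : c v - y ∈ v.asIdeal := by
    have := Ideal.neg_mem_iff _ |>.mpr this
    rwa [neg_sub] at this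
  exact shift_mem v h h2

/-- the box in the ring of integers -/
noncomputable def box (b : Module.Basis (Fin 2) ℤ (𝓞 K)) (M : ℕ) : Finset (𝓞 K) := by
  classical
  exact (Finset.Icc (-(M : ℤ)) M ×ˢ Finset.Icc (-(M : ℤ)) M).image (fun p => p.1 • b 0 + p.2 • b 1)

lemma card_box (b : Module.Basis (Fin 2) ℤ (𝓞 K)) (M : ℕ) : (box b M).card = (2 * M + 1) ^ 2 := by
  classical
  unfold box
  rw [Finset.card_image_of_injective, Finset.card_product, Int.card_Icc]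
  · have : ((M : ℤ) + 1 - -(M : ℤ)).toNat = 2 * M + 1 := by omega
    rw [this]; ring
  · intro p q h
    simp only at h
    have h1 := congrArg (fun x => b.repr x) h
    simp only [map_add, map_smul, Module.Basis.repr_self] at h1
    have e0 := DFunLike.congr_fun h1 0
    have e1 := DFunLike.congr_fun h1 1
    simp at e0 e1
    exact Prod.ext e0 e1

lemma norm_le_of_mem_box (σ : K →+* ℂ) (b : Module.Basis (Fin 2) ℤ (𝓞 K)) (M : ℕ) {x : 𝓞 K}
    (hx : x ∈ box b M) : ‖σ x‖ ≤ M * (‖σ (b 0)‖ + ‖σ (b 1)‖) := by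
  classical
  unfold box at hx
  obtain ⟨p, hp, rfl⟩ := Finset.mem_image.mp hx
  obtain ⟨h1, h2⟩ := Finset.mem_product.mp hp
  rw [Finset.mem_Icc] at h1 h2
  have e1 : |(p.1 : ℝ)| ≤ M := by rw [abs_le]; exact_mod_cast h1
  have e2 : |(p.2 : ℝ)| ≤ M := by rw [abs_le]; exact_mod_cast h2
  have h3 : σ ((p.1 • b 0 + p.2 • b 1 : 𝓞 K) : K) = (p.1 : ℂ) * σ (b 0) + (p.2 : ℂ) * σ (b 1) := by
    simp
  rw [h3]
  calc ‖(p.1 : ℂ) * σ (b 0) + (p.2 : ℂ) * σ (b 1)‖ ≤ ‖(p.1 : ℂ) * σ (b 0)‖ + ‖(p.2 : ℂ) * σ (b 1)‖ :=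
        norm_add_le _ _
    _ = |(p.1 : ℝ)| * ‖σ (b 0)‖ + |(p.2 : ℝ)| * ‖σ (b 1)‖ := by
        rw [norm_mul, norm_mul, Complex.norm_intCast, Complex.norm_intCast]
    _ ≤ M * ‖σ (b 0)‖ + M * ‖σ (b 1)‖ := by gcongr
    _ = M * (‖σ (b 0)‖ + ‖σ (b 1)‖) := by ring

/-- the key existence statement: an element of the residue class whose reduced ideal avoids a set of
primes with convergent sum of reciprocal norms -/
theorem exists_good (σ : K →+* ℂ) (hσ : ∀ x : K, ((Algebra.norm ℚ x : ℚ) : ℝ) = ‖σ x‖ ^ 2)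
    {m₀ a₀ : 𝓞 K} {m : Ideal (𝓞 K)} (hm₀ : m₀ ≠ 0)
    (hnm : Ideal.span {m₀, a₀} * m = Ideal.span {m₀})
    (N : Set (HeightOneSpectrum (𝓞 K))) (hsum : Summable (N.indicator rn)) :
    ∃ lam : 𝓞 K, a₀ + m₀ * lam ≠ 0 ∧ ∀ v ∈ N, a₀ + m₀ * lam ∉ Ideal.span {m₀, a₀} * v.asIdeal := by
  classical
  have hrk : Module.finrank ℤ (𝓞 K) = 2 := by rw [RingOfIntegers.rank, finrank_eq_two σ hσ]
  let b : Module.Basis (Fin 2) ℤ (𝓞 K) := Module.finBasisOfFinrankEq ℤ (𝓞 K) hrk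
  set Cb : ℝ := ‖σ (b 0)‖ + ‖σ (b 1)‖ with hCb
  have hCb0 : 0 ≤ Cb := by positivity
  rw [summable_iff_vanishing_norm] at hsum
  obtain ⟨s, hs⟩ := hsum (1 / (32 * Cb ^ 2 + 1)) (by positivity)
  -- the natural number P₀
  set P₀ : ℕ := ∏ v ∈ s, Ideal.absNorm v.asIdeal with hP₀
  have hP₀ne : (P₀ : 𝓞 K) ≠ 0 := by
    rw [Nat.cast_ne_zero, hP₀, Finset.prod_ne_zero_iff]
    intro v _
    exact (absNorm_pos_of_ne_bot v.ne_bot).ne'
  have hP₀mem : ∀ v ∈ s, (P₀ : 𝓞 K) ∈ v.asIdeal := by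
    intro v hv
    rw [hP₀, ← Finset.prod_erase_mul _ _ hv]
    push_cast
    exact Ideal.mul_mem_left _ _ (Ideal.absNorm_mem _)
  have hfin := finite_primes_mem hP₀ne
  obtain ⟨l₁, hl₁⟩ := exists_avoid hm₀ hnm hfin.toFinset
  -- constants
  set C₁ : ℝ := ‖σ ((a₀ + m₀ * l₁ : 𝓞 K) : K)‖ + ‖σ ((m₀ * P₀ : 𝓞 K) : K)‖ * Cb + 1 with hC₁
  have hC₁0 : 0 < C₁ := by positivity
  obtain ⟨s', hs'⟩ := hsum (1 / (18 * C₁ ^ 2)) (by positivity)
  -- choose M
  obtain ⟨M, hM⟩ := exists_nat_gt (1 + 18 * (s'.card : ℝ))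
  have hM1 : (1 : ℝ) < M := by
    have : (0 : ℝ) ≤ s'.card := Nat.cast_nonneg _
    linarith
  have hMpos : (0 : ℝ) < M := by linarith
  let t : Finset (HeightOneSpectrum (𝓞 K)) :=
    (finite_primes_le (K := K) (C₁ ^ 2 * M ^ 2)).toFinset.filter (fun v => v ∈ N ∧ (P₀ : 𝓞 K) ∉ v.asIdeal)
  have ht : ∀ v, v ∈ t ↔ (Ideal.absNorm v.asIdeal : ℝ) ≤ C₁ ^ 2 * M ^ 2 ∧ v ∈ N ∧ (P₀ : 𝓞 K) ∉ v.asIdeal := by
    intro v; simp [t]
  have htN : ∀ v ∈ t, v ∈ N := fun v hv => ((ht v).mp hv).2.1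
  have hdisj : Disjoint t s := by
    rw [Finset.disjoint_left]
    intro v hv hvs
    exact ((ht v).mp hv).2.2 (hP₀mem v hvs)
  have hsumt : ∑ v ∈ t, rn v ≤ 1 / (32 * Cb ^ 2 + 1) := by
    have h1 := hs t hdisj
    have h2 : ∑ v ∈ t, N.indicator rn v = ∑ v ∈ t, rn v :=
      Finset.sum_congr rfl fun v hv => Set.indicator_of_mem (htN v hv) _
    rw [h2, Real.norm_eq_abs, abs_of_nonneg (Finset.sum_nonneg fun v _ => (rn_pos v).le)] at h1
    exact h1.le
  have hcardt : (t.card : ℝ) ≤ s'.card + M ^ 2 / 18 := by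
    have h1 := hs' (t \ s') Finset.sdiff_disjoint
    have h2 : ∑ v ∈ t \ s', N.indicator rn v = ∑ v ∈ t \ s', rn v :=
      Finset.sum_congr rfl fun v hv => Set.indicator_of_mem (htN v (Finset.mem_sdiff.mp hv).1) _
    rw [h2, Real.norm_eq_abs, abs_of_nonneg (Finset.sum_nonneg fun v _ => (rn_pos v).le)] at h1
    have h3 : ((t \ s').card : ℝ) * (1 / (C₁ ^ 2 * M ^ 2)) ≤ ∑ v ∈ t \ s', rn v := by
      rw [← nsmul_eq_mul]
      apply Finset.card_nsmul_le_sum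
      intro v hv
      have h4 := ((ht v).mp (Finset.mem_sdiff.mp hv).1).1
      unfold rn
      apply one_div_le_one_div_of_le _ h4
      exact_mod_cast absNorm_pos_of_ne_bot v.ne_bot
    have h5 : ((t \ s').card : ℝ) ≤ M ^ 2 / 18 := by
      have h6 : ((t \ s').card : ℝ) * (1 / (C₁ ^ 2 * M ^ 2)) ≤ 1 / (18 * C₁ ^ 2) := by linarith
      rw [mul_one_div, div_le_div_iff₀ (by positivity) (by positivity)] at h6
      have hC2 : 0 < C₁ ^ 2 := by positivity
      nlinarith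
    have h7 : t.card ≤ (t \ s').card + s'.card := by
      have := Finset.card_le_card_sdiff_add_card (s := t) (t := s')
      exact this
    have h8 : (t.card : ℝ) ≤ (t \ s').card + s'.card := by exact_mod_cast h7
    linarith
  -- the bad elements of the box
  by_contra hcon
  push Not at hcon
  let Wf : 𝓞 K → 𝓞 K := fun x => a₀ + m₀ * (l₁ + P₀ * x)
  have hWinj : Function.Injective Wf := by
    intro x y h
    simp only [Wf] at h
    have h1 : m₀ * (P₀ : 𝓞 K) * (x - y) = 0 := by linear_combination h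
    rcases mul_eq_zero.mp h1 with h2 | h2
    · rcases mul_eq_zero.mp h2 with h3 | h3
      · exact absurd h3 hm₀
      · exact absurd h3 hP₀ne
    · exact sub_eq_zero.mp h2
  let Z : Finset (𝓞 K) := (box b M).filter (fun x => Wf x = 0)
  let S : HeightOneSpectrum (𝓞 K) → Finset (𝓞 K) := fun v =>
    (box b M).filter (fun x => Wf x ∈ Ideal.span {m₀, a₀} * v.asIdeal)
  have hcover : box b M ⊆ Z ∪ t.biUnion S := by
    intro x hx
    rw [Finset.mem_union]
    by_cases h0 : Wf x = 0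
    · left; exact Finset.mem_filter.mpr ⟨hx, h0⟩
    · right
      obtain ⟨v, hvN, hv⟩ := hcon (l₁ + P₀ * x) h0
      rw [Finset.mem_biUnion]
      refine ⟨v, ?_, Finset.mem_filter.mpr ⟨hx, hv⟩⟩
      rw [ht]
      refine ⟨?_, hvN, ?_⟩
      · have h1 : (Ideal.absNorm v.asIdeal : ℝ) ≤ Ideal.absNorm (Ideal.span {m₀, a₀} * v.asIdeal) := by
          rw [map_mul]
          have h2 : 0 < Ideal.absNorm (Ideal.span {m₀, a₀} : Ideal (𝓞 K)) := by
            apply absNorm_pos_of_ne_bot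
            intro h
            have : m₀ ∈ (Ideal.span {m₀, a₀} : Ideal (𝓞 K)) := Ideal.subset_span (by simp)
            rw [h] at this
            exact hm₀ this
          have h3 : Ideal.absNorm v.asIdeal ≤
              Ideal.absNorm (Ideal.span {m₀, a₀} : Ideal (𝓞 K)) * Ideal.absNorm v.asIdeal :=
            Nat.le_mul_of_pos_left _ h2
          exact_mod_cast h3
        have h2 := absNorm_le_of_mem σ hσ hv h0
        have h3 : ‖σ ((Wf x : 𝓞 K) : K)‖ ≤ C₁ * M := by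
          have e1 : σ ((Wf x : 𝓞 K) : K) =
              σ ((a₀ + m₀ * l₁ : 𝓞 K) : K) + σ ((m₀ * P₀ : 𝓞 K) : K) * σ x := by
            simp [Wf]; ring
          rw [e1]
          have e2 := norm_le_of_mem_box σ b M hx
          calc ‖σ ((a₀ + m₀ * l₁ : 𝓞 K) : K) + σ ((m₀ * P₀ : 𝓞 K) : K) * σ x‖
              ≤ ‖σ ((a₀ + m₀ * l₁ : 𝓞 K) : K)‖ + ‖σ ((m₀ * P₀ : 𝓞 K) : K)‖ * ‖σ x‖ := by
                rw [← norm_mul]; exact norm_add_le _ _
            _ ≤ ‖σ ((a₀ + m₀ * l₁ : 𝓞 K) : K)‖ * M + ‖σ ((m₀ * P₀ : 𝓞 K) : K)‖ * (M * Cb) := by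
                have := norm_nonneg (σ ((a₀ + m₀ * l₁ : 𝓞 K) : K))
                gcongr
                nlinarith
            _ ≤ C₁ * M := by rw [hC₁]; nlinarith
        have h4 : ‖σ ((Wf x : 𝓞 K) : K)‖ ^ 2 ≤ (C₁ * M) ^ 2 := pow_le_pow_left₀ (norm_nonneg _) h3 2
        calc (Ideal.absNorm v.asIdeal : ℝ) ≤ _ := h1
          _ ≤ _ := h2
          _ ≤ (C₁ * M) ^ 2 := h4
          _ = C₁ ^ 2 * M ^ 2 := by ring
      · intro hPv
        have h1 : v ∈ hfin.toFinset := by rw [Set.Finite.mem_toFinset]; exact hPv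
        refine hl₁ v h1 (shift_mem v hv ?_)
        have : l₁ - (l₁ + P₀ * x) = -(P₀ * x) := by ring
        rw [this]
        exact (Ideal.neg_mem_iff _).mpr (Ideal.mul_mem_right _ _ hPv)
  have hZ : Z.card ≤ 1 := by
    rw [Finset.card_le_one]
    intro x hx y hy
    exact hWinj ((Finset.mem_filter.mp hx).2.trans (Finset.mem_filter.mp hy).2.symm)
  have hS : ∀ v ∈ t, ((S v).card : ℝ) ≤ 32 * (M * Cb) ^ 2 * rn v + 18 := by
    intro v hv
    obtain ⟨-, -, hPv⟩ := (ht v).mp hv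
    have hNpos : (0 : ℝ) < Ideal.absNorm v.asIdeal := by exact_mod_cast absNorm_pos_of_ne_bot v.ne_bot
    have hinj : Function.Injective (fun x : 𝓞 K => σ (x : K)) := by
      intro x y h
      exact RingOfIntegers.ext (σ.injective h)
    have h1 := card_le_of_separated ((S v).image (fun x : 𝓞 K => σ (x : K)))
      (Real.sqrt (Ideal.absNorm v.asIdeal)) (M * Cb) (Real.sqrt_pos.mpr hNpos) (by positivity) ?_ ?_
    · rw [Finset.card_image_of_injective _ hinj, Real.sq_sqrt hNpos.le] at h1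
      unfold rn
      rw [mul_one_div]
      exact h1
    · intro z hz
      obtain ⟨x, hx, rfl⟩ := Finset.mem_image.mp hz
      exact norm_le_of_mem_box σ b M (Finset.mem_filter.mp hx).1
    · intro z hz w hw hzw
      obtain ⟨x, hx, rfl⟩ := Finset.mem_image.mp hz
      obtain ⟨y, hy, rfl⟩ := Finset.mem_image.mp hw
      have h2 := diff_mem hm₀ hnm v (Finset.mem_filter.mp hx).2 (Finset.mem_filter.mp hy).2
      have h3 : (P₀ : 𝓞 K) * (x - y) ∈ v.asIdeal := by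
        have : (P₀ : 𝓞 K) * (x - y) = (l₁ + P₀ * x) - (l₁ + P₀ * y) := by ring
        rw [this]; exact h2
      have h4 : x - y ∈ v.asIdeal := (v.isPrime.mem_or_mem h3).resolve_left hPv
      have h5 : x - y ≠ 0 := by
        intro h
        rw [sub_eq_zero.mp h] at hzw
        exact hzw rfl
      have h6 := absNorm_le_of_mem σ hσ h4 h5
      have h7 : σ (x : K) - σ (y : K) = σ ((x - y : 𝓞 K) : K) := by simp
      rw [h7, Real.sqrt_le_left (norm_nonneg _)]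
      exact h6
  have hfinal : ((box b M).card : ℝ) ≤ 1 + ∑ v ∈ t, (32 * (M * Cb) ^ 2 * rn v + 18) := by
    have h1 : (box b M).card ≤ Z.card + ∑ v ∈ t, (S v).card :=
      (Finset.card_le_card hcover).trans ((Finset.card_union_le _ _).trans
        (Nat.add_le_add_left Finset.card_biUnion_le _))
    have h2 : ((box b M).card : ℝ) ≤ Z.card + ∑ v ∈ t, ((S v).card : ℝ) := by exact_mod_cast h1
    have h3 : (Z.card : ℝ) ≤ 1 := by exact_mod_cast hZ
    have h4 := Finset.sum_le_sum hS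
    linarith
  rw [card_box, Finset.sum_add_distrib, ← Finset.mul_sum, Finset.sum_const, nsmul_eq_mul] at hfinal
  push_cast at hfinal
  have h1 : 32 * (M * Cb) ^ 2 * ∑ v ∈ t, rn v ≤ M ^ 2 := by
    have h2 : 32 * (M * Cb) ^ 2 * ∑ v ∈ t, rn v ≤ 32 * (M * Cb) ^ 2 * (1 / (32 * Cb ^ 2 + 1)) :=
      mul_le_mul_of_nonneg_left hsumt (by positivity)
    refine h2.trans ?_
    rw [mul_one_div, div_le_iff₀ (by positivity)]
    nlinarith [sq_nonneg (M : ℝ)]
  nlinarith [hcardt, h1, hM, hM1]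

end Pool.Agent.Work.MP_67f4ac_gt
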