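import Mathlib
import Pool.Agent.Work.MP_67f4ac_gt.GoodElement

set_option autoImplicit false
set_option linter.all false

namespace Pool.Agent.Work.MP_67f4ac_gt

open NumberField IsDedekindDomain

variable {K : Type} [Field K] [NumberField K]

/-- a set with divergent sum contains disjoint finite pieces of large sum -/
lemma exists_disjoint_pieces (B : ℝ) : ∀ (r : ℕ) (C : Fin r → Set (HeightOneSpectrum (𝓞 K)))
    (hC : ∀ i, ¬ Summable ((C i).indicator rn)) (E : Finset (HeightOneSpectrum (𝓞 K))),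
    ∃ Q : Fin r → Finset (HeightOneSpectrum (𝓞 K)), (∀ i, ∀ v ∈ Q i, v ∈ C i) ∧
      (∀ i, B ≤ ∑ v ∈ Q i, rn v) ∧ (∀ i, Disjoint (Q i) E) ∧ (∀ i j, i ≠ j → Disjoint (Q i) (Q j)) ∧
      (∀ i, (Q i).Nonempty) := by
  classical
  -- one piece
  have one : ∀ (C : Set (HeightOneSpectrum (𝓞 K))) (hC : ¬ Summable (C.indicator rn))
      (E : Finset (HeightOneSpectrum (𝓞 K))), ∃ Q : Finset (HeightOneSpectrum (𝓞 K)),
      (∀ v ∈ Q, v ∈ C) ∧ B ≤ ∑ v ∈ Q, rn v ∧ Disjoint Q E ∧ Q.Nonempty := by
    intro C hC E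
    have hnn : ∀ v, 0 ≤ C.indicator rn v := fun v => Set.indicator_nonneg (fun v _ => (rn_pos v).le) v
    by_contra hcon
    apply hC
    refine summable_of_sum_le hnn (c := |B| + 1 + ∑ v ∈ E, rn v) ?_
    intro u
    by_contra hu
    push Not at hu
    apply hcon
    refine ⟨(u \ E).filter (fun v => v ∈ C), fun v hv => (Finset.mem_filter.mp hv).2, ?_, ?_, ?_⟩
    · have h1 : ∑ v ∈ u, C.indicator rn v ≤ ∑ v ∈ (u \ E).filter (fun v => v ∈ C), rn v + ∑ v ∈ E, rn v := by
        rw [Finset.sum_filter]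
        have h2 : ∀ v, C.indicator rn v = if v ∈ C then rn v else 0 := fun v => rfl
        simp_rw [h2]
        have h3 : ∑ v ∈ u, (if v ∈ C then rn v else 0) =
            ∑ v ∈ u \ E, (if v ∈ C then rn v else 0) + ∑ v ∈ u ∩ E, (if v ∈ C then rn v else 0) := by
          rw [← Finset.sum_sdiff (Finset.inter_subset_left : u ∩ E ⊆ u), Finset.sdiff_inter_self_left]
        rw [h3]
        have h4 : ∑ v ∈ u ∩ E, (if v ∈ C then rn v else 0) ≤ ∑ v ∈ E, rn v := by
          calc ∑ v ∈ u ∩ E, (if v ∈ C then rn v else 0) ≤ ∑ v ∈ u ∩ E, rn v :=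
                Finset.sum_le_sum fun v _ => by split_ifs <;> linarith [rn_pos v]
            _ ≤ ∑ v ∈ E, rn v := Finset.sum_le_sum_of_subset_of_nonneg Finset.inter_subset_right
                (fun v _ _ => (rn_pos v).le)
        linarith
      have := le_abs_self B
      linarith
    · rw [Finset.disjoint_left]
      intro v hv hE
      exact (Finset.mem_sdiff.mp (Finset.mem_filter.mp hv).1).2 hE
    · rw [Finset.nonempty_iff_ne_empty]
      intro hempty
      have h1 : ∑ v ∈ u, C.indicator rn v ≤ ∑ v ∈ E, rn v := by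
        have h2 : ∀ v ∈ u, v ∉ E → C.indicator rn v = 0 := by
          intro v hv hvE
          apply Set.indicator_of_notMem
          intro hvC
          have : v ∈ (u \ E).filter (fun v => v ∈ C) :=
            Finset.mem_filter.mpr ⟨Finset.mem_sdiff.mpr ⟨hv, hvE⟩, hvC⟩
          rw [hempty] at this
          exact absurd this (Finset.notMem_empty v)
        calc ∑ v ∈ u, C.indicator rn v ≤ ∑ v ∈ u, (if v ∈ E then rn v else 0) := by
              refine Finset.sum_le_sum fun v hv => ?_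
              by_cases hvE : v ∈ E
              · rw [if_pos hvE]; exact Set.indicator_le_self' (fun _ _ => (rn_pos v).le) v
              · rw [if_neg hvE, h2 v hv hvE]
          _ = ∑ v ∈ u.filter (fun v => v ∈ E), rn v := by rw [Finset.sum_filter]
          _ ≤ ∑ v ∈ E, rn v := Finset.sum_le_sum_of_subset_of_nonneg
              (fun v hv => (Finset.mem_filter.mp hv).2) (fun v _ _ => (rn_pos v).le)
      have := abs_nonneg B
      linarith
  intro r
  induction r with
  | zero =>
    intro C hC E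
    exact ⟨fun i => i.elim0, fun i => i.elim0, fun i => i.elim0, fun i => i.elim0, fun i => i.elim0,
      fun i => i.elim0⟩
  | succ r ih =>
    intro C hC E
    obtain ⟨Q0, h01, h02, h03, h04⟩ := one (C 0) (hC 0) E
    obtain ⟨Q, h1, h2, h3, h4, h5⟩ := ih (fun i => C i.succ) (fun i => hC _) (E ∪ Q0)
    refine ⟨Fin.cons Q0 Q, ?_, ?_, ?_, ?_, ?_⟩
    · intro i
      refine Fin.cases ?_ (fun i => ?_) i
      · exact h01
      · exact h1 i
    · intro i
      refine Fin.cases ?_ (fun i => ?_) i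
      · exact h02
      · exact h2 i
    · intro i
      refine Fin.cases ?_ (fun i => ?_) i
      · exact h03
      · exact (Finset.disjoint_union_right.mp (h3 i)).1
    · intro i j
      refine Fin.cases ?_ (fun i => ?_) i
      · refine Fin.cases ?_ (fun j => ?_) j
        · intro h; exact absurd rfl h
        · intro _
          simp only [Fin.cons_zero, Fin.cons_succ]
          exact ((Finset.disjoint_union_right.mp (h3 j)).2).symm
      · refine Fin.cases ?_ (fun j => ?_) j
        · intro _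
          simp only [Fin.cons_zero, Fin.cons_succ]
          exact (Finset.disjoint_union_right.mp (h3 i)).2
        · intro hij
          simp only [Fin.cons_succ]
          exact h4 i j (fun h => hij (by rw [h]))
    · intro i
      refine Fin.cases ?_ (fun i => ?_) i
      · exact h04
      · exact h5 i

/-- factorization of a nonzero ideal -/
lemma exists_factorization (a : Ideal (𝓞 K)) (ha : a ≠ ⊥) :
    ∃ (r : ℕ) (q : Fin r → HeightOneSpectrum (𝓞 K)), a = ∏ i, (q i).asIdeal := by
  classical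
  obtain ⟨f, hf, hfa⟩ := UniqueFactorizationMonoid.exists_prime_factors a ha
  rw [associated_iff_eq] at hfa
  have : ∀ (f : Multiset (Ideal (𝓞 K))), (∀ b ∈ f, Prime b) →
      ∃ (r : ℕ) (q : Fin r → HeightOneSpectrum (𝓞 K)), f.prod = ∏ i, (q i).asIdeal := by
    intro f
    induction f using Multiset.induction with
    | empty => intro _; exact ⟨0, fun i => i.elim0, by simp⟩
    | cons p f ih =>
      intro h
      obtain ⟨r, q, hq⟩ := ih (fun b hb => h b (Multiset.mem_cons_of_mem hb))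
      have hp := h p (Multiset.mem_cons_self p f)
      refine ⟨r + 1, Fin.cons ⟨p, Ideal.isPrime_of_prime hp, hp.ne_zero⟩ q, ?_⟩
      rw [Multiset.prod_cons, hq, Fin.prod_univ_succ]
      simp
  obtain ⟨r, q, h⟩ := this f hf
  exact ⟨r, q, by rw [← hfa, h]⟩

/-- MODULE D1: the set of products of two residue classes has large density -/
theorem productSet (σ : K →+* ℂ)
    (hσ : ∀ x : K, ((Algebra.norm ℚ x : ℚ) : ℝ) = ‖σ x‖ ^ 2)
    (m₀ a₀ n₀ b₀ : 𝓞 K) (hm : m₀ ≠ 0) (hn : n₀ ≠ 0) :
    ∃ P : ℕ, 0 < P ∧ ∃ R : Finset (𝓞 K),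
      (∀ r ∈ R, ∀ x : 𝓞 K, ∃ l m : 𝓞 K, r + P * x = (a₀ + m₀ * l) * (b₀ + n₀ * m)) ∧
      (∀ r ∈ R, ∀ r' ∈ R, (∃ x : 𝓞 K, r - r' = P * x) → r = r') ∧
      (P : ℝ) ^ 2 ≤ 2 * (Ideal.absNorm (Ideal.span {n₀})) * (Ideal.absNorm (Ideal.span {m₀, a₀})) * R.card := by
  classical
  set n : Ideal (𝓞 K) := Ideal.span {m₀, a₀} with hndef
  have hm₀n : m₀ ∈ n := Ideal.subset_span (by simp)
  have hn0 : n ≠ ⊥ := by
    intro h; rw [h] at hm₀n; exact hm hm₀n
  obtain ⟨m, hnm'⟩ : n ∣ Ideal.span {m₀} := Ideal.dvd_span_singleton.mpr hm₀n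
  have hnm : n * m = Ideal.span {m₀} := hnm'.symm
  have hm0 : m ≠ ⊥ := by
    intro h
    rw [h, Ideal.mul_bot] at hnm
    exact hm (Ideal.span_singleton_eq_bot.mp hnm.symm)
  -- labels
  obtain ⟨L, hLfin, l, hl⟩ := exists_label m hm0
  haveI := Fintype.ofFinite L
  -- the primes in classes with convergent sum
  let N : Set (HeightOneSpectrum (𝓞 K)) :=
    {v | Summable (({w | l w = l v} : Set (HeightOneSpectrum (𝓞 K))).indicator rn)}
  have hN : Summable (N.indicator rn) := by
    have h1 : Summable (fun v => ∑ c : L,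
        if Summable (({w | l w = c} : Set (HeightOneSpectrum (𝓞 K))).indicator rn) then
          (({w | l w = c} : Set (HeightOneSpectrum (𝓞 K))).indicator rn v) else 0) := by
      refine summable_sum fun c _ => ?_
      split_ifs with h
      · exact h
      · exact summable_zero
    refine h1.congr (fun v => ?_)
    by_cases hv : v ∈ N
    · rw [Set.indicator_of_mem hv, Finset.sum_eq_single (l v)]
      · have hv' : Summable (({w | l w = l v} : Set (HeightOneSpectrum (𝓞 K))).indicator rn) := hv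
        rw [if_pos hv']
        exact Set.indicator_of_mem (by simp) _
      · intro c _ hc
        split_ifs
        · exact Set.indicator_of_notMem (s := {w | l w = c}) (fun h => hc h.symm) rn
        · rfl
      · intro h; exact absurd (Finset.mem_univ _) h
    · rw [Set.indicator_of_notMem hv]
      refine Finset.sum_eq_zero fun c _ => ?_
      split_ifs with h
      · by_cases hc : l v = c
        · subst hc; exact absurd h hv
        · exact Set.indicator_of_notMem (s := {w | l w = c}) hc rn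
      · rfl
  obtain ⟨lam, hlam0, hlam⟩ := exists_good σ hσ hm hnm N hN
  -- factorization
  have hdvd : n ∣ Ideal.span {a₀ + m₀ * lam} := by
    rw [Ideal.dvd_span_singleton]
    exact Ideal.add_mem _ (Ideal.subset_span (by simp)) (Ideal.mul_mem_right _ _ hm₀n)
  obtain ⟨a, ha⟩ := hdvd
  have ha0 : a ≠ ⊥ := by
    intro h
    rw [h, Ideal.mul_bot] at ha
    exact hlam0 (Ideal.span_singleton_eq_bot.mp ha)
  obtain ⟨r, q0, hq0⟩ := exists_factorization a ha0
  have hq0N : ∀ i, q0 i ∉ N := by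
    intro i hi
    refine hlam (q0 i) hi ?_
    have h1 : (q0 i).asIdeal ∣ a := by
      rw [hq0]; exact Finset.dvd_prod_of_mem (fun i => (q0 i).asIdeal) (Finset.mem_univ i)
    have h2 : n * (q0 i).asIdeal ∣ Ideal.span {a₀ + m₀ * lam} := by
      rw [ha]; exact mul_dvd_mul_left n h1
    exact Ideal.dvd_span_singleton.mp h2
  obtain ⟨Q, hQC, hQS, -, hQd, hQne⟩ := exists_disjoint_pieces (K := K) (2 * (r : ℝ)) r
    (fun i => {w | l w = l (q0 i)}) (fun i => hq0N i) ∅
  -- elements for tuples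
  have hW : ∀ q : Fin r → HeightOneSpectrum (𝓞 K), ∃ x : 𝓞 K, q ∈ Fintype.piFinset Q →
      Ideal.span {a₀ + m₀ * x} = n * ∏ i, (q i).asIdeal := by
    intro q
    by_cases hq : q ∈ Fintype.piFinset Q
    · obtain ⟨x, hx⟩ := replace_fin hnm q0 q (fun i => hl _ _
        (hQC i _ (Fintype.mem_piFinset.mp hq i)).symm) lam (by rw [ha, hq0])
      exact ⟨x, fun _ => hx⟩
    · exact ⟨0, fun h => absurd h hq⟩
  choose ℓ hℓ using hW
  let y : (Fin r → HeightOneSpectrum (𝓞 K)) → 𝓞 K := fun q => n₀ * (a₀ + m₀ * ℓ q)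
  let x : (Fin r → HeightOneSpectrum (𝓞 K)) → 𝓞 K := fun q => b₀ * (a₀ + m₀ * ℓ q)
  set g : Ideal (𝓞 K) := Ideal.span {n₀} * n with hg
  have hg0 : g ≠ ⊥ := mul_ne_zero (by rw [Ne, Ideal.zero_eq_bot, Ideal.span_singleton_eq_bot]; exact hn) hn0
  have hy : ∀ q ∈ Fintype.piFinset Q, Ideal.span {y q} = g * ∏ i, (q i).asIdeal := by
    intro q hq
    show Ideal.span {n₀ * (a₀ + m₀ * ℓ q)} = _
    rw [← Ideal.span_singleton_mul_span_singleton, hℓ q hq, hg, mul_assoc]
  have hy0 : ∀ q ∈ Fintype.piFinset Q, Ideal.span {y q} ≠ ⊥ := by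
    intro q hq
    rw [hy q hq]
    refine mul_ne_zero hg0 ?_
    rw [Finset.prod_ne_zero_iff]
    exact fun i _ => (q i).ne_bot
  -- the modulus
  set P : ℕ := ∏ q ∈ Fintype.piFinset Q, Ideal.absNorm (Ideal.span {y q}) with hP
  have hPpos : 0 < P := by
    rw [hP]
    exact Finset.prod_pos fun q hq => absNorm_pos_of_ne_bot (hy0 q hq)
  have hPmem : ∀ q ∈ Fintype.piFinset Q, (P : 𝓞 K) ∈ Ideal.span {y q} := by
    intro q hq
    rw [hP, ← Finset.prod_erase_mul _ _ hq]
    push_cast
    exact Ideal.mul_mem_left _ _ (Ideal.absNorm_mem _)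
  set P₀ : Ideal (𝓞 K) := Ideal.span {(P : 𝓞 K)} with hP₀
  have hP₀ne : P₀ ≠ ⊥ := by
    rw [hP₀, Ne, Ideal.span_singleton_eq_bot, Nat.cast_eq_zero]; exact hPpos.ne'
  have hPy : ∀ q ∈ Fintype.piFinset Q, P₀ ≤ Ideal.span {y q} := by
    intro q hq
    rw [hP₀, Ideal.span_singleton_le_iff_mem]; exact hPmem q hq
  haveI : Finite (𝓞 K ⧸ P₀) := Ideal.finiteQuotientOfFreeOfNeBot P₀ hP₀ne
  haveI := Fintype.ofFinite (𝓞 K ⧸ P₀)
  have hmain := union_cosets_ge Q hQd hQS hQne g hg0 y x hy P₀ hP₀ne hPy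
  set U := (⋃ q ∈ Fintype.piFinset Q, cosetMod P₀ (x q) (Ideal.span {y q})) with hU
  -- representatives
  let R : Finset (𝓞 K) := ((Set.toFinite U).toFinset).image (fun u => Quotient.out u)
  have hout : ∀ u : 𝓞 K ⧸ P₀, Ideal.Quotient.mk P₀ (Quotient.out u) = u := fun u => Quotient.out_eq u
  have hinj : Function.Injective (fun u : 𝓞 K ⧸ P₀ => (Quotient.out u : 𝓞 K)) := by
    intro u v h
    rw [← hout u, ← hout v]
    simp only at h
    rw [h]
  refine ⟨P, hPpos, R, ?_, ?_, ?_⟩
  · intro r₁ hr₁ z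
    obtain ⟨u, hu, rfl⟩ := Finset.mem_image.mp hr₁
    rw [Set.Finite.mem_toFinset, hU] at hu
    simp only [Set.mem_iUnion] at hu
    obtain ⟨q, hq, w, hw, hwu⟩ := hu
    have h1 : Quotient.out u - w ∈ P₀ := Ideal.Quotient.eq.mp ((hout u).trans hwu.symm)
    have h2 : (Quotient.out u + P * z) - x q ∈ Ideal.span {y q} := by
      have h3 : (Quotient.out u + P * z) - x q = (Quotient.out u - w) + (w - x q) + P * z := by ring
      rw [h3]
      exact Ideal.add_mem _ (Ideal.add_mem _ (hPy q hq h1) hw) (Ideal.mul_mem_right _ _ (hPmem q hq))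
    obtain ⟨k, hk⟩ := Ideal.mem_span_singleton'.mp h2
    refine ⟨ℓ q, k, ?_⟩
    have h4 : (Quotient.out u + P * z) = x q + k * y q := by rw [hk]; ring
    rw [h4]
    simp only [x, y]
    ring
  · intro r₁ hr₁ r₂ hr₂ ⟨z, hz⟩
    obtain ⟨u, hu, rfl⟩ := Finset.mem_image.mp hr₁
    obtain ⟨v, hv, rfl⟩ := Finset.mem_image.mp hr₂
    have h1 : Quotient.out u - Quotient.out v ∈ P₀ := by
      rw [hz]; exact Ideal.mul_mem_right _ _ (Ideal.mem_span_singleton_self _)
    have h2 := Ideal.Quotient.eq.mpr h1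
    rw [hout, hout] at h2
    rw [h2]
  · have h1 : R.card = U.ncard := by
      have h3 : R.card = ((Set.toFinite U).toFinset).card := Finset.card_image_of_injective _ hinj
      rw [h3, ← Set.ncard_eq_toFinset_card]
    rw [h1]
    have h2 := absNorm_nat σ hσ P
    rw [← hP₀] at h2
    rw [h2] at hmain
    rw [hg, map_mul] at hmain
    push_cast at hmain
    linarith

end Pool.Agent.Work.MP_67f4ac_gt
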