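import Mathlib
import Pool.Agent.Work.MP_67f4ac_gt.Defs

set_option autoImplicit false
set_option linter.all false

namespace Pool.Agent.Work.MP_67f4ac_gt

open Filter Topology

lemma mul00 (g h : SL2C) : (g * h).1 0 0 = g.1 0 0 * h.1 0 0 + g.1 0 1 * h.1 1 0 := by
  rw [Matrix.SpecialLinearGroup.coe_mul, Matrix.mul_apply, Fin.sum_univ_two]
lemma mul01 (g h : SL2C) : (g * h).1 0 1 = g.1 0 0 * h.1 0 1 + g.1 0 1 * h.1 1 1 := by
  rw [Matrix.SpecialLinearGroup.coe_mul, Matrix.mul_apply, Fin.sum_univ_two]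
lemma mul10 (g h : SL2C) : (g * h).1 1 0 = g.1 1 0 * h.1 0 0 + g.1 1 1 * h.1 1 0 := by
  rw [Matrix.SpecialLinearGroup.coe_mul, Matrix.mul_apply, Fin.sum_univ_two]
lemma mul11 (g h : SL2C) : (g * h).1 1 1 = g.1 1 0 * h.1 0 1 + g.1 1 1 * h.1 1 1 := by
  rw [Matrix.SpecialLinearGroup.coe_mul, Matrix.mul_apply, Fin.sum_univ_two]

lemma det_eq (g : SL2C) : g.1 0 0 * g.1 1 1 - g.1 0 1 * g.1 1 0 = 1 := by
  have := g.2
  rwa [Matrix.det_fin_two] at this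

lemma inv00 (g : SL2C) : (g⁻¹).1 0 0 = g.1 1 1 := by
  rw [Matrix.SpecialLinearGroup.coe_inv, Matrix.adjugate_fin_two]; rfl
lemma inv01 (g : SL2C) : (g⁻¹).1 0 1 = - g.1 0 1 := by
  rw [Matrix.SpecialLinearGroup.coe_inv, Matrix.adjugate_fin_two]; rfl
lemma inv10 (g : SL2C) : (g⁻¹).1 1 0 = - g.1 1 0 := by
  rw [Matrix.SpecialLinearGroup.coe_inv, Matrix.adjugate_fin_two]; rfl
lemma inv11 (g : SL2C) : (g⁻¹).1 1 1 = g.1 0 0 := by
  rw [Matrix.SpecialLinearGroup.coe_inv, Matrix.adjugate_fin_two]; rfl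

lemma T00 (w : ℂ) : (T w).1 0 0 = 1 := rfl
lemma T01 (w : ℂ) : (T w).1 0 1 = w := rfl
lemma T10 (w : ℂ) : (T w).1 1 0 = 0 := rfl
lemma T11 (w : ℂ) : (T w).1 1 1 = 1 := rfl

lemma sl_ext {g h : SL2C} (h00 : g.1 0 0 = h.1 0 0) (h01 : g.1 0 1 = h.1 0 1)
    (h10 : g.1 1 0 = h.1 1 0) (h11 : g.1 1 1 = h.1 1 1) : g = h := by
  apply Subtype.ext
  ext i j
  fin_cases i <;> fin_cases j
  · exact h00
  · exact h01
  · exact h10
  · exact h11

lemma T_add (a b : ℂ) : T (a + b) = T a * T b := by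
  apply sl_ext
  · rw [mul00, T00, T00, T00, T01, T10]; ring
  · rw [mul01, T01, T00, T01, T01, T11]; ring
  · rw [mul10, T10, T00, T10, T11, T10]; ring
  · rw [mul11, T11, T11, T10, T11]; ring

lemma T_zero : T 0 = 1 := by
  apply sl_ext
  · rw [T00]; rfl
  · rw [T01]; rfl
  · rw [T10]; rfl
  · rw [T11]; rfl

lemma T_neg (a : ℂ) : T (-a) = (T a)⁻¹ := by
  rw [eq_inv_iff_mul_eq_one, ← T_add, neg_add_cancel, T_zero]

lemma T_natmul_mem (G : Subgroup SL2C) (a : ℂ) (h : T a ∈ G) (n : ℕ) : T (n * a) ∈ G := by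
  induction n with
  | zero => simpa [T_zero] using G.one_mem
  | succ k ih =>
    have : ((k + 1 : ℕ) : ℂ) * a = k * a + a := by push_cast; ring
    rw [this, T_add]
    exact G.mul_mem ih h

lemma T_intmul_mem (G : Subgroup SL2C) (a : ℂ) (h : T a ∈ G) (n : ℤ) : T (n * a) ∈ G := by
  obtain ⟨k, rfl | rfl⟩ := n.eq_nat_or_neg
  · simpa using T_natmul_mem G a h k
  · have : (((-(k : ℤ)) : ℤ) : ℂ) * a = -(k * a) := by push_cast; ring
    rw [this, T_neg]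
    exact G.inv_mem (T_natmul_mem G a h k)

lemma T_lattice_mem (G : Subgroup SL2C) (ω : ℂ) (h1 : T 1 ∈ G) (h2 : T ω ∈ G) (m n : ℤ) :
    T (m + n * ω) ∈ G := by
  rw [T_add]
  refine G.mul_mem ?_ (T_intmul_mem G ω h2 n)
  have := T_intmul_mem G 1 h1 m
  rwa [mul_one] at this

lemma tr_mul_T (g : SL2C) (μ : ℂ) : tr (g * T μ) = tr g + g.1 1 0 * μ := by
  unfold tr
  rw [mul00, mul11, T00, T01, T10, T11]; ring

/-- the rational span of the lattice -/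
noncomputable def V (ω : ℂ) : Submodule ℚ ℂ := Submodule.span ℚ {1, ω}

lemma mem_V {ω z : ℂ} : z ∈ V ω ↔ ∃ p q : ℚ, z = p + q * ω := by
  unfold V
  rw [Submodule.mem_span_pair]
  constructor
  · rintro ⟨a, b, h⟩
    refine ⟨a, b, ?_⟩
    rw [← h, Rat.smul_def, Rat.smul_def, mul_one]
  · rintro ⟨a, b, h⟩
    refine ⟨a, b, ?_⟩
    rw [h, Rat.smul_def, Rat.smul_def, mul_one]

lemma lattice_mem_V (ω : ℂ) (m n : ℤ) : (m : ℂ) + n * ω ∈ V ω :=
  mem_V.mpr ⟨m, n, by push_cast; rfl⟩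

lemma smulQ_mem_V {ω z : ℂ} (q : ℚ) (h : z ∈ V ω) : (q : ℂ) * z ∈ V ω := by
  rw [← Rat.smul_def]
  exact (V ω).smul_mem q h

lemma V_indep {ω : ℂ} (hω : ω.im ≠ 0) {p q : ℚ} (h : (p : ℂ) + q * ω = 0) : p = 0 ∧ q = 0 := by
  have h1 := congrArg Complex.im h
  simp at h1
  have h2 : q = 0 := by
    rcases h1 with h1 | h1
    · exact h1
    · exact absurd h1 hω
  subst h2
  simp at h
  exact ⟨h, rfl⟩

lemma V_fin (ω : ℂ) : FiniteDimensional ℚ (V ω) := by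
  unfold V
  exact FiniteDimensional.span_of_finite ℚ (Set.toFinite _)

/-- if multiplication by `k` preserves `V ω` and `k ≠ 0` then division by `k` also does. -/
lemma V_div {ω : ℂ} {k : ℂ} (hk : k ≠ 0) (h1 : k ∈ V ω) (h2 : k * ω ∈ V ω) {z : ℂ} (hz : z ∈ V ω) :
    z / k ∈ V ω := by
  haveI := V_fin ω
  have hpres : ∀ x ∈ V ω, k * x ∈ V ω := by
    intro x hx
    obtain ⟨p, q, rfl⟩ := mem_V.mp hx
    have : k * (p + q * ω) = p * k + q * (k * ω) := by ring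
    rw [this]
    exact add_mem (smulQ_mem_V p h1) (smulQ_mem_V q h2)
  let F : V ω →ₗ[ℚ] V ω := (LinearMap.mulLeft ℚ k).restrict hpres
  have hinj : Function.Injective F := by
    intro x y hxy
    have := congrArg Subtype.val hxy
    apply Subtype.ext
    exact mul_left_cancel₀ hk this
  have hsurj := LinearMap.surjective_of_injective hinj
  obtain ⟨x, hx⟩ := hsurj ⟨z, hz⟩
  have h3 : k * x.1 = z := congrArg Subtype.val hx
  rw [← h3, mul_div_cancel_left₀ _ hk]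
  exact x.2

end Pool.Agent.Work.MP_67f4ac_gt
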