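import Mathlib
import Pool.Agent.Work.MP_67f4ac_gt.Defs

set_option autoImplicit false
set_option linter.all false

namespace Pool.Agent.Work.MP_67f4ac_gt

open Filter Topology

/-- statement of module B1 -/
def SieveStatement : Prop :=
  ∀ (K : Type) [Field K] [CharZero K] (hK : (⊤ : IntermediateField ℚ K).FG)
    (t t' c c' w w' : K) (hD : c * c' * (w - w') ≠ 0) (ε : ℝ) (hε : 0 < ε),
    ∀ᶠ M : ℕ in atTop,
      (Set.ncard {p : ℤ × ℤ | |p.1| ≤ M ∧ |p.2| ≤ M ∧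
        ∃ y : K, y ^ 2 = ((t + c * (p.1 + p.2 * w)) ^ 2 - 4) * ((t' + c' * (p.1 + p.2 * w')) ^ 2 - 4)} : ℝ)
        ≤ ε * (M : ℝ) ^ 2

/-- the four-to-one lemma: if `‖τ²-4‖` is not in the field then `f` determines `τ` up to sign and
conjugation. -/
lemma four_to_one (K : IntermediateField ℚ ℂ) {τ τ' : ℂ} (h1 : τ ∈ K) (h2 : (starRingEnd ℂ) τ ∈ K)
    (h3 : τ' ∈ K) (h4 : (starRingEnd ℂ) τ' ∈ K) (hgood : ((‖τ ^ 2 - 4‖ : ℝ) : ℂ) ∉ K)
    (hf : f τ = f τ') : τ' = τ ∨ τ' = -τ ∨ τ' = (starRingEnd ℂ) τ ∨ τ' = -(starRingEnd ℂ) τ := by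
  set s : ℝ := ‖τ ^ 2 - 4‖ with hs
  set s' : ℝ := ‖τ' ^ 2 - 4‖ with hs'
  have e1 : ((‖τ‖ ^ 2 : ℝ) : ℂ) = τ * (starRingEnd ℂ) τ := by
    rw [Complex.mul_conj, Complex.normSq_eq_norm_sq]
  have e2 : ((‖τ'‖ ^ 2 : ℝ) : ℂ) = τ' * (starRingEnd ℂ) τ' := by
    rw [Complex.mul_conj, Complex.normSq_eq_norm_sq]
  have e3 : ((s ^ 2 : ℝ) : ℂ) = (τ ^ 2 - 4) * ((starRingEnd ℂ) τ ^ 2 - 4) := by
    have : ((s ^ 2 : ℝ) : ℂ) = (τ ^ 2 - 4) * (starRingEnd ℂ) (τ ^ 2 - 4) := by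
      rw [Complex.mul_conj, Complex.normSq_eq_norm_sq]
    rw [this, map_sub, map_pow, map_ofNat]
  have e4 : ((s' ^ 2 : ℝ) : ℂ) = (τ' ^ 2 - 4) * ((starRingEnd ℂ) τ' ^ 2 - 4) := by
    have : ((s' ^ 2 : ℝ) : ℂ) = (τ' ^ 2 - 4) * (starRingEnd ℂ) (τ' ^ 2 - 4) := by
      rw [Complex.mul_conj, Complex.normSq_eq_norm_sq]
    rw [this, map_sub, map_pow, map_ofNat]
  -- k = ‖τ‖² - ‖τ'‖²
  set k : ℝ := ‖τ‖ ^ 2 - ‖τ'‖ ^ 2 with hk
  have hkK : (k : ℂ) ∈ K := by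
    have : (k : ℂ) = τ * (starRingEnd ℂ) τ - τ' * (starRingEnd ℂ) τ' := by
      rw [hk, ← e1, ← e2]; push_cast; ring
    rw [this]; exact sub_mem (mul_mem h1 h2) (mul_mem h3 h4)
  have h4K : (4 : ℂ) ∈ K := by
    have := K.algebraMap_mem 4
    simpa using this
  have hs2K : ((s ^ 2 : ℝ) : ℂ) ∈ K := by
    rw [e3]; exact mul_mem (sub_mem (pow_mem h1 2) h4K) (sub_mem (pow_mem h2 2) h4K)
  have hs'2K : ((s' ^ 2 : ℝ) : ℂ) ∈ K := by
    rw [e4]; exact mul_mem (sub_mem (pow_mem h3 2) h4K) (sub_mem (pow_mem h4 2) h4K)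
  have hss : s' = s + k := by
    unfold f at hf
    rw [hk, hs, hs']; linarith
  have hk0 : k = 0 := by
    by_contra hk0
    apply hgood
    have h5 : (s : ℂ) = (((s' ^ 2 : ℝ) : ℂ) - ((s ^ 2 : ℝ) : ℂ) - (k : ℂ) ^ 2) * (2 * (k : ℂ))⁻¹ := by
      have hkc : (k : ℂ) ≠ 0 := by exact_mod_cast hk0
      rw [hss]
      push_cast
      field_simp
      ring
    rw [h5]
    have h2K : (2 : ℂ) ∈ K := by
      have := K.algebraMap_mem 2
      simpa using this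
    exact mul_mem (sub_mem (sub_mem hs'2K hs2K) (pow_mem hkK 2)) (inv_mem (mul_mem h2K hkK))
  have hn : ‖τ‖ ^ 2 = ‖τ'‖ ^ 2 := by linarith
  have hs3 : s' = s := by rw [hss, hk0, add_zero]
  -- conj sums
  have h6 : τ * (starRingEnd ℂ) τ = τ' * (starRingEnd ℂ) τ' := by rw [← e1, ← e2, hn]
  have h7 : (τ ^ 2 - 4) * ((starRingEnd ℂ) τ ^ 2 - 4) = (τ' ^ 2 - 4) * ((starRingEnd ℂ) τ' ^ 2 - 4) := by
    rw [← e3, ← e4, hs3]
  have h8 : τ ^ 2 + (starRingEnd ℂ) τ ^ 2 = τ' ^ 2 + (starRingEnd ℂ) τ' ^ 2 := by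
    have h9 : (τ * (starRingEnd ℂ) τ) ^ 2 = (τ' * (starRingEnd ℂ) τ') ^ 2 := by rw [h6]
    linear_combination (-1 / 4 : ℂ) * h7 + (1 / 4 : ℂ) * h9
  have h10 : (τ' ^ 2 - τ ^ 2) * (τ' ^ 2 - (starRingEnd ℂ) τ ^ 2) = 0 := by
    have h9 : (τ * (starRingEnd ℂ) τ) ^ 2 = (τ' * (starRingEnd ℂ) τ') ^ 2 := by rw [h6]
    linear_combination (-τ' ^ 2) * h8 + h9
  rcases mul_eq_zero.mp h10 with h | h
  · have : (τ' - τ) * (τ' + τ) = 0 := by linear_combination h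
    rcases mul_eq_zero.mp this with h' | h'
    · left; linear_combination h'
    · right; left; linear_combination h'
  · have : (τ' - (starRingEnd ℂ) τ) * (τ' + (starRingEnd ℂ) τ) = 0 := by linear_combination h
    rcases mul_eq_zero.mp this with h' | h'
    · right; right; left; linear_combination h'
    · right; right; right; linear_combination h'

/-- coordinates of a point `m + n ω` are bounded by its norm -/
lemma coord_bound (ω : ℂ) (hω : ω.im ≠ 0) : ∃ κ : ℝ, 0 < κ ∧ ∀ m n : ℤ,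
    |(m : ℝ)| ≤ κ * ‖(m : ℂ) + n * ω‖ ∧ |(n : ℝ)| ≤ κ * ‖(m : ℂ) + n * ω‖ := by
  have hω' : 0 < |ω.im| := abs_pos.mpr hω
  refine ⟨1 + (1 + ‖ω‖) / |ω.im|, by positivity, fun m n => ?_⟩
  set z : ℂ := (m : ℂ) + n * ω with hz
  have h1 : z.im = n * ω.im := by simp [hz]
  have h2 : |(n : ℝ)| ≤ ‖z‖ / |ω.im| := by
    rw [le_div_iff₀ hω', ← abs_mul, ← h1]
    exact Complex.abs_im_le_norm z
  have h3 : |(m : ℝ)| ≤ ‖z‖ + |(n : ℝ)| * ‖ω‖ := by
    have : (m : ℂ) = z - n * ω := by rw [hz]; ring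
    have h4 : ‖(m : ℂ)‖ ≤ ‖z‖ + ‖(n : ℂ) * ω‖ := by rw [this]; exact norm_sub_le _ _
    rwa [norm_mul, Complex.norm_intCast, Complex.norm_intCast] at h4
  have hz0 := norm_nonneg z
  have hw0 := norm_nonneg ω
  have h5 : (1 + (1 + ‖ω‖) / |ω.im|) * ‖z‖ = ‖z‖ + ‖z‖ / |ω.im| + ‖ω‖ * (‖z‖ / |ω.im|) := by
    field_simp
    ring
  have h6 : 0 ≤ ‖z‖ / |ω.im| := by positivity
  constructor
  · rw [h5]
    nlinarith
  · rw [h5]
    nlinarith

lemma W_finite {ι : Type} [Fintype ι] (ω : ℂ) (hω : ω.im ≠ 0) (t c : ι → ℂ) (hc : ∀ i, c i ≠ 0) (X : ℝ) :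
    (W ω t c X).Finite := by
  obtain ⟨κ, hκ, hb⟩ := coord_bound ω hω
  have : W ω t c X ⊆ ⋃ i, (fun p : ℤ × ℤ => t i + c i * (p.1 + p.2 * ω)) ''
      {p : ℤ × ℤ | |p.1| ≤ ⌈κ * ((X + ‖t i‖) / ‖c i‖)⌉₊ ∧ |p.2| ≤ ⌈κ * ((X + ‖t i‖) / ‖c i‖)⌉₊} := by
    rintro τ ⟨hX, i, m, n, rfl⟩
    rw [Set.mem_iUnion]
    refine ⟨i, (m, n), ?_, rfl⟩
    have hci : 0 < ‖c i‖ := norm_pos_iff.mpr (hc i)
    have h1 : ‖(m : ℂ) + n * ω‖ ≤ (X + ‖t i‖) / ‖c i‖ := by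
      rw [le_div_iff₀ hci, mul_comm, ← norm_mul]
      have : c i * ((m : ℂ) + n * ω) = (t i + c i * (m + n * ω)) - t i := by ring
      rw [this]
      exact (norm_sub_le _ _).trans (by linarith)
    have h2 := hb m n
    have key : ∀ k : ℤ, |(k : ℝ)| ≤ κ * ‖(m : ℂ) + n * ω‖ → |k| ≤ ⌈κ * ((X + ‖t i‖) / ‖c i‖)⌉₊ := by
      intro k hk
      have h3 : |(k : ℝ)| ≤ κ * ((X + ‖t i‖) / ‖c i‖) := hk.trans (mul_le_mul_of_nonneg_left h1 hκ.le)
      have h4 := h3.trans (Nat.le_ceil _)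
      exact_mod_cast h4
    exact ⟨key m h2.1, key n h2.2⟩
  refine (Set.finite_iUnion fun i => Set.Finite.image _ ?_).subset this
  refine (Set.Finite.subset ((Set.finite_Icc (-(⌈κ * ((X + ‖t i‖) / ‖c i‖)⌉₊ : ℤ))
    ⌈κ * ((X + ‖t i‖) / ‖c i‖)⌉₊).prod (Set.finite_Icc (-(⌈κ * ((X + ‖t i‖) / ‖c i‖)⌉₊ : ℤ))
    ⌈κ * ((X + ‖t i‖) / ‖c i‖)⌉₊)) ?_)
  rintro ⟨m, n⟩ ⟨h1, h2⟩
  exact ⟨⟨(abs_le.mp h1).1, (abs_le.mp h1).2⟩, ⟨(abs_le.mp h2).1, (abs_le.mp h2).2⟩⟩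

lemma f_le (τ : ℂ) : f τ ≤ 2 * ‖τ‖ ^ 2 + 4 := by
  unfold f
  have h1 : ‖τ ^ 2 - 4‖ ≤ ‖τ ^ 2‖ + ‖(4 : ℂ)‖ := norm_sub_le _ _
  rw [norm_pow] at h1
  have h2 : ‖(4 : ℂ)‖ = 4 := by simp
  rw [h2] at h1
  linarith

/-- the good part of `W` is bounded by four times the number of values. -/
lemma good_card (K : IntermediateField ℚ ℂ) (G : Set ℝ) (hG : G.Finite) (A : Set ℂ) (hA : A.Finite)
    (hAK : ∀ τ ∈ A, τ ∈ K ∧ (starRingEnd ℂ) τ ∈ K ∧ ((‖τ ^ 2 - 4‖ : ℝ) : ℂ) ∉ K)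
    (hAG : ∀ τ ∈ A, f τ ∈ G) : A.ncard ≤ 4 * G.ncard := by
  classical
  rw [Set.ncard_eq_toFinset_card A hA, Set.ncard_eq_toFinset_card G hG]
  refine Finset.card_le_mul_card_image_of_maps_to (f := f) ?_ 4 ?_
  · intro τ hτ
    rw [Set.Finite.mem_toFinset] at hτ ⊢
    exact hAG τ hτ
  · intro v hv
    rcases (hA.toFinset.filter (fun τ => f τ = v)).eq_empty_or_nonempty with h | ⟨τ, hτ⟩
    · rw [h]; simp
    · have hτ' := hτ
      rw [Finset.mem_filter, Set.Finite.mem_toFinset] at hτ'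
      have hsub : hA.toFinset.filter (fun τ => f τ = v) ⊆
          ({τ, -τ, (starRingEnd ℂ) τ, -(starRingEnd ℂ) τ} : Finset ℂ) := by
        intro σ hσ
        rw [Finset.mem_filter, Set.Finite.mem_toFinset] at hσ
        obtain ⟨h1, h2, h3⟩ := hAK τ hτ'.1
        obtain ⟨h4, h5, _⟩ := hAK σ hσ.1
        have := four_to_one K h1 h2 h4 h5 h3 (hτ'.2.trans hσ.2.symm)
        simp only [Finset.mem_insert, Finset.mem_singleton]
        exact this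
      refine (Finset.card_le_card hsub).trans ?_
      exact Finset.card_le_four

theorem star (hs : SieveStatement) (G : Subgroup SL2C) (ω : ℂ) (hω : ω.im ≠ 0) (hG : BoundedGrowth G) :
    ∃ D : ℝ, ∀ (ι : Type) [Fintype ι] (t c : ι → ℂ), (∀ i, c i ≠ 0) →
      (∀ i (m n : ℤ), ∃ g ∈ G, tr g = t i + c i * (m + n * ω)) →
      ∃ᶠ X : ℝ in atTop, ((W ω t c X).ncard : ℝ) ≤ D * X ^ 2 := by
  classical
  obtain ⟨C, hC⟩ := hG
  refine ⟨8 * |C| + 1, fun ι _ t c hc hg => ?_⟩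
  obtain ⟨κ, hκ, hb⟩ := coord_bound ω hω
  -- the field
  set S : Set ℂ := Set.range t ∪ Set.range (fun i => (starRingEnd ℂ) (t i)) ∪ Set.range c
    ∪ Set.range (fun i => (starRingEnd ℂ) (c i)) ∪ {ω, (starRingEnd ℂ) ω} with hS
  have hSfin : S.Finite := by
    rw [hS]
    exact ((((Set.finite_range _).union (Set.finite_range _)).union (Set.finite_range _)).union
      (Set.finite_range _)).union (Set.toFinite _)
  set K : IntermediateField ℚ ℂ := IntermediateField.adjoin ℚ S with hK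
  have hSK : S ⊆ K := IntermediateField.subset_adjoin ℚ S
  have hKfg : (⊤ : IntermediateField ℚ K).FG := by
    rw [IntermediateField.fg_top_iff]
    have h := (IntermediateField.essFiniteType_iff (K := K)).mpr (IntermediateField.fg_adjoin_of_finite hSfin)
    convert h
    exact Subsingleton.elim _ _
  have htK : ∀ i, t i ∈ K := fun i => hSK (by rw [hS]; simp)
  have htK' : ∀ i, (starRingEnd ℂ) (t i) ∈ K := fun i => hSK (by rw [hS]; simp)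
  have hcK : ∀ i, c i ∈ K := fun i => hSK (by rw [hS]; simp)
  have hcK' : ∀ i, (starRingEnd ℂ) (c i) ∈ K := fun i => hSK (by rw [hS]; simp)
  have hωK : ω ∈ K := hSK (by rw [hS]; simp)
  have hωK' : (starRingEnd ℂ) ω ∈ K := hSK (by rw [hS]; simp)
  have hτK : ∀ i (m n : ℤ), t i + c i * (m + n * ω) ∈ K := fun i m n =>
    add_mem (htK i) (mul_mem (hcK i) (add_mem (intCast_mem K m) (mul_mem (intCast_mem K n) hωK)))
  have hconj : ∀ i (m n : ℤ), (starRingEnd ℂ) (t i + c i * (m + n * ω)) =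
      (starRingEnd ℂ) (t i) + (starRingEnd ℂ) (c i) * (m + n * (starRingEnd ℂ) ω) := by
    intro i m n
    simp only [map_add, map_mul, map_intCast]
  have hτK' : ∀ i (m n : ℤ), (starRingEnd ℂ) (t i + c i * (m + n * ω)) ∈ K := fun i m n => by
    rw [hconj]
    exact add_mem (htK' i) (mul_mem (hcK' i) (add_mem (intCast_mem K m) (mul_mem (intCast_mem K n) hωK')))
  -- the sieve
  set N : ℝ := Fintype.card ι + 1 with hN
  have hN0 : 0 < N := by positivity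
  set A : ι → ℝ := fun i => 2 * κ / ‖c i‖ + 1 with hA
  have hci : ∀ i, 0 < ‖c i‖ := fun i => norm_pos_iff.mpr (hc i)
  have hA0 : ∀ i, 0 < A i := fun i => by
    have := hci i
    rw [hA]; positivity
  set Bad : ι → ℕ → Set (ℤ × ℤ) := fun i M => {p : ℤ × ℤ | |p.1| ≤ M ∧ |p.2| ≤ M ∧
    ((‖(t i + c i * (p.1 + p.2 * ω)) ^ 2 - 4‖ : ℝ) : ℂ) ∈ K} with hBad
  have hBadfin : ∀ i M, (Bad i M).Finite := by
    intro i M
    refine Set.Finite.subset ((Set.finite_Icc (-(M : ℤ)) M).prod (Set.finite_Icc (-(M : ℤ)) M)) ?_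
    rintro ⟨m, n⟩ ⟨h1, h2, _⟩
    exact ⟨⟨(abs_le.mp h1).1, (abs_le.mp h1).2⟩, ⟨(abs_le.mp h2).1, (abs_le.mp h2).2⟩⟩
  have hsieve : ∀ i, ∀ᶠ M : ℕ in atTop, ((Bad i M).ncard : ℝ) ≤ (1 / (N * A i ^ 2)) * (M : ℝ) ^ 2 := by
    intro i
    have hD : (⟨c i, hcK i⟩ : K) * ⟨(starRingEnd ℂ) (c i), hcK' i⟩ * (⟨ω, hωK⟩ - ⟨(starRingEnd ℂ) ω, hωK'⟩) ≠ 0 := by
      refine mul_ne_zero (mul_ne_zero ?_ ?_) ?_
      · intro h; exact hc i (congrArg Subtype.val h)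
      · intro h
        have := congrArg Subtype.val h
        exact hc i (by simpa using this)
      · intro h
        have h1 := congrArg Subtype.val (sub_eq_zero.mp h)
        have h2 := congrArg Complex.im h1
        simp only [Complex.conj_im] at h2
        exact hω (by linarith)
    have h1 := hs K hKfg ⟨t i, htK i⟩ ⟨(starRingEnd ℂ) (t i), htK' i⟩ ⟨c i, hcK i⟩
      ⟨(starRingEnd ℂ) (c i), hcK' i⟩ ⟨ω, hωK⟩ ⟨(starRingEnd ℂ) ω, hωK'⟩ hD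
      (1 / (N * A i ^ 2)) (by have := hA0 i; positivity)
    filter_upwards [h1] with M hM
    refine le_trans ?_ hM
    have hsub : Bad i M ⊆ {p : ℤ × ℤ | |p.1| ≤ M ∧ |p.2| ≤ M ∧
        ∃ y : K, y ^ 2 = (((⟨t i, htK i⟩ : K) + ⟨c i, hcK i⟩ * (p.1 + p.2 * ⟨ω, hωK⟩)) ^ 2 - 4) *
          (((⟨(starRingEnd ℂ) (t i), htK' i⟩ : K) + ⟨(starRingEnd ℂ) (c i), hcK' i⟩ *
            (p.1 + p.2 * ⟨(starRingEnd ℂ) ω, hωK'⟩)) ^ 2 - 4)} := by
      rintro ⟨m, n⟩ ⟨h1, h2, h3⟩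
      refine ⟨h1, h2, ⟨_, h3⟩, ?_⟩
      apply Subtype.ext
      have h5 : (((‖(t i + c i * (m + n * ω)) ^ 2 - 4‖ : ℝ) : ℂ)) ^ 2 =
          ((t i + c i * (m + n * ω)) ^ 2 - 4) * (((starRingEnd ℂ) (t i) + (starRingEnd ℂ) (c i) *
            (m + n * (starRingEnd ℂ) ω)) ^ 2 - 4) := by
        rw [← hconj]
        have : (starRingEnd ℂ) (t i + c i * (m + n * ω)) ^ 2 - 4 =
            (starRingEnd ℂ) ((t i + c i * (m + n * ω)) ^ 2 - 4) := by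
          rw [map_sub, map_pow, map_ofNat]
        rw [this, Complex.mul_conj, Complex.normSq_eq_norm_sq]
        push_cast
        rfl
      exact h5
    have hfin : {p : ℤ × ℤ | |p.1| ≤ M ∧ |p.2| ≤ M ∧
        ∃ y : K, y ^ 2 = (((⟨t i, htK i⟩ : K) + ⟨c i, hcK i⟩ * (p.1 + p.2 * ⟨ω, hωK⟩)) ^ 2 - 4) *
          (((⟨(starRingEnd ℂ) (t i), htK' i⟩ : K) + ⟨(starRingEnd ℂ) (c i), hcK' i⟩ *
            (p.1 + p.2 * ⟨(starRingEnd ℂ) ω, hωK'⟩)) ^ 2 - 4)}.Finite := by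
      refine Set.Finite.subset ((Set.finite_Icc (-(M : ℤ)) M).prod (Set.finite_Icc (-(M : ℤ)) M)) ?_
      rintro ⟨m, n⟩ ⟨h1, h2, _⟩
      exact ⟨⟨(abs_le.mp h1).1, (abs_le.mp h1).2⟩, ⟨(abs_le.mp h2).1, (abs_le.mp h2).2⟩⟩
    exact_mod_cast Set.ncard_le_ncard hsub hfin
  -- the scale
  set Mf : ι → ℝ → ℕ := fun i X => ⌈κ * ((X + ‖t i‖) / ‖c i‖)⌉₊ with hMf
  have hMtend : ∀ i, Tendsto (Mf i) atTop atTop := by
    intro i
    refine tendsto_nat_ceil_atTop.comp ?_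
    refine Tendsto.const_mul_atTop hκ ?_
    refine Tendsto.atTop_div_const (hci i) ?_
    exact tendsto_atTop_add_const_right _ _ tendsto_id
  have hMle : ∀ i, ∀ᶠ X : ℝ in atTop, ((Mf i X : ℕ) : ℝ) ≤ A i * X := by
    intro i
    filter_upwards [eventually_ge_atTop (max ‖t i‖ 1)] with X hX
    have hX1 : 1 ≤ X := (le_max_right _ _).trans hX
    have hXt : ‖t i‖ ≤ X := (le_max_left _ _).trans hX
    have hci' := hci i
    have h1 : 0 ≤ κ * ((X + ‖t i‖) / ‖c i‖) := by positivity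
    have h2 := (Nat.ceil_lt_add_one h1).le
    refine h2.trans ?_
    have h3 : (X + ‖t i‖) / ‖c i‖ ≤ (2 * X) / ‖c i‖ := by
      apply div_le_div_of_nonneg_right _ hci'.le
      linarith
    have h4 : κ * ((X + ‖t i‖) / ‖c i‖) ≤ κ * ((2 * X) / ‖c i‖) := mul_le_mul_of_nonneg_left h3 hκ.le
    have h5 : A i * X = κ * ((2 * X) / ‖c i‖) + X := by
      rw [hA]; field_simp
    rw [h5]; linarith
  have hbad : ∀ᶠ X : ℝ in atTop, (∑ i, ((Bad i (Mf i X)).ncard : ℝ)) ≤ X ^ 2 := by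
    have h1 : ∀ᶠ X : ℝ in atTop, ∀ i, ((Bad i (Mf i X)).ncard : ℝ) ≤ (1 / N) * X ^ 2 := by
      rw [Filter.eventually_all]
      intro i
      filter_upwards [(hMtend i).eventually (hsieve i), hMle i, eventually_ge_atTop 0] with X h1 h2 h3
      refine h1.trans ?_
      have h4 : ((Mf i X : ℕ) : ℝ) ^ 2 ≤ (A i * X) ^ 2 := by
        apply pow_le_pow_left₀ (by positivity) h2
      have hAi := hA0 i
      calc (1 / (N * A i ^ 2)) * ((Mf i X : ℕ) : ℝ) ^ 2 ≤ (1 / (N * A i ^ 2)) * (A i * X) ^ 2 :=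
            mul_le_mul_of_nonneg_left h4 (by positivity)
        _ = (1 / N) * X ^ 2 := by field_simp
    filter_upwards [h1] with X hX
    calc (∑ i, ((Bad i (Mf i X)).ncard : ℝ)) ≤ ∑ i : ι, (1 / N) * X ^ 2 := Finset.sum_le_sum fun i _ => hX i
      _ = (Fintype.card ι / N) * X ^ 2 := by
          rw [Finset.sum_const, Finset.card_univ, nsmul_eq_mul]; ring
      _ ≤ 1 * X ^ 2 := by
          apply mul_le_mul_of_nonneg_right _ (by positivity)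
          rw [div_le_one hN0, hN]; linarith
      _ = X ^ 2 := one_mul _
  -- the counting scale
  set Xn : ℕ → ℝ := fun n => Real.sqrt (2 * Real.cosh n - 2) with hXn
  have hXtend : Tendsto Xn atTop atTop := by
    have h1 : Tendsto (fun n : ℕ => 2 * Real.cosh n - 2) atTop atTop := by
      refine tendsto_atTop_mono (f := fun n : ℕ => (n : ℝ) - 1) ?_ ?_
      · intro n
        have h2 : Real.exp (n : ℝ) ≥ n + 1 := Real.add_one_le_exp _
        have h3 : 2 * Real.cosh n = Real.exp n + Real.exp (-n) := by rw [Real.cosh_eq]; ring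
        have h4 := Real.exp_pos (-(n : ℝ))
        show (n : ℝ) - 1 ≤ 2 * Real.cosh n - 2
        linarith
      · exact tendsto_atTop_add_const_right _ _ tendsto_natCast_atTop_atTop
    exact (Real.tendsto_sqrt_atTop).comp h1
  have hev : ∀ᶠ n : ℕ in atTop, (∑ i, ((Bad i (Mf i (Xn n))).ncard : ℝ)) ≤ (Xn n) ^ 2 ∧ 2 ≤ Xn n :=
    (hXtend.eventually hbad).and (hXtend.eventually (eventually_ge_atTop 2))
  refine hXtend.frequently ((hC.and_eventually hev).mono ?_)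
  rintro n ⟨⟨hfinV, hcardV⟩, hbadn, hX2⟩
  set X : ℝ := Xn n with hX
  set V : Set ℝ := {v : ℝ | v ≤ 4 * Real.cosh n ∧ ∃ g ∈ G, v = f (tr g)} with hV
  have hXsq : X ^ 2 = 2 * Real.cosh n - 2 := by
    rw [hX, hXn]
    refine Real.sq_sqrt ?_
    have := Real.one_le_cosh n
    linarith
  set Wg : Set ℂ := {τ | τ ∈ W ω t c X ∧ ((‖τ ^ 2 - 4‖ : ℝ) : ℂ) ∉ K} with hWg
  set Wb : Set ℂ := {τ | τ ∈ W ω t c X ∧ ((‖τ ^ 2 - 4‖ : ℝ) : ℂ) ∈ K} with hWb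
  have hWfin := W_finite ω hω t c hc X
  have hWu : W ω t c X = Wg ∪ Wb := by
    ext τ
    simp only [hWg, hWb, Set.mem_union, Set.mem_setOf_eq]
    tauto
  have h1 : (W ω t c X).ncard ≤ Wg.ncard + Wb.ncard := by
    rw [hWu]; exact Set.ncard_union_le _ _
  have hWgfin : Wg.Finite := hWfin.subset fun τ h => h.1
  have hWg4 : Wg.ncard ≤ 4 * V.ncard := by
    refine good_card K V hfinV Wg hWgfin ?_ ?_
    · rintro τ ⟨⟨_, i, m, n, rfl⟩, h2⟩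
      exact ⟨hτK i m n, hτK' i m n, h2⟩
    · rintro τ ⟨⟨hn, i, m, n', rfl⟩, h2⟩
      refine ⟨?_, ?_⟩
      · refine (f_le _).trans ?_
        have : ‖t i + c i * (m + n' * ω)‖ ^ 2 ≤ X ^ 2 := pow_le_pow_left₀ (norm_nonneg _) hn 2
        rw [hXsq] at this
        linarith
      · obtain ⟨g, hgG, hgt⟩ := hg i m n'
        exact ⟨g, hgG, by rw [hgt]⟩
  have hWb' : Wb.ncard ≤ ∑ i, (Bad i (Mf i X)).ncard := by
    have hsub : Wb ⊆ ⋃ i ∈ (Finset.univ : Finset ι), (fun p : ℤ × ℤ => t i + c i * (p.1 + p.2 * ω)) '' (Bad i (Mf i X)) := by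
      rintro τ ⟨⟨hX', i, m, n', rfl⟩, hτ⟩
      simp only [Set.mem_iUnion]
      refine ⟨i, Finset.mem_univ i, (m, n'), ⟨?_, ?_, hτ⟩, rfl⟩
      all_goals
        have hci' : 0 < ‖c i‖ := hci i
        have h1 : ‖(m : ℂ) + n' * ω‖ ≤ (X + ‖t i‖) / ‖c i‖ := by
          rw [le_div_iff₀ hci', mul_comm, ← norm_mul]
          have : c i * ((m : ℂ) + n' * ω) = (t i + c i * (m + n' * ω)) - t i := by ring
          rw [this]
          exact (norm_sub_le _ _).trans (by linarith)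
        have h2 := hb m n'
        have key : ∀ k : ℤ, |(k : ℝ)| ≤ κ * ‖(m : ℂ) + n' * ω‖ → |k| ≤ Mf i X := by
          intro k hk
          have h3 : |(k : ℝ)| ≤ κ * ((X + ‖t i‖) / ‖c i‖) := hk.trans (mul_le_mul_of_nonneg_left h1 hκ.le)
          have h4 := h3.trans (Nat.le_ceil _)
          exact_mod_cast h4
        first
        | exact key m h2.1
        | exact key n' h2.2
    have hfinU : (⋃ i ∈ (Finset.univ : Finset ι), (fun p : ℤ × ℤ => t i + c i * (p.1 + p.2 * ω)) '' (Bad i (Mf i X))).Finite :=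
      Set.Finite.biUnion (Finset.finite_toSet _) fun i _ => (hBadfin i _).image _
    refine (Set.ncard_le_ncard hsub hfinU).trans ?_
    refine (Finset.set_ncard_biUnion_le _ _).trans ?_
    exact Finset.sum_le_sum fun i _ => Set.ncard_image_le (hBadfin i _)
  have h2 : ((W ω t c X).ncard : ℝ) ≤ 4 * (V.ncard : ℝ) + ∑ i, ((Bad i (Mf i X)).ncard : ℝ) := by
    have : (W ω t c X).ncard ≤ 4 * V.ncard + ∑ i, (Bad i (Mf i X)).ncard := by omega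
    exact_mod_cast this
  have h3 : (V.ncard : ℝ) ≤ |C| * (X ^ 2 + 2) := by
    refine hcardV.trans ?_
    have h4 : Real.exp n ≤ X ^ 2 + 2 := by
      rw [hXsq, Real.cosh_eq]
      have := Real.exp_pos (-(n : ℝ))
      linarith
    calc C * Real.exp n ≤ |C| * Real.exp n := mul_le_mul_of_nonneg_right (le_abs_self C) (Real.exp_pos _).le
      _ ≤ |C| * (X ^ 2 + 2) := mul_le_mul_of_nonneg_left h4 (abs_nonneg C)
  have h5 : |C| * (X ^ 2 + 2) ≤ |C| * (2 * X ^ 2) := by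
    apply mul_le_mul_of_nonneg_left _ (abs_nonneg C)
    nlinarith
  calc ((W ω t c X).ncard : ℝ) ≤ 4 * (V.ncard : ℝ) + ∑ i, ((Bad i (Mf i X)).ncard : ℝ) := h2
    _ ≤ 4 * (|C| * (2 * X ^ 2)) + X ^ 2 := by linarith
    _ = (8 * |C| + 1) * X ^ 2 := by ring

end Pool.Agent.Work.MP_67f4ac_gt
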