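import Mathlib
import Pool.Agent.Work.MP_67f4ac_gt.Defs
import Pool.Agent.Work.MP_67f4ac_gt.Basic
import Pool.Agent.Work.MP_67f4ac_gt.Star

set_option autoImplicit false
set_option linter.all false

namespace Pool.Agent.Work.MP_67f4ac_gt

open Filter Topology

/-- points of a coset in a disc -/
def Co (ω t c : ℂ) (X : ℝ) : Set ℂ := {τ | ‖τ‖ ≤ X ∧ ∃ m n : ℤ, τ = t + c * (m + n * ω)}

lemma Co_finite (ω : ℂ) (hω : ω.im ≠ 0) (t c : ℂ) (hc : c ≠ 0) (X : ℝ) : (Co ω t c X).Finite := by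
  refine (W_finite (ι := Unit) ω hω (fun _ => t) (fun _ => c) (fun _ => hc) X).subset ?_
  rintro τ ⟨h1, m, n, h2⟩
  exact ⟨h1, (), m, n, h2⟩

lemma Co_lower (ω : ℂ) (hω : ω.im ≠ 0) (t c : ℂ) (hc : c ≠ 0) : ∀ᶠ X : ℝ in atTop,
    X ^ 2 / (4 * ‖c‖ ^ 2 * (1 + ‖ω‖) ^ 2) ≤ ((Co ω t c X).ncard : ℝ) := by
  filter_upwards [eventually_ge_atTop (2 * ‖t‖), eventually_ge_atTop 0] with X hX hX0
  have hc0 : 0 < ‖c‖ := norm_pos_iff.mpr hc
  have hw0 : 0 < 1 + ‖ω‖ := by positivity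
  set r : ℝ := (X - ‖t‖) / (‖c‖ * (1 + ‖ω‖)) with hr
  have hXt : 0 ≤ X - ‖t‖ := by have := norm_nonneg t; linarith
  have hr0 : 0 ≤ r := by rw [hr]; positivity
  set M : ℕ := ⌊r⌋₊ with hM
  have hMr : (M : ℝ) ≤ r := Nat.floor_le hr0
  have hMr' : r < M + 1 := Nat.lt_floor_add_one r
  set φ : ℤ × ℤ → ℂ := fun p => t + c * (p.1 + p.2 * ω) with hφ
  have hφinj : Function.Injective φ := by
    rintro ⟨a, b⟩ ⟨a', b'⟩ h
    have h1 : c * ((a : ℂ) + b * ω) = c * (a' + b' * ω) := by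
      have : t + c * ((a : ℂ) + b * ω) = t + c * (a' + b' * ω) := h
      exact add_left_cancel this
    have h2 := mul_left_cancel₀ hc h1
    have h3 : (((a - a' : ℤ) : ℚ) : ℂ) + (((b - b' : ℤ) : ℚ) : ℂ) * ω = 0 := by
      push_cast; linear_combination h2
    obtain ⟨h4, h5⟩ := V_indep hω h3
    have h6 : a - a' = 0 := by exact_mod_cast h4
    have h7 : b - b' = 0 := by exact_mod_cast h5
    rw [Prod.mk.injEq]
    exact ⟨by linarith, by linarith⟩
  set B : Finset (ℤ × ℤ) := (Finset.Icc (-(M : ℤ)) M) ×ˢ (Finset.Icc (-(M : ℤ)) M) with hB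
  have hBc : B.card = (2 * M + 1) ^ 2 := by
    rw [hB, Finset.card_product, Int.card_Icc]
    have : ((M : ℤ) + 1 - -(M : ℤ)).toNat = 2 * M + 1 := by omega
    rw [this]; ring
  have hsub : φ '' (B : Set (ℤ × ℤ)) ⊆ Co ω t c X := by
    rintro _ ⟨⟨m, n⟩, hmn, rfl⟩
    rw [hB, Finset.coe_product, Set.mem_prod] at hmn
    simp only [Finset.coe_Icc, Set.mem_Icc] at hmn
    refine ⟨?_, m, n, rfl⟩
    have hm : ‖(m : ℂ)‖ ≤ M := by
      rw [Complex.norm_intCast]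
      have : |m| ≤ (M : ℤ) := abs_le.mpr hmn.1
      exact_mod_cast this
    have hn : ‖(n : ℂ)‖ ≤ M := by
      rw [Complex.norm_intCast]
      have : |n| ≤ (M : ℤ) := abs_le.mpr hmn.2
      exact_mod_cast this
    have h1 : ‖(m : ℂ) + n * ω‖ ≤ M * (1 + ‖ω‖) := by
      refine (norm_add_le _ _).trans ?_
      rw [norm_mul]
      have := mul_le_mul_of_nonneg_right hn (norm_nonneg ω)
      linarith
    show ‖t + c * ((m : ℂ) + n * ω)‖ ≤ X
    refine (norm_add_le _ _).trans ?_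
    rw [norm_mul]
    have h2 : ‖c‖ * ‖(m : ℂ) + n * ω‖ ≤ ‖c‖ * (M * (1 + ‖ω‖)) := mul_le_mul_of_nonneg_left h1 hc0.le
    have h3 : ‖c‖ * (M * (1 + ‖ω‖)) ≤ ‖c‖ * (r * (1 + ‖ω‖)) :=
      mul_le_mul_of_nonneg_left (mul_le_mul_of_nonneg_right hMr hw0.le) hc0.le
    have h4 : ‖c‖ * (r * (1 + ‖ω‖)) = X - ‖t‖ := by
      rw [hr]; field_simp
    linarith
  have hcard : (2 * M + 1) ^ 2 ≤ (Co ω t c X).ncard := by
    rw [← hBc, ← Set.ncard_coe_finset B, ← Set.ncard_image_of_injective _ hφinj]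
    exact Set.ncard_le_ncard hsub (Co_finite ω hω t c hc X)
  have h5 : X / (2 * (‖c‖ * (1 + ‖ω‖))) ≤ 2 * M + 1 := by
    have h6 : X / (2 * (‖c‖ * (1 + ‖ω‖))) ≤ r := by
      rw [hr, div_le_div_iff₀ (by positivity) (by positivity)]
      have : 0 < ‖c‖ * (1 + ‖ω‖) := by positivity
      nlinarith
    have hM0 : (0 : ℝ) ≤ M := Nat.cast_nonneg _
    linarith
  have h7 : X ^ 2 / (4 * ‖c‖ ^ 2 * (1 + ‖ω‖) ^ 2) = (X / (2 * (‖c‖ * (1 + ‖ω‖)))) ^ 2 := by
    rw [div_pow]; congr 1; ring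
  rw [h7]
  calc (X / (2 * (‖c‖ * (1 + ‖ω‖)))) ^ 2 ≤ (2 * (M : ℝ) + 1) ^ 2 := by
        apply pow_le_pow_left₀ (by positivity) h5
    _ = (((2 * M + 1) ^ 2 : ℕ) : ℝ) := by push_cast; ring
    _ ≤ _ := by exact_mod_cast hcard

lemma collinear_card (I : Finset (ℤ × ℤ)) (M : ℕ) (hM : ∀ p ∈ I, |p.1| ≤ M ∧ |p.2| ≤ M)
    (hcol : ∀ p ∈ I, ∀ q ∈ I, ∀ r ∈ I, (q.1 - p.1) * (r.2 - p.2) = (q.2 - p.2) * (r.1 - p.1)) :
    I.card ≤ 2 * M + 1 := by
  classical
  have hcardIcc : (Finset.Icc (-(M : ℤ)) M).card = 2 * M + 1 := by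
    rw [Int.card_Icc]; omega
  by_cases hinj : Set.InjOn Prod.fst (I : Set (ℤ × ℤ))
  · rw [← hcardIcc]
    refine Finset.card_le_card_of_injOn Prod.fst ?_ hinj
    intro p hp
    simp only [Finset.coe_Icc, Set.mem_Icc]
    exact abs_le.mp (hM p hp).1
  · -- two points with the same first coordinate
    unfold Set.InjOn at hinj
    push Not at hinj
    obtain ⟨p, hp, q, hq, hpq, hne⟩ := hinj
    have hp2 : q.2 - p.2 ≠ 0 := by
      intro h
      apply hne
      apply Prod.ext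
      · exact hpq
      · linarith
    have hall : ∀ r ∈ I, r.1 = p.1 := by
      intro r hr
      have h1 := hcol p hp q hq r hr
      rw [← hpq, sub_self, zero_mul] at h1
      rcases mul_eq_zero.mp h1.symm with h2 | h2
      · exact absurd h2 hp2
      · linarith
    rw [← hcardIcc]
    refine Finset.card_le_card_of_injOn Prod.snd ?_ ?_
    · intro r hr
      simp only [Finset.coe_Icc, Set.mem_Icc]
      exact abs_le.mp (hM r hr).2
    · intro r hr s hs hrs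
      apply Prod.ext
      · rw [hall r hr, hall s hs]
      · exact hrs

lemma inter_small (ω : ℂ) (hω : ω.im ≠ 0) (t c t' c' : ℂ) (hc : c ≠ 0) (hc' : c' ≠ 0)
    (hk : ¬ (c / c' ∈ V ω ∧ c / c' * ω ∈ V ω)) (ε : ℝ) (hε : 0 < ε) :
    ∀ᶠ X : ℝ in atTop, ((Co ω t c X ∩ Co ω t' c' X).ncard : ℝ) ≤ ε * X ^ 2 := by
  classical
  obtain ⟨κ, hκ, hb⟩ := coord_bound ω hω
  have hc0 : 0 < ‖c‖ := norm_pos_iff.mpr hc
  -- eventually 2M+1 ≤ ε X²
  have hlin : ∀ᶠ X : ℝ in atTop, 2 * (κ * ((X + ‖t‖) / ‖c‖) + 1) + 1 ≤ ε * X ^ 2 := by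
    have h1 : Tendsto (fun X : ℝ => ε * X ^ 2 - (2 * κ / ‖c‖) * X) atTop atTop := by
      have : (fun X : ℝ => ε * X ^ 2 - (2 * κ / ‖c‖) * X) = fun X => X * (ε * X - 2 * κ / ‖c‖) := by
        ext X; ring
      rw [this]
      refine Tendsto.atTop_mul_atTop₀ tendsto_id ?_
      exact tendsto_atTop_add_const_right _ _ (Tendsto.const_mul_atTop hε tendsto_id)
    filter_upwards [h1.eventually (eventually_ge_atTop (2 * κ * ‖t‖ / ‖c‖ + 3))] with X hX
    have h2 : 2 * (κ * ((X + ‖t‖) / ‖c‖) + 1) + 1 = (2 * κ / ‖c‖) * X + (2 * κ * ‖t‖ / ‖c‖ + 3) := by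
      field_simp; ring
    rw [h2]; linarith
  filter_upwards [hlin, eventually_ge_atTop 0] with X hX hX0
  set M : ℕ := ⌈κ * ((X + ‖t‖) / ‖c‖)⌉₊ with hM
  have hMle : (M : ℝ) ≤ κ * ((X + ‖t‖) / ‖c‖) + 1 := by
    have h1 : 0 ≤ κ * ((X + ‖t‖) / ‖c‖) := by positivity
    exact (Nat.ceil_lt_add_one h1).le
  set I : Finset (ℤ × ℤ) := ((Finset.Icc (-(M : ℤ)) M) ×ˢ (Finset.Icc (-(M : ℤ)) M)).filter
    (fun p => ∃ m n : ℤ, t + c * (p.1 + p.2 * ω) = t' + c' * (m + n * ω)) with hI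
  have hsub : Co ω t c X ∩ Co ω t' c' X ⊆ (fun p : ℤ × ℤ => t + c * (p.1 + p.2 * ω)) '' (I : Set (ℤ × ℤ)) := by
    rintro τ ⟨⟨h1, m, n, rfl⟩, ⟨_, m', n', h2⟩⟩
    refine ⟨(m, n), ?_, rfl⟩
    rw [hI, Finset.coe_filter]
    refine ⟨?_, m', n', h2⟩
    have h3 : ‖(m : ℂ) + n * ω‖ ≤ (X + ‖t‖) / ‖c‖ := by
      rw [le_div_iff₀ hc0, mul_comm, ← norm_mul]
      have : c * ((m : ℂ) + n * ω) = (t + c * (m + n * ω)) - t := by ring
      rw [this]
      exact (norm_sub_le _ _).trans (by linarith)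
    have h4 := hb m n
    have key : ∀ k : ℤ, |(k : ℝ)| ≤ κ * ‖(m : ℂ) + n * ω‖ → |k| ≤ (M : ℤ) := by
      intro k hk
      have h5 : |(k : ℝ)| ≤ κ * ((X + ‖t‖) / ‖c‖) := hk.trans (mul_le_mul_of_nonneg_left h3 hκ.le)
      have h6 := h5.trans (Nat.le_ceil _)
      exact_mod_cast h6
    rw [Finset.mem_product, Finset.mem_Icc, Finset.mem_Icc]
    exact ⟨abs_le.mp (key m h4.1), abs_le.mp (key n h4.2)⟩
  have hcard : I.card ≤ 2 * M + 1 := by
    refine collinear_card I M ?_ ?_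
    · intro p hp
      rw [hI, Finset.mem_filter, Finset.mem_product, Finset.mem_Icc, Finset.mem_Icc] at hp
      exact ⟨abs_le.mpr hp.1.1, abs_le.mpr hp.1.2⟩
    · intro p hp q hq r hr
      rw [hI, Finset.mem_filter] at hp hq hr
      obtain ⟨_, pm, pn, hp⟩ := hp
      obtain ⟨_, qm, qn, hq⟩ := hq
      obtain ⟨_, rm, rn, hr⟩ := hr
      by_contra hne
      apply hk
      set det : ℤ := (q.1 - p.1) * (r.2 - p.2) - (q.2 - p.2) * (r.1 - p.1) with hdet
      have hdet0 : det ≠ 0 := sub_ne_zero.mpr hne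
      have hdetc : ((det : ℚ) : ℂ) ≠ 0 := by exact_mod_cast hdet0
      have e1 : c / c' * ((q.1 - p.1 : ℂ) + (q.2 - p.2) * ω) = (qm - pm) + (qn - pn) * ω := by
        field_simp
        linear_combination hq - hp
      have e2 : c / c' * ((r.1 - p.1 : ℂ) + (r.2 - p.2) * ω) = (rm - pm) + (rn - pn) * ω := by
        field_simp
        linear_combination hr - hp
      have f1 : ((det : ℚ) : ℂ) * (c / c') = (((r.2 - p.2) * (qm - pm) - (q.2 - p.2) * (rm - pm) : ℤ) : ℂ)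
          + (((r.2 - p.2) * (qn - pn) - (q.2 - p.2) * (rn - pn) : ℤ) : ℂ) * ω := by
        rw [hdet]; push_cast
        linear_combination (r.2 - p.2 : ℂ) * e1 - (q.2 - p.2 : ℂ) * e2
      have f2 : ((det : ℚ) : ℂ) * (c / c' * ω) = (((q.1 - p.1) * (rm - pm) - (r.1 - p.1) * (qm - pm) : ℤ) : ℂ)
          + (((q.1 - p.1) * (rn - pn) - (r.1 - p.1) * (qn - pn) : ℤ) : ℂ) * ω := by
        rw [hdet]; push_cast
        linear_combination (q.1 - p.1 : ℂ) * e2 - (r.1 - p.1 : ℂ) * e1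
      have g1 : c / c' = ((1 / det : ℚ) : ℂ) * (((det : ℚ) : ℂ) * (c / c')) := by
        push_cast at hdetc ⊢
        field_simp
      have g2 : c / c' * ω = ((1 / det : ℚ) : ℂ) * (((det : ℚ) : ℂ) * (c / c' * ω)) := by
        push_cast at hdetc ⊢
        field_simp
      constructor
      · rw [g1, f1]
        exact smulQ_mem_V _ (lattice_mem_V ω _ _)
      · rw [g2, f2]
        exact smulQ_mem_V _ (lattice_mem_V ω _ _)
  have h7 : ((Co ω t c X ∩ Co ω t' c' X).ncard : ℝ) ≤ 2 * M + 1 := by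
    have h8 : (Co ω t c X ∩ Co ω t' c' X).ncard ≤ I.card := by
      refine (Set.ncard_le_ncard hsub ((Finset.finite_toSet I).image _)).trans ?_
      refine (Set.ncard_image_le (Finset.finite_toSet I)).trans ?_
      rw [Set.ncard_coe_finset]
    have := h8.trans hcard
    exact_mod_cast this
  linarith

theorem sum_bound (ω : ℂ) (hω : ω.im ≠ 0) (D : ℝ) {ι : Type} [Fintype ι] (t c : ι → ℂ) (hc : ∀ i, c i ≠ 0)
    (hD : ∃ᶠ X : ℝ in atTop, ((W ω t c X).ncard : ℝ) ≤ D * X ^ 2)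
    (hsmall : ∀ i j, i ≠ j → ∀ ε : ℝ, 0 < ε → ∀ᶠ X : ℝ in atTop,
      ((Co ω (t i) (c i) X ∩ Co ω (t j) (c j) X).ncard : ℝ) ≤ ε * X ^ 2) :
    ∑ i, 1 / ‖c i‖ ^ 2 ≤ 4 * (1 + ‖ω‖) ^ 2 * D := by
  classical
  by_contra hcon
  push Not at hcon
  set B : ℝ := 4 * (1 + ‖ω‖) ^ 2 with hB
  have hB0 : 0 < B := by positivity
  set S : ℝ := ∑ i, 1 / ‖c i‖ ^ 2 with hS
  have hSB : D < S / B := by
    rw [lt_div_iff₀ hB0]; linarith
  set N : ℝ := ((Fintype.card ι : ℕ) : ℝ) with hN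
  have hN0 : 0 ≤ N := by positivity
  set ε : ℝ := (S / B - D) / (N ^ 2 + 1) with hε
  have hε0 : 0 < ε := by
    rw [hε]; apply div_pos (by linarith) (by positivity)
  have hεN : N ^ 2 * ε < S / B - D := by
    rw [hε, mul_div_assoc', div_lt_iff₀ (by positivity)]
    have : 0 < S / B - D := by linarith
    nlinarith
  have h1 : ∀ᶠ X : ℝ in atTop, ∀ i, X ^ 2 / (4 * ‖c i‖ ^ 2 * (1 + ‖ω‖) ^ 2) ≤ ((Co ω (t i) (c i) X).ncard : ℝ) := by
    rw [Filter.eventually_all]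
    exact fun i => Co_lower ω hω (t i) (c i) (hc i)
  have h2 : ∀ᶠ X : ℝ in atTop, ∀ i j, i ≠ j →
      ((Co ω (t i) (c i) X ∩ Co ω (t j) (c j) X).ncard : ℝ) ≤ ε * X ^ 2 := by
    rw [Filter.eventually_all]
    intro i
    rw [Filter.eventually_all]
    intro j
    by_cases hij : i = j
    · filter_upwards with X h
      exact absurd hij h
    · filter_upwards [hsmall i j hij ε hε0] with X hX _
      exact hX
  obtain ⟨X, hXD, hX1, hX2, hX0⟩ := (hD.and_eventually (h1.and (h2.and (eventually_gt_atTop 0)))).exists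
  -- the disjoint pieces
  set A : ι → Finset ℂ := fun i => (Co_finite ω hω (t i) (c i) (hc i) X).toFinset with hA
  set A' : ι → Finset ℂ := fun i => A i \ ((Finset.univ.erase i).biUnion A) with hA'
  have hAcard : ∀ i, ((A i).card : ℝ) = (Co ω (t i) (c i) X).ncard := by
    intro i
    rw [Set.ncard_eq_toFinset_card _ (Co_finite ω hω (t i) (c i) (hc i) X)]
  have hA'card : ∀ i, ((A i).card : ℝ) - N * (ε * X ^ 2) ≤ (A' i).card := by
    intro i
    have h3 : (A i).card ≤ (A' i).card + ∑ j ∈ Finset.univ.erase i, (A i ∩ A j).card := by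
      have h4 : A i ⊆ A' i ∪ (Finset.univ.erase i).biUnion (fun j => A i ∩ A j) := by
        intro x hx
        rw [Finset.mem_union]
        by_cases h5 : x ∈ (Finset.univ.erase i).biUnion A
        · right
          rw [Finset.mem_biUnion] at h5 ⊢
          obtain ⟨j, hj, hxj⟩ := h5
          exact ⟨j, hj, Finset.mem_inter.mpr ⟨hx, hxj⟩⟩
        · left
          exact Finset.mem_sdiff.mpr ⟨hx, h5⟩
      refine (Finset.card_le_card h4).trans ((Finset.card_union_le _ _).trans ?_)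
      exact Nat.add_le_add_left Finset.card_biUnion_le _
    have h5 : (∑ j ∈ Finset.univ.erase i, ((A i ∩ A j).card : ℝ)) ≤ N * (ε * X ^ 2) := by
      calc (∑ j ∈ Finset.univ.erase i, ((A i ∩ A j).card : ℝ)) ≤ ∑ j ∈ Finset.univ.erase i, ε * X ^ 2 := by
            apply Finset.sum_le_sum
            intro j hj
            have hij : i ≠ j := (Finset.ne_of_mem_erase hj).symm
            refine le_trans ?_ (hX2 i j hij)
            have h6 : ((A i ∩ A j : Finset ℂ) : Set ℂ) = Co ω (t i) (c i) X ∩ Co ω (t j) (c j) X := by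
              rw [Finset.coe_inter, hA]
              simp only [Set.Finite.coe_toFinset]
            rw [← h6, Set.ncard_coe_finset]
        _ = ((Finset.univ.erase i).card : ℝ) * (ε * X ^ 2) := by rw [Finset.sum_const, nsmul_eq_mul]
        _ ≤ N * (ε * X ^ 2) := by
            apply mul_le_mul_of_nonneg_right _ (by positivity)
            rw [hN]
            have := Finset.card_le_card (Finset.erase_subset i Finset.univ)
            rw [Finset.card_univ] at this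
            exact_mod_cast this
    have h7 : ((A i).card : ℝ) ≤ (A' i).card + ∑ j ∈ Finset.univ.erase i, ((A i ∩ A j).card : ℝ) := by
      exact_mod_cast h3
    linarith
  have hdisj : ∀ i ∈ (Finset.univ : Finset ι), ∀ j ∈ (Finset.univ : Finset ι), i ≠ j → Disjoint (A' i) (A' j) := by
    intro i _ j _ hij
    rw [Finset.disjoint_left]
    intro x hxi hxj
    rw [hA', Finset.mem_sdiff] at hxi hxj
    apply hxi.2
    rw [Finset.mem_biUnion]
    exact ⟨j, Finset.mem_erase.mpr ⟨hij.symm, Finset.mem_univ j⟩, hxj.1⟩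
  have hunion : (Finset.univ.biUnion A').card = ∑ i, (A' i).card := Finset.card_biUnion hdisj
  have hsubW : ((Finset.univ.biUnion A' : Finset ℂ) : Set ℂ) ⊆ W ω t c X := by
    intro x hx
    rw [Finset.mem_coe, Finset.mem_biUnion] at hx
    obtain ⟨i, _, hxi⟩ := hx
    rw [hA', Finset.mem_sdiff, hA] at hxi
    simp only [Set.Finite.mem_toFinset] at hxi
    obtain ⟨⟨h3, m, n, h4⟩, _⟩ := hxi
    exact ⟨h3, i, m, n, h4⟩
  have hWcard : (∑ i, ((A' i).card : ℝ)) ≤ (W ω t c X).ncard := by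
    have h3 : (Finset.univ.biUnion A').card ≤ (W ω t c X).ncard := by
      rw [← Set.ncard_coe_finset]
      exact Set.ncard_le_ncard hsubW (W_finite ω hω t c hc X)
    rw [hunion] at h3
    exact_mod_cast h3
  have hsum : X ^ 2 * (S / B) - N * (N * (ε * X ^ 2)) ≤ ∑ i, ((A' i).card : ℝ) := by
    have h3 : X ^ 2 * (S / B) = ∑ i, X ^ 2 / (4 * ‖c i‖ ^ 2 * (1 + ‖ω‖) ^ 2) := by
      rw [hS, Finset.sum_div, Finset.mul_sum]
      apply Finset.sum_congr rfl
      intro i _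
      have := norm_pos_iff.mpr (hc i)
      rw [hB]
      field_simp
    have h4 : N * (N * (ε * X ^ 2)) = ∑ i : ι, N * (ε * X ^ 2) := by
      rw [Finset.sum_const, Finset.card_univ, nsmul_eq_mul]
    rw [h3, h4, ← Finset.sum_sub_distrib]
    apply Finset.sum_le_sum
    intro i _
    have h5 := hA'card i
    have h6 := hX1 i
    rw [← hAcard i] at h6
    linarith
  have hX02 : 0 < X ^ 2 := by positivity
  have hfin : X ^ 2 * (S / B) - N * (N * (ε * X ^ 2)) ≤ D * X ^ 2 := (hsum.trans hWcard).trans hXD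
  have : N ^ 2 * ε * X ^ 2 < (S / B - D) * X ^ 2 := mul_lt_mul_of_pos_right hεN hX02
  nlinarith

end Pool.Agent.Work.MP_67f4ac_gt
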