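import Mathlib
import Pool.Agent.Work.MP_67f4ac_gt.Defs
import Pool.Agent.Work.MP_67f4ac_gt.Basic
import Pool.Agent.Work.MP_67f4ac_gt.Star
import Pool.Agent.Work.MP_67f4ac_gt.Counting

set_option autoImplicit false
set_option linter.all false

namespace Pool.Agent.Work.MP_67f4ac_gt

open Filter Topology

lemma prod_c (A B : SL2C) (hcA : A.1 1 0 ≠ 0) (hcB : B.1 1 0 ≠ 0) (l : ℂ) :
    (A * T l * B).1 1 0 = A.1 1 0 * B.1 1 0 * (l + (B.1 0 0 / B.1 1 0 + A.1 1 1 / A.1 1 0)) := by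
  rw [mul10, mul10, mul11, T00, T01, T10, T11]
  field_simp
  ring

theorem alpha_mem (hs : SieveStatement) (G : Subgroup SL2C) (ω : ℂ) (hω : ω.im ≠ 0) (h1 : T 1 ∈ G)
    (h2 : T ω ∈ G) (hG : BoundedGrowth G) (A B : SL2C) (hA : A ∈ G) (hB : B ∈ G)
    (hcA : A.1 1 0 ≠ 0) (hcB : B.1 1 0 ≠ 0) :
    B.1 0 0 / B.1 1 0 + A.1 1 1 / A.1 1 0 ∈ V ω := by
  classical
  by_contra hα
  set α : ℂ := B.1 0 0 / B.1 1 0 + A.1 1 1 / A.1 1 0 with hαdef
  obtain ⟨D, hD⟩ := star hs G ω hω hG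
  set K : ℝ := 1 + ‖ω‖ + ‖α‖ with hK
  have hK0 : 0 < K := by positivity
  set q : ℝ := ‖A.1 1 0 * B.1 1 0‖ with hq
  have hq0 : 0 < q := norm_pos_iff.mpr (mul_ne_zero hcA hcB)
  have hnot : ∀ m n : ℤ, ((m : ℂ) + n * ω) + α ≠ 0 := by
    intro m n h
    apply hα
    have : α = -((m : ℂ) + n * ω) := by linear_combination h
    rw [this]
    exact neg_mem (lattice_mem_V ω m n)
  have hbound : ∀ M : ℕ, (∑ i ∈ Finset.range M, (1 : ℝ) / ((i : ℝ) + 1)) ≤
      q ^ 2 * K ^ 2 * (4 * (1 + ‖ω‖) ^ 2 * D) := by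
    intro M
    let ι : Type := Σ m : Fin M, Fin (m.1 + 1)
    let a : ι → ℤ := fun i => (i.1.1 : ℤ) + 1
    let b : ι → ℤ := fun i => (i.2.1 : ℤ)
    let lam : ι → ℂ := fun i => (a i : ℂ) + b i * ω
    let t : ι → ℂ := fun i => tr (A * T (lam i) * B)
    let c : ι → ℂ := fun i => A.1 1 0 * B.1 1 0 * (lam i + α)
    have hceq : ∀ i, (A * T (lam i) * B).1 1 0 = c i := fun i => prod_c A B hcA hcB (lam i)
    have hc0 : ∀ i, c i ≠ 0 := fun i => mul_ne_zero (mul_ne_zero hcA hcB) (hnot _ _)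
    have hg : ∀ i (m n : ℤ), ∃ g ∈ G, tr g = t i + c i * (m + n * ω) := by
      intro i m n
      refine ⟨A * T (lam i) * B * T (m + n * ω), ?_, ?_⟩
      · exact G.mul_mem (G.mul_mem (G.mul_mem hA (T_lattice_mem G ω h1 h2 _ _)) hB)
          (T_lattice_mem G ω h1 h2 m n)
      · rw [tr_mul_T, hceq]
    have hsmall : ∀ i j, i ≠ j → ∀ ε : ℝ, 0 < ε → ∀ᶠ X : ℝ in atTop,
        ((Co ω (t i) (c i) X ∩ Co ω (t j) (c j) X).ncard : ℝ) ≤ ε * X ^ 2 := by
      intro i j hij ε hε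
      refine inter_small ω hω (t i) (c i) (t j) (c j) (hc0 i) (hc0 j) ?_ ε hε
      rintro ⟨hk1, hk2⟩
      have hlne : lam i ≠ lam j := by
        intro h
        apply hij
        have h3 : (((a i - a j : ℤ) : ℚ) : ℂ) + (((b i - b j : ℤ) : ℚ) : ℂ) * ω = 0 := by
          push_cast
          have h' : (a i : ℂ) + b i * ω = (a j : ℂ) + b j * ω := h
          linear_combination h'
        obtain ⟨h4, h5⟩ := V_indep hω h3
        have h6 : a i - a j = 0 := by exact_mod_cast h4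
        have h7 : b i - b j = 0 := by exact_mod_cast h5
        obtain ⟨⟨i1, hi1⟩, ⟨i2, hi2⟩⟩ := i
        obtain ⟨⟨j1, hj1⟩, ⟨j2, hj2⟩⟩ := j
        have e1 : i1 = j1 := by
          simp only [a] at h6; omega
        subst e1
        have e2 : i2 = j2 := by
          simp only [b] at h7; omega
        subst e2
        rfl
      have hk : c i / c j = (lam i + α) / (lam j + α) := by
        show A.1 1 0 * B.1 1 0 * (lam i + α) / (A.1 1 0 * B.1 1 0 * (lam j + α)) = _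
        rw [mul_div_mul_left _ _ (mul_ne_zero hcA hcB)]
      rw [hk] at hk1 hk2
      set k : ℂ := (lam i + α) / (lam j + α) with hkdef
      have hj0 : lam j + α ≠ 0 := hnot _ _
      have hkne : 1 - k ≠ 0 := by
        intro h
        have : k = 1 := by linear_combination -h
        rw [hkdef, div_eq_one_iff_eq hj0] at this
        exact hlne (add_right_cancel this)
      have hkmul : k * (lam j + α) = lam i + α := by
        rw [hkdef]; field_simp
      have hαeq : α = (k * lam j - lam i) / (1 - k) := by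
        rw [eq_div_iff hkne]
        linear_combination -hkmul
      apply hα
      rw [hαeq]
      have h1V : (1 : ℂ) ∈ V ω := mem_V.mpr ⟨1, 0, by push_cast; ring⟩
      have hωV : ω ∈ V ω := mem_V.mpr ⟨0, 1, by push_cast; ring⟩
      refine V_div hkne (sub_mem h1V hk1) ?_ ?_
      · have : (1 - k) * ω = ω - k * ω := by ring
        rw [this]; exact sub_mem hωV hk2
      · refine sub_mem ?_ (lattice_mem_V ω _ _)
        have : k * lam j = ((a j : ℚ) : ℂ) * k + ((b j : ℚ) : ℂ) * (k * ω) := by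
          show k * ((a j : ℂ) + b j * ω) = _
          push_cast; ring
        rw [this]
        exact add_mem (smulQ_mem_V _ hk1) (smulQ_mem_V _ hk2)
    have hsum := sum_bound ω hω D t c hc0 (hD ι t c hc0 hg) hsmall
    have hlow : ∑ i ∈ Finset.range M, (1 : ℝ) / ((i : ℝ) + 1) ≤ q ^ 2 * K ^ 2 * ∑ i, 1 / ‖c i‖ ^ 2 := by
      rw [Fintype.sum_sigma, ← Fin.sum_univ_eq_sum_range (fun i => (1 : ℝ) / ((i : ℝ) + 1)), Finset.mul_sum]
      apply Finset.sum_le_sum
      intro m _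
      rw [Finset.mul_sum]
      have hterm : ∀ n : Fin (m.1 + 1), (1 : ℝ) / ((m.1 : ℝ) + 1) ^ 2 ≤ q ^ 2 * K ^ 2 * (1 / ‖c ⟨m, n⟩‖ ^ 2) := by
        intro n
        have hcn : ‖c ⟨m, n⟩‖ = q * ‖lam ⟨m, n⟩ + α‖ := by
          show ‖A.1 1 0 * B.1 1 0 * (lam ⟨m, n⟩ + α)‖ = _
          rw [norm_mul]
        have hle : ‖lam ⟨m, n⟩ + α‖ ≤ ((m.1 : ℝ) + 1) * K := by
          have e1 : ‖lam ⟨m, n⟩‖ ≤ ((m.1 : ℝ) + 1) + (n.1 : ℝ) * ‖ω‖ := by
            show ‖(((m.1 : ℤ) + 1 : ℤ) : ℂ) + ((n.1 : ℤ) : ℂ) * ω‖ ≤ _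
            refine (norm_add_le _ _).trans ?_
            rw [norm_mul, Complex.norm_intCast, Complex.norm_intCast]
            push_cast
            rw [abs_of_nonneg (by positivity), abs_of_nonneg (by positivity)]
          have e2 : (n.1 : ℝ) ≤ (m.1 : ℝ) + 1 := by
            have := n.2
            exact_mod_cast this.le
          have e3 := norm_nonneg ω
          have e4 := norm_nonneg α
          have e5 : (0 : ℝ) ≤ m.1 := Nat.cast_nonneg _
          refine (norm_add_le _ _).trans ?_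
          rw [hK]
          nlinarith [mul_le_mul_of_nonneg_right e2 e3]
        have hpos : 0 < ‖lam ⟨m, n⟩ + α‖ := norm_pos_iff.mpr (hnot _ _)
        rw [hcn]
        have hm1 : (0 : ℝ) < (m.1 : ℝ) + 1 := by positivity
        have e6 : q ^ 2 * K ^ 2 * (1 / (q * ‖lam ⟨m, n⟩ + α‖) ^ 2) = (K / ‖lam ⟨m, n⟩ + α‖) ^ 2 := by
          field_simp
        have e7 : (1 : ℝ) / ((m.1 : ℝ) + 1) ^ 2 = (1 / ((m.1 : ℝ) + 1)) ^ 2 := by
          field_simp
        rw [e6, e7]
        apply pow_le_pow_left₀ (by positivity)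
        rw [div_le_div_iff₀ hm1 hpos]
        linarith
      calc (1 : ℝ) / ((m.1 : ℝ) + 1) = ∑ n : Fin (m.1 + 1), (1 : ℝ) / ((m.1 : ℝ) + 1) ^ 2 := by
            rw [Finset.sum_const, Finset.card_univ, Fintype.card_fin, nsmul_eq_mul]
            push_cast
            field_simp
        _ ≤ _ := Finset.sum_le_sum fun n _ => hterm n
    refine hlow.trans ?_
    exact mul_le_mul_of_nonneg_left hsum (by positivity)
  have htend := Real.tendsto_sum_range_one_div_nat_succ_atTop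
  obtain ⟨M, hM⟩ := (htend.eventually (eventually_gt_atTop (q ^ 2 * K ^ 2 * (4 * (1 + ‖ω‖) ^ 2 * D)))).exists
  exact absurd (hbound M) (not_le.mpr hM)

end Pool.Agent.Work.MP_67f4ac_gt
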