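import Mathlib
import Pool.Agent.Work.MP_67f4ac_gt.Defs
import Pool.Agent.Work.MP_67f4ac_gt.Basic
import Pool.Agent.Work.MP_67f4ac_gt.Rational

set_option autoImplicit false
set_option linter.all false

namespace Pool.Agent.Work.MP_67f4ac_gt

open Filter Topology

/-- the key hypothesis: `a_B/c_B + d_A/c_A ∈ V ω` for all `A, B` in the group. -/
def AlphaProp (G : Subgroup SL2C) (ω : ℂ) : Prop :=
  ∀ A B : SL2C, A ∈ G → B ∈ G → A.1 1 0 ≠ 0 → B.1 1 0 ≠ 0 →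
    B.1 0 0 / B.1 1 0 + A.1 1 1 / A.1 1 0 ∈ V ω

lemma prod_a (A B : SL2C) (hcA : A.1 1 0 ≠ 0) (hcB : B.1 1 0 ≠ 0) (l : ℂ) :
    (A * T l * B).1 0 0 = A.1 0 0 * B.1 1 0 * (l + (B.1 0 0 / B.1 1 0 + A.1 1 1 / A.1 1 0))
      - B.1 1 0 / A.1 1 0 := by
  rw [mul00, mul00, mul01, T00, T01, T10, T11]
  have hdet := det_eq A
  field_simp
  linear_combination (-B.1 1 0) * hdet

lemma recip_mem {G : Subgroup SL2C} {ω : ℂ} (h1 : T 1 ∈ G) (h2 : T ω ∈ G) (hα : AlphaProp G ω)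
    (A B : SL2C) (hA : A ∈ G) (hB : B ∈ G) (hcA : A.1 1 0 ≠ 0) (hcB : B.1 1 0 ≠ 0) (m n : ℤ)
    (hne : ((m : ℂ) + n * ω) + (B.1 0 0 / B.1 1 0 + A.1 1 1 / A.1 1 0) ≠ 0) :
    1 / (A.1 1 0 ^ 2 * (((m : ℂ) + n * ω) + (B.1 0 0 / B.1 1 0 + A.1 1 1 / A.1 1 0))) ∈ V ω := by
  set l : ℂ := (m : ℂ) + n * ω with hl
  set α : ℂ := B.1 0 0 / B.1 1 0 + A.1 1 1 / A.1 1 0 with hαd
  set C : SL2C := A * T l * B with hC
  have hCG : C ∈ G := G.mul_mem (G.mul_mem hA (T_lattice_mem G ω h1 h2 m n)) hB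
  have hCc : C.1 1 0 = A.1 1 0 * B.1 1 0 * (l + α) := prod_c A B hcA hcB l
  have hCa : C.1 0 0 = A.1 0 0 * B.1 1 0 * (l + α) - B.1 1 0 / A.1 1 0 := prod_a A B hcA hcB l
  have hCc0 : C.1 1 0 ≠ 0 := by rw [hCc]; exact mul_ne_zero (mul_ne_zero hcA hcB) hne
  have e1 := hα A C hA hCG hcA hCc0
  have e2 := hα A A hA hA hcA hcA
  have e3 := sub_mem e2 e1
  have : A.1 0 0 / A.1 1 0 + A.1 1 1 / A.1 1 0 - (C.1 0 0 / C.1 1 0 + A.1 1 1 / A.1 1 0) =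
      1 / (A.1 1 0 ^ 2 * (l + α)) := by
    rw [hCc, hCa]
    field_simp
    ring
  rwa [this] at e3

lemma quadratic_aux {ω κ : ℂ} (hω : ω.im ≠ 0) (hκ : κ ≠ 0) {P Q : ℚ} (hP : 0 < P) (hQ : 0 < Q)
    (h1 : κ / ((P : ℂ) + Q * ω) ∈ V ω) (h2 : κ / (((P + 1 : ℚ) : ℂ) + Q * ω) ∈ V ω)
    (h3 : κ / ((P : ℂ) + ((Q + 1 : ℚ) : ℂ) * ω) ∈ V ω) : ω ^ 2 ∈ V ω := by
  obtain ⟨s1, r1, e1⟩ := mem_V.mp h1
  obtain ⟨s2, r2, e2⟩ := mem_V.mp h2
  obtain ⟨s3, r3, e3⟩ := mem_V.mp h3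
  set v1 : ℂ := (P : ℂ) + Q * ω with hv1
  set v2 : ℂ := ((P + 1 : ℚ) : ℂ) + Q * ω with hv2
  set v3 : ℂ := (P : ℂ) + ((Q + 1 : ℚ) : ℂ) * ω with hv3
  have hv10 : v1 ≠ 0 := fun h => (V_indep hω h).1 |> fun h' => by linarith
  have hv20 : v2 ≠ 0 := fun h => (V_indep hω h).1 |> fun h' => by linarith
  have hv30 : v3 ≠ 0 := fun h => (V_indep hω h).1 |> fun h' => by linarith
  set q1 : ℚ := s2 * r3 - s3 * r2 with hq1
  set q2 : ℚ := s3 * r1 - s1 * r3 with hq2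
  set q3 : ℚ := s1 * r2 - s2 * r1 with hq3
  have hsum : (q1 : ℂ) * (κ / v1) + q2 * (κ / v2) + q3 * (κ / v3) = 0 := by
    rw [e1, e2, e3, hq1, hq2, hq3]; push_cast; ring
  have hsum2 : (q1 : ℂ) * (v2 * v3) + q2 * (v1 * v3) + q3 * (v1 * v2) = 0 := by
    have h4 : ((q1 : ℂ) * (v2 * v3) + q2 * (v1 * v3) + q3 * (v1 * v2)) * κ =
        ((q1 : ℂ) * (κ / v1) + q2 * (κ / v2) + q3 * (κ / v3)) * (v1 * v2 * v3) := by
      field_simp
    rw [hsum, zero_mul] at h4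
    rcases mul_eq_zero.mp h4 with h5 | h5
    · exact h5
    · exact absurd h5 hκ
  set A : ℚ := q1 * (Q * (Q + 1)) + q2 * (Q * (Q + 1)) + q3 * (Q * Q) with hA
  set B : ℚ := q1 * ((P + 1) * (Q + 1) + P * Q) + q2 * (P * (Q + 1) + P * Q) + q3 * (P * Q + (P + 1) * Q) with hB
  set C : ℚ := q1 * ((P + 1) * P) + q2 * (P * P) + q3 * (P * (P + 1)) with hC
  have hpoly : (A : ℂ) * ω ^ 2 + B * ω + C = 0 := by
    have : (A : ℂ) * ω ^ 2 + B * ω + C = (q1 : ℂ) * (v2 * v3) + q2 * (v1 * v3) + q3 * (v1 * v2) := by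
      rw [hA, hB, hC, hv1, hv2, hv3]; push_cast; ring
    rw [this, hsum2]
  by_cases hA0 : A = 0
  · exfalso
    rw [hA0] at hpoly
    have h4 : (C : ℂ) + B * ω = 0 := by
      push_cast at hpoly; linear_combination hpoly
    obtain ⟨hC0, hB0⟩ := V_indep hω h4
    have g1 : q1 * (P * Q) = 0 := by
      have : C * Q ^ 2 - B * (P * Q) + A * P ^ 2 = -(q1 * (P * Q)) := by rw [hA, hB, hC]; ring
      rw [hC0, hB0, hA0] at this; linarith
    have g2 : q2 * (Q * (P + Q + 1)) = 0 := by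
      have : C * Q ^ 2 - B * ((P + 1) * Q) + A * (P + 1) ^ 2 = q2 * (Q * (P + Q + 1)) := by rw [hA, hB, hC]; ring
      rw [hC0, hB0, hA0] at this; linarith
    have g3 : q3 * (P * (P + Q + 1)) = 0 := by
      have : C * (Q + 1) ^ 2 - B * (P * (Q + 1)) + A * P ^ 2 = q3 * (P * (P + Q + 1)) := by rw [hA, hB, hC]; ring
      rw [hC0, hB0, hA0] at this; linarith
    have k3 : q3 = 0 := by
      rcases mul_eq_zero.mp g3 with h | h
      · exact h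
      · have : 0 < P * (P + Q + 1) := by positivity
        linarith
    have m1 : (s1 : ℂ) * (κ / v2) = s2 * (κ / v1) := by
      rw [e1, e2]
      have : ((s1 * r2 - s2 * r1 : ℚ) : ℂ) = 0 := by rw [← hq3, k3]; simp
      push_cast at this
      linear_combination ω * this
    have m2 : (r1 : ℂ) * (κ / v2) = r2 * (κ / v1) := by
      rw [e1, e2]
      have : ((s1 * r2 - s2 * r1 : ℚ) : ℂ) = 0 := by rw [← hq3, k3]; simp
      push_cast at this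
      linear_combination -this
    have m1' : (s1 : ℂ) * v1 = s2 * v2 := by
      field_simp at m1
      linear_combination m1
    have m2' : (r1 : ℂ) * v1 = r2 * v2 := by
      field_simp at m2
      linear_combination m2
    have key : ∀ a b : ℚ, (a : ℂ) * v1 = b * v2 → a = 0 := by
      intro a b hab
      have h5 : ((a * P - b * (P + 1) : ℚ) : ℂ) + ((a * Q - b * Q : ℚ) : ℂ) * ω = 0 := by
        rw [hv1, hv2] at hab
        push_cast at hab ⊢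
        linear_combination hab
      obtain ⟨h6, h7⟩ := V_indep hω h5
      have h8 : (a - b) * Q = 0 := by linarith
      have h9 : a = b := by
        rcases mul_eq_zero.mp h8 with h | h
        · linarith
        · linarith
      subst h9
      linarith
    have z1 := key s1 s2 m1'
    have z2 := key r1 r2 m2'
    rw [z1, z2] at e1
    have : κ / v1 ≠ 0 := div_ne_zero hκ hv10
    apply this
    rw [e1]; simp
  · rw [mem_V]
    refine ⟨-C / A, -B / A, ?_⟩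
    have hAc : (A : ℂ) ≠ 0 := by exact_mod_cast hA0
    push_cast
    field_simp
    linear_combination hpoly

theorem omega_sq_mem {G : Subgroup SL2C} {ω : ℂ} (hω : ω.im ≠ 0) (h1 : T 1 ∈ G) (h2 : T ω ∈ G)
    (hα : AlphaProp G ω) (A : SL2C) (hA : A ∈ G) (hcA : A.1 1 0 ≠ 0) : ω ^ 2 ∈ V ω := by
  obtain ⟨p, q, hpq⟩ := mem_V.mp (hα A A hA hA hcA hcA)
  obtain ⟨N, hN⟩ := exists_nat_gt (max (-p) (-q))
  have hNp : 0 < (N : ℚ) + p := by have := (le_max_left (-p) (-q)).trans_lt hN; linarith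
  have hNq : 0 < (N : ℚ) + q := by have := (le_max_right (-p) (-q)).trans_lt hN; linarith
  have hκ : 1 / A.1 1 0 ^ 2 ≠ 0 := one_div_ne_zero (pow_ne_zero 2 hcA)
  have key : ∀ (m n : ℤ) (P Q : ℚ), P = m + p → Q = n + q → (0 < P ∨ 0 < Q) →
      (1 / A.1 1 0 ^ 2) / ((P : ℂ) + Q * ω) ∈ V ω := by
    intro m n P Q hP hQ hpos
    have e : ((m : ℂ) + n * ω) + (A.1 0 0 / A.1 1 0 + A.1 1 1 / A.1 1 0) = (P : ℂ) + Q * ω := by
      rw [hpq, hP, hQ]; push_cast; ring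
    have hne : ((m : ℂ) + n * ω) + (A.1 0 0 / A.1 1 0 + A.1 1 1 / A.1 1 0) ≠ 0 := by
      rw [e]
      intro h
      obtain ⟨h3, h4⟩ := V_indep hω h
      rcases hpos with h5 | h5 <;> linarith
    have := recip_mem h1 h2 hα A A hA hA hcA hcA m n hne
    rw [e] at this
    rwa [div_div]
  refine quadratic_aux hω hκ hNp hNq ?_ ?_ ?_
  · exact key N N _ _ (by push_cast; ring) (by push_cast; ring) (Or.inl hNp)
  · exact key (N + 1) N _ _ (by push_cast; ring) (by push_cast; ring) (Or.inr hNq)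
  · exact key N (N + 1) _ _ (by push_cast; ring) (by push_cast; ring) (Or.inl hNp)

lemma V_one (ω : ℂ) : (1 : ℂ) ∈ V ω := mem_V.mpr ⟨1, 0, by push_cast; ring⟩
lemma V_om (ω : ℂ) : ω ∈ V ω := mem_V.mpr ⟨0, 1, by push_cast; ring⟩

lemma V_mul {ω : ℂ} (hsq : ω ^ 2 ∈ V ω) {x y : ℂ} (hx : x ∈ V ω) (hy : y ∈ V ω) : x * y ∈ V ω := by
  obtain ⟨a, b, rfl⟩ := mem_V.mp hx
  obtain ⟨c, d, rfl⟩ := mem_V.mp hy
  have : ((a : ℂ) + b * ω) * (c + d * ω) = ((a * c : ℚ) : ℂ) * 1 + ((a * d + b * c : ℚ) : ℂ) * ω +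
      ((b * d : ℚ) : ℂ) * ω ^ 2 := by push_cast; ring
  rw [this]
  exact add_mem (add_mem (smulQ_mem_V _ (V_one ω)) (smulQ_mem_V _ (V_om ω))) (smulQ_mem_V _ hsq)

lemma V_inv {ω : ℂ} (hsq : ω ^ 2 ∈ V ω) {x : ℂ} (hx : x ∈ V ω) : x⁻¹ ∈ V ω := by
  by_cases h0 : x = 0
  · rw [h0, inv_zero]; exact zero_mem _
  · rw [← one_div]
    exact V_div h0 hx (V_mul hsq hx (V_om ω)) (V_one ω)

/-- the quadratic field as an intermediate field -/
noncomputable def VF (ω : ℂ) (hsq : ω ^ 2 ∈ V ω) : IntermediateField ℚ ℂ where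
  carrier := V ω
  mul_mem' := fun hx hy => V_mul hsq hx hy
  add_mem' := fun hx hy => add_mem hx hy
  algebraMap_mem' := fun q => mem_V.mpr ⟨q, 0, by simp⟩
  inv_mem' := fun x hx => V_inv hsq hx

theorem c_sq_mem {G : Subgroup SL2C} {ω : ℂ} (hω : ω.im ≠ 0) (h1 : T 1 ∈ G) (h2 : T ω ∈ G)
    (hα : AlphaProp G ω) (A : SL2C) (hA : A ∈ G) (hcA : A.1 1 0 ≠ 0) : A.1 1 0 ^ 2 ∈ V ω := by
  have hsq := omega_sq_mem hω h1 h2 hα A hA hcA
  -- choose a shift with nonzero value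
  have hex : ∃ m : ℤ, ((m : ℂ) + (0 : ℤ) * ω) + (A.1 0 0 / A.1 1 0 + A.1 1 1 / A.1 1 0) ≠ 0 := by
    by_cases h : ((0 : ℤ) : ℂ) + (0 : ℤ) * ω + (A.1 0 0 / A.1 1 0 + A.1 1 1 / A.1 1 0) = 0
    · refine ⟨1, fun h' => ?_⟩
      have h3 : (1 : ℂ) = 0 := by push_cast at h h'; linear_combination h' - h
      exact one_ne_zero h3
    · exact ⟨0, h⟩
  obtain ⟨m, hm⟩ := hex
  have h3 := recip_mem h1 h2 hα A A hA hA hcA hcA m 0 hm
  set v : ℂ := ((m : ℂ) + (0 : ℤ) * ω) + (A.1 0 0 / A.1 1 0 + A.1 1 1 / A.1 1 0) with hv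
  have hvV : v ∈ V ω := add_mem (lattice_mem_V ω m 0) (hα A A hA hA hcA hcA)
  have h4 := V_inv hsq (V_mul hsq h3 hvV)
  have : (1 / (A.1 1 0 ^ 2 * v) * v)⁻¹ = A.1 1 0 ^ 2 := by
    field_simp
  rwa [this] at h4

end Pool.Agent.Work.MP_67f4ac_gt
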