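import Mathlib
import Pool.Agent.Work.MP_67f4ac_gt.Defs
import Pool.Agent.Work.MP_67f4ac_gt.Quadratic
import Pool.Agent.Work.MP_67f4ac_gt.ProductSet
import Pool.Agent.Work.MP_67f4ac_gt.IdealPow

set_option autoImplicit false
set_option linter.all false

namespace Pool.Agent.Work.MP_67f4ac_gt

open Filter Topology NumberField

variable {K : Type} [Field K] [NumberField K]

/-- a normalised group: contains all translations by integers of `K`, and all the entries are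
`c` times elements of `K`. -/
structure Nrm (σ : K →+* ℂ) (G : Subgroup SL2C) : Prop where
  hσ : ∀ x : K, ((Algebra.norm ℚ x : ℚ) : ℝ) = ‖σ x‖ ^ 2
  hw : ∃ w : 𝓞 K, (σ (w : K)).im ≠ 0
  hT : ∀ x : 𝓞 K, T (σ (x : K)) ∈ G
  hG : BoundedGrowth G
  hc2 : ∀ g ∈ G, g.1 1 0 ≠ 0 → g.1 1 0 ^ 2 ∈ σ.fieldRange
  ha : ∀ g ∈ G, g.1 1 0 ≠ 0 → g.1 0 0 / g.1 1 0 ∈ σ.fieldRange
  hd : ∀ g ∈ G, g.1 1 0 ≠ 0 → g.1 1 1 / g.1 1 0 ∈ σ.fieldRange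
  h0 : ∀ g ∈ G, g.1 1 0 = 0 → ∀ i j, g.1 i j ∈ σ.fieldRange
  hne : ∃ g ∈ G, g.1 1 0 ≠ 0

lemma prod_d (A B : SL2C) (hcA : A.1 1 0 ≠ 0) (hcB : B.1 1 0 ≠ 0) (l : ℂ) :
    (A * T l * B).1 1 1 = A.1 1 0 * B.1 1 1 * (l + (B.1 0 0 / B.1 1 0 + A.1 1 1 / A.1 1 0))
      - A.1 1 0 / B.1 1 0 := by
  rw [mul11, mul10, mul11, T00, T01, T10, T11]
  have hdet := det_eq B
  field_simp
  linear_combination (-A.1 1 0) * hdet

lemma tr_prod (A B : SL2C) (hcA : A.1 1 0 ≠ 0) (hcB : B.1 1 0 ≠ 0) (l m : ℂ) :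
    tr (A * T l * B * T m) = A.1 1 0 * B.1 1 0 * (l + (B.1 0 0 / B.1 1 0 + A.1 1 1 / A.1 1 0)) *
      (m + (A.1 0 0 / A.1 1 0 + B.1 1 1 / B.1 1 0)) - (A.1 1 0 / B.1 1 0 + B.1 1 0 / A.1 1 0) := by
  rw [tr_mul_T]
  unfold tr
  rw [prod_c A B hcA hcB, prod_d A B hcA hcB, prod_a A B hcA hcB]
  field_simp
  ring

theorem starstar (hs : SieveStatement) (σ : K →+* ℂ) (G : Subgroup SL2C) (hN : Nrm σ G) :
    ∃ D : ℝ, 0 ≤ D ∧ ∀ A ∈ G, ∀ B ∈ G, A.1 1 0 ≠ 0 → B.1 1 0 ≠ 0 → ∀ m₀ a₀ : 𝓞 K, m₀ ≠ 0 →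
      σ (a₀ : K) = σ (m₀ : K) * (B.1 0 0 / B.1 1 0 + A.1 1 1 / A.1 1 0) →
      ‖σ (m₀ : K)‖ ^ 2 ≤ D * ‖A.1 1 0 * B.1 1 0‖ ^ 2 * (Ideal.absNorm (Ideal.span {m₀, a₀}) : ℝ) := by
  classical
  obtain ⟨w, hw⟩ := hN.hw
  set ω : ℂ := σ (w : K) with hω
  obtain ⟨D, hD⟩ := star hs G ω hw hN.hG
  set D₁ : ℝ := 4 * (1 + ‖ω‖) ^ 2 * D with hD₁
  have hmain : ∀ A ∈ G, ∀ B ∈ G, A.1 1 0 ≠ 0 → B.1 1 0 ≠ 0 → ∀ m₀ a₀ : 𝓞 K, m₀ ≠ 0 →
      σ (a₀ : K) = σ (m₀ : K) * (B.1 0 0 / B.1 1 0 + A.1 1 1 / A.1 1 0) →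
      ‖σ (m₀ : K)‖ ^ 2 ≤ (2 * D₁) * ‖A.1 1 0 * B.1 1 0‖ ^ 2 * (Ideal.absNorm (Ideal.span {m₀, a₀}) : ℝ) := by
    intro A hA B hB hcA hcB m₀ a₀ hm₀ ha₀
    set α : ℂ := B.1 0 0 / B.1 1 0 + A.1 1 1 / A.1 1 0 with hα
    set β : ℂ := A.1 0 0 / A.1 1 0 + B.1 1 1 / B.1 1 0 with hβ
    have hβF : β ∈ σ.fieldRange := add_mem (hN.ha A hA hcA) (hN.hd B hB hcB)
    obtain ⟨y, hy⟩ := RingHom.mem_fieldRange.mp hβF
    obtain ⟨b₀, n₀, hn₀, hbn⟩ := IsFractionRing.div_surjective (A := 𝓞 K) y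
    have hn₀0 : n₀ ≠ 0 := nonZeroDivisors.ne_zero hn₀
    have hσm : σ (m₀ : K) ≠ 0 := by
      rw [Ne, map_eq_zero]; exact_mod_cast hm₀
    have hσn : σ (n₀ : K) ≠ 0 := by
      rw [Ne, map_eq_zero]; exact_mod_cast hn₀0
    have hb₀ : σ (b₀ : K) = σ (n₀ : K) * β := by
      rw [← hy, ← hbn, map_div₀]
      field_simp
    obtain ⟨P, hP, R, hR1, hR2, hR3⟩ := productSet σ hN.hσ m₀ a₀ n₀ b₀ hm₀ hn₀0
    set C : ℂ := A.1 1 0 * B.1 1 0 / (σ (m₀ : K) * σ (n₀ : K)) with hC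
    set s : ℂ := A.1 1 0 / B.1 1 0 + B.1 1 0 / A.1 1 0 with hs'
    have hC0 : C ≠ 0 := div_ne_zero (mul_ne_zero hcA hcB) (mul_ne_zero hσm hσn)
    have hPc : (P : ℂ) ≠ 0 := by exact_mod_cast hP.ne'
    let ι : Type := {r : 𝓞 K // r ∈ R}
    let t : ι → ℂ := fun r => C * σ ((r.1 : 𝓞 K) : K) - s
    let c : ι → ℂ := fun _ => C * P
    have hc0 : ∀ i, c i ≠ 0 := fun i => mul_ne_zero hC0 hPc
    have hg : ∀ i (m n : ℤ), ∃ g ∈ G, tr g = t i + c i * (m + n * ω) := by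
      intro i m n
      obtain ⟨l, μ, hlμ⟩ := hR1 i.1 i.2 ((m : 𝓞 K) + n * w)
      refine ⟨A * T (σ (l : K)) * B * T (σ (μ : K)), ?_, ?_⟩
      · exact G.mul_mem (G.mul_mem (G.mul_mem hA (hN.hT l)) hB) (hN.hT μ)
      · rw [tr_prod A B hcA hcB, ← hα, ← hβ, ← hs']
        have h1 : σ ((i.1 : 𝓞 K) : K) + P * (m + n * ω) =
            (σ (a₀ : K) + σ (m₀ : K) * σ (l : K)) * (σ (b₀ : K) + σ (n₀ : K) * σ (μ : K)) := by
          have h2 := congrArg (fun z : 𝓞 K => σ (z : K)) hlμ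
          simp only [map_add, map_mul, map_natCast, map_intCast] at h2
          exact h2
        show _ = C * σ ((i.1 : 𝓞 K) : K) - s + C * P * (m + n * ω)
        have h3 : C * σ ((i.1 : 𝓞 K) : K) - s + C * P * (m + n * ω) =
            C * (σ ((i.1 : 𝓞 K) : K) + P * (m + n * ω)) - s := by ring
        rw [h3, h1, ha₀, hb₀, hC]
        field_simp
        ring
    have hsmall : ∀ i j, i ≠ j → ∀ ε : ℝ, 0 < ε → ∀ᶠ X : ℝ in atTop,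
        ((Co ω (t i) (c i) X ∩ Co ω (t j) (c j) X).ncard : ℝ) ≤ ε * X ^ 2 := by
      intro i j hij ε hε
      filter_upwards with X
      have hempty : Co ω (t i) (c i) X ∩ Co ω (t j) (c j) X = ∅ := by
        rw [Set.eq_empty_iff_forall_notMem]
        rintro τ ⟨⟨_, m, n, h1⟩, ⟨_, m', n', h2⟩⟩
        apply hij
        apply Subtype.ext
        apply hR2 i.1 i.2 j.1 j.2
        refine ⟨((m' : 𝓞 K) + n' * w) - ((m : 𝓞 K) + n * w), ?_⟩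
        apply RingOfIntegers.coe_injective
        apply σ.injective
        have h3 : C * σ ((i.1 : 𝓞 K) : K) - s + C * P * (m + n * ω) =
            C * σ ((j.1 : 𝓞 K) : K) - s + C * P * (m' + n' * ω) := by
          have e1 : τ = C * σ ((i.1 : 𝓞 K) : K) - s + C * P * (m + n * ω) := h1
          have e2 : τ = C * σ ((j.1 : 𝓞 K) : K) - s + C * P * (m' + n' * ω) := h2
          rw [← e1, ← e2]
        have h4 : C * (σ ((i.1 : 𝓞 K) : K) + P * (m + n * ω)) = C * (σ ((j.1 : 𝓞 K) : K) + P * (m' + n' * ω)) := by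
          linear_combination h3
        have h5 := mul_left_cancel₀ hC0 h4
        simp only [map_add, map_sub, map_mul, map_natCast, map_intCast]
        linear_combination h5
      rw [hempty]
      simp
      positivity
    have hsum := sum_bound ω hw D t c hc0 (hD ι t c hc0 hg) hsmall
    have hsum2 : (R.card : ℝ) * (1 / ‖C * (P : ℂ)‖ ^ 2) ≤ D₁ := by
      have h1 : ∑ i : ι, 1 / ‖c i‖ ^ 2 = (R.card : ℝ) * (1 / ‖C * (P : ℂ)‖ ^ 2) := by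
        show ∑ i : ι, 1 / ‖C * (P : ℂ)‖ ^ 2 = _
        rw [Finset.sum_const, Finset.card_univ, nsmul_eq_mul]
        congr 2
        exact Fintype.card_coe R
      rw [← h1]
      exact hsum
    have hP0 : (0 : ℝ) < P := by exact_mod_cast hP
    have hCn : 0 < ‖C‖ := norm_pos_iff.mpr hC0
    rw [norm_mul, Complex.norm_natCast] at hsum2
    have hR4 : (R.card : ℝ) ≤ D₁ * (‖C‖ * P) ^ 2 := by
      have h1 : (R.card : ℝ) = (R.card : ℝ) * (1 / (‖C‖ * P) ^ 2) * (‖C‖ * P) ^ 2 := by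
        field_simp
      rw [h1]
      exact mul_le_mul_of_nonneg_right hsum2 (by positivity)
    rw [absNorm_span_eq σ hN.hσ n₀] at hR3
    have hmn : 0 < ‖σ (m₀ : K)‖ := norm_pos_iff.mpr hσm
    have hnn : 0 < ‖σ (n₀ : K)‖ := norm_pos_iff.mpr hσn
    set N : ℝ := (Ideal.absNorm (Ideal.span {m₀, a₀}) : ℝ) with hNd
    have hN0 : 0 ≤ N := Nat.cast_nonneg _
    have h6 : (P : ℝ) ^ 2 ≤ 2 * ‖σ (n₀ : K)‖ ^ 2 * N * (D₁ * (‖C‖ * P) ^ 2) :=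
      hR3.trans (mul_le_mul_of_nonneg_left hR4 (by positivity))
    have hCnorm : ‖C‖ = ‖A.1 1 0 * B.1 1 0‖ / (‖σ (m₀ : K)‖ * ‖σ (n₀ : K)‖) := by
      rw [hC, norm_div, norm_mul (σ (m₀ : K))]
    set q : ℝ := ‖A.1 1 0 * B.1 1 0‖ with hq
    have h7 : 2 * ‖σ (n₀ : K)‖ ^ 2 * N * (D₁ * (‖C‖ * P) ^ 2) =
        (P : ℝ) ^ 2 * ((2 * D₁) * q ^ 2 * N / ‖σ (m₀ : K)‖ ^ 2) := by
      rw [hCnorm]
      field_simp
    rw [h7] at h6
    have h8 : 1 ≤ (2 * D₁) * q ^ 2 * N / ‖σ (m₀ : K)‖ ^ 2 := by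
      have hP2 : 0 < (P : ℝ) ^ 2 := by positivity
      by_contra hcon
      push Not at hcon
      have := mul_lt_mul_of_pos_left hcon hP2
      linarith
    rwa [le_div_iff₀ (by positivity), one_mul] at h8
  refine ⟨|2 * D₁|, abs_nonneg _, ?_⟩
  intro A hA B hB hcA hcB m₀ a₀ hm₀ ha₀
  refine (hmain A hA B hB hcA hcB m₀ a₀ hm₀ ha₀).trans ?_
  apply mul_le_mul_of_nonneg_right _ (Nat.cast_nonneg _)
  exact mul_le_mul_of_nonneg_right (le_abs_self _) (by positivity)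

end Pool.Agent.Work.MP_67f4ac_gt
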