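import Mathlib
import Pool.Agent.Work.MP_67f4ac_gt.StarStar

set_option autoImplicit false
set_option linter.all false

namespace Pool.Agent.Work.MP_67f4ac_gt

open Filter Topology NumberField

variable {K : Type} [Field K] [NumberField K]

/-- all entries in the field -/
def InF (σ : K →+* ℂ) (g : SL2C) : Prop := ∀ i j, g.1 i j ∈ σ.fieldRange

lemma pow_c (g : SL2C) (n : ℕ) :
    (g ^ (n + 2)).1 1 0 = tr g * (g ^ (n + 1)).1 1 0 - (g ^ n).1 1 0 := by
  have h := det_eq g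
  unfold tr
  rw [pow_succ, pow_succ, mul10, mul11, mul10]
  linear_combination (-(g ^ n).1 1 0) * h

lemma pow_cheb (σ : K →+* ℂ) (g : SL2C) (a q u : 𝓞 K) (ha : σ (q : K) * tr g = σ (a : K))
    (hu : σ (q : K) * g.1 1 0 = σ (u : K)) (n : ℕ) :
    (g ^ n).1 1 0 * σ (q : K) ^ n = σ (u : K) * σ ((chebS a q n : 𝓞 K) : K) := by
  suffices h : (g ^ n).1 1 0 * σ (q : K) ^ n = σ (u : K) * σ ((chebS a q n : 𝓞 K) : K) ∧
      (g ^ (n + 1)).1 1 0 * σ (q : K) ^ (n + 1) = σ (u : K) * σ ((chebS a q (n + 1) : 𝓞 K) : K) from h.1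
  induction n with
  | zero =>
    constructor
    · simp [chebS]
    · simp [chebS]
      linear_combination hu
  | succ n ih =>
    refine ⟨ih.2, ?_⟩
    have e : σ ((chebS a q (n + 1 + 1) : 𝓞 K) : K) = σ (a : K) * σ ((chebS a q (n + 1) : 𝓞 K) : K) -
        σ (q : K) ^ 2 * σ ((chebS a q n : 𝓞 K) : K) := by
      rw [chebS_succ_succ]
      simp only [map_sub, map_mul, map_pow]
    rw [e, pow_c]
    have h1 := ih.1
    have h2 := ih.2
    rw [← ha]
    linear_combination (tr g * σ (q : K)) * h2 - σ (q : K) ^ 2 * h1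

theorem trace_mem (hs : SieveStatement) (σ : K →+* ℂ) (G : Subgroup SL2C) (hN : Nrm σ G)
    (g : SL2C) (hg : g ∈ G) (hF : InF σ g) (hc : g.1 1 0 ≠ 0) : ∃ x : 𝓞 K, σ (x : K) = tr g := by
  classical
  obtain ⟨D, hD0, hD⟩ := starstar hs σ G hN
  have ht : tr g ∈ σ.fieldRange := add_mem (hF 0 0) (hF 1 1)
  obtain ⟨t', ht'⟩ := RingHom.mem_fieldRange.mp ht
  obtain ⟨c', hc'⟩ := RingHom.mem_fieldRange.mp (hF 1 0)
  obtain ⟨a₁, q₁, hq₁, haq⟩ := IsFractionRing.div_surjective (A := 𝓞 K) t'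
  obtain ⟨u₁, q₂, hq₂, huq⟩ := IsFractionRing.div_surjective (A := 𝓞 K) c'
  have hq₁0 : q₁ ≠ 0 := nonZeroDivisors.ne_zero hq₁
  have hq₂0 : q₂ ≠ 0 := nonZeroDivisors.ne_zero hq₂
  have hσ₁ : σ (q₁ : K) ≠ 0 := by rw [Ne, map_eq_zero]; exact_mod_cast hq₁0
  have hσ₂ : σ (q₂ : K) ≠ 0 := by rw [Ne, map_eq_zero]; exact_mod_cast hq₂0
  set q : 𝓞 K := q₁ * q₂ with hq
  set a : 𝓞 K := a₁ * q₂ with ha
  set u : 𝓞 K := u₁ * q₁ with hu
  have hq0 : q ≠ 0 := mul_ne_zero hq₁0 hq₂0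
  have hσq : σ (q : K) ≠ 0 := by rw [Ne, map_eq_zero]; exact_mod_cast hq0
  have hta : σ (q : K) * tr g = σ (a : K) := by
    rw [← ht', ← haq, map_div₀, hq, ha]
    simp only [map_mul]
    field_simp
  have hcu : σ (q : K) * g.1 1 0 = σ (u : K) := by
    rw [← hc', ← huq, map_div₀, hq, hu]
    simp only [map_mul]
    field_simp
  have hσu : σ (u : K) ≠ 0 := by rw [← hcu]; exact mul_ne_zero hσq hc
  have hu0 : u ≠ 0 := by
    intro h; apply hσu; rw [h]; simp
  by_contra hno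
  set I : Ideal (𝓞 K) := Ideal.span {a, q} with hI
  have hqI : q ∈ I := Ideal.subset_span (by simp)
  have haI : a ∈ I := Ideal.subset_span (by simp)
  have hI0 : I ≠ ⊥ := by
    intro h; rw [h] at hqI; exact hq0 (by simpa using hqI)
  obtain ⟨b', hb'⟩ := Ideal.dvd_iff_le.mpr ((Ideal.span_singleton_le_iff_mem I).mpr hqI)
  have hb'top : b' ≠ ⊤ := by
    intro h
    rw [h, Ideal.mul_top] at hb'
    rw [← hb'] at haI
    obtain ⟨x, hx⟩ := Ideal.mem_span_singleton'.mp haI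
    apply hno
    refine ⟨x, ?_⟩
    have h1 : σ (x : K) * σ (q : K) = σ (a : K) := by
      rw [← hx]; simp only [map_mul]
    rw [← hta] at h1
    have h2 : σ (q : K) * σ (x : K) = σ (q : K) * tr g := by rw [mul_comm, h1]
    exact mul_left_cancel₀ hσq h2
  have hb'0 : b' ≠ ⊥ := by
    intro h
    rw [h, Ideal.mul_bot] at hb'
    exact hq0 (Ideal.span_singleton_eq_bot.mp hb')
  have hNb' : 2 ≤ Ideal.absNorm b' := by
    have h1 : Ideal.absNorm b' ≠ 1 := fun h => hb'top (Ideal.absNorm_eq_one_iff.mp h)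
    have h2 : 0 < Ideal.absNorm b' := absNorm_pos_of_ne_bot hb'0
    omega
  have hNI : 0 < Ideal.absNorm I := absNorm_pos_of_ne_bot hI0
  have hNq : 2 * (Ideal.absNorm I : ℝ) ≤ ‖σ (q : K)‖ ^ 2 := by
    rw [← absNorm_span_eq σ hN.hσ q, hb', map_mul]
    have h2 : (2 : ℝ) ≤ (Ideal.absNorm b' : ℝ) := by exact_mod_cast hNb'
    have h3 : (0 : ℝ) < (Ideal.absNorm I : ℝ) := by exact_mod_cast hNI
    push_cast
    nlinarith
  -- main inequality
  have hkey : ∀ n : ℕ, chebS a q n ≠ 0 → (2 : ℝ) ^ n ≤ D * ‖σ (u : K)‖ ^ 4 / ‖σ (q : K)‖ ^ 2 := by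
    intro n hn
    set A : SL2C := g ^ n with hA
    have hAG : A ∈ G := G.pow_mem hg n
    have hpn := pow_cheb σ g a q u hta hcu n
    have hpn1 := pow_cheb σ g a q u hta hcu (n + 1)
    have hσn : σ ((chebS a q n : 𝓞 K) : K) ≠ 0 := by rw [Ne, map_eq_zero]; exact_mod_cast hn
    have hcA : A.1 1 0 ≠ 0 := by
      intro h
      rw [← hA, h, zero_mul] at hpn
      exact mul_ne_zero hσu hσn hpn.symm
    have hm₀ : u * chebS a q n ≠ 0 := mul_ne_zero hu0 hn
    have hα : σ ((chebS a q (n + 1) : 𝓞 K) : K) = σ ((u * chebS a q n : 𝓞 K) : K) *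
        (g.1 0 0 / g.1 1 0 + A.1 1 1 / A.1 1 0) := by
      have e1 : (g ^ (n + 1)).1 1 0 = A.1 1 0 * g.1 1 0 * (g.1 0 0 / g.1 1 0 + A.1 1 1 / A.1 1 0) := by
        rw [pow_succ, mul10, ← hA]
        field_simp
      rw [e1] at hpn1
      have e2 : σ (u : K) * σ ((chebS a q (n + 1) : 𝓞 K) : K) = σ (u : K) * (σ ((u * chebS a q n : 𝓞 K) : K) *
        (g.1 0 0 / g.1 1 0 + A.1 1 1 / A.1 1 0)) := by
        rw [← hpn1]
        simp only [map_mul]
        rw [← hpn, ← hcu]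
        ring
      exact mul_left_cancel₀ hσu e2
    have h1 := hD A hAG g hg hcA hc (u * chebS a q n) (chebS a q (n + 1)) hm₀ hα
    -- norm of the ideal
    have h2 : (Ideal.absNorm (Ideal.span {u * chebS a q n, chebS a q (n + 1)}) : ℝ) ≤
        ‖σ (u : K)‖ ^ 2 * (Ideal.absNorm I : ℝ) ^ n := by
      have hle : Ideal.span {u} * I ^ n ≤ Ideal.span {u * chebS a q n, chebS a q (n + 1)} := by
        refine (Ideal.mul_mono_right (pow_le_chebS a q hq0 n)).trans ?_
        rw [Ideal.span_mul_span', Ideal.span_le]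
        rintro x ⟨y, hy, z, hz, rfl⟩
        rw [Set.mem_singleton_iff] at hy
        subst hy
        rcases hz with rfl | hz
        · have : u * (q * chebS a q n) = q * (u * chebS a q n) := by ring
          show u * (q * chebS a q n) ∈ _
          rw [this]
          exact Ideal.mul_mem_left _ _ (Ideal.subset_span (by simp))
        · rw [Set.mem_singleton_iff] at hz
          rw [hz]
          exact Ideal.mul_mem_left _ _ (Ideal.subset_span (by simp))
      have hdvd := Ideal.absNorm_dvd_absNorm_of_le hle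
      have hpos : 0 < Ideal.absNorm (Ideal.span {u} * I ^ n) := by
        apply absNorm_pos_of_ne_bot
        apply mul_ne_zero
        · rw [Ne, Ideal.zero_eq_bot, Ideal.span_singleton_eq_bot]; exact hu0
        · exact pow_ne_zero n hI0
      have h3 := Nat.le_of_dvd hpos hdvd
      rw [map_mul, map_pow] at h3
      have h4 : (Ideal.absNorm (Ideal.span {u * chebS a q n, chebS a q (n + 1)}) : ℝ) ≤
          (Ideal.absNorm (Ideal.span {u}) : ℝ) * (Ideal.absNorm I : ℝ) ^ n := by exact_mod_cast h3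
      rwa [absNorm_span_eq σ hN.hσ u] at h4
    set x : ℝ := ‖σ (u : K)‖ with hx
    set y : ℝ := ‖σ (q : K)‖ with hy
    set z : ℝ := ‖σ ((chebS a q n : 𝓞 K) : K)‖ with hz
    have hx0 : 0 < x := norm_pos_iff.mpr hσu
    have hy0 : 0 < y := norm_pos_iff.mpr hσq
    have hz0 : 0 < z := norm_pos_iff.mpr hσn
    have e1 : ‖A.1 1 0‖ * y ^ n = x * z := by
      rw [hx, hy, hz, ← norm_mul, ← norm_pow, ← norm_mul, hpn]
    have e2 : y * ‖g.1 1 0‖ = x := by rw [hx, hy, ← norm_mul, hcu]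
    have e3 : ‖σ ((u * chebS a q n : 𝓞 K) : K)‖ = x * z := by
      simp only [map_mul]; rw [norm_mul]
    have e4 : ‖A.1 1 0 * g.1 1 0‖ = x * z / y ^ n * (x / y) := by
      rw [norm_mul, ← e1, ← e2]; field_simp
    rw [e3, e4] at h1
    set NI : ℝ := (Ideal.absNorm I : ℝ) with hNId
    have hNI0 : 0 < NI := by rw [hNId]; exact_mod_cast hNI
    have h5 : (x * z) ^ 2 ≤ D * (x * z / y ^ n * (x / y)) ^ 2 * (x ^ 2 * NI ^ n) :=
      h1.trans (mul_le_mul_of_nonneg_left h2 (by positivity))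
    have h6 : D * (x * z / y ^ n * (x / y)) ^ 2 * (x ^ 2 * NI ^ n) =
        (x * z) ^ 2 * (D * x ^ 4 / y ^ 2 * (NI ^ n / (y ^ 2) ^ n)) := by
      field_simp
      ring
    rw [h6] at h5
    have h7 : 1 ≤ D * x ^ 4 / y ^ 2 * (NI ^ n / (y ^ 2) ^ n) := by
      have hxz : 0 < (x * z) ^ 2 := by positivity
      by_contra hcon
      push Not at hcon
      have := mul_lt_mul_of_pos_left hcon hxz
      linarith
    have h8 : (2 * NI) ^ n ≤ (y ^ 2) ^ n := pow_le_pow_left₀ (by positivity) hNq n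
    have h9 : NI ^ n / (y ^ 2) ^ n ≤ 1 / 2 ^ n := by
      rw [div_le_div_iff₀ (by positivity) (by positivity), one_mul]
      calc NI ^ n * 2 ^ n = (2 * NI) ^ n := by rw [mul_pow]; ring
        _ ≤ _ := h8
    have hDx : 0 ≤ D * x ^ 4 / y ^ 2 := by positivity
    have h10 : 1 ≤ D * x ^ 4 / y ^ 2 * (1 / 2 ^ n) := h7.trans (mul_le_mul_of_nonneg_left h9 hDx)
    rw [mul_one_div, le_div_iff₀ (by positivity), one_mul] at h10
    exact h10
  -- consecutive terms are not both zero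
  have hne : ∀ n : ℕ, chebS a q n ≠ 0 ∨ chebS a q (n + 1) ≠ 0 := by
    intro n
    by_contra hcon
    push Not at hcon
    have h1 := chebS_identity a q n
    rw [hcon.1, hcon.2] at h1
    have : q ^ (2 * n + 1) = 0 := by rw [← h1]; ring
    exact hq0 (pow_eq_zero_iff (by omega) |>.mp this)
  have hall : ∀ n : ℕ, (2 : ℝ) ^ n ≤ D * ‖σ (u : K)‖ ^ 4 / ‖σ (q : K)‖ ^ 2 := by
    intro n
    rcases hne n with h | h
    · exact hkey n h
    · refine le_trans ?_ (hkey (n + 1) h)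
      exact pow_le_pow_right₀ (by norm_num) (by omega)
  obtain ⟨n, hn⟩ := pow_unbounded_of_one_lt (D * ‖σ (u : K)‖ ^ 4 / ‖σ (q : K)‖ ^ 2) (one_lt_two (α := ℝ))
  exact absurd (hall n) (not_le.mpr hn)

theorem c_mem (hs : SieveStatement) (σ : K →+* ℂ) (G : Subgroup SL2C) (hN : Nrm σ G)
    (g : SL2C) (hg : g ∈ G) (hF : InF σ g) : ∃ x : 𝓞 K, σ (x : K) = g.1 1 0 := by
  by_cases hc : g.1 1 0 = 0
  · exact ⟨0, by rw [hc]; simp⟩
  · obtain ⟨x, hx⟩ := trace_mem hs σ G hN g hg hF hc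
    have h1 : T 1 ∈ G := by
      have := hN.hT 1
      simpa using this
    have hg1 : g * T 1 ∈ G := G.mul_mem hg h1
    have hcg : (g * T 1).1 1 0 = g.1 1 0 := by rw [mul10, T00, T10]; ring
    have hF1 : InF σ (g * T 1) := by
      intro i j
      fin_cases i <;> fin_cases j
      · show (g * T 1).1 0 0 ∈ _
        rw [mul00, T00, T10]; simpa using hF 0 0
      · show (g * T 1).1 0 1 ∈ _
        rw [mul01, T01, T11, mul_one, mul_one]; exact add_mem (hF 0 0) (hF 0 1)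
      · show (g * T 1).1 1 0 ∈ _
        rw [hcg]; exact hF 1 0
      · show (g * T 1).1 1 1 ∈ _
        rw [mul11, T01, T11, mul_one, mul_one]; exact add_mem (hF 1 0) (hF 1 1)
    obtain ⟨y, hy⟩ := trace_mem hs σ G hN (g * T 1) hg1 hF1 (by rw [hcg]; exact hc)
    refine ⟨y - x, ?_⟩
    rw [tr_mul_T] at hy
    simp only [map_sub]
    rw [hx, hy]; ring

end Pool.Agent.Work.MP_67f4ac_gt
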