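import Mathlib
import Pool.Agent.Work.MP_67f4ac_gt.Integral

set_option autoImplicit false
set_option linter.all false

namespace Pool.Agent.Work.MP_67f4ac_gt

open Filter Topology NumberField

variable {K : Type} [Field K] [NumberField K]

/-- the image of the ring of integers -/
def OO (σ : K →+* ℂ) : Subring ℂ := (σ.comp (algebraMap (𝓞 K) K)).range

lemma mem_OO {σ : K →+* ℂ} {z : ℂ} : z ∈ OO σ ↔ ∃ x : 𝓞 K, σ (x : K) = z := by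
  unfold OO
  rw [RingHom.mem_range]
  rfl

lemma OO_le {σ : K →+* ℂ} {z : ℂ} (h : z ∈ OO σ) : z ∈ σ.fieldRange := by
  obtain ⟨x, hx⟩ := mem_OO.mp h
  exact RingHom.mem_fieldRange.mpr ⟨x, hx⟩

lemma exists_nat_mul_mem {σ : K →+* ℂ} {z : ℂ} (h : z ∈ σ.fieldRange) :
    ∃ N : ℕ, 0 < N ∧ (N : ℂ) * z ∈ OO σ := by
  obtain ⟨y, hy⟩ := RingHom.mem_fieldRange.mp h
  obtain ⟨a, q, hq, haq⟩ := IsFractionRing.div_surjective (A := 𝓞 K) y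
  have hq0 : q ≠ 0 := nonZeroDivisors.ne_zero hq
  have hσq : σ (q : K) ≠ 0 := by rw [Ne, map_eq_zero]; exact_mod_cast hq0
  have hI0 : Ideal.span {q} ≠ ⊥ := by rw [Ne, Ideal.span_singleton_eq_bot]; exact hq0
  refine ⟨Ideal.absNorm (Ideal.span {q}), absNorm_pos_of_ne_bot hI0, ?_⟩
  have h1 : ((Ideal.absNorm (Ideal.span {q}) : ℕ) : 𝓞 K) ∈ Ideal.span {q} := Ideal.absNorm_mem _
  obtain ⟨x, hx⟩ := Ideal.mem_span_singleton'.mp h1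
  rw [mem_OO]
  refine ⟨x * a, ?_⟩
  have h2 : σ (x : K) * σ (q : K) = ((Ideal.absNorm (Ideal.span {q}) : ℕ) : ℂ) := by
    have := congrArg (fun z : 𝓞 K => σ (z : K)) hx
    simp only [map_mul, map_natCast] at this
    exact this
  rw [← h2, ← hy, ← haq, map_div₀]
  simp only [map_mul]
  field_simp

lemma nat_mem_OO (σ : K →+* ℂ) (N : ℕ) : (N : ℂ) ∈ OO σ := natCast_mem _ N

lemma finite_disc (σ : K →+* ℂ) (hσ : ∀ x : K, ((Algebra.norm ℚ x : ℚ) : ℝ) = ‖σ x‖ ^ 2) (R : ℝ) :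
    {v : 𝓞 K | ‖σ (v : K)‖ ≤ R}.Finite := by
  by_contra hinf
  have hinf' : {v : 𝓞 K | ‖σ (v : K)‖ ≤ R}.Infinite := hinf
  obtain ⟨n, hn⟩ := exists_nat_gt (32 * (|R|) ^ 2 / (1 : ℝ) ^ 2 + 18)
  obtain ⟨t, ht, hcard⟩ := hinf'.exists_subset_card_eq n
  have hinj : Function.Injective (fun v : 𝓞 K => σ (v : K)) := by
    intro x y hxy
    exact RingOfIntegers.coe_injective (σ.injective hxy)
  have h1 := card_le_of_separated (t.image (fun v : 𝓞 K => σ (v : K))) 1 |R| one_pos (abs_nonneg R)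
    (by
      intro z hz
      obtain ⟨v, hv, rfl⟩ := Finset.mem_image.mp hz
      exact (ht hv).trans (le_abs_self R))
    (by
      intro z hz w hw hzw
      obtain ⟨x, hx, rfl⟩ := Finset.mem_image.mp hz
      obtain ⟨y, hy, rfl⟩ := Finset.mem_image.mp hw
      have hxy : x - y ≠ 0 := by
        intro h
        apply hzw
        rw [sub_eq_zero.mp h]
      have h2 := absNorm_span_eq σ hσ (x - y)
      have h3 : 0 < Ideal.absNorm (Ideal.span {x - y}) :=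
        absNorm_pos_of_ne_bot (by rw [Ne, Ideal.span_singleton_eq_bot]; exact hxy)
      have h4 : (1 : ℝ) ≤ ‖σ ((x - y : 𝓞 K) : K)‖ ^ 2 := by
        rw [← h2]; exact_mod_cast h3
      have h5 : σ ((x - y : 𝓞 K) : K) = σ (x : K) - σ (y : K) := by simp only [map_sub]
      rw [h5] at h4
      nlinarith [norm_nonneg (σ (x : K) - σ (y : K))])
  rw [Finset.card_image_of_injective _ hinj, hcard] at h1
  linarith

lemma finite_reps {α β : Type} (P : α → Prop) (φ : α → β) (hfin : (φ '' {a | P a}).Finite) :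
    ∃ S : Finset α, (∀ s ∈ S, P s) ∧ ∀ a, P a → ∃ s ∈ S, φ a = φ s := by
  classical
  have h : ∀ b : hfin.toFinset, ∃ a, P a ∧ φ a = b.1 := by
    rintro ⟨b, hb⟩
    rw [Set.Finite.mem_toFinset] at hb
    obtain ⟨a, ha, hab⟩ := hb
    exact ⟨a, ha, hab⟩
  choose c hc using h
  refine ⟨Finset.univ.image c, ?_, ?_⟩
  · intro s hs
    obtain ⟨b, _, rfl⟩ := Finset.mem_image.mp hs
    exact (hc b).1
  · intro a ha
    have hb : φ a ∈ hfin.toFinset := by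
      rw [Set.Finite.mem_toFinset]; exact ⟨a, ha, rfl⟩
    exact ⟨c ⟨φ a, hb⟩, Finset.mem_image.mpr ⟨_, Finset.mem_univ _, rfl⟩, (hc ⟨φ a, hb⟩).2.symm⟩

section

variable {σ : K →+* ℂ} {G : Subgroup SL2C}

lemma InF_mul {g h : SL2C} (hg : InF σ g) (hh : InF σ h) : InF σ (g * h) := by
  intro i j
  rw [Matrix.SpecialLinearGroup.coe_mul, Matrix.mul_apply, Fin.sum_univ_two]
  exact add_mem (mul_mem (hg _ _) (hh _ _)) (mul_mem (hg _ _) (hh _ _))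

lemma InF_one : InF σ (1 : SL2C) := by
  intro i j
  fin_cases i <;> fin_cases j
  · exact one_mem _
  · exact zero_mem _
  · exact zero_mem _
  · exact one_mem _

lemma InF_T (x : K) : InF σ (T (σ x)) := by
  intro i j
  fin_cases i <;> fin_cases j
  · exact one_mem _
  · exact RingHom.mem_fieldRange.mpr ⟨x, rfl⟩
  · exact zero_mem _
  · exact one_mem _

lemma entries_div (hN : Nrm σ G) {g : SL2C} (hg : g ∈ G) (hc : g.1 1 0 ≠ 0) (i j : Fin 2) :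
    g.1 i j / g.1 1 0 ∈ σ.fieldRange := by
  have h1 := hN.ha g hg hc
  have h2 := hN.hd g hg hc
  have h3 := hN.hc2 g hg hc
  fin_cases i <;> fin_cases j
  · exact h1
  · show g.1 0 1 / g.1 1 0 ∈ σ.fieldRange
    have e : g.1 0 1 / g.1 1 0 = g.1 0 0 / g.1 1 0 * (g.1 1 1 / g.1 1 0) - (g.1 1 0 ^ 2)⁻¹ := by
      have := det_eq g
      field_simp
      linear_combination -this
    rw [e]
    exact sub_mem (mul_mem h1 h2) (inv_mem h3)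
  · show g.1 1 0 / g.1 1 0 ∈ σ.fieldRange
    rw [div_self hc]; exact one_mem _
  · exact h2

lemma InF_mul_of (hN : Nrm σ G) {g h : SL2C} (hg : g ∈ G) (hh : h ∈ G) (hcg : g.1 1 0 ≠ 0)
    (hch : h.1 1 0 ≠ 0) (hcc : g.1 1 0 * h.1 1 0 ∈ σ.fieldRange) : InF σ (g * h) := by
  intro i j
  rw [Matrix.SpecialLinearGroup.coe_mul, Matrix.mul_apply, Fin.sum_univ_two]
  have e : g.1 i 0 * h.1 0 j + g.1 i 1 * h.1 1 j = (g.1 1 0 * h.1 1 0) *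
      ((g.1 i 0 / g.1 1 0) * (h.1 0 j / h.1 1 0) + (g.1 i 1 / g.1 1 0) * (h.1 1 j / h.1 1 0)) := by
    field_simp
  show g.1 i 0 * h.1 0 j + g.1 i 1 * h.1 1 j ∈ σ.fieldRange
  rw [e]
  exact mul_mem hcc (add_mem (mul_mem (entries_div hN hg hcg _ _) (entries_div hN hh hch _ _))
    (mul_mem (entries_div hN hg hcg _ _) (entries_div hN hh hch _ _)))

lemma sandwich_entry (g h : SL2C) (i l : Fin 2) :
    (g * h * g).1 i l = g.1 i 0 * h.1 0 0 * g.1 0 l + g.1 i 0 * h.1 0 1 * g.1 1 l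
      + g.1 i 1 * h.1 1 0 * g.1 0 l + g.1 i 1 * h.1 1 1 * g.1 1 l := by
  rw [Matrix.SpecialLinearGroup.coe_mul, Matrix.mul_apply, Fin.sum_univ_two,
    Matrix.SpecialLinearGroup.coe_mul, Matrix.mul_apply, Fin.sum_univ_two, Matrix.mul_apply,
    Fin.sum_univ_two]
  ring

lemma sandwich_InF (hN : Nrm σ G) {g h : SL2C} (hg : g ∈ G) (hh : InF σ h) : InF σ (g * h * g) := by
  by_cases hc : g.1 1 0 = 0
  · have hgF : InF σ g := hN.h0 g hg hc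
    exact InF_mul (InF_mul hgF hh) hgF
  · intro i l
    rw [sandwich_entry]
    have e : g.1 i 0 * h.1 0 0 * g.1 0 l + g.1 i 0 * h.1 0 1 * g.1 1 l
      + g.1 i 1 * h.1 1 0 * g.1 0 l + g.1 i 1 * h.1 1 1 * g.1 1 l = g.1 1 0 ^ 2 *
        ((g.1 i 0 / g.1 1 0) * h.1 0 0 * (g.1 0 l / g.1 1 0) + (g.1 i 0 / g.1 1 0) * h.1 0 1 * (g.1 1 l / g.1 1 0)
      + (g.1 i 1 / g.1 1 0) * h.1 1 0 * (g.1 0 l / g.1 1 0) + (g.1 i 1 / g.1 1 0) * h.1 1 1 * (g.1 1 l / g.1 1 0)) := by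
      field_simp
    rw [e]
    have k := fun i j => entries_div hN hg hc i j
    refine mul_mem (hN.hc2 g hg hc) (add_mem (add_mem (add_mem ?_ ?_) ?_) ?_)
    · exact mul_mem (mul_mem (k i 0) (hh 0 0)) (k 0 l)
    · exact mul_mem (mul_mem (k i 0) (hh 0 1)) (k 1 l)
    · exact mul_mem (mul_mem (k i 1) (hh 1 0)) (k 0 l)
    · exact mul_mem (mul_mem (k i 1) (hh 1 1)) (k 1 l)

lemma exists_base (hN : Nrm σ G) : ∃ g ∈ G, InF σ g ∧ g.1 1 0 ≠ 0 := by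
  obtain ⟨g, hg, hc⟩ := hN.hne
  have h1 : T 1 ∈ G := by
    have := hN.hT 1
    simpa using this
  obtain ⟨g', hg', hc', ht'⟩ : ∃ g' ∈ G, g'.1 1 0 ≠ 0 ∧ tr g' ≠ 0 := by
    by_cases ht : tr g = 0
    · refine ⟨g * T 1, G.mul_mem hg h1, ?_, ?_⟩
      · rw [mul10, T00, T10]; simpa using hc
      · rw [tr_mul_T, ht]; simpa using hc
    · exact ⟨g, hg, hc, ht⟩
  refine ⟨g' * 1 * g', G.mul_mem (G.mul_mem hg' G.one_mem) hg', sandwich_InF hN hg' InF_one, ?_⟩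
  rw [mul_one, mul10]
  have : g'.1 1 0 * g'.1 0 0 + g'.1 1 1 * g'.1 1 0 = g'.1 1 0 * tr g' := by unfold tr; ring
  rw [this]
  exact mul_ne_zero hc' ht'

/-- data of a base element -/
lemma exists_base' (hN : Nrm σ G) : ∃ g ∈ G, InF σ g ∧ g.1 1 0 ≠ 0 ∧ ∃ N : ℕ, 0 < N ∧
    (∀ i j, (N : ℂ) * g.1 i j ∈ OO σ) ∧ (N : ℂ) / g.1 1 0 ∈ OO σ := by
  obtain ⟨g, hg, hF, hc⟩ := exists_base hN
  refine ⟨g, hg, hF, hc, ?_⟩
  obtain ⟨N1, p1, m1⟩ := exists_nat_mul_mem (hF 0 0)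
  obtain ⟨N2, p2, m2⟩ := exists_nat_mul_mem (hF 0 1)
  obtain ⟨N3, p3, m3⟩ := exists_nat_mul_mem (hF 1 0)
  obtain ⟨N4, p4, m4⟩ := exists_nat_mul_mem (hF 1 1)
  obtain ⟨N5, p5, m5⟩ := exists_nat_mul_mem (inv_mem (hF 1 0))
  refine ⟨N1 * N2 * N3 * N4 * N5, by positivity, ?_, ?_⟩
  · intro i j
    fin_cases i <;> fin_cases j
    · show ((N1 * N2 * N3 * N4 * N5 : ℕ) : ℂ) * g.1 0 0 ∈ OO σ
      have : ((N1 * N2 * N3 * N4 * N5 : ℕ) : ℂ) * g.1 0 0 = ((N2 * N3 * N4 * N5 : ℕ) : ℂ) * (N1 * g.1 0 0) := by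
        push_cast; ring
      rw [this]; exact mul_mem (nat_mem_OO σ _) m1
    · show ((N1 * N2 * N3 * N4 * N5 : ℕ) : ℂ) * g.1 0 1 ∈ OO σ
      have : ((N1 * N2 * N3 * N4 * N5 : ℕ) : ℂ) * g.1 0 1 = ((N1 * N3 * N4 * N5 : ℕ) : ℂ) * (N2 * g.1 0 1) := by
        push_cast; ring
      rw [this]; exact mul_mem (nat_mem_OO σ _) m2
    · show ((N1 * N2 * N3 * N4 * N5 : ℕ) : ℂ) * g.1 1 0 ∈ OO σ
      have : ((N1 * N2 * N3 * N4 * N5 : ℕ) : ℂ) * g.1 1 0 = ((N1 * N2 * N4 * N5 : ℕ) : ℂ) * (N3 * g.1 1 0) := by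
        push_cast; ring
      rw [this]; exact mul_mem (nat_mem_OO σ _) m3
    · show ((N1 * N2 * N3 * N4 * N5 : ℕ) : ℂ) * g.1 1 1 ∈ OO σ
      have : ((N1 * N2 * N3 * N4 * N5 : ℕ) : ℂ) * g.1 1 1 = ((N1 * N2 * N3 * N5 : ℕ) : ℂ) * (N4 * g.1 1 1) := by
        push_cast; ring
      rw [this]; exact mul_mem (nat_mem_OO σ _) m4
  · have : ((N1 * N2 * N3 * N4 * N5 : ℕ) : ℂ) / g.1 1 0 = ((N1 * N2 * N3 * N4 : ℕ) : ℂ) * (N5 * (g.1 1 0)⁻¹) := by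
      push_cast; field_simp
    rw [this]; exact mul_mem (nat_mem_OO σ _) m5

theorem bounded_denoms (hs : SieveStatement) (hN : Nrm σ G) :
    ∃ N : ℕ, 0 < N ∧ ∀ g ∈ G, InF σ g → ∀ i j, (N : ℂ) * g.1 i j ∈ OO σ := by
  obtain ⟨g₁, hg₁, hF₁, hc₁, N, hN0, hNe, hNc⟩ := exists_base' hN
  have hNm : ∀ k : ℕ, (N : ℂ) ^ k ∈ OO σ := fun k => pow_mem (nat_mem_OO σ N) k
  refine ⟨N ^ 5, by positivity, ?_⟩
  intro g hg hF
  have hc := mem_OO.mpr (c_mem hs σ G hN g hg hF)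
  have h1 := mem_OO.mpr (c_mem hs σ G hN (g₁ * g) (G.mul_mem hg₁ hg) (InF_mul hF₁ hF))
  have h2 := mem_OO.mpr (c_mem hs σ G hN (g * g₁) (G.mul_mem hg hg₁) (InF_mul hF hF₁))
  have h3 := mem_OO.mpr (c_mem hs σ G hN (g₁ * g * g₁) (G.mul_mem (G.mul_mem hg₁ hg) hg₁)
    (InF_mul (InF_mul hF₁ hF) hF₁))
  have hA : (N : ℂ) ^ 2 * g.1 0 0 ∈ OO σ := by
    have e : (N : ℂ) ^ 2 * g.1 0 0 = (N : ℂ) / g₁.1 1 0 * ((N : ℂ) * (g₁ * g).1 1 0 - ((N : ℂ) * g₁.1 1 1) * g.1 1 0) := by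
      rw [mul10]; field_simp; ring
    rw [e]
    exact mul_mem hNc (sub_mem (mul_mem (nat_mem_OO σ N) h1) (mul_mem (hNe 1 1) hc))
  have hD : (N : ℂ) ^ 2 * g.1 1 1 ∈ OO σ := by
    have e : (N : ℂ) ^ 2 * g.1 1 1 = (N : ℂ) / g₁.1 1 0 * ((N : ℂ) * (g * g₁).1 1 0 - ((N : ℂ) * g₁.1 0 0) * g.1 1 0) := by
      rw [mul10]; field_simp; ring
    rw [e]
    exact mul_mem hNc (sub_mem (mul_mem (nat_mem_OO σ N) h2) (mul_mem (hNe 0 0) hc))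
  have hB : (N : ℂ) ^ 5 * g.1 0 1 ∈ OO σ := by
    have e : (N : ℂ) ^ 5 * g.1 0 1 = ((N : ℂ) / g₁.1 1 0) ^ 2 * ((N : ℂ) ^ 3 * (g₁ * g * g₁).1 1 0
        - ((N : ℂ) * g₁.1 1 0) * ((N : ℂ) * g₁.1 0 0) * ((N : ℂ) ^ 2 * g.1 0 0) * 1
        - (N : ℂ) * ((N : ℂ) * g₁.1 1 1) * ((N : ℂ) * g₁.1 0 0) * g.1 1 0
        - ((N : ℂ) * g₁.1 1 1) * ((N : ℂ) * g₁.1 1 0) * ((N : ℂ) ^ 2 * g.1 1 1)
        + (((N : ℂ) * g₁.1 1 0) * ((N : ℂ) * g₁.1 0 0) * ((N : ℂ) ^ 2 * g.1 0 0)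
            - g₁.1 1 0 * ((N : ℂ) * g₁.1 0 0) * ((N : ℂ) ^ 2 * g.1 0 0))
        + (((N : ℂ) * g₁.1 1 1) * ((N : ℂ) * g₁.1 1 0) * ((N : ℂ) ^ 2 * g.1 1 1)
            - ((N : ℂ) * g₁.1 1 1) * g₁.1 1 0 * ((N : ℂ) ^ 2 * g.1 1 1))) := by
      rw [mul10, mul10, mul11]; field_simp; ring
    have hc₁O := mem_OO.mpr (c_mem hs σ G hN g₁ hg₁ hF₁)
    rw [e]
    refine mul_mem (pow_mem hNc 2) (add_mem (add_mem (sub_mem (sub_mem (sub_mem ?_ ?_) ?_) ?_)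
      (sub_mem ?_ ?_)) (sub_mem ?_ ?_))
    · exact mul_mem (hNm 3) h3
    · exact mul_mem (mul_mem (mul_mem (hNe 1 0) (hNe 0 0)) hA) (one_mem _)
    · exact mul_mem (mul_mem (mul_mem (nat_mem_OO σ N) (hNe 1 1)) (hNe 0 0)) hc
    · exact mul_mem (mul_mem (hNe 1 1) (hNe 1 0)) hD
    · exact mul_mem (mul_mem (hNe 1 0) (hNe 0 0)) hA
    · exact mul_mem (mul_mem hc₁O (hNe 0 0)) hA
    · exact mul_mem (mul_mem (hNe 1 1) (hNe 1 0)) hD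
    · exact mul_mem (mul_mem (hNe 1 1) hc₁O) hD
  intro i j
  fin_cases i <;> fin_cases j
  · show ((N ^ 5 : ℕ) : ℂ) * g.1 0 0 ∈ OO σ
    have : ((N ^ 5 : ℕ) : ℂ) * g.1 0 0 = (N : ℂ) ^ 3 * ((N : ℂ) ^ 2 * g.1 0 0) := by push_cast; ring
    rw [this]; exact mul_mem (hNm 3) hA
  · show ((N ^ 5 : ℕ) : ℂ) * g.1 0 1 ∈ OO σ
    push_cast; exact hB
  · show ((N ^ 5 : ℕ) : ℂ) * g.1 1 0 ∈ OO σ
    exact mul_mem (nat_mem_OO σ _) hc
  · show ((N ^ 5 : ℕ) : ℂ) * g.1 1 1 ∈ OO σ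
    have : ((N ^ 5 : ℕ) : ℂ) * g.1 1 1 = (N : ℂ) ^ 3 * ((N : ℂ) ^ 2 * g.1 1 1) := by push_cast; ring
    rw [this]; exact mul_mem (hNm 3) hD

end

end Pool.Agent.Work.MP_67f4ac_gt
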