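import Mathlib
import Pool.Agent.Work.MP_67f4ac_gt.Bounded

set_option autoImplicit false
set_option linter.all false

namespace Pool.Agent.Work.MP_67f4ac_gt

open Filter Topology NumberField

variable {K : Type} [Field K] [NumberField K]

/-- a simultaneous approximation lemma by the pigeonhole principle -/
lemma dirichlet (ω : ℂ) (hω : ω.im ≠ 0) (z : ℂ) (Q : ℝ) (hQ : 1 + ‖ω‖ ≤ Q) :
    ∃ m n m' n' : ℤ, (m' : ℂ) + n' * ω ≠ 0 ∧ ‖(m' : ℂ) + n' * ω‖ ≤ Q ∧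
      ‖((m : ℂ) + n * ω) + ((m' : ℂ) + n' * ω) * z‖ ≤ 2 * (1 + ‖ω‖) ^ 2 / Q := by
  classical
  have hw0 : 0 < 1 + ‖ω‖ := by positivity
  have hQ0 : 0 < Q := lt_of_lt_of_le hw0 hQ
  set M : ℕ := ⌊Q / (1 + ‖ω‖)⌋₊ with hM
  have hM1 : 1 ≤ M := by
    rw [hM, Nat.one_le_floor_iff, le_div_iff₀ hw0, one_mul]; exact hQ
  have hMle : (M : ℝ) ≤ Q / (1 + ‖ω‖) := Nat.floor_le (by positivity)
  have hMge : Q / (1 + ‖ω‖) ≤ 2 * M := by
    have h1 : Q / (1 + ‖ω‖) < M + 1 := Nat.lt_floor_add_one _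
    have h2 : (1 : ℝ) ≤ M := by exact_mod_cast hM1
    linarith
  have hM0 : (0 : ℝ) < M := by exact_mod_cast hM1
  -- real coordinates
  let v : ℂ → ℝ := fun w => w.im / ω.im
  let u : ℂ → ℝ := fun w => w.re - v w * ω.re
  have huv : ∀ w : ℂ, w = (u w : ℂ) + (v w : ℂ) * ω := by
    intro w
    apply Complex.ext
    · simp [u, v]
    · simp only [Complex.add_im, Complex.ofReal_im, Complex.mul_im, Complex.ofReal_re, zero_mul, add_zero, zero_add]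
      show w.im = w.im / ω.im * ω.im
      field_simp
  have hfl : ∀ x : ℝ, ⌊(M : ℝ) * Int.fract x⌋ ∈ Finset.Ico (0 : ℤ) M := by
    intro x
    rw [Finset.mem_Ico]
    constructor
    · exact Int.floor_nonneg.mpr (mul_nonneg hM0.le (Int.fract_nonneg x))
    · rw [Int.floor_lt]
      have := mul_lt_mul_of_pos_left (Int.fract_lt_one x) hM0
      push_cast
      linarith
  let φ : ℤ × ℤ → ℤ × ℤ := fun p =>
    (⌊(M : ℝ) * Int.fract (u (((p.1 : ℂ) + p.2 * ω) * z))⌋, ⌊(M : ℝ) * Int.fract (v (((p.1 : ℂ) + p.2 * ω) * z))⌋)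
  set B : Finset (ℤ × ℤ) := Finset.Icc (0 : ℤ) M ×ˢ Finset.Icc (0 : ℤ) M with hB
  set B' : Finset (ℤ × ℤ) := Finset.Ico (0 : ℤ) M ×ˢ Finset.Ico (0 : ℤ) M with hB'
  have hcard : B'.card < B.card := by
    rw [hB, hB', Finset.card_product, Finset.card_product, Int.card_Ico, Int.card_Icc]
    have h1 : ((M : ℤ) - 0).toNat = M := by omega
    have h2 : ((M : ℤ) + 1 - 0).toNat = M + 1 := by omega
    rw [h1, h2]; nlinarith
  have hmaps : Set.MapsTo φ B B' := by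
    intro p _
    rw [hB', Finset.coe_product, Set.mem_prod]
    exact ⟨hfl _, hfl _⟩
  obtain ⟨p, hp, q, hq, hpq, hφ⟩ := Finset.exists_ne_map_eq_of_card_lt_of_maps_to hcard hmaps
  rw [hB, Finset.mem_product, Finset.mem_Icc, Finset.mem_Icc] at hp hq
  set y1 : ℂ := (p.1 : ℂ) + p.2 * ω with hy1
  set y2 : ℂ := (q.1 : ℂ) + q.2 * ω with hy2
  have hφ1 : ⌊(M : ℝ) * Int.fract (u (y1 * z))⌋ = ⌊(M : ℝ) * Int.fract (u (y2 * z))⌋ := congrArg Prod.fst hφ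
  have hφ2 : ⌊(M : ℝ) * Int.fract (v (y1 * z))⌋ = ⌊(M : ℝ) * Int.fract (v (y2 * z))⌋ := congrArg Prod.snd hφ
  have hclose : ∀ x y : ℝ, ⌊(M : ℝ) * Int.fract x⌋ = ⌊(M : ℝ) * Int.fract y⌋ → |Int.fract x - Int.fract y| ≤ 1 / M := by
    intro x y h
    have h1 := Int.abs_sub_lt_one_of_floor_eq_floor h
    rw [← mul_sub, abs_mul, abs_of_pos hM0] at h1
    rw [le_div_iff₀ hM0]
    linarith
  refine ⟨⌊u (y2 * z)⌋ - ⌊u (y1 * z)⌋, ⌊v (y2 * z)⌋ - ⌊v (y1 * z)⌋, p.1 - q.1, p.2 - q.2, ?_, ?_, ?_⟩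
  · intro h
    have h3 : (((p.1 - q.1 : ℤ) : ℚ) : ℂ) + (((p.2 - q.2 : ℤ) : ℚ) : ℂ) * ω = 0 := by
      push_cast at h ⊢; exact h
    obtain ⟨h4, h5⟩ := V_indep hω h3
    have h6 : p.1 - q.1 = 0 := by exact_mod_cast h4
    have h7 : p.2 - q.2 = 0 := by exact_mod_cast h5
    apply hpq
    apply Prod.ext
    · linarith
    · linarith
  · have h1 : ‖((p.1 - q.1 : ℤ) : ℂ)‖ ≤ M := by
      rw [Complex.norm_intCast]
      have : |p.1 - q.1| ≤ (M : ℤ) := by rw [abs_le]; constructor <;> omega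
      exact_mod_cast this
    have h2 : ‖((p.2 - q.2 : ℤ) : ℂ)‖ ≤ M := by
      rw [Complex.norm_intCast]
      have : |p.2 - q.2| ≤ (M : ℤ) := by rw [abs_le]; constructor <;> omega
      exact_mod_cast this
    calc ‖((p.1 - q.1 : ℤ) : ℂ) + ((p.2 - q.2 : ℤ) : ℂ) * ω‖ ≤ M + M * ‖ω‖ := by
          refine (norm_add_le _ _).trans ?_
          rw [norm_mul]
          have := mul_le_mul_of_nonneg_right h2 (norm_nonneg ω)
          linarith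
      _ = M * (1 + ‖ω‖) := by ring
      _ ≤ Q / (1 + ‖ω‖) * (1 + ‖ω‖) := mul_le_mul_of_nonneg_right hMle hw0.le
      _ = Q := by field_simp
  · set a : ℝ := Int.fract (u (y1 * z)) - Int.fract (u (y2 * z)) with ha
    set b : ℝ := Int.fract (v (y1 * z)) - Int.fract (v (y2 * z)) with hb
    have ha' : |a| ≤ 1 / M := hclose _ _ hφ1
    have hb' : |b| ≤ 1 / M := hclose _ _ hφ2
    have e : (((⌊u (y2 * z)⌋ - ⌊u (y1 * z)⌋ : ℤ) : ℂ) + ((⌊v (y2 * z)⌋ - ⌊v (y1 * z)⌋ : ℤ) : ℂ) * ω) +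
        (((p.1 - q.1 : ℤ) : ℂ) + ((p.2 - q.2 : ℤ) : ℂ) * ω) * z = (a : ℂ) + (b : ℂ) * ω := by
      have e1 : (((p.1 - q.1 : ℤ) : ℂ) + ((p.2 - q.2 : ℤ) : ℂ) * ω) * z = y1 * z - y2 * z := by
        rw [hy1, hy2]; push_cast; ring
      rw [e1, ha, hb]
      have f1 : (Int.fract (u (y1 * z)) : ℝ) = u (y1 * z) - ⌊u (y1 * z)⌋ := rfl
      have f2 : (Int.fract (u (y2 * z)) : ℝ) = u (y2 * z) - ⌊u (y2 * z)⌋ := rfl
      have f3 : (Int.fract (v (y1 * z)) : ℝ) = v (y1 * z) - ⌊v (y1 * z)⌋ := rfl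
      have f4 : (Int.fract (v (y2 * z)) : ℝ) = v (y2 * z) - ⌊v (y2 * z)⌋ := rfl
      rw [f1, f2, f3, f4]
      have g1 := huv (y1 * z)
      have g2 := huv (y2 * z)
      push_cast
      linear_combination g1 - g2
    rw [e]
    have h1 : ‖(a : ℂ) + (b : ℂ) * ω‖ ≤ 1 / M * (1 + ‖ω‖) := by
      refine (norm_add_le _ _).trans ?_
      rw [norm_mul, Complex.norm_real, Complex.norm_real, Real.norm_eq_abs, Real.norm_eq_abs]
      have := mul_le_mul_of_nonneg_right hb' (norm_nonneg ω)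
      linarith
    refine h1.trans ?_
    rw [div_mul_eq_mul_div, one_mul, div_le_div_iff₀ hM0 hQ0]
    rw [div_le_iff₀ hw0] at hMge
    nlinarith

section

variable {σ : K →+* ℂ} {G : Subgroup SL2C}

/-- E2: the elements with integral entries have finite index in the elements with entries in `F` -/
theorem finite_idx_integral (hs : SieveStatement) (hN : Nrm σ G) :
    ∃ S : Finset SL2C, (∀ s ∈ S, s ∈ G ∧ InF σ s) ∧ ∀ g ∈ G, InF σ g →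
      ∃ s ∈ S, ∀ i j, (s⁻¹ * g).1 i j ∈ OO σ := by
  classical
  obtain ⟨N, hN0, hNb⟩ := bounded_denoms hs hN
  have hNc : (N : ℂ) ≠ 0 := by exact_mod_cast hN0.ne'
  let I : Ideal (𝓞 K) := Ideal.span {((N ^ 2 : ℕ) : 𝓞 K)}
  have hI : I ≠ ⊥ := by
    rw [Ne, Ideal.span_singleton_eq_bot]
    exact_mod_cast (pow_pos hN0 2).ne'
  haveI : Finite (𝓞 K ⧸ I) := Ideal.finiteQuotientOfFreeOfNeBot I hI
  let ψ : ℂ → 𝓞 K := fun z => if h : ∃ x : 𝓞 K, σ (x : K) = z then h.choose else 0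
  have hψ : ∀ z ∈ OO σ, σ ((ψ z : 𝓞 K) : K) = z := by
    intro z hz
    have h := mem_OO.mp hz
    show σ (((if h : ∃ x : 𝓞 K, σ (x : K) = z then h.choose else 0 : 𝓞 K)) : K) = z
    rw [dif_pos h]
    exact h.choose_spec
  let φ : SL2C → (Fin 2 → Fin 2 → 𝓞 K ⧸ I) := fun g i j => Ideal.Quotient.mk I (ψ ((N : ℂ) * g.1 i j))
  obtain ⟨S, hS1, hS2⟩ := finite_reps (fun g : SL2C => g ∈ G ∧ InF σ g) φ (Set.toFinite _)
  refine ⟨S, hS1, ?_⟩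
  intro g hg hF
  obtain ⟨s, hsS, hφ⟩ := hS2 g ⟨hg, hF⟩
  refine ⟨s, hsS, ?_⟩
  obtain ⟨hsG, hsF⟩ := hS1 s hsS
  -- g - s = N x
  have hdiff : ∀ i j, ∃ x ∈ OO σ, g.1 i j - s.1 i j = N * x := by
    intro i j
    have h1 : Ideal.Quotient.mk I (ψ ((N : ℂ) * g.1 i j)) = Ideal.Quotient.mk I (ψ ((N : ℂ) * s.1 i j)) :=
      congrFun (congrFun hφ i) j
    rw [Ideal.Quotient.eq] at h1
    obtain ⟨x, hx⟩ := Ideal.mem_span_singleton'.mp h1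
    refine ⟨σ (x : K), mem_OO.mpr ⟨x, rfl⟩, ?_⟩
    have h2 := congrArg (fun z : 𝓞 K => σ (z : K)) hx
    simp only [map_mul, map_sub, map_natCast] at h2
    rw [hψ _ (hNb g hg hF i j), hψ _ (hNb s hsG hsF i j)] at h2
    push_cast at h2
    have h3 : (N : ℂ) * (g.1 i j - s.1 i j) = N * (N * σ (x : K)) := by linear_combination -h2
    exact mul_left_cancel₀ hNc h3
  obtain ⟨x00, m00, e00⟩ := hdiff 0 0
  obtain ⟨x01, m01, e01⟩ := hdiff 0 1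
  obtain ⟨x10, m10, e10⟩ := hdiff 1 0
  obtain ⟨x11, m11, e11⟩ := hdiff 1 1
  have hdet := det_eq s
  have hb := hNb s hsG hsF
  intro i j
  fin_cases i <;> fin_cases j
  · show (s⁻¹ * g).1 0 0 ∈ OO σ
    rw [mul00, inv00, inv01]
    have e : s.1 1 1 * g.1 0 0 + -s.1 0 1 * g.1 1 0 = 1 + ((N : ℂ) * s.1 1 1) * x00 - ((N : ℂ) * s.1 0 1) * x10 := by
      linear_combination s.1 1 1 * e00 - s.1 0 1 * e10 + hdet
    rw [e]
    exact sub_mem (add_mem (one_mem _) (mul_mem (hb 1 1) m00)) (mul_mem (hb 0 1) m10)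
  · show (s⁻¹ * g).1 0 1 ∈ OO σ
    rw [mul01, inv00, inv01]
    have e : s.1 1 1 * g.1 0 1 + -s.1 0 1 * g.1 1 1 = ((N : ℂ) * s.1 1 1) * x01 - ((N : ℂ) * s.1 0 1) * x11 := by
      linear_combination s.1 1 1 * e01 - s.1 0 1 * e11
    rw [e]
    exact sub_mem (mul_mem (hb 1 1) m01) (mul_mem (hb 0 1) m11)
  · show (s⁻¹ * g).1 1 0 ∈ OO σ
    rw [mul10, inv10, inv11]
    have e : -s.1 1 0 * g.1 0 0 + s.1 0 0 * g.1 1 0 = ((N : ℂ) * s.1 0 0) * x10 - ((N : ℂ) * s.1 1 0) * x00 := by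
      linear_combination s.1 0 0 * e10 - s.1 1 0 * e00
    rw [e]
    exact sub_mem (mul_mem (hb 0 0) m10) (mul_mem (hb 1 0) m00)
  · show (s⁻¹ * g).1 1 1 ∈ OO σ
    rw [mul11, inv10, inv11]
    have e : -s.1 1 0 * g.1 0 1 + s.1 0 0 * g.1 1 1 = 1 + ((N : ℂ) * s.1 0 0) * x11 - ((N : ℂ) * s.1 1 0) * x01 := by
      linear_combination s.1 0 0 * e11 - s.1 1 0 * e01 + hdet
    rw [e]
    exact sub_mem (add_mem (one_mem _) (mul_mem (hb 0 0) m11)) (mul_mem (hb 1 0) m01)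

/-- products of two entries have bounded denominators on the whole group -/
theorem bounded_products (hs : SieveStatement) (hN : Nrm σ G) :
    ∃ N : ℕ, 0 < N ∧ ∀ g ∈ G, ∀ i j k l, (N : ℂ) * (g.1 i j * g.1 k l) ∈ OO σ := by
  obtain ⟨N, hN0, hNb⟩ := bounded_denoms hs hN
  obtain ⟨g₁, hg₁, hF₁, hc₁, M, hM0, hMe, hMc⟩ := exists_base' hN
  have hT1 : T 1 ∈ G := by
    have := hN.hT 1
    simpa using this
  have hFT : InF σ (T 1) := by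
    have := InF_T (σ := σ) (1 : K)
    simpa using this
  have hMm : ∀ k : ℕ, (M : ℂ) ^ k ∈ OO σ := fun k => pow_mem (nat_mem_OO σ M) k
  refine ⟨M ^ 6 * N, by positivity, ?_⟩
  intro g hg
  have hsw : ∀ h ∈ G, InF σ h → ∀ i l, (N : ℂ) * (g * h * g).1 i l ∈ OO σ := fun h hh hF i l =>
    hNb _ (G.mul_mem (G.mul_mem hg hh) hg) (sandwich_InF hN hg hF) i l
  have k1 : ∀ i l, (N : ℂ) * (g.1 i 0 * g.1 1 l) ∈ OO σ := by
    intro i l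
    have h1 := hsw (T 1) hT1 hFT i l
    have h2 := hsw 1 G.one_mem InF_one i l
    have e : (N : ℂ) * (g.1 i 0 * g.1 1 l) = (N : ℂ) * (g * T 1 * g).1 i l - (N : ℂ) * (g * 1 * g).1 i l := by
      rw [sandwich_entry, sandwich_entry, T00, T01, T10, T11]
      have o1 : (1 : SL2C).1 0 0 = 1 := rfl
      have o2 : (1 : SL2C).1 0 1 = 0 := rfl
      have o3 : (1 : SL2C).1 1 0 = 0 := rfl
      have o4 : (1 : SL2C).1 1 1 = 1 := rfl
      rw [o1, o2, o3, o4]; ring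
    rw [e]; exact sub_mem h1 h2
  have hgT : g₁ * T 1 ∈ G := G.mul_mem hg₁ hT1
  have hTg : T 1 * g₁ ∈ G := G.mul_mem hT1 hg₁
  have k2 : ∀ i l, (M : ℂ) ^ 2 * ((N : ℂ) * (g.1 i 1 * g.1 1 l)) ∈ OO σ := by
    intro i l
    have h1 := hsw (g₁ * T 1) hgT (InF_mul hF₁ hFT) i l
    have h2 := hsw g₁ hg₁ hF₁ i l
    have e : (M : ℂ) ^ 2 * ((N : ℂ) * (g.1 i 1 * g.1 1 l)) = (M : ℂ) / g₁.1 1 0 *
        ((M : ℂ) * ((N : ℂ) * (g * (g₁ * T 1) * g).1 i l - (N : ℂ) * (g * g₁ * g).1 i l)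
          - ((M : ℂ) * g₁.1 0 0) * ((N : ℂ) * (g.1 i 0 * g.1 1 l))) := by
      rw [sandwich_entry, sandwich_entry, mul00, mul01, mul10, mul11, T00, T01, T10, T11]
      field_simp; ring
    rw [e]
    exact mul_mem hMc (sub_mem (mul_mem (nat_mem_OO σ M) (sub_mem h1 h2)) (mul_mem (hMe 0 0) (k1 i l)))
  have k3 : ∀ i l, (M : ℂ) ^ 2 * ((N : ℂ) * (g.1 i 0 * g.1 0 l)) ∈ OO σ := by
    intro i l
    have h1 := hsw (T 1 * g₁) hTg (InF_mul hFT hF₁) i l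
    have h2 := hsw g₁ hg₁ hF₁ i l
    have e : (M : ℂ) ^ 2 * ((N : ℂ) * (g.1 i 0 * g.1 0 l)) = (M : ℂ) / g₁.1 1 0 *
        ((M : ℂ) * ((N : ℂ) * (g * (T 1 * g₁) * g).1 i l - (N : ℂ) * (g * g₁ * g).1 i l)
          - ((M : ℂ) * g₁.1 1 1) * ((N : ℂ) * (g.1 i 0 * g.1 1 l))) := by
      rw [sandwich_entry, sandwich_entry, mul00, mul01, mul10, mul11, T00, T01, T10, T11]
      field_simp; ring
    rw [e]
    exact mul_mem hMc (sub_mem (mul_mem (nat_mem_OO σ M) (sub_mem h1 h2)) (mul_mem (hMe 1 1) (k1 i l)))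
  have k4 : ∀ i l, (M : ℂ) ^ 6 * ((N : ℂ) * (g.1 i 1 * g.1 0 l)) ∈ OO σ := by
    intro i l
    have h1 := hsw (g₁ * T 1 * g₁) (G.mul_mem hgT hg₁) (InF_mul (InF_mul hF₁ hFT) hF₁) i l
    have h2 := hsw (g₁ * g₁) (G.mul_mem hg₁ hg₁) (InF_mul hF₁ hF₁) i l
    have e : (M : ℂ) ^ 6 * ((N : ℂ) * (g.1 i 1 * g.1 0 l)) = ((M : ℂ) / g₁.1 1 0) ^ 2 *
        ((M : ℂ) ^ 4 * ((N : ℂ) * (g * (g₁ * T 1 * g₁) * g).1 i l - (N : ℂ) * (g * (g₁ * g₁) * g).1 i l)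
          - ((M : ℂ) * g₁.1 0 0) * ((M : ℂ) * g₁.1 1 0) * ((M : ℂ) ^ 2 * ((N : ℂ) * (g.1 i 0 * g.1 0 l)))
          - (M : ℂ) ^ 2 * ((M : ℂ) * g₁.1 0 0) * ((M : ℂ) * g₁.1 1 1) * ((N : ℂ) * (g.1 i 0 * g.1 1 l))
          - ((M : ℂ) * g₁.1 1 0) * ((M : ℂ) * g₁.1 1 1) * ((M : ℂ) ^ 2 * ((N : ℂ) * (g.1 i 1 * g.1 1 l)))) := by
      rw [sandwich_entry g (g₁ * T 1 * g₁), sandwich_entry g (g₁ * g₁)]
      simp only [mul00, mul01, mul10, mul11, T00, T01, T10, T11]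
      field_simp; ring
    rw [e]
    refine mul_mem (pow_mem hMc 2) (sub_mem (sub_mem (sub_mem ?_ ?_) ?_) ?_)
    · exact mul_mem (hMm 4) (sub_mem h1 h2)
    · exact mul_mem (mul_mem (hMe 0 0) (hMe 1 0)) (k3 i l)
    · exact mul_mem (mul_mem (mul_mem (hMm 2) (hMe 0 0)) (hMe 1 1)) (k1 i l)
    · exact mul_mem (mul_mem (hMe 1 0) (hMe 1 1)) (k2 i l)
  intro i j k l
  fin_cases j <;> fin_cases k
  · show ((M ^ 6 * N : ℕ) : ℂ) * (g.1 i 0 * g.1 0 l) ∈ OO σ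
    have : ((M ^ 6 * N : ℕ) : ℂ) * (g.1 i 0 * g.1 0 l) = (M : ℂ) ^ 4 * ((M : ℂ) ^ 2 * ((N : ℂ) * (g.1 i 0 * g.1 0 l))) := by
      push_cast; ring
    rw [this]; exact mul_mem (hMm 4) (k3 i l)
  · show ((M ^ 6 * N : ℕ) : ℂ) * (g.1 i 0 * g.1 1 l) ∈ OO σ
    have : ((M ^ 6 * N : ℕ) : ℂ) * (g.1 i 0 * g.1 1 l) = (M : ℂ) ^ 6 * ((N : ℂ) * (g.1 i 0 * g.1 1 l)) := by
      push_cast; ring
    rw [this]; exact mul_mem (hMm 6) (k1 i l)
  · show ((M ^ 6 * N : ℕ) : ℂ) * (g.1 i 1 * g.1 0 l) ∈ OO σ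
    have : ((M ^ 6 * N : ℕ) : ℂ) * (g.1 i 1 * g.1 0 l) = (M : ℂ) ^ 6 * ((N : ℂ) * (g.1 i 1 * g.1 0 l)) := by
      push_cast; ring
    rw [this]; exact k4 i l
  · show ((M ^ 6 * N : ℕ) : ℂ) * (g.1 i 1 * g.1 1 l) ∈ OO σ
    have : ((M ^ 6 * N : ℕ) : ℂ) * (g.1 i 1 * g.1 1 l) = (M : ℂ) ^ 4 * ((M : ℂ) ^ 2 * ((N : ℂ) * (g.1 i 1 * g.1 1 l))) := by
      push_cast; ring
    rw [this]; exact mul_mem (hMm 4) (k2 i l)

end

end Pool.Agent.Work.MP_67f4ac_gt
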