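import Mathlib
import Pool.Agent.Work.MP_67f4ac_gt.Classes

set_option autoImplicit false
set_option linter.all false

namespace Pool.Agent.Work.MP_67f4ac_gt

open Filter Topology NumberField

variable {K : Type} [Field K] [NumberField K] {σ : K →+* ℂ} {G : Subgroup SL2C}

lemma one_le_norm_of_mem_OO (hσ : ∀ x : K, ((Algebra.norm ℚ x : ℚ) : ℝ) = ‖σ x‖ ^ 2) {z : ℂ}
    (hz : z ∈ OO σ) (hz0 : z ≠ 0) : 1 ≤ ‖z‖ := by
  obtain ⟨v, rfl⟩ := mem_OO.mp hz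
  have hv : v ≠ 0 := by
    intro h; apply hz0; rw [h]; simp
  have h2 := absNorm_span_eq σ hσ v
  have h3 : 0 < Ideal.absNorm (Ideal.span {v}) :=
    absNorm_pos_of_ne_bot (by rw [Ne, Ideal.span_singleton_eq_bot]; exact hv)
  have h4 : (1 : ℝ) ≤ ‖σ (v : K)‖ ^ 2 := by
    rw [← h2]; exact_mod_cast h3
  nlinarith [norm_nonneg (σ (v : K))]

/-- E3: the elements with entries in `F` have finite index -/
theorem finite_idx_field (hs : SieveStatement) (hN : Nrm σ G) :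
    ∃ S : Finset SL2C, (∀ s ∈ S, s ∈ G) ∧ ∀ g ∈ G, ∃ s ∈ S, InF σ (s⁻¹ * g) := by
  classical
  obtain ⟨N, hN0, hNp⟩ := bounded_products hs hN
  obtain ⟨w, hw⟩ := hN.hw
  set ω : ℂ := σ (w : K) with hω
  have hωO : ω ∈ OO σ := mem_OO.mpr ⟨w, rfl⟩
  have hlat : ∀ m n : ℤ, (m : ℂ) + n * ω ∈ OO σ := fun m n =>
    add_mem (intCast_mem _ m) (mul_mem (intCast_mem _ n) hωO)
  have hNR : (0 : ℝ) < N := by exact_mod_cast hN0
  have hNc : (N : ℂ) ≠ 0 := by exact_mod_cast hN0.ne'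
  set r : ℝ := Real.sqrt N with hr
  have hr0 : 0 < r := Real.sqrt_pos.mpr hNR
  have hr2 : r ^ 2 = N := Real.sq_sqrt hNR.le
  set κ : ℝ := 1 + ‖ω‖ with hκ
  have hκ0 : 0 < κ := by positivity
  set B : ℝ := 2 * r * κ with hB
  have hB0 : 0 < B := by positivity
  set R : ℝ := N * B ^ 2 + N * (4 * r * κ ^ 2) ^ 2 with hR
  have claim : ∀ g : SL2C, ∃ v : 𝓞 K, (g ∈ G ∧ g.1 1 0 ≠ 0) →
      (∃ f ∈ σ.fieldRange, f ≠ 0 ∧ σ (v : K) = N * (g.1 1 0 * f) ^ 2) ∧ ‖σ (v : K)‖ ≤ R := by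
    intro g
    by_cases hg' : g ∈ G ∧ g.1 1 0 ≠ 0
    swap
    · exact ⟨0, fun h => absurd h hg'⟩
    obtain ⟨hg, hc⟩ := hg'
    have hcn : 0 < ‖g.1 1 0‖ := norm_pos_iff.mpr hc
    by_cases hsmall : ‖g.1 1 0‖ < B
    · obtain ⟨v, hv⟩ := mem_OO.mp (hNp g hg 1 0 1 0)
      refine ⟨v, fun _ => ⟨⟨1, one_mem _, one_ne_zero, ?_⟩, ?_⟩⟩
      · rw [hv]; ring
      · rw [hv, norm_mul, norm_mul, Complex.norm_natCast]
        have h1 : ‖g.1 1 0‖ * ‖g.1 1 0‖ ≤ B ^ 2 := by nlinarith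
        have h2 : (N : ℝ) * (‖g.1 1 0‖ * ‖g.1 1 0‖) ≤ N * B ^ 2 := mul_le_mul_of_nonneg_left h1 hNR.le
        have h3 : 0 ≤ N * (4 * r * κ ^ 2) ^ 2 := by positivity
        rw [hR]; linarith
    · push Not at hsmall
      set Q : ℝ := ‖g.1 1 0‖ / (2 * r) with hQ
      have hQ0 : 0 < Q := by positivity
      have hQκ : κ ≤ Q := by
        rw [hQ, le_div_iff₀ (by positivity)]
        rw [hB] at hsmall; linarith
      obtain ⟨m, n, m', n', hy0, hyQ, hz⟩ := dirichlet ω hw (g.1 1 1 / g.1 1 0) Q hQκ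
      set x : ℂ := (m : ℂ) + n * ω with hx
      set y : ℂ := (m' : ℂ) + n' * ω with hy
      have hxO : x ∈ OO σ := hlat m n
      have hyO : y ∈ OO σ := hlat m' n'
      set f : ℂ := x + y * (g.1 1 1 / g.1 1 0) with hf
      have hfF : f ∈ σ.fieldRange :=
        add_mem (OO_le hxO) (mul_mem (OO_le hyO) (hN.hd g hg hc))
      have hf0 : f ≠ 0 := by
        intro hf0
        set k : ℂ := y / g.1 1 0 with hk
        have hk0 : k ≠ 0 := div_ne_zero hy0 hc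
        have e1 : k * g.1 1 0 = y := by rw [hk]; field_simp
        have e2 : k * g.1 1 1 = -x := by
          have : k * g.1 1 1 = y * (g.1 1 1 / g.1 1 0) := by rw [hk]; field_simp
          rw [this]
          linear_combination hf0
        have e3 : k = -(g.1 0 0 * x + g.1 0 1 * y) := by
          have hdet := det_eq g
          linear_combination (-k) * hdet + g.1 0 0 * e2 - g.1 0 1 * e1
        have e4 : (N : ℂ) * k ^ 2 ∈ OO σ := by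
          have : (N : ℂ) * k ^ 2 = x ^ 2 * (N * (g.1 0 0 * g.1 0 0)) + 2 * x * y * (N * (g.1 0 0 * g.1 0 1))
              + y ^ 2 * (N * (g.1 0 1 * g.1 0 1)) := by
            rw [e3]; ring
          rw [this]
          have h2 : (2 : ℂ) ∈ OO σ := by exact_mod_cast nat_mem_OO σ 2
          refine add_mem (add_mem (mul_mem (pow_mem hxO 2) (hNp g hg 0 0 0 0)) ?_) ?_
          · exact mul_mem (mul_mem (mul_mem h2 hxO) hyO) (hNp g hg 0 0 0 1)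
          · exact mul_mem (pow_mem hyO 2) (hNp g hg 0 1 0 1)
        have e5 := one_le_norm_of_mem_OO hN.hσ e4 (mul_ne_zero hNc (pow_ne_zero 2 hk0))
        rw [norm_mul, norm_pow, Complex.norm_natCast] at e5
        have e6 : ‖k‖ * ‖g.1 1 0‖ = ‖y‖ := by rw [← norm_mul, e1]
        have e7 : ‖g.1 1 0‖ ^ 2 ≤ N * ‖y‖ ^ 2 := by
          rw [← e6, mul_pow]
          have : 0 < ‖g.1 1 0‖ ^ 2 := by positivity
          nlinarith
        have e8 : N * ‖y‖ ^ 2 ≤ ‖g.1 1 0‖ ^ 2 / 4 := by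
          have h1 : ‖y‖ ^ 2 ≤ Q ^ 2 := pow_le_pow_left₀ (norm_nonneg _) hyQ 2
          have h2 : Q ^ 2 = ‖g.1 1 0‖ ^ 2 / (4 * N) := by
            rw [hQ, div_pow, mul_pow, hr2]; ring
          rw [h2] at h1
          calc (N : ℝ) * ‖y‖ ^ 2 ≤ N * (‖g.1 1 0‖ ^ 2 / (4 * N)) := mul_le_mul_of_nonneg_left h1 hNR.le
            _ = ‖g.1 1 0‖ ^ 2 / 4 := by field_simp
        have e9 : 0 < ‖g.1 1 0‖ ^ 2 := by positivity
        linarith
      have hl : g.1 1 0 * f = g.1 1 0 * x + g.1 1 1 * y := by rw [hf]; field_simp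
      have hlO : (N : ℂ) * (g.1 1 0 * f) ^ 2 ∈ OO σ := by
        have : (N : ℂ) * (g.1 1 0 * f) ^ 2 = x ^ 2 * (N * (g.1 1 0 * g.1 1 0)) + 2 * x * y * (N * (g.1 1 0 * g.1 1 1))
              + y ^ 2 * (N * (g.1 1 1 * g.1 1 1)) := by
          rw [hl]; ring
        rw [this]
        have h2 : (2 : ℂ) ∈ OO σ := by exact_mod_cast nat_mem_OO σ 2
        refine add_mem (add_mem (mul_mem (pow_mem hxO 2) (hNp g hg 1 0 1 0)) ?_) ?_
        · exact mul_mem (mul_mem (mul_mem h2 hxO) hyO) (hNp g hg 1 0 1 1)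
        · exact mul_mem (pow_mem hyO 2) (hNp g hg 1 1 1 1)
      obtain ⟨v, hv⟩ := mem_OO.mp hlO
      refine ⟨v, fun _ => ⟨⟨f, hfF, hf0, hv⟩, ?_⟩⟩
      rw [hv, norm_mul, norm_pow, norm_mul, Complex.norm_natCast]
      have h1 : ‖g.1 1 0‖ * ‖f‖ ≤ 4 * r * κ ^ 2 := by
        calc ‖g.1 1 0‖ * ‖f‖ ≤ ‖g.1 1 0‖ * (2 * κ ^ 2 / Q) := mul_le_mul_of_nonneg_left hz hcn.le
          _ = 4 * r * κ ^ 2 := by rw [hQ]; field_simp; ring
      have h2 : (‖g.1 1 0‖ * ‖f‖) ^ 2 ≤ (4 * r * κ ^ 2) ^ 2 := pow_le_pow_left₀ (by positivity) h1 2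
      have h3 : (N : ℝ) * (‖g.1 1 0‖ * ‖f‖) ^ 2 ≤ N * (4 * r * κ ^ 2) ^ 2 := mul_le_mul_of_nonneg_left h2 hNR.le
      have h4 : 0 ≤ N * B ^ 2 := by positivity
      rw [hR]; linarith
  choose φ hφ using claim
  have hfin : (φ '' {g | g ∈ G ∧ g.1 1 0 ≠ 0}).Finite := by
    refine (finite_disc σ hN.hσ R).subset ?_
    rintro _ ⟨g, hg, rfl⟩
    exact (hφ g hg).2
  obtain ⟨S, hS1, hS2⟩ := finite_reps (fun g : SL2C => g ∈ G ∧ g.1 1 0 ≠ 0) φ hfin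
  refine ⟨insert 1 S, ?_, ?_⟩
  · intro s hs'
    rcases Finset.mem_insert.mp hs' with rfl | h
    · exact G.one_mem
    · exact (hS1 s h).1
  · intro g hg
    by_cases hc : g.1 1 0 = 0
    · refine ⟨1, Finset.mem_insert_self _ _, ?_⟩
      rw [inv_one, one_mul]
      exact hN.h0 g hg hc
    · obtain ⟨s, hsS, hgs⟩ := hS2 g ⟨hg, hc⟩
      refine ⟨s, Finset.mem_insert_of_mem hsS, ?_⟩
      obtain ⟨hsG, hsc⟩ := hS1 s hsS
      obtain ⟨⟨f, hfF, hf0, hf⟩, _⟩ := hφ g ⟨hg, hc⟩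
      obtain ⟨⟨f', hf'F, hf'0, hf'⟩, _⟩ := hφ s ⟨hsG, hsc⟩
      rw [hgs, hf'] at hf
      have h1 : (s.1 1 0 * f') ^ 2 = (g.1 1 0 * f) ^ 2 := mul_left_cancel₀ hNc hf
      have hsinvc : (s⁻¹).1 1 0 ≠ 0 := by rw [inv10]; exact neg_ne_zero.mpr hsc
      refine InF_mul_of hN (G.inv_mem hsG) hg hsinvc hc ?_
      rw [inv10]
      have hs2 := hN.hc2 s hsG hsc
      rcases sq_eq_sq_iff_eq_or_eq_neg.mp h1 with h2 | h2
      · have : -s.1 1 0 * g.1 1 0 = -(s.1 1 0 ^ 2 * (f' / f)) := by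
          have : g.1 1 0 = s.1 1 0 * f' / f := by rw [h2]; field_simp
          rw [this]; field_simp
        rw [this]
        exact neg_mem (mul_mem hs2 (div_mem hf'F hfF))
      · have : -s.1 1 0 * g.1 1 0 = s.1 1 0 ^ 2 * (f' / f) := by
          have : g.1 1 0 = -(s.1 1 0 * f' / f) := by rw [h2]; field_simp
          rw [this]; field_simp
        rw [this]
        exact mul_mem hs2 (div_mem hf'F hfF)

theorem finite_idx (hs : SieveStatement) (hN : Nrm σ G) :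
    ∃ S : Finset SL2C, (∀ s ∈ S, s ∈ G) ∧ ∀ g ∈ G, ∃ s ∈ S, ∀ i j, (s⁻¹ * g).1 i j ∈ OO σ := by
  classical
  obtain ⟨S₁, h1, h1'⟩ := finite_idx_field hs hN
  obtain ⟨S₂, h2, h2'⟩ := finite_idx_integral hs hN
  refine ⟨(S₁ ×ˢ S₂).image (fun p => p.1 * p.2), ?_, ?_⟩
  · intro s hs'
    obtain ⟨p, hp, rfl⟩ := Finset.mem_image.mp hs'
    rw [Finset.mem_product] at hp
    exact G.mul_mem (h1 _ hp.1) (h2 _ hp.2).1
  · intro g hg
    obtain ⟨s₁, hs₁, hF⟩ := h1' g hg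
    obtain ⟨s₂, hs₂, hO⟩ := h2' (s₁⁻¹ * g) (G.mul_mem (G.inv_mem (h1 _ hs₁)) hg) hF
    refine ⟨s₁ * s₂, Finset.mem_image.mpr ⟨(s₁, s₂), Finset.mem_product.mpr ⟨hs₁, hs₂⟩, rfl⟩, ?_⟩
    rw [mul_inv_rev, mul_assoc]
    exact hO

end Pool.Agent.Work.MP_67f4ac_gt
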