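import Mathlib
import Pool.Agent.Work.MP_67f4ac_gt.Classes2

set_option autoImplicit false
set_option linter.all false

namespace Pool.Agent.Work.MP_67f4ac_gt

open Filter Topology NumberField

section

variable {ω : ℂ} (hω : ω.im ≠ 0) (hsq : ω ^ 2 ∈ V ω)

lemma mem_VF {z : ℂ} : z ∈ VF ω hsq ↔ z ∈ V ω := Iff.rfl

instance VF_numberField : NumberField (VF ω hsq) where
  to_charZero := inferInstance
  to_finiteDimensional := by
    haveI := V_fin ω
    let f : V ω →+ VF ω hsq :=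
      { toFun := fun x => ⟨x.1, x.2⟩
        map_zero' := rfl
        map_add' := fun _ _ => rfl }
    have hf : Function.Surjective f := fun x => ⟨⟨x.1, x.2⟩, rfl⟩
    exact Module.Finite.of_surjective f.toRatLinearMap hf

/-- the inclusion -/
noncomputable def sg : (VF ω hsq) →+* ℂ := (VF ω hsq).val.toRingHom

lemma sg_apply (x : VF ω hsq) : sg hsq x = x.1 := rfl

lemma mem_fieldRange_sg {z : ℂ} : z ∈ (sg hsq).fieldRange ↔ z ∈ V ω := by
  rw [RingHom.mem_fieldRange]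
  constructor
  · rintro ⟨x, rfl⟩; exact x.2
  · intro h; exact ⟨⟨z, h⟩, rfl⟩

include hω in
lemma norm_sg (x : VF ω hsq) : ((Algebra.norm ℚ x : ℚ) : ℝ) = ‖sg hsq x‖ ^ 2 := by
  classical
  -- the two embeddings
  let φ₁ : (VF ω hsq) →ₐ[ℚ] ℂ := (sg hsq).toRatAlgHom
  let φ₂ : (VF ω hsq) →ₐ[ℚ] ℂ := ((starRingEnd ℂ).comp (sg hsq)).toRatAlgHom
  let ωK : VF ω hsq := ⟨ω, V_om ω⟩
  have hdec : ∀ y : VF ω hsq, ∃ p q : ℚ, y = (p : VF ω hsq) + q * ωK := by
    intro y
    obtain ⟨p, q, hpq⟩ := mem_V.mp y.2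
    refine ⟨p, q, Subtype.ext ?_⟩
    rw [hpq]
    push_cast
    rfl
  have hφ : ∀ φ : (VF ω hsq) →ₐ[ℚ] ℂ, φ = φ₁ ∨ φ = φ₂ := by
    intro φ
    obtain ⟨p₀, q₀, h0⟩ := mem_V.mp hsq
    have h1 : ωK ^ 2 = (p₀ : VF ω hsq) + q₀ * ωK := by
      apply Subtype.ext
      push_cast
      exact h0
    have h2 : φ ωK ^ 2 = (p₀ : ℂ) + q₀ * φ ωK := by
      rw [← map_pow, h1, map_add, map_mul, map_ratCast, map_ratCast]
    have h3 : ((starRingEnd ℂ) ω) ^ 2 = (p₀ : ℂ) + q₀ * (starRingEnd ℂ) ω := by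
      rw [← map_pow, h0, map_add, map_mul, map_ratCast, map_ratCast]
    have h4 : ω ≠ (starRingEnd ℂ) ω := by
      intro h
      have := congrArg Complex.im h
      rw [Complex.conj_im] at this
      exact hω (by linarith)
    have h5 : ω + (starRingEnd ℂ) ω = q₀ := by
      have h6 : (ω - (starRingEnd ℂ) ω) * (ω + (starRingEnd ℂ) ω - q₀) = 0 := by
        linear_combination h0 - h3
      rcases mul_eq_zero.mp h6 with h7 | h7
      · exact absurd (sub_eq_zero.mp h7) h4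
      · linear_combination h7
    have h8 : (φ ωK - ω) * (φ ωK - (starRingEnd ℂ) ω) = 0 := by
      linear_combination h2 - φ ωK * h5 + ω * h5 - h0
    have hext : ∀ ψ : (VF ω hsq) →ₐ[ℚ] ℂ, φ ωK = ψ ωK → φ = ψ := by
      intro ψ h
      apply AlgHom.ext
      intro y
      obtain ⟨p, q, rfl⟩ := hdec y
      rw [map_add, map_mul, map_ratCast, map_ratCast, map_add, map_mul, map_ratCast, map_ratCast, h]
    rcases mul_eq_zero.mp h8 with h9 | h9
    · left
      apply hext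
      show φ ωK = ω
      linear_combination h9
    · right
      apply hext
      show φ ωK = (starRingEnd ℂ) ω
      linear_combination h9
  have hne : φ₁ ≠ φ₂ := by
    intro h
    have h1 : φ₁ ωK = φ₂ ωK := by rw [h]
    have h2 : ω = (starRingEnd ℂ) ω := h1
    have := congrArg Complex.im h2
    rw [Complex.conj_im] at this
    exact hω (by linarith)
  have huniv : (Finset.univ : Finset ((VF ω hsq) →ₐ[ℚ] ℂ)) = {φ₁, φ₂} := by
    ext φ
    simp only [Finset.mem_univ, Finset.mem_insert, Finset.mem_singleton, true_iff]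
    exact hφ φ
  have h := Algebra.norm_eq_prod_embeddings ℚ ℂ x
  rw [huniv, Finset.prod_pair hne] at h
  have h1 : φ₁ x * φ₂ x = ((‖sg hsq x‖ ^ 2 : ℝ) : ℂ) := by
    show sg hsq x * (starRingEnd ℂ) (sg hsq x) = _
    rw [Complex.mul_conj, Complex.normSq_eq_norm_sq]
  rw [h1] at h
  have h2 : ((Algebra.norm ℚ x : ℚ) : ℂ) = ((‖sg hsq x‖ ^ 2 : ℝ) : ℂ) := by
    rw [← h]; simp
  have h3 : (((Algebra.norm ℚ x : ℚ) : ℝ) : ℂ) = ((‖sg hsq x‖ ^ 2 : ℝ) : ℂ) := by
    rw [← h2]; push_cast; rfl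
  exact_mod_cast h3

include hω in
lemma exists_w : ∃ w : 𝓞 (VF ω hsq), (sg hsq (w : VF ω hsq)).im ≠ 0 := by
  have h1 : ω ∈ (sg hsq).fieldRange := (mem_fieldRange_sg hsq).mpr (V_om ω)
  obtain ⟨N, hN, hNω⟩ := exists_nat_mul_mem h1
  obtain ⟨w, hw⟩ := mem_OO.mp hNω
  refine ⟨w, ?_⟩
  rw [hw]
  simp
  exact ⟨hN.ne', hω⟩

/-- a multiple of the ring of integers lies in the lattice -/
lemma exists_mul_lattice : ∃ N : ℕ, 0 < N ∧ ∀ x : 𝓞 (VF ω hsq), ∃ m n : ℤ,
    (N : ℂ) * sg hsq (x : VF ω hsq) = m + n * ω := by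
  classical
  obtain ⟨S, hS⟩ := (Module.Finite.fg_top : (⊤ : Submodule ℤ (𝓞 (VF ω hsq))).FG)
  have h1 : ∀ z ∈ V ω, ∃ N : ℕ, 0 < N ∧ ∃ m n : ℤ, (N : ℂ) * z = m + n * ω := by
    intro z hz
    obtain ⟨p, q, rfl⟩ := mem_V.mp hz
    refine ⟨p.den * q.den, Nat.mul_pos p.pos q.pos, p.num * q.den, q.num * p.den, ?_⟩
    have e1 : (p : ℂ) * p.den = p.num := by exact_mod_cast Rat.mul_den_eq_num p
    have e2 : (q : ℂ) * q.den = q.num := by exact_mod_cast Rat.mul_den_eq_num q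
    push_cast
    linear_combination (q.den : ℂ) * e1 + (p.den : ℂ) * ω * e2
  -- common multiple over a finset
  have h2 : ∀ A : Finset (𝓞 (VF ω hsq)), ∃ N : ℕ, 0 < N ∧ ∀ x ∈ A, ∃ m n : ℤ,
      (N : ℂ) * sg hsq (x : VF ω hsq) = m + n * ω := by
    intro A
    induction A using Finset.induction_on with
    | empty => exact ⟨1, one_pos, fun x hx => absurd hx (Finset.notMem_empty x)⟩
    | insert a A ha ih =>
      obtain ⟨N, hN, hA⟩ := ih
      obtain ⟨M, hM, m, n, hMa⟩ := h1 (sg hsq (a : VF ω hsq)) (a : VF ω hsq).2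
      refine ⟨N * M, Nat.mul_pos hN hM, ?_⟩
      intro x hx
      rcases Finset.mem_insert.mp hx with rfl | hx
      · refine ⟨N * m, N * n, ?_⟩
        push_cast
        linear_combination (N : ℂ) * hMa
      · obtain ⟨m', n', h⟩ := hA x hx
        refine ⟨M * m', M * n', ?_⟩
        push_cast
        linear_combination (M : ℂ) * h
  obtain ⟨N, hN, hNS⟩ := h2 S
  refine ⟨N, hN, ?_⟩
  intro x
  have hx : x ∈ Submodule.span ℤ (S : Set (𝓞 (VF ω hsq))) := by rw [hS]; trivial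
  induction hx using Submodule.span_induction with
  | mem x hx => exact hNS x hx
  | zero => exact ⟨0, 0, by simp⟩
  | add x y _ _ hx hy =>
    obtain ⟨m, n, h⟩ := hx
    obtain ⟨m', n', h'⟩ := hy
    refine ⟨m + m', n + n', ?_⟩
    simp only [map_add]
    push_cast
    linear_combination h + h'
  | smul a x _ hx =>
    obtain ⟨m, n, h⟩ := hx
    refine ⟨a * m, a * n, ?_⟩
    have : sg hsq ((a • x : 𝓞 (VF ω hsq)) : VF ω hsq) = a * sg hsq (x : VF ω hsq) := by
      rw [zsmul_eq_mul]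
      simp only [map_mul, map_intCast]
    rw [this]
    push_cast
    linear_combination (a : ℂ) * h

end

end Pool.Agent.Work.MP_67f4ac_gt
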