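import Mathlib
import Pool.Agent.Work.MP_67f4ac_gt.Field

set_option autoImplicit false
set_option linter.all false

namespace Pool.Agent.Work.MP_67f4ac_gt

open Filter Topology NumberField

/-- `g` has entries in the ring of integers of `ℚ(√-d)` -/
def IsBianchi (d : ℕ) (g : SL2C) : Prop :=
  ∀ i j, IsIntegral ℤ (g.1 i j) ∧ ∃ u v : ℚ, g.1 i j = (u : ℂ) + (v : ℂ) * ((Real.sqrt (d : ℝ) : ℂ) * Complex.I)

lemma tr_conj (h g : SL2C) : tr (h * g * h⁻¹) = tr g := by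
  have hdet := det_eq h
  unfold tr
  simp only [mul00, mul01, mul10, mul11, inv00, inv01, inv10, inv11]
  linear_combination (g.1 0 0 + g.1 1 1) * hdet

lemma BoundedGrowth_conj (G : Subgroup SL2C) (hG : BoundedGrowth G) (h : SL2C) :
    BoundedGrowth (G.map (MulAut.conj h).toMonoidHom) := by
  have hset : ∀ v : ℝ, (∃ g ∈ G.map (MulAut.conj h).toMonoidHom, v = f (tr g)) ↔ ∃ g ∈ G, v = f (tr g) := by
    intro v
    constructor
    · rintro ⟨g, hg, hv⟩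
      obtain ⟨g', hg', rfl⟩ := Subgroup.mem_map.mp hg
      refine ⟨g', hg', ?_⟩
      rw [hv]
      show f (tr (h * g' * h⁻¹)) = _
      rw [tr_conj]
    · rintro ⟨g, hg, hv⟩
      refine ⟨h * g * h⁻¹, Subgroup.mem_map.mpr ⟨g, hg, rfl⟩, ?_⟩
      rw [tr_conj, hv]
  obtain ⟨C, hC⟩ := hG
  refine ⟨C, hC.mono ?_⟩
  intro n hn
  have : {v : ℝ | v ≤ 4 * Real.cosh n ∧ ∃ g ∈ G.map (MulAut.conj h).toMonoidHom, v = f (tr g)} =
      {v : ℝ | v ≤ 4 * Real.cosh n ∧ ∃ g ∈ G, v = f (tr g)} := by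
    ext v
    simp only [Set.mem_setOf_eq, hset]
  rw [this]
  exact hn

/-- every element of the quadratic field is in `ℚ(√-d)` -/
lemma exists_d {ω : ℂ} (hω : ω.im ≠ 0) (hsq : ω ^ 2 ∈ V ω) : ∃ d : ℕ, 0 < d ∧
    ∀ z ∈ V ω, ∃ u v : ℚ, z = (u : ℂ) + (v : ℂ) * ((Real.sqrt (d : ℝ) : ℂ) * Complex.I) := by
  obtain ⟨p, q, hpq⟩ := mem_V.mp hsq
  -- e = -(q² + 4 p) > 0
  set e : ℚ := -(q ^ 2 + 4 * p) with he
  have h1 : (2 * ω - q) ^ 2 = -(e : ℂ) := by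
    rw [he]; push_cast
    linear_combination 4 * hpq
  set z : ℂ := 2 * ω - q with hz
  have hzim : z.im ≠ 0 := by
    rw [hz]; simp; exact hω
  have hre : z.re = 0 := by
    have h2 := congrArg Complex.im h1
    rw [sq, Complex.mul_im] at h2
    simp at h2
    have h3 : z.re * z.im = 0 := by linarith
    rcases mul_eq_zero.mp h3 with h4 | h4
    · exact h4
    · exact absurd h4 hzim
  have hep : (e : ℝ) = z.im ^ 2 := by
    have h2 := congrArg Complex.re h1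
    rw [sq, Complex.mul_re, hre] at h2
    simp at h2
    linarith
  have hepos : 0 < e := by
    have : (0 : ℝ) < e := by rw [hep]; positivity
    exact_mod_cast this
  -- d = num * den
  set d : ℕ := e.num.natAbs * e.den with hd
  have hnum : 0 < e.num := Rat.num_pos.mpr hepos
  have hdpos : 0 < d := Nat.mul_pos (Int.natAbs_pos.mpr hnum.ne') e.pos
  have hdR : (d : ℝ) = e * (e.den : ℝ) ^ 2 := by
    have e1 : (e : ℝ) * e.den = e.num := by exact_mod_cast Rat.mul_den_eq_num e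
    have e2 : ((e.num.natAbs : ℕ) : ℝ) = (e.num : ℝ) := by
      have : ((e.num.natAbs : ℕ) : ℤ) = e.num := Int.natAbs_of_nonneg hnum.le
      calc ((e.num.natAbs : ℕ) : ℝ) = (((e.num.natAbs : ℕ) : ℤ) : ℝ) := by rw [Int.cast_natCast]
        _ = (e.num : ℝ) := by rw [this]
    rw [hd]; push_cast
    rw [e2, ← e1]; ring
  have hden : (0 : ℝ) < e.den := by exact_mod_cast e.pos
  have hsqrt : Real.sqrt (d : ℝ) = |z.im| * e.den := by
    rw [hdR, hep, ← mul_pow, Real.sqrt_sq_eq_abs, abs_mul, abs_of_pos hden]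
  have hzeq : z = (z.im : ℂ) * Complex.I := by
    apply Complex.ext <;> simp [hre]
  have hω2 : ∃ v : ℚ, (z.im : ℂ) = (v : ℂ) * (Real.sqrt (d : ℝ) : ℂ) := by
    rcases lt_or_gt_of_ne hzim with hlt | hgt
    · refine ⟨-(1 / (e.den : ℚ)), ?_⟩
      have : z.im = -(1 / (e.den : ℝ)) * Real.sqrt (d : ℝ) := by
        rw [hsqrt, abs_of_neg hlt]; field_simp
      have h2 : ((z.im : ℝ) : ℂ) = ((-(1 / (e.den : ℝ)) * Real.sqrt (d : ℝ) : ℝ) : ℂ) := by rw [← this]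
      rw [h2]; push_cast; rfl
    · refine ⟨(1 / (e.den : ℚ)), ?_⟩
      have : z.im = (1 / (e.den : ℝ)) * Real.sqrt (d : ℝ) := by
        rw [hsqrt, abs_of_pos hgt]; field_simp
      have h2 : ((z.im : ℝ) : ℂ) = (((1 / (e.den : ℝ)) * Real.sqrt (d : ℝ) : ℝ) : ℂ) := by rw [← this]
      rw [h2]; push_cast; rfl
  obtain ⟨v, hv⟩ := hω2
  refine ⟨d, hdpos, ?_⟩
  intro x hx
  obtain ⟨a, b, rfl⟩ := mem_V.mp hx
  refine ⟨a + b * q / 2, b * v / 2, ?_⟩
  have hω3 : ω = (q : ℂ) / 2 + (v : ℂ) * ((Real.sqrt (d : ℝ) : ℂ) * Complex.I) / 2 := by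
    have : (v : ℂ) * ((Real.sqrt (d : ℝ) : ℂ) * Complex.I) = z := by
      rw [hzeq]
      rw [hv]; ring
    rw [this, hz]; ring
  push_cast
  linear_combination (b : ℂ) * hω3

/-- the normalising matrix -/
noncomputable def nm (s ξ : ℂ) (hs : s ≠ 0) : SL2C :=
  ⟨!![s, -(s * ξ); 0, s⁻¹], by rw [Matrix.det_fin_two_of]; field_simp; ring⟩

lemma nm_conj (s ξ : ℂ) (hs : s ≠ 0) (g : SL2C) :
    (nm s ξ hs * g * (nm s ξ hs)⁻¹).1 0 0 = g.1 0 0 - ξ * g.1 1 0 ∧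
    (nm s ξ hs * g * (nm s ξ hs)⁻¹).1 0 1 = s ^ 2 * ((g.1 0 0 - ξ * g.1 1 0) * ξ + g.1 0 1 - ξ * g.1 1 1) ∧
    (nm s ξ hs * g * (nm s ξ hs)⁻¹).1 1 0 = g.1 1 0 / s ^ 2 ∧
    (nm s ξ hs * g * (nm s ξ hs)⁻¹).1 1 1 = g.1 1 0 * ξ + g.1 1 1 := by
  have h00 : (nm s ξ hs).1 0 0 = s := rfl
  have h01 : (nm s ξ hs).1 0 1 = -(s * ξ) := rfl
  have h10 : (nm s ξ hs).1 1 0 = 0 := rfl
  have h11 : (nm s ξ hs).1 1 1 = s⁻¹ := rfl
  simp only [mul00, mul01, mul10, mul11, inv00, inv01, inv10, inv11, h00, h01, h10, h11]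
  refine ⟨?_, ?_, ?_, ?_⟩
  · field_simp; ring
  · ring
  · field_simp; ring
  · field_simp; ring

theorem nt_main (hs : SieveStatement) (G : Subgroup SL2C) (ω : ℂ) (hω : ω.im ≠ 0) (h1 : T 1 ∈ G)
    (hω' : T ω ∈ G)
    (hc0 : ∀ g ∈ G, g.1 1 0 = 0 → g.1 0 0 = 1 ∨ g.1 0 0 = -1) (hne : ∃ g ∈ G, g.1 1 0 ≠ 0)
    (hG : BoundedGrowth G) :
    ∃ d : ℕ, 0 < d ∧ ∃ h : SL2C, ∃ S : Finset SL2C, (∀ s ∈ S, s ∈ G) ∧
      ∀ g ∈ G, ∃ s ∈ S, IsBianchi d (h * (s⁻¹ * g) * h⁻¹) := by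
  classical
  obtain ⟨A, hA, hcA⟩ := hne
  have hα : AlphaProp G ω := fun A B hA hB hcA hcB => alpha_mem hs G ω hω h1 hω' hG A B hA hB hcA hcB
  have hsq : ω ^ 2 ∈ V ω := omega_sq_mem hω h1 hω' hα A hA hcA
  obtain ⟨d, hd, hdV⟩ := exists_d hω hsq
  obtain ⟨N, hN, hNl⟩ := exists_mul_lattice hsq
  have hNc : (N : ℂ) ≠ 0 := by exact_mod_cast hN.ne'
  have hNV : (N : ℂ) ∈ V ω := by
    have := smulQ_mem_V (N : ℚ) (V_one ω)
    simpa using this
  have hNR : (0 : ℝ) < N := by exact_mod_cast hN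
  -- the scaling
  set s : ℂ := (((Real.sqrt N)⁻¹ : ℝ) : ℂ) with hsdef
  have hs2 : s ^ 2 = 1 / N := by
    have h2 : ((Real.sqrt N)⁻¹) ^ 2 = 1 / (N : ℝ) := by
      rw [inv_pow, Real.sq_sqrt hNR.le, one_div]
    rw [hsdef, ← Complex.ofReal_pow, h2]; push_cast; rfl
  have hs0 : s ≠ 0 := by
    intro h
    rw [h] at hs2
    have : (1 : ℂ) / N ≠ 0 := one_div_ne_zero hNc
    apply this
    rw [← hs2]; ring
  set ξ : ℂ := A.1 0 0 / A.1 1 0 with hξ
  set h : SL2C := nm s ξ hs0 with hh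
  set G' : Subgroup SL2C := G.map (MulAut.conj h).toMonoidHom with hG'
  have hmem : ∀ g', g' ∈ G' ↔ ∃ g ∈ G, h * g * h⁻¹ = g' := fun g' => Subgroup.mem_map
  have hconj := nm_conj s ξ hs0
  have hx1 : ∀ g ∈ G, g.1 1 0 ≠ 0 → g.1 0 0 / g.1 1 0 - ξ ∈ V ω := by
    intro g hg hc
    have e1 := hα A g hA hg hcA hc
    have e2 := hα A A hA hA hcA hcA
    have e3 := sub_mem e1 e2
    have : g.1 0 0 / g.1 1 0 + A.1 1 1 / A.1 1 0 - (A.1 0 0 / A.1 1 0 + A.1 1 1 / A.1 1 0) =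
        g.1 0 0 / g.1 1 0 - ξ := by rw [hξ]; ring
    rwa [this] at e3
  have hx2 : ∀ g ∈ G, g.1 1 0 ≠ 0 → ξ + g.1 1 1 / g.1 1 0 ∈ V ω := by
    intro g hg hc
    exact hα g A hg hA hc hcA
  have hinvN : ∀ z ∈ V ω, s ^ 2 * z ∈ V ω := by
    intro z hz
    rw [hs2]
    have := smulQ_mem_V (1 / N : ℚ) hz
    push_cast at this
    exact this
  have hNrm : Nrm (sg hsq) G' := by
    refine ⟨norm_sg hω hsq, exists_w hω hsq, ?_, BoundedGrowth_conj G hG h, ?_, ?_, ?_, ?_, ?_⟩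
    · intro x
      obtain ⟨m, n, hmn⟩ := hNl x
      rw [hmem]
      refine ⟨T (m + n * ω), T_lattice_mem G ω h1 hω' m n, ?_⟩
      obtain ⟨c1, c2, c3, c4⟩ := hconj (T (m + n * ω))
      apply sl_ext
      · rw [c1, T00, T00, T10]; ring
      · rw [c2, T00, T01, T10, T11, T01, ← hmn, hs2]; field_simp; ring
      · rw [c3, T10, T10]; simp
      · rw [c4, T10, T11, T11]; ring
    · intro g' hg' hc'
      obtain ⟨g, hg, rfl⟩ := (hmem g').mp hg'
      obtain ⟨c1, c2, c3, c4⟩ := hconj g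
      rw [c3] at hc' ⊢
      have hc : g.1 1 0 ≠ 0 := by
        intro h0; apply hc'; rw [h0]; simp
      rw [mem_fieldRange_sg]
      have e : (g.1 1 0 / s ^ 2) ^ 2 = (N : ℂ) * ((N : ℂ) * g.1 1 0 ^ 2) := by
        rw [hs2]; field_simp
      rw [e]
      exact V_mul hsq hNV (V_mul hsq hNV (c_sq_mem hω h1 hω' hα g hg hc))
    · intro g' hg' hc'
      obtain ⟨g, hg, rfl⟩ := (hmem g').mp hg'
      obtain ⟨c1, c2, c3, c4⟩ := hconj g
      rw [c3] at hc'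
      rw [c1, c3, mem_fieldRange_sg]
      have hc : g.1 1 0 ≠ 0 := by
        intro h0; apply hc'; rw [h0]; simp
      have e : (g.1 0 0 - ξ * g.1 1 0) / (g.1 1 0 / s ^ 2) = s ^ 2 * (g.1 0 0 / g.1 1 0 - ξ) := by
        field_simp
      rw [e]
      exact hinvN _ (hx1 g hg hc)
    · intro g' hg' hc'
      obtain ⟨g, hg, rfl⟩ := (hmem g').mp hg'
      obtain ⟨c1, c2, c3, c4⟩ := hconj g
      rw [c3] at hc'
      rw [c4, c3, mem_fieldRange_sg]
      have hc : g.1 1 0 ≠ 0 := by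
        intro h0; apply hc'; rw [h0]; simp
      have e : (g.1 1 0 * ξ + g.1 1 1) / (g.1 1 0 / s ^ 2) = s ^ 2 * (ξ + g.1 1 1 / g.1 1 0) := by
        field_simp
      rw [e]
      exact hinvN _ (hx2 g hg hc)
    · intro g' hg' hc'
      obtain ⟨g, hg, rfl⟩ := (hmem g').mp hg'
      obtain ⟨c1, c2, c3, c4⟩ := hconj g
      rw [c3] at hc'
      have hc : g.1 1 0 = 0 := by
        rcases div_eq_zero_iff.mp hc' with h2 | h2
        · exact h2
        · exact absurd h2 (pow_ne_zero 2 hs0)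
      have ha := hc0 g hg hc
      have hdet := det_eq g
      have hg00V : g.1 0 0 ∈ V ω := by
        rcases ha with h2 | h2
        · rw [h2]; exact V_one ω
        · rw [h2]; exact neg_mem (V_one ω)
      have hg11 : g.1 1 1 = g.1 0 0 := by
        rw [hc] at hdet
        rcases ha with h2 | h2
        · rw [h2] at hdet ⊢; linear_combination hdet
        · rw [h2] at hdet ⊢; linear_combination -hdet
      have hsq1 : g.1 0 0 ^ 2 = 1 := by
        rcases ha with h2 | h2 <;> rw [h2] <;> ring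
      have hg00 : g.1 0 0 ≠ 0 := by
        intro h0; rw [h0] at hsq1; norm_num at hsq1
      have hb : g.1 0 1 ∈ V ω := by
        have hgA : g * A ∈ G := G.mul_mem hg hA
        have e1 : (g * A).1 1 0 = g.1 0 0 * A.1 1 0 := by rw [mul10, hc, hg11]; ring
        have e2 : (g * A).1 0 0 = g.1 0 0 * A.1 0 0 + g.1 0 1 * A.1 1 0 := mul00 g A
        have hne' : (g * A).1 1 0 ≠ 0 := by rw [e1]; exact mul_ne_zero hg00 hcA
        have e3 := hx1 (g * A) hgA hne'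
        rw [e1, e2] at e3
        have e4 : (g.1 0 0 * A.1 0 0 + g.1 0 1 * A.1 1 0) / (g.1 0 0 * A.1 1 0) - ξ = g.1 0 1 / g.1 0 0 := by
          rw [hξ]; field_simp; ring
        rw [e4] at e3
        have e5 := V_mul hsq hg00V e3
        have e6 : g.1 0 0 * (g.1 0 1 / g.1 0 0) = g.1 0 1 := by field_simp
        rwa [e6] at e5
      intro i j
      rw [mem_fieldRange_sg]
      fin_cases i <;> fin_cases j
      · show (h * g * h⁻¹).1 0 0 ∈ V ω
        rw [c1, hc, mul_zero, sub_zero]; exact hg00V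
      · show (h * g * h⁻¹).1 0 1 ∈ V ω
        rw [c2, hc, hg11]
        have e : (g.1 0 0 - ξ * 0) * ξ + g.1 0 1 - ξ * g.1 0 0 = g.1 0 1 := by ring
        rw [e]; exact hinvN _ hb
      · show (h * g * h⁻¹).1 1 0 ∈ V ω
        rw [c3, hc, zero_div]; exact zero_mem _
      · show (h * g * h⁻¹).1 1 1 ∈ V ω
        rw [c4, hc, zero_mul, zero_add, hg11]; exact hg00V
    · refine ⟨h * A * h⁻¹, (hmem _).mpr ⟨A, hA, rfl⟩, ?_⟩
      rw [(hconj A).2.2.1]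
      exact div_ne_zero hcA (pow_ne_zero 2 hs0)
  obtain ⟨S', hS1, hS2⟩ := finite_idx hs hNrm
  refine ⟨d, hd, h, S'.image (fun s' => h⁻¹ * s' * h), ?_, ?_⟩
  · intro s₀ hs₀
    obtain ⟨s', hs', rfl⟩ := Finset.mem_image.mp hs₀
    obtain ⟨g, hg, hgs⟩ := (hmem s').mp (hS1 s' hs')
    have : h⁻¹ * s' * h = g := by rw [← hgs]; group
    rw [this]; exact hg
  · intro g hg
    obtain ⟨s', hs', hO⟩ := hS2 (h * g * h⁻¹) ((hmem _).mpr ⟨g, hg, rfl⟩)
    refine ⟨h⁻¹ * s' * h, Finset.mem_image.mpr ⟨s', hs', rfl⟩, ?_⟩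
    have e : h * ((h⁻¹ * s' * h)⁻¹ * g) * h⁻¹ = s'⁻¹ * (h * g * h⁻¹) := by group
    rw [e]
    intro i j
    obtain ⟨x, hx⟩ := mem_OO.mp (hO i j)
    constructor
    · rw [← hx]
      exact map_isIntegral_int (sg hsq) (RingOfIntegers.isIntegral_coe x)
    · rw [← hx]
      exact hdV _ ((mem_fieldRange_sg hsq).mp (RingHom.mem_fieldRange.mpr ⟨_, rfl⟩))

end Pool.Agent.Work.MP_67f4ac_gt
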