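import Mathlib
import Pool.Agent.Work.MP_67f4ac_gt.Defs
set_option autoImplicit false
namespace Pool.Agent.Work.MP_67f4ac_gt
open Filter Topology

open Matrix

/-- the denominator of the action -/
noncomputable def den (g : SL2C) (p : H3) : ℝ :=
  ‖g.1 1 0 * p.1.1 + g.1 1 1‖ ^ 2 + ‖g.1 1 0‖ ^ 2 * p.1.2 ^ 2

theorem den_pos (g : SL2C) (p : H3) : 0 < den g p := by
  have hp := p.2
  unfold den
  by_cases hc : g.1 1 0 = 0
  · have hd : g.1 1 1 ≠ 0 := by
      intro hd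
      have := g.2
      rw [Matrix.det_fin_two, hc, hd] at this
      simp at this
    have : 0 < ‖g.1 1 1‖ := norm_pos_iff.2 hd
    rw [hc, zero_mul, zero_add]
    positivity
  · have : 0 < ‖g.1 1 0‖ := norm_pos_iff.2 hc
    positivity

/-- the action map -/
noncomputable def mob (g : SL2C) (p : H3) : H3 :=
  ⟨(((g.1 0 0 * p.1.1 + g.1 0 1) * (starRingEnd ℂ) (g.1 1 0 * p.1.1 + g.1 1 1)
      + g.1 0 0 * (starRingEnd ℂ) (g.1 1 0) * ((p.1.2 : ℂ) ^ 2))
      / ((den g p : ℝ) : ℂ), p.1.2 / den g p), div_pos p.2 (den_pos g p)⟩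

/-- the Hermitian matrix of a point -/
noncomputable def Hm (p : H3) : Matrix (Fin 2) (Fin 2) ℂ :=
  !![((‖p.1.1‖ ^ 2 + p.1.2 ^ 2 : ℝ) : ℂ) / (p.1.2 : ℂ), p.1.1 / (p.1.2 : ℂ);
    (starRingEnd ℂ) p.1.1 / (p.1.2 : ℂ), 1 / (p.1.2 : ℂ)]

theorem Hm_det (p : H3) : (Hm p).det = 1 := by
  have hp : ((p.1.2 : ℝ) : ℂ) ≠ 0 := by exact_mod_cast p.2.ne'
  rw [Hm, Matrix.det_fin_two_of]
  have : ((‖p.1.1‖ ^ 2 : ℝ) : ℂ) = p.1.1 * (starRingEnd ℂ) p.1.1 := by
    rw [Complex.mul_conj, Complex.normSq_eq_norm_sq]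
  rw [Complex.ofReal_add, this, Complex.ofReal_pow]
  field_simp
  ring

theorem Hm_inj {p q : H3} (h : Hm p = Hm q) : p = q := by
  have hp : ((p.1.2 : ℝ) : ℂ) ≠ 0 := by exact_mod_cast p.2.ne'
  have hq : ((q.1.2 : ℝ) : ℂ) ≠ 0 := by exact_mod_cast q.2.ne'
  have h1 := congrFun (congrFun h 1) 1
  have h2 := congrFun (congrFun h 0) 1
  simp only [Hm, Matrix.of_apply, Matrix.cons_val', Matrix.cons_val_zero, Matrix.cons_val_one,
    Matrix.cons_val_fin_one] at h1 h2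
  have h3 : ((p.1.2 : ℝ) : ℂ) = q.1.2 := by
    field_simp at h1
    exact h1.symm
  have h4 : p.1.2 = q.1.2 := by exact_mod_cast h3
  have h5 : p.1.1 = q.1.1 := by
    rw [← h3] at h2
    field_simp at h2
    exact h2
  exact Subtype.ext (Prod.ext h5 h4)

theorem mob_11 (g : SL2C) (p : H3) : (Hm (mob g p)) 1 1 = (g.1 * Hm p * g.1ᴴ) 1 1 := by
  have hp : ((p.1.2 : ℝ) : ℂ) ≠ 0 := by exact_mod_cast p.2.ne'
  have hd : ((den g p : ℝ) : ℂ) ≠ 0 := by exact_mod_cast (den_pos g p).ne'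
  have e1 : ((den g p : ℝ) : ℂ) = (g.1 1 0 * p.1.1 + g.1 1 1) *
      (starRingEnd ℂ) (g.1 1 0 * p.1.1 + g.1 1 1) +
      g.1 1 0 * (starRingEnd ℂ) (g.1 1 0) * (p.1.2 : ℂ) ^ 2 := by
    rw [Complex.mul_conj, Complex.mul_conj, Complex.normSq_eq_norm_sq, Complex.normSq_eq_norm_sq,
      den]
    push_cast
    ring
  have e2 : ((‖p.1.1‖ ^ 2 : ℝ) : ℂ) = p.1.1 * (starRingEnd ℂ) p.1.1 := by
    rw [Complex.mul_conj, Complex.normSq_eq_norm_sq]
  have lhs : (Hm (mob g p)) 1 1 = ((den g p : ℝ) : ℂ) / (p.1.2 : ℂ) := by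
    simp only [Hm, mob, Matrix.of_apply, Matrix.cons_val', Matrix.cons_val_one,
      Matrix.cons_val_fin_one]
    push_cast
    field_simp
  rw [lhs, e1]
  simp only [Matrix.mul_apply, Fin.sum_univ_two, Matrix.conjTranspose_apply, Hm, Matrix.of_apply,
    Matrix.cons_val', Matrix.cons_val_zero, Matrix.cons_val_one,
      Matrix.cons_val_fin_one]
  rw [Complex.ofReal_add, e2, Complex.ofReal_pow]
  simp only [map_add, map_mul, Complex.star_def]
  field_simp
  ring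

theorem mob_01 (g : SL2C) (p : H3) : (Hm (mob g p)) 0 1 = (g.1 * Hm p * g.1ᴴ) 0 1 := by
  have hp : ((p.1.2 : ℝ) : ℂ) ≠ 0 := by exact_mod_cast p.2.ne'
  have hd : ((den g p : ℝ) : ℂ) ≠ 0 := by exact_mod_cast (den_pos g p).ne'
  have e2 : ((‖p.1.1‖ ^ 2 : ℝ) : ℂ) = p.1.1 * (starRingEnd ℂ) p.1.1 := by
    rw [Complex.mul_conj, Complex.normSq_eq_norm_sq]
  have lhs : (Hm (mob g p)) 0 1 =
      ((g.1 0 0 * p.1.1 + g.1 0 1) * (starRingEnd ℂ) (g.1 1 0 * p.1.1 + g.1 1 1)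
      + g.1 0 0 * (starRingEnd ℂ) (g.1 1 0) * ((p.1.2 : ℂ) ^ 2)) / (p.1.2 : ℂ) := by
    simp only [Hm, mob, Matrix.of_apply, Matrix.cons_val', Matrix.cons_val_one,
      Matrix.cons_val_fin_one, Matrix.cons_val_zero]
    push_cast
    field_simp
  rw [lhs]
  simp only [Matrix.mul_apply, Fin.sum_univ_two, Matrix.conjTranspose_apply, Hm, Matrix.of_apply,
    Matrix.cons_val', Matrix.cons_val_zero, Matrix.cons_val_one,
      Matrix.cons_val_fin_one]
  rw [Complex.ofReal_add, e2, Complex.ofReal_pow]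
  simp only [map_add, map_mul, Complex.star_def]
  field_simp
  ring

theorem Hm_herm (p : H3) : (Hm p)ᴴ = Hm p := by
  ext i j
  fin_cases i <;> fin_cases j <;>
    simp [Hm, Matrix.conjTranspose_apply]

theorem Hm_mob (g : SL2C) (p : H3) : Hm (mob g p) = g.1 * Hm p * g.1ᴴ := by
  have h11 := mob_11 g p
  have h01 := mob_01 g p
  have hherm : (g.1 * Hm p * g.1ᴴ)ᴴ = g.1 * Hm p * g.1ᴴ := by
    rw [Matrix.conjTranspose_mul, Matrix.conjTranspose_mul, Matrix.conjTranspose_conjTranspose,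
      Hm_herm, Matrix.mul_assoc]
  have h10 : (Hm (mob g p)) 1 0 = (g.1 * Hm p * g.1ᴴ) 1 0 := by
    have e1 : (Hm (mob g p)) 1 0 = star ((Hm (mob g p)) 0 1) := by
      conv_lhs => rw [← Hm_herm]
      rw [Matrix.conjTranspose_apply]
    have e2 : (g.1 * Hm p * g.1ᴴ) 1 0 = star ((g.1 * Hm p * g.1ᴴ) 0 1) := by
      conv_lhs => rw [← hherm]
      rw [Matrix.conjTranspose_apply]
    rw [e1, e2, h01]
  have hdet : (Hm (mob g p)).det = (g.1 * Hm p * g.1ᴴ).det := by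
    rw [Hm_det, Matrix.det_mul, Matrix.det_mul, Hm_det, Matrix.det_conjTranspose, g.2]
    simp
  have hne : (Hm (mob g p)) 1 1 ≠ 0 := by
    have h1 : (((mob g p).1.2 : ℝ) : ℂ) ≠ 0 := by exact_mod_cast (mob g p).2.ne'
    simp only [Hm, Matrix.of_apply, Matrix.cons_val', Matrix.cons_val_one, Matrix.cons_val_fin_one]
    exact div_ne_zero one_ne_zero h1
  have h00 : (Hm (mob g p)) 0 0 = (g.1 * Hm p * g.1ᴴ) 0 0 := by
    rw [Matrix.det_fin_two, Matrix.det_fin_two, ← h11, ← h01, ← h10] at hdet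
    have : (Hm (mob g p)) 0 0 * (Hm (mob g p)) 1 1 = (g.1 * Hm p * g.1ᴴ) 0 0 * (Hm (mob g p)) 1 1 := by
      linear_combination hdet
    exact mul_right_cancel₀ hne this
  ext i j
  fin_cases i <;> fin_cases j
  · exact h00
  · exact h01
  · exact h10
  · exact h11

theorem mob_mul (g h : SL2C) (p : H3) : mob (g * h) p = mob g (mob h p) := by
  apply Hm_inj
  rw [Hm_mob, Hm_mob, Hm_mob]
  have : (g * h).1 = g.1 * h.1 := rfl
  rw [this, Matrix.conjTranspose_mul]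
  simp only [Matrix.mul_assoc]

theorem mob_one (p : H3) : mob 1 p = p := by
  apply Hm_inj
  rw [Hm_mob]
  have : (1 : SL2C).1 = 1 := rfl
  rw [this]
  simp

/-- the Moebius action -/
noncomputable def act : SL2C →* Equiv.Perm H3 where
  toFun g := ⟨mob g, mob g⁻¹, fun p => by rw [← mob_mul, inv_mul_cancel, mob_one],
    fun p => by rw [← mob_mul, mul_inv_cancel, mob_one]⟩
  map_one' := Equiv.ext fun p => mob_one p
  map_mul' g h := Equiv.ext fun p => mob_mul g h p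

theorem act_fst (g : SL2C) (p : H3) : (act g p).1.1 =
    ((g.1 0 0 * p.1.1 + g.1 0 1) * (starRingEnd ℂ) (g.1 1 0 * p.1.1 + g.1 1 1)
      + g.1 0 0 * (starRingEnd ℂ) (g.1 1 0) * ((p.1.2 : ℂ) ^ 2))
      / (((‖g.1 1 0 * p.1.1 + g.1 1 1‖ ^ 2 + ‖g.1 1 0‖ ^ 2 * p.1.2 ^ 2 : ℝ)) : ℂ) := rfl

theorem act_snd (g : SL2C) (p : H3) : (act g p).1.2 =
    p.1.2 / (‖g.1 1 0 * p.1.1 + g.1 1 1‖ ^ 2 + ‖g.1 1 0‖ ^ 2 * p.1.2 ^ 2) := rfl

theorem rho_trace (p q : H3) : ((rho p q + 2 : ℝ) : ℂ) = (Hm p * (Hm q).adjugate).trace := by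
  have hp : ((p.1.2 : ℝ) : ℂ) ≠ 0 := by exact_mod_cast p.2.ne'
  have hq : ((q.1.2 : ℝ) : ℂ) ≠ 0 := by exact_mod_cast q.2.ne'
  rw [rho, Matrix.trace_fin_two, Matrix.adjugate_fin_two]
  simp only [Matrix.mul_apply, Fin.sum_univ_two, Hm, Matrix.of_apply,
    Matrix.cons_val', Matrix.cons_val_zero, Matrix.cons_val_one,
      Matrix.cons_val_fin_one]
  have e : ∀ z : ℂ, ((‖z‖ ^ 2 : ℝ) : ℂ) = z * (starRingEnd ℂ) z := by
    intro z
    rw [Complex.mul_conj, Complex.normSq_eq_norm_sq]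
  rw [Complex.ofReal_add, Complex.ofReal_div, Complex.ofReal_add, Complex.ofReal_add,
    Complex.ofReal_add, e, e, e]
  push_cast
  simp only [map_sub]
  field_simp
  ring

theorem act_iso (g : SL2C) : IsIso (act g) := by
  intro p q
  have h : ((rho (act g p) (act g q) + 2 : ℝ) : ℂ) = ((rho p q + 2 : ℝ) : ℂ) := by
    rw [rho_trace, rho_trace]
    show (Hm (mob g p) * (Hm (mob g q)).adjugate).trace = _
    rw [Hm_mob, Hm_mob, Matrix.adjugate_mul_distrib, Matrix.adjugate_mul_distrib]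
    have e1 : g.1ᴴ * (g.1ᴴ).adjugate = 1 := by
      rw [Matrix.mul_adjugate, Matrix.det_conjTranspose, g.2]
      simp
    have e2 : (g.1).adjugate * g.1 = 1 := by
      rw [Matrix.adjugate_mul, g.2, one_smul]
    calc (g.1 * Hm p * g.1ᴴ * ((g.1ᴴ).adjugate * ((Hm q).adjugate * (g.1).adjugate))).trace
        = (g.1 * (Hm p * (g.1ᴴ * (g.1ᴴ).adjugate) * (Hm q).adjugate * (g.1).adjugate)).trace := by
          simp only [Matrix.mul_assoc]
      _ = ((Hm p * (Hm q).adjugate * (g.1).adjugate) * g.1).trace := by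
          rw [e1, Matrix.trace_mul_comm, Matrix.mul_one]
      _ = (Hm p * (Hm q).adjugate).trace := by
          rw [Matrix.mul_assoc, e2, Matrix.mul_one]
  have h2 : rho (act g p) (act g q) + 2 = rho p q + 2 := by exact_mod_cast h
  linarith

/-- complex conjugation -/
noncomputable def cj : Equiv.Perm H3 where
  toFun p := ⟨((starRingEnd ℂ) p.1.1, p.1.2), p.2⟩
  invFun p := ⟨((starRingEnd ℂ) p.1.1, p.1.2), p.2⟩
  left_inv p := by simp
  right_inv p := by simp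

theorem cj_apply (p : H3) : (cj p).1 = ((starRingEnd ℂ) p.1.1, p.1.2) := rfl


theorem sl_det (g : SL2C) : g.1 0 0 * g.1 1 1 - g.1 0 1 * g.1 1 0 = 1 := by
  have := g.2
  rwa [Matrix.det_fin_two] at this

/-- constructor -/
def mk (a b c d : ℂ) (h : a * d - b * c = 1) : SL2C := ⟨!![a, b; c, d], by
  rw [Matrix.det_fin_two_of, h]⟩

theorem ext4 {g h : SL2C} (h1 : g.1 0 0 = h.1 0 0) (h2 : g.1 0 1 = h.1 0 1)
    (h3 : g.1 1 0 = h.1 1 0) (h4 : g.1 1 1 = h.1 1 1) : g = h := by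
  apply Subtype.ext
  ext i j
  fin_cases i <;> fin_cases j <;> assumption

theorem act_c0 (g : SL2C) (hc : g.1 1 0 = 0) (p : H3) :
    (act g p).1 = (g.1 0 0 ^ 2 * p.1.1 + g.1 0 0 * g.1 0 1, ‖g.1 0 0‖ ^ 2 * p.1.2) := by
  have hdet := sl_det g
  rw [hc, mul_zero, sub_zero] at hdet
  have hd : g.1 1 1 ≠ 0 := right_ne_zero_of_mul_eq_one hdet
  have ha : g.1 0 0 ≠ 0 := left_ne_zero_of_mul_eq_one hdet
  have hn : ‖g.1 0 0‖ * ‖g.1 1 1‖ = 1 := by rw [← norm_mul, hdet, norm_one]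
  apply Prod.ext
  · simp only
    rw [act_fst, hc]
    simp only [zero_mul, zero_add, map_zero, mul_zero, norm_zero, add_zero, ne_eq,
      OfNat.ofNat_ne_zero, not_false_eq_true, zero_pow]
    have h1 : (((‖g.1 1 1‖ ^ 2 : ℝ)) : ℂ) = g.1 1 1 * (starRingEnd ℂ) (g.1 1 1) := by
      rw [Complex.mul_conj, Complex.normSq_eq_norm_sq]
    rw [h1]
    have h2 : (starRingEnd ℂ) (g.1 1 1) ≠ 0 := by simpa using hd
    have h3 : g.1 0 0 = (g.1 1 1)⁻¹ := eq_inv_of_mul_eq_one_left hdet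
    rw [h3]
    field_simp
  · simp only
    rw [act_snd, hc]
    simp only [zero_mul, zero_add, norm_zero, add_zero, ne_eq,
      OfNat.ofNat_ne_zero, not_false_eq_true, zero_pow]
    have h1 : ‖g.1 1 1‖ ≠ 0 := norm_ne_zero_iff.2 hd
    have h2 : ‖g.1 0 0‖ = ‖g.1 1 1‖⁻¹ := eq_inv_of_mul_eq_one_left hn
    rw [h2]
    field_simp

theorem act_T (w : ℂ) (p : H3) : (act (T w) p).1 = (p.1.1 + w, p.1.2) := by
  rw [act_c0 (T w) (by simp [T]) p]
  simp [T]

theorem mul_e (g h : SL2C) (i j : Fin 2) :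
    (g * h).1 i j = g.1 i 0 * h.1 0 j + g.1 i 1 * h.1 1 j := by
  show (g.1 * h.1) i j = _
  rw [Matrix.mul_apply, Fin.sum_univ_two]

@[simp] theorem mk_00 (a b c d : ℂ) (h : a * d - b * c = 1) : (mk a b c d h).1 0 0 = a := rfl
@[simp] theorem mk_01 (a b c d : ℂ) (h : a * d - b * c = 1) : (mk a b c d h).1 0 1 = b := rfl
@[simp] theorem mk_10 (a b c d : ℂ) (h : a * d - b * c = 1) : (mk a b c d h).1 1 0 = c := rfl
@[simp] theorem mk_11 (a b c d : ℂ) (h : a * d - b * c = 1) : (mk a b c d h).1 1 1 = d := rfl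
@[simp] theorem T_00 (w : ℂ) : (T w).1 0 0 = 1 := rfl
@[simp] theorem T_01 (w : ℂ) : (T w).1 0 1 = w := rfl
@[simp] theorem T_10 (w : ℂ) : (T w).1 1 0 = 0 := rfl
@[simp] theorem T_11 (w : ℂ) : (T w).1 1 1 = 1 := rfl

theorem one_e (i j : Fin 2) : (1 : SL2C).1 i j = if i = j then 1 else 0 := by
  show (1 : Matrix (Fin 2) (Fin 2) ℂ) i j = _
  rw [Matrix.one_apply]

theorem inv_e (g : SL2C) : (g⁻¹).1 0 0 = g.1 1 1 ∧ (g⁻¹).1 0 1 = -g.1 0 1 ∧
    (g⁻¹).1 1 0 = -g.1 1 0 ∧ (g⁻¹).1 1 1 = g.1 0 0 := by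
  have := Matrix.SpecialLinearGroup.SL2_inv_expl g
  rw [this]
  exact ⟨rfl, rfl, rfl, rfl⟩

/-- the base point -/
noncomputable def j0 : H3 := ⟨(0, 1), one_pos⟩

/-- the second base point -/
noncomputable def j2 : H3 := ⟨(0, 2), two_pos⟩

theorem exists_act_jj (x : H3) : ∃ g : SL2C, act g j0 = x := by
  have hx := x.2
  have hs : 0 < Real.sqrt x.1.2 := Real.sqrt_pos.2 hx
  have hsq : Real.sqrt x.1.2 ^ 2 = x.1.2 := Real.sq_sqrt hx.le
  have hs' : ((Real.sqrt x.1.2 : ℝ) : ℂ) ≠ 0 := by exact_mod_cast hs.ne'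
  refine ⟨mk (Real.sqrt x.1.2 : ℂ) (x.1.1 / (Real.sqrt x.1.2 : ℂ)) 0 ((Real.sqrt x.1.2 : ℂ)⁻¹)
    (by field_simp; ring), ?_⟩
  apply Subtype.ext
  rw [act_c0 _ (by simp)]
  simp only [mk_00, mk_01, j0, mul_zero, zero_add, mul_one]
  rw [Complex.norm_real, Real.norm_of_nonneg hs.le, hsq]
  apply Prod.ext
  · simp only
    field_simp
  · rfl

theorem act_axis (g : SL2C) (r : ℝ) (hr : 0 < r) (D : ℝ) (hD : ‖g.1 1 1‖ ^ 2 + ‖g.1 1 0‖ ^ 2 * r ^ 2 = D) :
    (act g ⟨(0, r), hr⟩).1 = ((g.1 0 1 * (starRingEnd ℂ) (g.1 1 1) +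
      g.1 0 0 * (starRingEnd ℂ) (g.1 1 0) * (r : ℂ) ^ 2) / (D : ℂ), r / D) := by
  subst hD
  apply Prod.ext
  · rw [act_fst]
    simp only [mul_zero, zero_add]
  · rw [act_snd]
    simp only [mul_zero, zero_add]

/-- rotation to the vertical axis -/
theorem exists_rot (y : H3) (hy : rho y j0 = 1 / 2) : ∃ u : SL2C, act u j0 = j0 ∧ act u j2 = y := by
  obtain ⟨⟨z, t⟩, ht⟩ := y
  have ht' : 0 < t := ht
  have e1 : ‖z‖ ^ 2 = (2 - t) * (2 * t - 1) / 2 := by
    simp only [rho, j0, sub_zero, mul_one] at hy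
    rw [div_eq_iff ht'.ne'] at hy
    linarith
  have ht2 : 1 / 2 ≤ t := by
    by_contra hlt
    push Not at hlt
    have : 0 ≤ ‖z‖ ^ 2 := by positivity
    nlinarith
  rcases eq_or_lt_of_le ht2 with h | h
  · have hz : z = 0 := by
      rw [← h] at e1
      norm_num at e1
      exact e1
    refine ⟨mk 0 (-1) 1 0 (by ring), ?_, ?_⟩
    · apply Subtype.ext
      rw [j0, act_axis _ 1 one_pos 1 (by simp)]
      simp
    · apply Subtype.ext
      rw [j2, act_axis _ 2 two_pos 4 (by simp; norm_num)]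
      simp only [mk_00, mk_01, mk_10, mk_11, map_zero, mul_zero, zero_mul, add_zero, zero_div, hz,
        ← h]
      norm_num
  · set s : ℝ := Real.sqrt (2 * (2 * t - 1) / (3 * t)) with hs
    have hs2 : s ^ 2 = 2 * (2 * t - 1) / (3 * t) := Real.sq_sqrt (by
      apply div_nonneg <;> linarith)
    have hspos : 0 < s := Real.sqrt_pos.2 (by
      apply div_pos <;> linarith)
    have hsC : (s : ℂ) ≠ 0 := by exact_mod_cast hspos.ne'
    have htC : (t : ℂ) ≠ 0 := by exact_mod_cast ht'.ne'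
    have h3 : 2 * t - 1 ≠ 0 := by linarith
    set β : ℂ := 2 * (starRingEnd ℂ) z / (3 * s * t) with hβ
    have hβn : ‖β‖ ^ 2 = (2 - t) / (3 * t) := by
      rw [hβ, norm_div, norm_mul, norm_mul, norm_mul, Complex.norm_conj, Complex.norm_real,
        Complex.norm_real, Real.norm_of_nonneg hspos.le, Real.norm_of_nonneg ht'.le]
      simp only [Complex.norm_ofNat]
      rw [div_pow, mul_pow, mul_pow, mul_pow, e1, hs2]
      field_simp
    have hdet : (s : ℂ) * s - (-(starRingEnd ℂ) β) * β = 1 := by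
      have h1 : (((s ^ 2 + ‖β‖ ^ 2 : ℝ)) : ℂ) = 1 := by
        rw [hs2, hβn]
        norm_cast
        field_simp
        ring
      have h2 : ((‖β‖ ^ 2 : ℝ) : ℂ) = β * (starRingEnd ℂ) β := by
        rw [Complex.mul_conj, Complex.normSq_eq_norm_sq]
      rw [Complex.ofReal_add, h2, Complex.ofReal_pow] at h1
      linear_combination h1
    refine ⟨mk s (-(starRingEnd ℂ) β) β s hdet, ?_, ?_⟩
    · apply Subtype.ext
      rw [j0, act_axis _ 1 one_pos 1 (by
        simp only [mk_10, mk_11]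
        rw [hβn, Complex.norm_real, Real.norm_of_nonneg hspos.le, hs2]
        field_simp
        ring)]
      simp only [mk_00, mk_01, mk_10, mk_11, Complex.conj_ofReal]
      apply Prod.ext
      · simp only
        push_cast
        ring
      · simp
    · apply Subtype.ext
      rw [j2, act_axis _ 2 two_pos (2 / t) (by
        simp only [mk_10, mk_11]
        rw [hβn, Complex.norm_real, Real.norm_of_nonneg hspos.le, hs2]
        field_simp
        ring)]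
      simp only [mk_00, mk_01, mk_10, mk_11, Complex.conj_ofReal]
      apply Prod.ext
      · simp only
        rw [hβ]
        simp only [map_div₀, map_mul, Complex.conj_ofReal, Complex.conj_conj, Complex.conj_ofNat]
        push_cast
        field_simp
        ring
      · simp only
        field_simp

theorem sq_norm (z : ℂ) : ‖z‖ ^ 2 = z.re ^ 2 + z.im ^ 2 := by
  rw [← Complex.normSq_eq_norm_sq, Complex.normSq_apply]
  ring

/-- the third base point -/
noncomputable def j3 : H3 := ⟨(1, 1), one_pos⟩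

/-- the fourth base point -/
noncomputable def j4 : H3 := ⟨(Complex.I, 1), one_pos⟩

theorem rho_expand (x : H3) (z : ℂ) (t : ℝ) (ht : 0 < t) :
    rho x ⟨(z, t), ht⟩ * (x.1.2 * t) = (x.1.1.re - z.re) ^ 2 + (x.1.1.im - z.im) ^ 2 + (x.1.2 - t) ^ 2 := by
  have hx := x.2
  unfold rho
  rw [div_mul_cancel₀ _ (mul_pos hx ht).ne', sq_norm]
  simp

theorem iso_classification (γ : Equiv.Perm H3) (h : IsIso γ) :
    (∃ g : SL2C, γ = act g) ∨ (∃ g : SL2C, γ = act g * cj) := by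
  have mulIso : ∀ γ δ : Equiv.Perm H3, IsIso γ → IsIso δ → IsIso (γ * δ) := by
    intro γ δ h1 h2 x y
    rw [Equiv.Perm.mul_apply, Equiv.Perm.mul_apply, h1, h2]
  -- step 1
  obtain ⟨g₁, hg₁⟩ := exists_act_jj (γ j0)
  set γ₁ := act g₁⁻¹ * γ with hγ₁
  have iso₁ : IsIso γ₁ := mulIso _ _ (act_iso _) h
  have fix₁ : γ₁ j0 = j0 := by
    rw [hγ₁, Equiv.Perm.mul_apply, ← hg₁, map_inv]
    simp
  -- step 2
  obtain ⟨g₂, hg₂, hg₂'⟩ := exists_rot (γ₁ j2) (by
    conv_lhs => rw [← fix₁]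
    rw [iso₁]
    simp [rho, j0, j2]
    norm_num)
  set γ₂ := act g₂⁻¹ * γ₁ with hγ₂
  have iso₂ : IsIso γ₂ := mulIso _ _ (act_iso _) iso₁
  have fix₂ : γ₂ j0 = j0 := by
    rw [hγ₂, Equiv.Perm.mul_apply, fix₁, map_inv, Equiv.Perm.inv_eq_iff_eq, hg₂]
  have fix₂' : γ₂ j2 = j2 := by
    rw [hγ₂, Equiv.Perm.mul_apply, ← hg₂', map_inv]
    simp
  -- step 3
  obtain ⟨g₃, hg₃, hg₃', hg₃''⟩ : ∃ g₃ : SL2C, act g₃ j0 = j0 ∧ act g₃ j2 = j2 ∧ act g₃ j3 = γ₂ j3 := by
    have r0 : rho (γ₂ j3) j0 = 1 := by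
      conv_lhs => rw [← fix₂]
      rw [iso₂]
      simp [rho, j0, j3]
    have r2 : rho (γ₂ j3) j2 = 1 := by
      conv_lhs => rw [← fix₂']
      rw [iso₂]
      simp [rho, j2, j3]
      norm_num
    have q0 := rho_expand (γ₂ j3) 0 1 one_pos
    have q2 := rho_expand (γ₂ j3) 0 2 two_pos
    change rho (γ₂ j3) j0 * _ = _ at q0
    change rho (γ₂ j3) j2 * _ = _ at q2
    rw [r0] at q0
    rw [r2] at q2
    generalize hy : γ₂ j3 = y at *
    obtain ⟨⟨z, t⟩, ht⟩ := y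
    simp only [Complex.zero_re, Complex.zero_im, sub_zero] at q0 q2
    have ht1 : t = 1 := by linarith
    have hz : ‖z‖ ^ 2 = 1 := by
      rw [sq_norm]
      rw [ht1] at q0
      linarith
    have hz1 : ‖z‖ = 1 := by
      have := norm_nonneg z
      nlinarith
    obtain ⟨k, hk⟩ := IsAlgClosed.exists_pow_nat_eq z (n := 2) (by norm_num)
    have hk1 : ‖k‖ ^ 2 = 1 := by rw [← norm_pow, hk, hz1]
    have hk0 : k ≠ 0 := by
      rintro rfl
      simp at hk1
    refine ⟨mk k 0 0 k⁻¹ (by field_simp; ring), ?_, ?_, ?_⟩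
    · apply Subtype.ext
      rw [act_c0 _ (by simp)]
      simp [j0, hk1]
    · apply Subtype.ext
      rw [act_c0 _ (by simp)]
      simp [j2, hk1]
    · apply Subtype.ext
      rw [act_c0 _ (by simp)]
      simp [j3, hk1, hk, ht1]
  set γ₃ := act g₃⁻¹ * γ₂ with hγ₃
  have iso₃ : IsIso γ₃ := mulIso _ _ (act_iso _) iso₂
  have fix₃ : γ₃ j0 = j0 := by
    rw [hγ₃, Equiv.Perm.mul_apply, fix₂, map_inv, Equiv.Perm.inv_eq_iff_eq, hg₃]
  have fix₃' : γ₃ j2 = j2 := by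
    rw [hγ₃, Equiv.Perm.mul_apply, fix₂', map_inv, Equiv.Perm.inv_eq_iff_eq, hg₃']
  have fix₃'' : γ₃ j3 = j3 := by
    rw [hγ₃, Equiv.Perm.mul_apply, map_inv, Equiv.Perm.inv_eq_iff_eq, hg₃'']
  -- step 4
  have step4 : ∀ p : H3, (γ₃ p).1.2 = p.1.2 ∧ (γ₃ p).1.1.re = p.1.1.re ∧
      (γ₃ p).1.1.im ^ 2 = p.1.1.im ^ 2 := by
    intro p
    have a0 := rho_expand (γ₃ p) 0 1 one_pos
    have a2 := rho_expand (γ₃ p) 0 2 two_pos
    have a3 := rho_expand (γ₃ p) 1 1 one_pos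
    change rho (γ₃ p) j0 * _ = _ at a0
    change rho (γ₃ p) j2 * _ = _ at a2
    change rho (γ₃ p) j3 * _ = _ at a3
    have b0 := rho_expand p 0 1 one_pos
    have b2 := rho_expand p 0 2 two_pos
    have b3 := rho_expand p 1 1 one_pos
    change rho p j0 * _ = _ at b0
    change rho p j2 * _ = _ at b2
    change rho p j3 * _ = _ at b3
    have c0 : rho (γ₃ p) j0 = rho p j0 := by
      conv_lhs => rw [← fix₃]
      exact iso₃ _ _
    have c2 : rho (γ₃ p) j2 = rho p j2 := by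
      conv_lhs => rw [← fix₃']
      exact iso₃ _ _
    have c3 : rho (γ₃ p) j3 = rho p j3 := by
      conv_lhs => rw [← fix₃'']
      exact iso₃ _ _
    rw [c0] at a0
    rw [c2] at a2
    rw [c3] at a3
    have hp := p.2
    have hq := (γ₃ p).2
    generalize γ₃ p = q at *
    generalize rho p j0 = R0 at *
    generalize rho p j2 = R2 at *
    generalize rho p j3 = R3 at *
    simp only [Complex.zero_re, Complex.zero_im, sub_zero, Complex.one_re, Complex.one_im] at *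
    have d1 : q.1.2 * (2 * R2 - R0 + 2) = 3 := by linarith
    have d2 : p.1.2 * (2 * R2 - R0 + 2) = 3 := by linarith
    have d3 : (2 * R2 - R0 + 2) ≠ 0 := by
      intro h0
      rw [h0] at d1
      norm_num at d1
    have d4 : q.1.2 = p.1.2 := mul_right_cancel₀ d3 (d1.trans d2.symm)
    rw [d4] at a0 a3
    have d5 : q.1.1.re = p.1.1.re := by linarith
    refine ⟨d4, d5, ?_⟩
    rw [d5] at a0
    linarith
  -- step 5
  have final : γ₃ = 1 ∨ γ₃ = cj := by
    obtain ⟨s1, s2, s3⟩ := step4 j4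
    have t1 : (γ₃ j4).1.2 = 1 := s1
    have t2 : (γ₃ j4).1.1.re = 0 := s2
    have t3 : (γ₃ j4).1.1.im ^ 2 = 1 := by rw [s3]; simp [j4]
    have hcase : ((γ₃ j4).1.1.im - 1) * ((γ₃ j4).1.1.im + 1) = 0 := by linear_combination t3
    have key : ∀ p, rho (γ₃ p) (γ₃ j4) = rho p j4 := fun p => iso₃ _ _
    have expand : ∀ p, (γ₃ p).1.1.im * (γ₃ j4).1.1.im = p.1.1.im := by
      intro p
      obtain ⟨u1, u2, u3⟩ := step4 p
      have hp := p.2
      have b4 := rho_expand p Complex.I 1 one_pos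
      change rho p j4 * _ = _ at b4
      have a4 := rho_expand (γ₃ p) (γ₃ j4).1.1 (γ₃ j4).1.2 (γ₃ j4).2
      change rho (γ₃ p) (γ₃ j4) * _ = _ at a4
      rw [key, u1, u2, t1, t2] at a4
      simp only [Complex.I_re, Complex.I_im, sub_zero] at a4 b4
      rw [b4] at a4
      linear_combination (1/2) * a4 + (1/2) * u3 + (1/2) * t3
    rcases mul_eq_zero.1 hcase with hc | hc
    · left
      have hc' : (γ₃ j4).1.1.im = 1 := by linarith
      refine Equiv.ext fun p => Subtype.ext (Prod.ext (Complex.ext ?_ ?_) ?_)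
      · exact (step4 p).2.1
      · have := expand p
        rw [hc', mul_one] at this
        exact this
      · exact (step4 p).1
    · right
      have hc' : (γ₃ j4).1.1.im = -1 := by linarith
      refine Equiv.ext fun p => Subtype.ext ?_
      rw [cj_apply]
      refine Prod.ext (Complex.ext ?_ ?_) ?_
      · simp only [Complex.conj_re]
        exact (step4 p).2.1
      · simp only [Complex.conj_im]
        have := expand p
        rw [hc'] at this
        linarith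
      · exact (step4 p).1
  have hγ : γ = act (g₁ * g₂ * g₃) * γ₃ := by
    rw [hγ₃, hγ₂, hγ₁, map_mul, map_mul, map_inv, map_inv, map_inv]
    group
  rcases final with hf | hf
  · left
    exact ⟨_, by rw [hγ, hf, mul_one]⟩
  · right
    exact ⟨_, by rw [hγ, hf]⟩

end Pool.Agent.Work.MP_67f4ac_gt
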