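import Mathlib
import Pool.Agent.Work.MP_67f4ac_gt.Defs
import Pool.Agent.Work.MP_67f4ac_gt.Action

/-! Module A1 (second half): the translation length formula `iInf_rho`. -/

set_option autoImplicit false

namespace Pool.Agent.Work.MP_67f4ac_gt

open Matrix ComplexConjugate

/-- the base point -/
noncomputable def bp : H3 := ⟨(0, 1), one_pos⟩

theorem Hm_bp : Hm bp = 1 := by
  ext i j
  fin_cases i <;> fin_cases j <;> simp [Hm, bp]

/-- transitivity -/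
theorem exists_act_bp (p : H3) : ∃ g : SL2C, act g bp = p ∧ g.1 1 0 = 0 := by
  have ht := p.2
  have hs : Real.sqrt p.1.2 ≠ 0 := (Real.sqrt_pos.mpr ht).ne'
  have hsC : ((Real.sqrt p.1.2 : ℝ) : ℂ) ≠ 0 := by exact_mod_cast hs
  have hsq : ((Real.sqrt p.1.2 : ℝ) : ℂ) ^ 2 = (p.1.2 : ℂ) := by
    exact_mod_cast Real.sq_sqrt ht.le
  refine ⟨⟨!![((Real.sqrt p.1.2 : ℝ) : ℂ), p.1.1 / ((Real.sqrt p.1.2 : ℝ) : ℂ);
    0, 1 / ((Real.sqrt p.1.2 : ℝ) : ℂ)], ?_⟩, ?_, ?_⟩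
  · rw [Matrix.det_fin_two_of]
    field_simp
    ring
  · have hn : ‖(1 : ℂ) / ((Real.sqrt p.1.2 : ℝ) : ℂ)‖ ^ 2 = 1 / p.1.2 := by
      rw [norm_div, norm_one, Complex.norm_real, Real.norm_eq_abs, div_pow, sq_abs,
        Real.sq_sqrt ht.le, one_pow]
    refine Subtype.ext (Prod.ext ?_ ?_)
    · rw [act_fst]
      simp only [bp, Matrix.of_apply, Matrix.cons_val', Matrix.cons_val_one, Matrix.cons_val_zero,
        Matrix.cons_val_fin_one, mul_zero, zero_add, map_zero, zero_mul, add_zero, norm_zero]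
      rw [hn]
      have : (p.1.2 : ℂ) ≠ 0 := by exact_mod_cast ht.ne'
      push_cast
      rw [map_div₀, map_one, Complex.conj_ofReal]
      field_simp
      rw [hsq]
      ring
    · rw [act_snd]
      simp only [bp, Matrix.of_apply, Matrix.cons_val', Matrix.cons_val_one, Matrix.cons_val_zero,
        Matrix.cons_val_fin_one, mul_zero, zero_add, norm_zero]
      rw [hn]
      field_simp
      ring
  · simp

/-- displacement of the base point -/
theorem rho_bp (m : SL2C) : rho (act m bp) bp =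
    ‖m.1 0 0‖ ^ 2 + ‖m.1 0 1‖ ^ 2 + ‖m.1 1 0‖ ^ 2 + ‖m.1 1 1‖ ^ 2 - 2 := by
  have h : ((rho (act m bp) bp + 2 : ℝ) : ℂ) =
      ((‖m.1 0 0‖ ^ 2 + ‖m.1 0 1‖ ^ 2 + ‖m.1 1 0‖ ^ 2 + ‖m.1 1 1‖ ^ 2 : ℝ) : ℂ) := by
    rw [rho_trace]
    show (Hm (mob m bp) * (Hm bp).adjugate).trace = _
    rw [Hm_mob, Hm_bp, Matrix.adjugate_one, Matrix.mul_one, Matrix.mul_one]
    simp only [Matrix.trace_fin_two, Matrix.mul_apply, Fin.sum_univ_two,
      Matrix.conjTranspose_apply, Complex.star_def]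
    push_cast
    rw [← Complex.mul_conj', ← Complex.mul_conj', ← Complex.mul_conj', ← Complex.mul_conj']
    ring
  have h2 : rho (act m bp) bp + 2 = ‖m.1 0 0‖ ^ 2 + ‖m.1 0 1‖ ^ 2 + ‖m.1 1 0‖ ^ 2 + ‖m.1 1 1‖ ^ 2 := by
    exact_mod_cast h
  linarith

theorem rho_conj (g h : SL2C) : rho (act g (act h bp)) (act h bp) =
    rho (act (h⁻¹ * g * h) bp) bp := by
  have h1 := act_iso h⁻¹ (act g (act h bp)) (act h bp)
  rw [← h1]
  have e1 : act h⁻¹ (act h bp) = bp := by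
    rw [map_inv]; exact Equiv.symm_apply_apply _ _
  have e2 : act h⁻¹ (act g (act h bp)) = act (h⁻¹ * g * h) bp := by
    rw [map_mul, map_mul]; rfl
  rw [e1, e2]

theorem tr_conj' (g h : SL2C) : tr (h⁻¹ * g * h) = tr g := by
  have h1 : ∀ m : SL2C, tr m = m.1.trace := fun m => (Matrix.trace_fin_two _).symm
  rw [h1, h1]
  have : (h⁻¹ * g * h).1 = (h⁻¹ * g).1 * h.1 := rfl
  rw [this, Matrix.trace_mul_comm]
  have h3 : h.1 * (h⁻¹ * g).1 = (h * (h⁻¹ * g)).1 := rfl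
  rw [h3, mul_inv_cancel_left]

/-- Hilbert-Schmidt norm lower bound -/
theorem hs_ge (m : SL2C) : f (tr m) / 2 ≤
    ‖m.1 0 0‖ ^ 2 + ‖m.1 0 1‖ ^ 2 + ‖m.1 1 0‖ ^ 2 + ‖m.1 1 1‖ ^ 2 := by
  have hdet : m.1 0 0 * m.1 1 1 - m.1 0 1 * m.1 1 0 = 1 := by
    have := m.2
    rwa [Matrix.det_fin_two] at this
  unfold f tr
  have e1 : (m.1 0 0 + m.1 1 1) ^ 2 - 4 = (m.1 0 0 - m.1 1 1) ^ 2 + 4 * (m.1 0 1 * m.1 1 0) := by
    linear_combination 4 * hdet
  rw [e1]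
  have e2 : ‖(m.1 0 0 - m.1 1 1) ^ 2 + 4 * (m.1 0 1 * m.1 1 0)‖ ≤
      ‖m.1 0 0 - m.1 1 1‖ ^ 2 + 4 * (‖m.1 0 1‖ * ‖m.1 1 0‖) := by
    refine (norm_add_le _ _).trans ?_
    rw [norm_pow, norm_mul, norm_mul]
    simp
  have e3 := parallelogram_law_with_norm ℝ (m.1 0 0) (m.1 1 1)
  have e4 : 0 ≤ (‖m.1 0 1‖ - ‖m.1 1 0‖) ^ 2 := sq_nonneg _
  nlinarith [e2, e3, e4]

theorem rho_ge (g : SL2C) (x : H3) : f (tr g) / 2 - 2 ≤ rho (act g x) x := by
  obtain ⟨h, hx, -⟩ := exists_act_bp x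
  rw [← hx, rho_conj, rho_bp, ← tr_conj' g h]
  have := hs_ge (h⁻¹ * g * h)
  linarith

/-- a hyperbolic or elliptic element can be diagonalised -/
theorem exists_diag (g : SL2C) (hc : g.1 1 0 ≠ 0) (h : tr g ^ 2 ≠ 4) :
    ∃ k : SL2C, (k⁻¹ * g * k).1 0 1 = 0 ∧ (k⁻¹ * g * k).1 1 0 = 0 := by
  have hdet : g.1 0 0 * g.1 1 1 - g.1 0 1 * g.1 1 0 = 1 := by
    have := g.2
    rwa [Matrix.det_fin_two] at this
  obtain ⟨s, hs⟩ := IsAlgClosed.exists_pow_nat_eq (tr g ^ 2 - 4) (n := 2) two_pos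
  have hs0 : s ≠ 0 := by
    intro h0
    rw [h0] at hs
    apply h
    linear_combination -hs
  unfold tr at hs
  generalize ha : g.1 0 0 = a at *
  generalize hb : g.1 0 1 = b at *
  generalize hcc : g.1 1 0 = c at *
  generalize hd : g.1 1 1 = d at *
  obtain ⟨l, hl⟩ : ∃ l : ℂ, l = (a + d + s) / 2 := ⟨_, rfl⟩
  obtain ⟨m, hm⟩ : ∃ m : ℂ, m = (a + d - s) / 2 := ⟨_, rfl⟩
  have el : l ^ 2 - (a + d) * l + 1 = 0 := by rw [hl]; linear_combination hs / 4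
  have em : m ^ 2 - (a + d) * m + 1 = 0 := by rw [hm]; linear_combination hs / 4
  have elm : l - m = s := by rw [hl, hm]; ring
  refine ⟨⟨!![(l - d) / (c * s), m - d; c / (c * s), c], ?_⟩, ?_, ?_⟩
  · rw [Matrix.det_fin_two_of]
    field_simp
    linear_combination elm
  · simp only [Matrix.SpecialLinearGroup.coe_mul, Matrix.SpecialLinearGroup.coe_inv,
      Matrix.adjugate_fin_two_of, Matrix.mul_apply, Fin.sum_univ_two, Matrix.of_apply,
      Matrix.cons_val', Matrix.cons_val_one, Matrix.cons_val_zero, Matrix.cons_val_fin_one,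
      ha, hb, hcc, hd]
    linear_combination -c * em - c * hdet
  · simp only [Matrix.SpecialLinearGroup.coe_mul, Matrix.SpecialLinearGroup.coe_inv,
      Matrix.adjugate_fin_two_of, Matrix.mul_apply, Fin.sum_univ_two, Matrix.of_apply,
      Matrix.cons_val', Matrix.cons_val_one, Matrix.cons_val_zero, Matrix.cons_val_fin_one,
      ha, hb, hcc, hd]
    field_simp
    linear_combination el + hdet

/-- translation length -/
theorem iInf_rho (g : SL2C) (hc : g.1 1 0 ≠ 0) (h : tr g ^ 2 ≠ 4) :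
    (⨅ x : H3, rho (act g x) x) = f (tr g) / 2 - 2 := by
  obtain ⟨k, h01, h10⟩ := exists_diag g hc h
  have hbdd : BddBelow (Set.range fun x : H3 => rho (act g x) x) :=
    ⟨f (tr g) / 2 - 2, by rintro _ ⟨x, rfl⟩; exact rho_ge g x⟩
  have : Nonempty H3 := ⟨bp⟩
  apply le_antisymm
  · refine (ciInf_le hbdd (act k bp)).trans ?_
    show rho (act g (act k bp)) (act k bp) ≤ _
    rw [rho_conj, rho_bp, h01, h10, ← tr_conj' g k]
    have hdet := (k⁻¹ * g * k).2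
    rw [Matrix.det_fin_two, h01, h10] at hdet
    unfold f tr
    generalize (k⁻¹ * g * k).1 0 0 = a at *
    generalize (k⁻¹ * g * k).1 1 1 = d at *
    have e1 : (a + d) ^ 2 - 4 = (a - d) ^ 2 := by linear_combination 4 * hdet
    rw [e1, norm_pow]
    have e3 := parallelogram_law_with_norm ℝ a d
    simp only [norm_zero]
    nlinarith [e3]
  · exact le_ciInf (rho_ge g)

end Pool.Agent.Work.MP_67f4ac_gt
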