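import Mathlib
import Pool.Agent.Work.MP_67f4ac_gt.NtMain
import Pool.Agent.Work.MP_67f4ac_gt.TransLength

set_option autoImplicit false
set_option linter.all false

namespace Pool.Agent.Work.MP_67f4ac_gt

open Filter Topology NumberField

/-- `√d i` -/
noncomputable def th (d : ℕ) : ℂ := (Real.sqrt (d : ℝ) : ℂ) * Complex.I

lemma th_sq (d : ℕ) : th d ^ 2 = -(d : ℂ) := by
  unfold th
  rw [mul_pow, Complex.I_sq, ← Complex.ofReal_pow, Real.sq_sqrt (Nat.cast_nonneg d)]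
  push_cast; ring

lemma th_im {d : ℕ} (hd : 0 < d) : (th d).im ≠ 0 := by
  unfold th
  simp
  exact hd.ne'

lemma th_sq_mem (d : ℕ) : th d ^ 2 ∈ V (th d) := by
  rw [th_sq, mem_V]
  exact ⟨-d, 0, by push_cast; ring⟩

/-- the Bianchi subgroup -/
noncomputable def Bi (d : ℕ) : Subgroup SL2C where
  carrier := {g | ∀ i j, g.1 i j ∈ OO (sg (th_sq_mem d))}
  mul_mem' := by
    intro g h hg hh i j
    rw [Matrix.SpecialLinearGroup.coe_mul, Matrix.mul_apply, Fin.sum_univ_two]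
    exact add_mem (mul_mem (hg _ _) (hh _ _)) (mul_mem (hg _ _) (hh _ _))
  one_mem' := by
    intro i j
    fin_cases i <;> fin_cases j
    · exact one_mem _
    · exact zero_mem _
    · exact zero_mem _
    · exact one_mem _
  inv_mem' := by
    intro g hg i j
    fin_cases i <;> fin_cases j
    · show (g⁻¹).1 0 0 ∈ _
      rw [inv00]; exact hg 1 1
    · show (g⁻¹).1 0 1 ∈ _
      rw [inv01]; exact neg_mem (hg 0 1)
    · show (g⁻¹).1 1 0 ∈ _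
      rw [inv10]; exact neg_mem (hg 1 0)
    · show (g⁻¹).1 1 1 ∈ _
      rw [inv11]; exact hg 0 0

lemma mem_OO_th {d : ℕ} {z : ℂ} : z ∈ OO (sg (th_sq_mem d)) ↔
    (IsIntegral ℤ z ∧ ∃ u v : ℚ, z = (u : ℂ) + (v : ℂ) * ((Real.sqrt (d : ℝ) : ℂ) * Complex.I)) := by
  rw [mem_OO]
  constructor
  · rintro ⟨x, rfl⟩
    refine ⟨map_isIntegral_int (sg (th_sq_mem d)) (RingOfIntegers.isIntegral_coe x), ?_⟩
    exact mem_V.mp ((mem_fieldRange_sg (th_sq_mem d)).mp (RingHom.mem_fieldRange.mpr ⟨_, rfl⟩))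
  · rintro ⟨h1, u, v, h2⟩
    have hV : z ∈ V (th d) := mem_V.mpr ⟨u, v, h2⟩
    let y : VF (th d) (th_sq_mem d) := ⟨z, hV⟩
    have hy : IsIntegral ℤ y := by
      have hinj : Function.Injective (sg (th_sq_mem d)) := (sg (th_sq_mem d)).injective
      have h3 : IsIntegral ℤ ((sg (th_sq_mem d)) y) := h1
      exact (isIntegral_algHom_iff ((sg (th_sq_mem d)).toIntAlgHom) hinj).mp h3
    exact ⟨⟨y, hy⟩, rfl⟩

lemma mem_Bi_iff {d : ℕ} {g : SL2C} : g ∈ Bi d ↔ IsBianchi d g := by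
  constructor
  · intro h i j
    exact mem_OO_th.mp (h i j)
  · intro h i j
    exact mem_OO_th.mpr (h i j)

lemma Bi_discrete {d : ℕ} (hd : 0 < d) (x : H3) (R : ℝ) :
    {g : SL2C | g ∈ Bi d ∧ rho (act g x) x ≤ R}.Finite := by
  obtain ⟨h, hx, -⟩ := exists_act_bp x
  set H : ℝ := ‖h.1 0 0‖ + ‖h.1 0 1‖ + ‖h.1 1 0‖ + ‖h.1 1 1‖ with hH
  have hH0 : 0 ≤ H := by positivity
  set B : ℝ := |R| + 3 with hB
  have hB0 : 0 ≤ B := by positivity
  set F : Set ℂ := (fun v : 𝓞 (VF (th d) (th_sq_mem d)) => sg (th_sq_mem d) (v : VF (th d) (th_sq_mem d))) ''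
    {v | ‖sg (th_sq_mem d) (v : VF (th d) (th_sq_mem d))‖ ≤ 4 * (H * B * H)} with hF
  have hFfin : F.Finite := (finite_disc (sg (th_sq_mem d)) (norm_sg (th_im hd) (th_sq_mem d)) _).image _
  have hpi : {M : Fin 2 → Fin 2 → ℂ | ∀ i, M i ∈ {r : Fin 2 → ℂ | ∀ j, r j ∈ F}}.Finite :=
    Set.Finite.pi' fun _ => Set.Finite.pi' fun _ => hFfin
  have hpre : ((fun g : SL2C => (g.1 : Fin 2 → Fin 2 → ℂ)) ⁻¹'
      {M : Fin 2 → Fin 2 → ℂ | ∀ i, M i ∈ {r : Fin 2 → ℂ | ∀ j, r j ∈ F}}).Finite :=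
    hpi.preimage (fun g _ g' _ hgg => Subtype.ext hgg)
  refine hpre.subset ?_
  rintro g ⟨hg, hr⟩
  rw [← hx, rho_conj, rho_bp] at hr
  set m : SL2C := h⁻¹ * g * h with hm
  have hgm : g = h * m * h⁻¹ := by rw [hm]; group
  have hbd : ∀ i j, ‖m.1 i j‖ ≤ B := by
    intro i j
    have hsq : ‖m.1 i j‖ ^ 2 ≤ R + 2 := by
      have n1 := sq_nonneg ‖m.1 0 0‖
      have n2 := sq_nonneg ‖m.1 0 1‖
      have n3 := sq_nonneg ‖m.1 1 0‖
      have n4 := sq_nonneg ‖m.1 1 1‖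
      fin_cases i <;> fin_cases j
      · show ‖m.1 0 0‖ ^ 2 ≤ _
        linarith
      · show ‖m.1 0 1‖ ^ 2 ≤ _
        linarith
      · show ‖m.1 1 0‖ ^ 2 ≤ _
        linarith
      · show ‖m.1 1 1‖ ^ 2 ≤ _
        linarith
    have h1 := le_abs_self R
    have h2 := abs_nonneg R
    have h3 := norm_nonneg (m.1 i j)
    rw [hB]
    by_contra hcon
    push Not at hcon
    nlinarith
  have hhb : ∀ i j, ‖h.1 i j‖ ≤ H := by
    have n1 := norm_nonneg (h.1 0 0)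
    have n2 := norm_nonneg (h.1 0 1)
    have n3 := norm_nonneg (h.1 1 0)
    have n4 := norm_nonneg (h.1 1 1)
    intro i j
    fin_cases i <;> fin_cases j
    · show ‖h.1 0 0‖ ≤ H
      linarith
    · show ‖h.1 0 1‖ ≤ H
      linarith
    · show ‖h.1 1 0‖ ≤ H
      linarith
    · show ‖h.1 1 1‖ ≤ H
      linarith
  have hhi : ∀ i j, ‖(h⁻¹).1 i j‖ ≤ H := by
    intro i j
    fin_cases i <;> fin_cases j
    · show ‖(h⁻¹).1 0 0‖ ≤ H
      rw [inv00]; exact hhb _ _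
    · show ‖(h⁻¹).1 0 1‖ ≤ H
      rw [inv01, norm_neg]; exact hhb _ _
    · show ‖(h⁻¹).1 1 0‖ ≤ H
      rw [inv10, norm_neg]; exact hhb _ _
    · show ‖(h⁻¹).1 1 1‖ ≤ H
      rw [inv11]; exact hhb _ _
  have hterm : ∀ i k l j, ‖h.1 i k * m.1 k l * (h⁻¹).1 l j‖ ≤ H * B * H := by
    intro i k l j
    rw [norm_mul, norm_mul]
    exact mul_le_mul (mul_le_mul (hhb _ _) (hbd _ _) (norm_nonneg _) hH0) (hhi _ _) (norm_nonneg _)
      (mul_nonneg hH0 hB0)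
  show ∀ i, ∀ j, g.1 i j ∈ F
  intro i j
  obtain ⟨v, hv⟩ := mem_OO.mp (hg i j)
  refine ⟨v, ?_, hv⟩
  show ‖sg (th_sq_mem d) (v : VF (th d) (th_sq_mem d))‖ ≤ 4 * (H * B * H)
  rw [hv]
  have e : g.1 i j = h.1 i 0 * m.1 0 0 * (h⁻¹).1 0 j + h.1 i 1 * m.1 1 0 * (h⁻¹).1 0 j
      + h.1 i 0 * m.1 0 1 * (h⁻¹).1 1 j + h.1 i 1 * m.1 1 1 * (h⁻¹).1 1 j := by
    conv_lhs => rw [hgm]
    rw [Matrix.SpecialLinearGroup.coe_mul, Matrix.mul_apply, Fin.sum_univ_two,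
      Matrix.SpecialLinearGroup.coe_mul, Matrix.mul_apply, Fin.sum_univ_two, Matrix.mul_apply,
      Fin.sum_univ_two]
    ring
  rw [e]
  refine (norm_add_le _ _).trans ?_
  have s1 := norm_add_le (h.1 i 0 * m.1 0 0 * (h⁻¹).1 0 j + h.1 i 1 * m.1 1 0 * (h⁻¹).1 0 j)
    (h.1 i 0 * m.1 0 1 * (h⁻¹).1 1 j)
  have s2 := norm_add_le (h.1 i 0 * m.1 0 0 * (h⁻¹).1 0 j) (h.1 i 1 * m.1 1 0 * (h⁻¹).1 0 j)
  have t1 := hterm i 0 0 j
  have t2 := hterm i 1 0 j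
  have t3 := hterm i 0 1 j
  have t4 := hterm i 1 1 j
  linarith

end Pool.Agent.Work.MP_67f4ac_gt
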