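import Mathlib
import Pool.Agent.Work.MP_67f4ac_gt.Defs

set_option autoImplicit false

namespace Pool.Agent.Work.MP_67f4ac_gt

open MeasureTheory ENNReal Filter Topology

/-- the density of hyperbolic volume -/
noncomputable def dens (p : ℂ × ℝ) : ℝ≥0∞ := ENNReal.ofReal (1 / p.2 ^ 3)

/-- hyperbolic volume on upper half space -/
noncomputable def mu : Measure H3 := (volume.withDensity dens).comap Subtype.val

instance instHaar : (volume : Measure (ℂ × ℝ)).IsAddHaarMeasure := by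
  rw [Measure.volume_eq_prod]; infer_instance

theorem measurable_dens : Measurable dens := by
  unfold dens
  fun_prop

theorem measurableSet_upper : MeasurableSet {p : ℂ × ℝ | 0 < p.2} :=
  measurableSet_lt measurable_const measurable_snd

theorem measEmb : MeasurableEmbedding (Subtype.val : H3 → ℂ × ℝ) :=
  MeasurableEmbedding.subtype_coe measurableSet_upper

theorem mu_apply {s : Set H3} (hs : MeasurableSet s) :
    mu s = ∫⁻ p in (Subtype.val '' s), dens p := by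
  rw [mu, measEmb.comap_apply, withDensity_apply _ (measEmb.measurableSet_image.2 hs)]

/-- change of variables -/
theorem mu_image (φ : Equiv.Perm H3) (φ' : ℂ × ℝ → ℂ × ℝ) (D : ℂ × ℝ → (ℂ × ℝ →L[ℝ] ℂ × ℝ))
    (h1 : ∀ p : H3, φ' p.1 = (φ p).1)
    (h2 : ∀ p : H3, HasFDerivAt φ' (D p.1) p.1)
    (h3 : ∀ p : H3, |(D p.1).det| = ((φ p).1.2 / p.1.2) ^ 3)
    {s : Set H3} (hs : MeasurableSet s) : MeasurableSet (φ '' s) ∧ mu (φ '' s) = mu s := by
  have hinj : Set.InjOn φ' (Subtype.val '' s) := by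
    rintro _ ⟨p, _, rfl⟩ _ ⟨q, _, rfl⟩ h
    rw [h1, h1] at h
    have := φ.injective (Subtype.ext h)
    rw [this]
  have him : φ' '' (Subtype.val '' s) = Subtype.val '' (φ '' s) := by
    ext x
    constructor
    · rintro ⟨_, ⟨p, hp, rfl⟩, rfl⟩
      exact ⟨φ p, ⟨p, hp, rfl⟩, (h1 p).symm⟩
    · rintro ⟨_, ⟨p, hp, rfl⟩, rfl⟩
      exact ⟨p.1, ⟨p, hp, rfl⟩, h1 p⟩
  have hs' : MeasurableSet (Subtype.val '' s) := measEmb.measurableSet_image.2 hs
  have hd : ∀ x ∈ (Subtype.val '' s : Set (ℂ × ℝ)),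
      HasFDerivWithinAt φ' (D x) (Subtype.val '' s) x := by
    rintro _ ⟨p, _, rfl⟩
    exact (h2 p).hasFDerivWithinAt
  have hm : MeasurableSet (φ '' s) := by
    rw [← measEmb.measurableSet_image, ← him]
    exact measurable_image_of_fderivWithin hs' hd hinj
  refine ⟨hm, ?_⟩
  rw [mu_apply hm, mu_apply hs, ← him,
    lintegral_image_eq_lintegral_abs_det_fderiv_mul volume hs' hd hinj]
  refine setLIntegral_congr_fun hs' ?_
  rintro _ ⟨p, _, rfl⟩
  simp only [dens]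
  rw [h3 p, h1 p, ← ENNReal.ofReal_mul (by have := (φ p).2; have := p.2; positivity)]
  congr 1
  have h4 := (φ p).2
  have h5 := p.2
  field_simp

theorem mp_of_deriv (φ : Equiv.Perm H3) (φ' : ℂ × ℝ → ℂ × ℝ) (D : ℂ × ℝ → (ℂ × ℝ →L[ℝ] ℂ × ℝ))
    (h1 : ∀ p : H3, φ' p.1 = (φ p).1)
    (h2 : ∀ p : H3, HasFDerivAt φ' (D p.1) p.1)
    (h3 : ∀ p : H3, |(D p.1).det| = ((φ p).1.2 / p.1.2) ^ 3) :
    MeasurePreserving φ mu mu := by
  have hcont : Continuous φ := by
    rw [continuous_induced_rng, continuous_iff_continuousAt]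
    intro p
    have := (h2 p).continuousAt.comp (continuous_subtype_val (p := fun q : ℂ × ℝ => 0 < q.2)).continuousAt
    have he : (Subtype.val ∘ φ : H3 → ℂ × ℝ) = φ' ∘ Subtype.val := by
      funext q; exact (h1 q).symm
    rw [he]
    exact this
  refine ⟨hcont.measurable, ?_⟩
  ext s hs
  rw [Measure.map_apply hcont.measurable hs]
  have := (mu_image φ φ' D h1 h2 h3 (hcont.measurable hs)).2
  rwa [Set.image_preimage_eq _ φ.surjective, eq_comm] at this

/-- real coordinates -/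
def coords (v : ℂ × ℝ) : Fin 3 → ℝ := ![v.1.re, v.1.im, v.2]

/-- real coordinates as a linear equivalence -/
def coordsEquiv : (ℂ × ℝ) ≃ₗ[ℝ] (Fin 3 → ℝ) where
  toFun := coords
  invFun w := (⟨w 0, w 1⟩, w 2)
  map_add' a b := by
    funext i
    fin_cases i <;> simp [coords]
  map_smul' a b := by
    funext i
    fin_cases i <;> simp [coords]
  left_inv v := by
    simp [coords]
  right_inv w := by
    funext i
    fin_cases i <;> simp [coords]

theorem det_of_coords (L : ℂ × ℝ →L[ℝ] ℂ × ℝ) (M : Matrix (Fin 3) (Fin 3) ℝ)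
    (h : ∀ v, coords (L v) = M.mulVec (coords v)) : L.det = M.det := by
  rw [ContinuousLinearMap.det, ← LinearMap.det_conj _ coordsEquiv, ← LinearMap.det_toLin']
  congr 1
  refine LinearMap.ext fun w => ?_
  have := h (coordsEquiv.symm w)
  have h2 : coords (coordsEquiv.symm w) = w := coordsEquiv.apply_symm_apply w
  rw [h2] at this
  rw [Matrix.toLin'_apply, ← this]
  rfl

theorem coords_add (v w : ℂ × ℝ) : coords (v + w) = coords v + coords w :=
  coordsEquiv.map_add v w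

theorem coords_smul (a : ℝ) (v : ℂ × ℝ) : coords (a • v) = a • coords v :=
  coordsEquiv.map_smul a v

/-- affine maps preserve hyperbolic volume -/
theorem mp_affine (φ : Equiv.Perm H3) (α β : ℂ) (hα : α ≠ 0)
    (h : ∀ p : H3, (φ p).1 = (α * p.1.1 + β, ‖α‖ * p.1.2)) : MeasurePreserving φ mu mu := by
  let L : ℂ × ℝ →L[ℝ] ℂ × ℝ :=
    ((ContinuousLinearMap.mul ℝ ℂ α).comp (ContinuousLinearMap.fst ℝ ℂ ℝ)).prod
      (‖α‖ • ContinuousLinearMap.snd ℝ ℂ ℝ)
  have hL : L.det = ‖α‖ ^ 3 := by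
    rw [det_of_coords L !![α.re, -α.im, 0; α.im, α.re, 0; 0, 0, ‖α‖]]
    · rw [Matrix.det_fin_three]
      simp
      have : ‖α‖ ^ 2 = α.re * α.re + α.im * α.im := by
        rw [← Complex.normSq_apply, Complex.normSq_eq_norm_sq]
      linear_combination (-‖α‖) * this
    · intro v
      funext i
      fin_cases i <;> simp [L, coords, Matrix.mulVec, dotProduct, Fin.sum_univ_three] <;> ring
  refine mp_of_deriv φ (fun p => L p + (β, 0)) (fun _ => L) ?_ ?_ ?_
  · intro p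
    rw [h p]
    simp [L]
  · intro p
    exact L.hasFDerivAt.add_const _
  · intro p
    rw [hL, h p]
    have := p.2
    have h3 : (0:ℝ) < ‖α‖ := norm_pos_iff.2 hα
    rw [abs_of_pos (by positivity)]
    have h4 : p.1.2 ≠ 0 := this.ne'
    simp only
    field_simp

/-- complex conjugation preserves hyperbolic volume -/
theorem mp_conj (φ : Equiv.Perm H3)
    (h : ∀ p : H3, (φ p).1 = ((starRingEnd ℂ) p.1.1, p.1.2)) : MeasurePreserving φ mu mu := by
  let L : ℂ × ℝ →L[ℝ] ℂ × ℝ :=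
    ((Complex.conjCLE : ℂ →L[ℝ] ℂ).comp (ContinuousLinearMap.fst ℝ ℂ ℝ)).prod
      (ContinuousLinearMap.snd ℝ ℂ ℝ)
  have hL : L.det = -1 := by
    rw [det_of_coords L !![1, 0, 0; 0, -1, 0; 0, 0, 1]]
    · rw [Matrix.det_fin_three]
      simp
    · intro v
      funext i
      fin_cases i <;> simp [L, coords, Matrix.mulVec, dotProduct, Fin.sum_univ_three]
  refine mp_of_deriv φ L (fun _ => L) ?_ ?_ ?_
  · intro p
    rw [h p]
    simp [L]
  · intro p
    exact L.hasFDerivAt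
  · intro p
    rw [hL, h p]
    have := p.2
    simp
    field_simp

/-- squared Euclidean norm -/
def eN (p : ℂ × ℝ) : ℝ := p.1.re * p.1.re + p.1.im * p.1.im + p.2 * p.2

/-- the inversion preserves hyperbolic volume -/
theorem mp_inv (φ : Equiv.Perm H3)
    (h : ∀ p : H3, (φ p).1 = ((eN p.1)⁻¹ • (-(starRingEnd ℂ) p.1.1, p.1.2) : ℂ × ℝ)) :
    MeasurePreserving φ mu mu := by
  let R : ℂ × ℝ →L[ℝ] ℂ × ℝ :=
    (-(Complex.conjCLE : ℂ →L[ℝ] ℂ).comp (ContinuousLinearMap.fst ℝ ℂ ℝ)).prod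
      (ContinuousLinearMap.snd ℝ ℂ ℝ)
  let X : ℂ × ℝ →L[ℝ] ℝ := Complex.reCLM.comp (ContinuousLinearMap.fst ℝ ℂ ℝ)
  let Y : ℂ × ℝ →L[ℝ] ℝ := Complex.imCLM.comp (ContinuousLinearMap.fst ℝ ℂ ℝ)
  let Z : ℂ × ℝ →L[ℝ] ℝ := ContinuousLinearMap.snd ℝ ℂ ℝ
  let N' : ℂ × ℝ → (ℂ × ℝ →L[ℝ] ℝ) := fun p => (2 * p.1.re) • X + (2 * p.1.im) • Y + (2 * p.2) • Z
  have hN : ∀ p, HasFDerivAt eN (N' p) p := by
    intro p
    have hX := X.hasFDerivAt (x := p)
    have hY := Y.hasFDerivAt (x := p)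
    have hZ := Z.hasFDerivAt (x := p)
    have := ((hX.mul hX).add (hY.mul hY)).add (hZ.mul hZ)
    refine this.congr_fderiv ?_
    ext v <;> simp [N', X, Y, Z] <;> ring
  let D : ℂ × ℝ → (ℂ × ℝ →L[ℝ] ℂ × ℝ) := fun p =>
    (eN p)⁻¹ • R + ((-(eN p ^ 2)⁻¹) • N' p).smulRight (R p)
  have hpos : ∀ p : H3, 0 < eN p.1 := by
    intro p
    have h0 := p.2
    unfold eN
    nlinarith [mul_self_nonneg p.1.1.re, mul_self_nonneg p.1.1.im, mul_pos h0 h0]
  refine mp_of_deriv φ (fun p => (eN p)⁻¹ • R p) D ?_ ?_ ?_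
  · intro p
    rw [h p]
    simp [R]
  · intro p
    have h1 : HasFDerivAt (fun q => (eN q)⁻¹) ((-(eN p.1 ^ 2)⁻¹) • N' p.1) p.1 := by
      have := (hasDerivAt_inv (hpos p).ne').comp_hasFDerivAt p.1 (hN p.1)
      exact this
    exact h1.smul R.hasFDerivAt
  · intro p
    have hp := hpos p
    rw [h p]
    have hd : (D p.1).det = (eN p.1)⁻¹ ^ 3 := by
      obtain ⟨⟨⟨x, y⟩, t⟩, ht⟩ := p
      have hn : x * x + y * y + t * t ≠ 0 := by
        simpa [eN] using hp.ne'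
      rw [det_of_coords _ !![-(eN (⟨x, y⟩, t))⁻¹ + 2 * x * x * (eN (⟨x, y⟩, t) ^ 2)⁻¹,
          2 * x * y * (eN (⟨x, y⟩, t) ^ 2)⁻¹, 2 * x * t * (eN (⟨x, y⟩, t) ^ 2)⁻¹;
          -(2 * x * y * (eN (⟨x, y⟩, t) ^ 2)⁻¹),
          (eN (⟨x, y⟩, t))⁻¹ - 2 * y * y * (eN (⟨x, y⟩, t) ^ 2)⁻¹,
          -(2 * y * t * (eN (⟨x, y⟩, t) ^ 2)⁻¹);
          -(2 * x * t * (eN (⟨x, y⟩, t) ^ 2)⁻¹), -(2 * y * t * (eN (⟨x, y⟩, t) ^ 2)⁻¹),
          (eN (⟨x, y⟩, t))⁻¹ - 2 * t * t * (eN (⟨x, y⟩, t) ^ 2)⁻¹]]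
      · rw [Matrix.det_fin_three]
        simp only [eN, Matrix.of_apply, Matrix.cons_val', Matrix.cons_val_zero,
          Matrix.cons_val_one, Matrix.cons_val_fin_one, Matrix.cons_val]
        field_simp
        ring
      · intro v
        have e1 : coords (D (⟨x, y⟩, t) v) = (eN (⟨x, y⟩, t))⁻¹ • coords (R v) +
            ((-(eN (⟨x, y⟩, t) ^ 2)⁻¹) * N' (⟨x, y⟩, t) v) • coords (R (⟨x, y⟩, t)) := by
          rw [← coords_smul, ← coords_smul, ← coords_add]
          rfl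
        have e2 : ∀ w : ℂ × ℝ, coords (R w) = ![-w.1.re, w.1.im, w.2] := by
          intro w
          simp [R, coords]
        have e3 : N' (⟨x, y⟩, t) v = 2 * x * v.1.re + 2 * y * v.1.im + 2 * t * v.2 := by
          simp [N', X, Y, Z]
        show coords (D (⟨x, y⟩, t) v) = _
        rw [e1, e2, e2, e3]
        generalize (eN (⟨x, y⟩, t))⁻¹ = k1
        generalize (eN (⟨x, y⟩, t) ^ 2)⁻¹ = k2
        funext i
        fin_cases i <;>
          simp [coords, Matrix.mulVec, dotProduct, Fin.sum_univ_three] <;> ring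
    rw [hd, abs_of_pos (by positivity)]
    have ht := p.2
    simp
    field_simp

end Pool.Agent.Work.MP_67f4ac_gt
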