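import Mathlib
import Pool.Agent.Work.MP_67f4ac_gt.Measure

set_option autoImplicit false

namespace Pool.Agent.Work.MP_67f4ac_gt

open MeasureTheory ENNReal Filter Topology

/-- discreteness -/
def Disc (Γ : Subgroup (Equiv.Perm H3)) : Prop :=
  ∀ x : H3, ∀ R : ℝ, Set.Finite {γ : Equiv.Perm H3 | γ ∈ Γ ∧ rho (γ x) x ≤ R}

/-- a base point -/
noncomputable def jj : H3 := ⟨(0, 1), one_pos⟩

theorem Disc.countable {Γ : Subgroup (Equiv.Perm H3)} (h : Disc Γ) : Countable Γ := by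
  have : (Γ : Set (Equiv.Perm H3)) ⊆ ⋃ n : ℕ, {γ : Equiv.Perm H3 | γ ∈ Γ ∧ rho (γ jj) jj ≤ n} := by
    intro γ hγ
    obtain ⟨n, hn⟩ := exists_nat_ge (rho (γ jj) jj)
    exact Set.mem_iUnion.2 ⟨n, hγ, hn⟩
  exact ((Set.countable_iUnion fun n : ℕ => (h jj (n : ℝ)).countable).mono this).to_subtype

/-- the unfolding inequality -/
theorem unfold_le (Γ : Subgroup (Equiv.Perm H3)) (hΓ : Disc Γ)
    (hmp : ∀ γ ∈ Γ, MeasurePreserving γ mu mu) (F : Set H3) (hF : MeasurableSet F)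
    (hcov : ∀ x, ∃ γ ∈ Γ, γ x ∈ F) (g : H3 → ℝ≥0∞) (hg : Measurable g) (M : ℝ≥0∞)
    (hM : ∀ x, ∑' γ : Γ, g (γ.1 x) ≤ M) : ∫⁻ x, g x ∂mu ≤ M * mu F := by
  have := hΓ.countable
  have h1 : (Set.univ : Set H3) ⊆ ⋃ γ : Γ, γ.1 ⁻¹' F := by
    intro x _
    obtain ⟨γ, hγ, hx⟩ := hcov x
    exact Set.mem_iUnion.2 ⟨⟨γ, hγ⟩, hx⟩
  calc ∫⁻ x, g x ∂mu = ∫⁻ x in Set.univ, g x ∂mu := by simp
    _ ≤ ∫⁻ x in ⋃ γ : Γ, γ.1 ⁻¹' F, g x ∂mu := lintegral_mono_set h1
    _ ≤ ∑' γ : Γ, ∫⁻ x in γ.1 ⁻¹' F, g x ∂mu := lintegral_iUnion_le _ _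
    _ = ∑' γ : Γ, ∫⁻ x in F, g (γ.1⁻¹ x) ∂mu := by
        congr 1
        funext γ
        have hm : Measurable (fun x => g (γ.1⁻¹ x)) :=
          hg.comp (hmp _ (Γ.inv_mem γ.2)).measurable
        have := (hmp γ.1 γ.2).setLIntegral_comp_preimage hF hm
        rw [← this]
        simp
    _ = ∫⁻ x in F, ∑' γ : Γ, g (γ.1⁻¹ x) ∂mu := by
        rw [lintegral_tsum]
        intro γ
        exact (hg.comp (hmp _ (Γ.inv_mem γ.2)).measurable).aemeasurable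
    _ ≤ ∫⁻ x in F, M ∂mu := by
        refine lintegral_mono fun x => ?_
        refine le_trans (le_of_eq ?_) (hM x)
        exact (Equiv.inv Γ).tsum_eq (fun γ : Γ => g (γ.1 x))
    _ = M * mu F := by simp

/-- covolume hypothesis in terms of `mu` -/
theorem exists_F (Γ : Subgroup (Equiv.Perm H3))
    (hcov : ∃ F : Set (ℂ × ℝ), MeasurableSet F ∧ (∀ p ∈ F, 0 < p.2) ∧
      (∫⁻ p in F, ENNReal.ofReal (1 / p.2 ^ 3)) < ⊤ ∧ ∀ x : H3, ∃ γ ∈ Γ, (γ x).1 ∈ F) :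
    ∃ F : Set H3, MeasurableSet F ∧ mu F < ⊤ ∧ ∀ x, ∃ γ ∈ Γ, γ x ∈ F := by
  obtain ⟨F, hF, _, hfin, hc⟩ := hcov
  have hm : MeasurableSet (Subtype.val ⁻¹' F : Set H3) := measurable_subtype_coe hF
  refine ⟨Subtype.val ⁻¹' F, hm, ?_, hc⟩
  rw [mu_apply hm]
  refine lt_of_le_of_lt (lintegral_mono_set ?_) hfin
  rintro _ ⟨x, hx, rfl⟩
  exact hx

/-- packing with multiplicity -/
theorem packing_le (Γ : Subgroup (Equiv.Perm H3)) (hΓ : Disc Γ)
    (hmp : ∀ γ ∈ Γ, MeasurePreserving γ mu mu)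
    (F : Set H3) (hFm : MeasurableSet F) (hFc : ∀ x, ∃ γ ∈ Γ, γ x ∈ F)
    (E : Set H3) (hE : MeasurableSet E) (M : ℕ)
    (hM : ∀ x, ∃ S : Finset (Equiv.Perm H3), S.card ≤ M ∧ ∀ γ ∈ Γ, γ x ∈ E → γ ∈ S) :
    mu E ≤ M * mu F := by
  classical
  have h := unfold_le Γ hΓ hmp F hFm hFc (E.indicator 1) (measurable_one.indicator hE) M (by
    intro x
    obtain ⟨S, hS, hS'⟩ := hM x
    have h1 : ∑' γ : Γ, E.indicator (1 : H3 → ℝ≥0∞) (γ.1 x) ≤
        ∑' γ : Γ, (S.subtype (· ∈ Γ) : Set Γ).indicator (1 : Γ → ℝ≥0∞) γ := by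
      refine ENNReal.tsum_le_tsum fun γ => ?_
      by_cases hγ : γ.1 x ∈ E
      · have : γ ∈ (S.subtype (· ∈ Γ) : Set Γ) := by
          simpa using hS' γ.1 γ.2 hγ
        rw [Set.indicator_of_mem hγ, Set.indicator_of_mem this]
        rfl
      · rw [Set.indicator_of_notMem hγ]
        exact zero_le
    refine h1.trans ?_
    rw [tsum_eq_sum (s := S.subtype (· ∈ Γ))]
    · rw [Finset.sum_congr rfl (g := fun _ => 1)]
      · simp only [Finset.sum_const, nsmul_eq_mul, mul_one]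
        have : (S.subtype (· ∈ Γ)).card ≤ M := by
          refine le_trans ?_ hS
          rw [Finset.card_subtype]
          exact Finset.card_filter_le _ _
        exact_mod_cast this
      · intro γ hγ
        rw [Set.indicator_of_mem (by exact_mod_cast hγ)]
        rfl
    · intro γ hγ
      rw [Set.indicator_of_notMem (by exact_mod_cast hγ)])
  rw [lintegral_indicator_one hE] at h
  exact h

/-- the covolume is finite -/
def FinCov (Γ : Subgroup (Equiv.Perm H3)) : Prop :=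
  ∃ F : Set H3, MeasurableSet F ∧ mu F < ⊤ ∧ ∀ x, ∃ γ ∈ Γ, γ x ∈ F

theorem packing (Γ : Subgroup (Equiv.Perm H3)) (hΓ : Disc Γ)
    (hmp : ∀ γ ∈ Γ, MeasurePreserving γ mu mu) (hF : FinCov Γ)
    (E : Set H3) (hE : MeasurableSet E) (M : ℕ)
    (hM : ∀ x, ∃ S : Finset (Equiv.Perm H3), S.card ≤ M ∧ ∀ γ ∈ Γ, γ x ∈ E → γ ∈ S) :
    mu E < ⊤ := by
  obtain ⟨F, hFm, hFf, hFc⟩ := hF
  exact lt_of_le_of_lt (packing_le Γ hΓ hmp F hFm hFc E hE M hM) (ENNReal.mul_lt_top (by simp) hFf)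

/-- a set containing infinitely many disjoint copies of a set of positive volume -/
theorem mu_eq_top (φ : Equiv.Perm H3) (hφ : MeasurePreserving φ mu mu) (E E₀ : Set H3)
    (hE₀ : MeasurableSet E₀) (hpos : mu E₀ ≠ 0)
    (hdisj : Pairwise fun m n : ℕ => Disjoint ((φ ^ m : Equiv.Perm H3) ⁻¹' E₀)
      ((φ ^ n : Equiv.Perm H3) ⁻¹' E₀))
    (hsub : ∀ n : ℕ, (φ ^ n : Equiv.Perm H3) ⁻¹' E₀ ⊆ E) : mu E = ⊤ := by
  have h1 : ∀ n : ℕ, MeasurePreserving (φ ^ n : Equiv.Perm H3) mu mu := by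
    intro n
    induction n with
    | zero => exact MeasurePreserving.id mu
    | succ n ih =>
      rw [pow_succ]
      exact ih.comp hφ
  have h2 : mu (⋃ n : ℕ, (φ ^ n : Equiv.Perm H3) ⁻¹' E₀) = ⊤ := by
    rw [measure_iUnion hdisj fun n => (h1 n).measurable hE₀]
    simp_rw [(h1 _).measure_preimage hE₀.nullMeasurableSet]
    exact ENNReal.tsum_const_eq_top_of_ne_zero hpos
  exact top_le_iff.1 (h2 ▸ measure_mono (Set.iUnion_subset hsub))

theorem mu_pos {U : Set H3} (hU : IsOpen U) (hne : U.Nonempty) : mu U ≠ 0 := by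
  rw [mu_apply hU.measurableSet]
  have hopen : IsOpen {p : ℂ × ℝ | 0 < p.2} := isOpen_lt continuous_const continuous_snd
  have hU' : IsOpen (Subtype.val '' U : Set (ℂ × ℝ)) := hopen.isOpenMap_subtype_val U hU
  intro h
  rw [lintegral_eq_zero_iff measurable_dens] at h
  have h3 : ∀ᵐ p ∂(volume.restrict (Subtype.val '' U : Set (ℂ × ℝ))), p ∉ (Subtype.val '' U : Set (ℂ × ℝ)) := by
    filter_upwards [h] with p hp hpU
    obtain ⟨q, _, rfl⟩ := hpU
    have h4 := q.2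
    have : dens q.1 ≠ 0 := by
      unfold dens
      simp only [ne_eq, ENNReal.ofReal_eq_zero, not_le]
      positivity
    exact this hp
  rw [ae_restrict_iff' hU'.measurableSet] at h3
  have h5 : volume (Subtype.val '' U : Set (ℂ × ℝ)) = 0 := by
    rw [← nonpos_iff_eq_zero]
    refine le_trans (measure_mono ?_) (le_of_eq (ae_iff.1 h3))
    intro p hp
    exact fun h6 => h6 hp hp
  exact (hU'.measure_pos volume (hne.image _)).ne' h5

/-- similarity -/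
noncomputable def aff (α β : ℂ) (hα : α ≠ 0) : Equiv.Perm H3 where
  toFun p := ⟨(α * p.1.1 + β, ‖α‖ * p.1.2), by have := p.2; have := norm_pos_iff.2 hα; positivity⟩
  invFun p := ⟨(α⁻¹ * (p.1.1 - β), ‖α‖⁻¹ * p.1.2), by
    have := p.2; have := norm_pos_iff.2 hα; positivity⟩
  left_inv p := by
    have := norm_pos_iff.2 hα
    ext
    · simp [hα]
    · simp only
      field_simp
  right_inv p := by
    have := norm_pos_iff.2 hα
    ext
    · simp [hα]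
    · simp only
      field_simp

theorem aff_mp (α β : ℂ) (hα : α ≠ 0) : MeasurePreserving (aff α β hα) mu mu :=
  mp_affine _ α β hα fun _ => rfl

theorem aff_iso (α β : ℂ) (hα : α ≠ 0) : IsIso (aff α β hα) := by
  intro x y
  have h1 := x.2
  have h2 := y.2
  have := norm_pos_iff.2 hα
  have e : ∀ u v : ℂ, ‖(α * u + β) - (α * v + β)‖ = ‖α‖ * ‖u - v‖ := by
    intro u v
    rw [← norm_mul]
    congr 1
    ring
  simp only [rho, aff, Equiv.coe_fn_mk, e]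
  field_simp

theorem aff_jj (x : H3) : aff (x.1.2 : ℂ) x.1.1 (by exact_mod_cast x.2.ne') jj = x := by
  ext
  · simp [aff, jj]
  · simp [aff, jj, abs_of_pos x.2]

end Pool.Agent.Work.MP_67f4ac_gt
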