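import Mathlib
import Pool.Agent.Work.MP_67f4ac_gt.MeasurePacking

set_option autoImplicit false

namespace Pool.Agent.Work.MP_67f4ac_gt

open MeasureTheory ENNReal Filter Topology

theorem rho_comm (x y : H3) : rho x y = rho y x := by
  unfold rho
  rw [norm_sub_rev, mul_comm x.1.2 y.1.2]
  congr 1
  ring

theorem rho_nonneg (x y : H3) : 0 ≤ rho x y := by
  have := x.2
  have := y.2
  unfold rho
  positivity

theorem rho_self (x : H3) : rho x x = 0 := by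
  simp [rho]

theorem eq_of_rho_le_zero {x y : H3} (h : rho x y ≤ 0) : x = y := by
  have hx := x.2
  have hy := y.2
  have h0 : rho x y = 0 := le_antisymm h (rho_nonneg _ _)
  unfold rho at h0
  rw [_root_.div_eq_zero_iff] at h0
  rcases h0 with h0 | h0
  · have h1 : ‖x.1.1 - y.1.1‖ ^ 2 = 0 := by
      nlinarith [sq_nonneg (‖x.1.1 - y.1.1‖), sq_nonneg (x.1.2 - y.1.2)]
    have h2 : (x.1.2 - y.1.2) ^ 2 = 0 := by
      nlinarith [sq_nonneg (‖x.1.1 - y.1.1‖), sq_nonneg (x.1.2 - y.1.2)]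
    have h3 : x.1.1 = y.1.1 := by
      have := pow_eq_zero_iff (n := 2) (by norm_num) |>.1 h1
      exact sub_eq_zero.1 (norm_eq_zero.1 this)
    have h4 : x.1.2 = y.1.2 := by
      have := pow_eq_zero_iff (n := 2) (by norm_num) |>.1 h2
      exact sub_eq_zero.1 this
    exact Subtype.ext (Prod.ext h3 h4)
  · exact absurd h0 (mul_pos hx hy).ne'

theorem continuous_rho_left (x : H3) : Continuous fun y : H3 => rho y x := by
  unfold rho
  refine Continuous.div (by fun_prop) (by fun_prop) ?_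
  intro y
  exact (mul_pos y.2 x.2).ne'

/-- open balls -/
def ball (x : H3) (δ : ℝ) : Set H3 := {y | rho y x < δ}

theorem isOpen_ball (x : H3) (δ : ℝ) : IsOpen (ball x δ) := by
  exact isOpen_lt (continuous_rho_left x) continuous_const

theorem mem_ball_self (x : H3) {δ : ℝ} (h : 0 < δ) : x ∈ ball x δ := by
  simpa [ball, rho_self] using h

/-- height bounds from bounded distance -/
theorem bounds {x y : H3} {R : ℝ} (h : rho x y ≤ R) :
    x.1.2 ≤ (R + 2) * y.1.2 ∧ y.1.2 ≤ (R + 2) * x.1.2 ∧ ‖x.1.1 - y.1.1‖ ^ 2 ≤ R * (R + 2) * y.1.2 ^ 2 := by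
  have hx := x.2
  have hy := y.2
  have hR : 0 ≤ R := (rho_nonneg x y).trans h
  unfold rho at h
  rw [div_le_iff₀ (mul_pos hx hy)] at h
  obtain ⟨⟨z, t⟩, ht⟩ := x
  obtain ⟨⟨w, s⟩, hs⟩ := y
  simp only at *
  have hn := sq_nonneg (‖z - w‖)
  have h1 : (t - s) ^ 2 ≤ R * (t * s) := by linarith
  have h2 : ‖z - w‖ ^ 2 ≤ R * (t * s) := by linarith [sq_nonneg (t - s)]
  have h3 : t ≤ (R + 2) * s := by
    have : t * t ≤ ((R + 2) * s) * t := by nlinarith [mul_self_nonneg s]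
    exact le_of_mul_le_mul_right this hx
  have h4 : s ≤ (R + 2) * t := by
    have : s * s ≤ ((R + 2) * t) * s := by nlinarith [mul_self_nonneg t]
    exact le_of_mul_le_mul_right this hy
  refine ⟨h3, h4, h2.trans ?_⟩
  have : t * s ≤ (R + 2) * s * s := mul_le_mul_of_nonneg_right h3 hy.le
  calc R * (t * s) ≤ R * ((R + 2) * s * s) := mul_le_mul_of_nonneg_left this hR
    _ = _ := by ring

theorem isCompact_closedBall (x : H3) (R : ℝ) : IsCompact {y : H3 | rho y x ≤ R} := by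
  have hx := x.2
  rcases lt_or_ge R 0 with hR | hR
  · have : {y : H3 | rho y x ≤ R} = ∅ := by
      ext y
      simp only [Set.mem_ofPred_eq, Set.mem_empty_iff_false, iff_false, not_le]
      exact hR.trans_le (rho_nonneg _ _)
    rw [this]
    exact isCompact_empty
  have hcl : IsClosed {y : H3 | rho y x ≤ R} := isClosed_le (continuous_rho_left x) continuous_const
  let B : Set (ℂ × ℝ) := Metric.closedBall x.1.1 ((R + 2) * x.1.2) ×ˢ
    Set.Icc (x.1.2 / (R + 2)) ((R + 2) * x.1.2)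
  have hB : IsCompact B := (ProperSpace.isCompact_closedBall _ _).prod isCompact_Icc
  have hB' : IsCompact (Subtype.val ⁻¹' B : Set H3) := by
    refine (Topology.IsEmbedding.subtypeVal.isInducing.isCompact_preimage_iff ?_).2 hB
    rintro ⟨z, t⟩ ⟨_, h2, _⟩
    have : 0 < t := lt_of_lt_of_le (by positivity) h2
    exact ⟨⟨(z, t), this⟩, rfl⟩
  refine hB'.of_isClosed_subset hcl ?_
  intro y hy
  obtain ⟨h1, h2, h3⟩ := bounds (x := y) (y := x) hy
  refine ⟨?_, ?_, h1⟩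
  · rw [mem_closedBall_iff_norm]
    refine abs_le_of_sq_le_sq' (a := ‖y.1.1 - x.1.1‖) ?_ (by positivity) |>.2
    refine h3.trans ?_
    have : R * (R + 2) ≤ (R + 2) ^ 2 := by nlinarith
    calc R * (R + 2) * x.1.2 ^ 2 ≤ (R + 2) ^ 2 * x.1.2 ^ 2 :=
          mul_le_mul_of_nonneg_right this (by positivity)
      _ = _ := by ring
  · rw [div_le_iff₀ (by positivity)]
    linarith

theorem quasi {x y z : H3} {δ : ℝ} (hδ : δ ≤ 1) (h1 : rho x y ≤ δ) (h2 : rho z y ≤ δ) :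
    rho x z ≤ 12 * δ := by
  have hδ0 : 0 ≤ δ := (rho_nonneg x y).trans h1
  obtain ⟨a1, a2, a3⟩ := bounds h1
  obtain ⟨b1, b2, b3⟩ := bounds h2
  have hx := x.2
  have hy := y.2
  have hz := z.2
  unfold rho at h1 h2 ⊢
  rw [div_le_iff₀ (by positivity)] at h1 h2 ⊢
  have tri : ‖x.1.1 - z.1.1‖ ^ 2 ≤ 2 * ‖x.1.1 - y.1.1‖ ^ 2 + 2 * ‖z.1.1 - y.1.1‖ ^ 2 := by
    have h : ‖x.1.1 - z.1.1‖ ≤ ‖x.1.1 - y.1.1‖ + ‖z.1.1 - y.1.1‖ := by
      calc ‖x.1.1 - z.1.1‖ = ‖(x.1.1 - y.1.1) - (z.1.1 - y.1.1)‖ := by congr 1; ring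
        _ ≤ _ := norm_sub_le _ _
    have h' : ‖x.1.1 - z.1.1‖ ^ 2 ≤ (‖x.1.1 - y.1.1‖ + ‖z.1.1 - y.1.1‖) ^ 2 :=
      pow_le_pow_left₀ (norm_nonneg _) h 2
    linarith [sq_nonneg (‖x.1.1 - y.1.1‖ - ‖z.1.1 - y.1.1‖)]
  obtain ⟨⟨x1, x2⟩, hx'⟩ := x
  obtain ⟨⟨y1, y2⟩, hy'⟩ := y
  obtain ⟨⟨z1, z2⟩, hz'⟩ := z
  simp only at *
  have tri2 : (x2 - z2) ^ 2 ≤ 2 * (x2 - y2) ^ 2 + 2 * (z2 - y2) ^ 2 := by
    linarith [sq_nonneg (x2 - y2 + (z2 - y2))]
  have h3 : ‖x1 - z1‖ ^ 2 + (x2 - z2) ^ 2 ≤ 2 * δ * (x2 * y2 + z2 * y2) := by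
    linarith
  have h4 : x2 * y2 ≤ 3 * (x2 * z2) := by
    have : y2 ≤ 3 * z2 := by
      refine b2.trans (mul_le_mul_of_nonneg_right ?_ hz.le)
      linarith
    nlinarith
  have h5 : z2 * y2 ≤ 3 * (x2 * z2) := by
    have : y2 ≤ 3 * x2 := by
      refine a2.trans (mul_le_mul_of_nonneg_right ?_ hx.le)
      linarith
    nlinarith
  have h6 : 2 * δ * (x2 * y2 + z2 * y2) ≤ 2 * δ * (6 * (x2 * z2)) :=
    mul_le_mul_of_nonneg_left (by linarith) (by linarith)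
  linarith

theorem mu_ball (x : H3) (δ : ℝ) : mu (ball x δ) = mu (ball jj δ) := by
  have hx : (x.1.2 : ℂ) ≠ 0 := by exact_mod_cast x.2.ne'
  have h := (aff_mp (x.1.2 : ℂ) x.1.1 hx).measure_preimage (isOpen_ball x δ).measurableSet.nullMeasurableSet
  rw [← h]
  congr 1
  ext y
  show rho (aff _ _ hx y) x < δ ↔ rho y jj < δ
  have := aff_iso (x.1.2 : ℂ) x.1.1 hx y jj
  rw [← this, aff_jj x]

end Pool.Agent.Work.MP_67f4ac_gt
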