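import Mathlib
import Pool.Agent.Work.MP_67f4ac_gt.RhoBasics

set_option autoImplicit false

namespace Pool.Agent.Work.MP_67f4ac_gt

open MeasureTheory ENNReal Filter Topology

theorem IsIso.symm_apply {γ : Equiv.Perm H3} (h : IsIso γ) (x y : H3) :
    rho (γ⁻¹ x) y = rho x (γ y) := by
  have := h (γ⁻¹ x) y
  rw [← this]
  simp

theorem small_displacement (Γ : Subgroup (Equiv.Perm H3)) (hΓ : Disc Γ)
    (hiso : ∀ γ ∈ Γ, IsIso γ) (hmp : ∀ γ ∈ Γ, MeasurePreserving γ mu mu) (hF : FinCov Γ)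
    (hncpt : ¬ ∃ K : Set H3, IsCompact K ∧ ∀ x : H3, ∃ γ ∈ Γ, γ x ∈ K) (ε : ℝ) (hε : 0 < ε) :
    ∃ γ ∈ Γ, γ ≠ 1 ∧ ∃ x, rho (γ x) x < ε := by
  classical
  by_contra hcon
  push Not at hcon
  set δ : ℝ := min ε 1 / 13 with hδ
  have hδ0 : 0 < δ := by positivity
  have hδ1 : δ ≤ 1 := by
    have := min_le_right ε 1
    rw [hδ]; linarith
  have hδε : 12 * δ < ε := by
    have := min_le_left ε 1
    have h0 : 0 < min ε 1 := by positivity
    rw [hδ]; linarith
  let Sep : Finset H3 → Prop := fun S => ∀ x ∈ S, ∀ y ∈ S, x ≠ y → ∀ γ ∈ Γ, ε ≤ rho (γ x) y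
  obtain ⟨F, hFm, hFf, hFc⟩ := hF
  -- bound on the cardinality
  have hb : ∀ S : Finset H3, Sep S → (S.card : ℝ≥0∞) * mu (ball jj δ) ≤ mu F := by
    intro S hS
    have hdisj : (S : Set H3).PairwiseDisjoint fun x => ball x δ := by
      intro x hx y hy hxy
      rw [Function.onFun, Set.disjoint_left]
      intro z hz1 hz2
      have h1 : rho x z ≤ δ := by rw [rho_comm]; exact le_of_lt hz1
      have h2 : rho y z ≤ δ := by rw [rho_comm]; exact le_of_lt hz2
      have h3 := quasi hδ1 h1 h2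
      have h4 := hS x hx y hy hxy 1 Γ.one_mem
      simp only [Equiv.Perm.coe_one, id_eq] at h4
      linarith
    have hm : MeasurableSet (⋃ x ∈ S, ball x δ) :=
      Finset.measurableSet_biUnion _ fun x _ => (isOpen_ball x δ).measurableSet
    have hcard : mu (⋃ x ∈ S, ball x δ) = (S.card : ℝ≥0∞) * mu (ball jj δ) := by
      rw [measure_biUnion_finset hdisj fun x _ => (isOpen_ball x δ).measurableSet]
      simp [mu_ball]
    rw [← hcard]
    have := packing_le Γ hΓ hmp F hFm hFc (⋃ x ∈ S, ball x δ) hm 1 (by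
      intro x
      by_cases hx : ∃ γ ∈ Γ, γ x ∈ ⋃ y ∈ S, ball y δ
      · obtain ⟨γ, hγ, hγx⟩ := hx
        refine ⟨{γ}, by simp, ?_⟩
        intro γ' hγ' hγ'x
        simp only [Set.mem_iUnion, exists_prop] at hγx hγ'x
        obtain ⟨y, hy, h1⟩ := hγx
        obtain ⟨y', hy', h2⟩ := hγ'x
        have h3 : rho (γ⁻¹ y) x ≤ δ := by
          rw [(hiso γ hγ).symm_apply, rho_comm]; exact le_of_lt h1
        have h4 : rho (γ'⁻¹ y') x ≤ δ := by
          rw [(hiso γ' hγ').symm_apply, rho_comm]; exact le_of_lt h2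
        have h5 := quasi hδ1 h4 h3
        rw [(hiso γ' hγ').symm_apply, rho_comm] at h5
        have h6 : rho ((γ' * γ⁻¹) y) y' < ε := by
          simp only [Equiv.Perm.mul_apply]
          linarith
        have hmem : γ' * γ⁻¹ ∈ Γ := Γ.mul_mem hγ' (Γ.inv_mem hγ)
        have h7 : y = y' := by
          by_contra hne
          have := hS y hy y' hy' hne _ hmem
          linarith
        subst h7
        have h8 : γ' * γ⁻¹ = 1 := by
          by_contra hne
          have := hcon _ hmem hne y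
          linarith
        rw [Finset.mem_singleton]
        exact mul_inv_eq_one.1 h8
      · push Not at hx
        exact ⟨∅, by simp, fun γ hγ h => absurd h (hx γ hγ)⟩)
    simpa using this
  have hpos : mu (ball jj δ) ≠ 0 := mu_pos (isOpen_ball _ _) ⟨jj, mem_ball_self _ hδ0⟩
  obtain ⟨N, hN⟩ : ∃ N : ℕ, ∀ S : Finset H3, Sep S → S.card ≤ N := by
    have hfin : mu F / mu (ball jj δ) ≠ ⊤ := ENNReal.div_ne_top hFf.ne hpos
    obtain ⟨N, hN⟩ := ENNReal.exists_nat_gt hfin
    refine ⟨N, fun S hS => ?_⟩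
    have h1 := hb S hS
    have h2 : (S.card : ℝ≥0∞) ≤ mu F / mu (ball jj δ) :=
      (ENNReal.le_div_iff_mul_le (Or.inl hpos) (Or.inr hFf.ne)).2 h1
    have h3 : (S.card : ℝ≥0∞) < N := h2.trans_lt hN
    exact_mod_cast h3.le
  -- a separated set of maximal cardinality
  obtain ⟨S, hS, hmax⟩ : ∃ S : Finset H3, Sep S ∧ ∀ S', Sep S' → S'.card ≤ S.card := by
    let P : ℕ → Prop := fun n => ∃ S : Finset H3, Sep S ∧ S.card = n
    have hP0 : P 0 := ⟨∅, by intro x hx; simp at hx, rfl⟩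
    have h1 : P (Nat.findGreatest P N) := Nat.findGreatest_spec (Nat.zero_le N) hP0
    obtain ⟨S, hS, hc⟩ := h1
    refine ⟨S, hS, fun S' hS' => ?_⟩
    rw [hc]
    exact Nat.le_findGreatest (hN S' hS') ⟨S', hS', rfl⟩
  refine hncpt ⟨⋃ x ∈ S, {y : H3 | rho y x ≤ ε}, S.isCompact_biUnion fun x _ => isCompact_closedBall x ε, ?_⟩
  intro y
  by_contra hy
  push Not at hy
  have hy' : ∀ x ∈ S, ∀ γ ∈ Γ, ε ≤ rho (γ y) x := by
    intro x hx γ hγ
    by_contra hlt
    push Not at hlt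
    refine hy γ hγ ?_
    simp only [Set.mem_iUnion, exists_prop]
    exact ⟨x, hx, hlt.le⟩
  have hyS : y ∉ S := by
    intro hyS
    have := hy' y hyS 1 Γ.one_mem
    simp only [Equiv.Perm.coe_one, id_eq, rho_self] at this
    linarith
  have hSep : Sep (insert y S) := by
    intro a ha b hb hab γ hγ
    rw [Finset.mem_insert] at ha hb
    rcases ha with rfl | ha
    · rcases hb with rfl | hb
      · exact absurd rfl hab
      · exact hy' b hb γ hγ
    · rcases hb with rfl | hb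
      · have := hy' a ha γ⁻¹ (Γ.inv_mem hγ)
        rwa [(hiso γ hγ).symm_apply, rho_comm] at this
      · exact hS a ha b hb hab γ hγ
  have := hmax _ hSep
  rw [Finset.card_insert_of_notMem hyS] at this
  omega

end Pool.Agent.Work.MP_67f4ac_gt
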