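import Mathlib
import Pool.Agent.Work.MP_67f4ac_gt.SmallDisp
import Pool.Agent.Work.MP_67f4ac_gt.TransLength

set_option autoImplicit false

namespace Pool.Agent.Work.MP_67f4ac_gt

open Filter Topology

/-- torsion-freeness -/
def TF (Γ : Subgroup (Equiv.Perm H3)) : Prop := ∀ γ ∈ Γ, ∀ n : ℕ, 0 < n → γ ^ n = 1 → γ = 1

theorem fixed_point {Γ : Subgroup (Equiv.Perm H3)} (hΓ : Disc Γ) (htf : TF Γ)
    {γ : Equiv.Perm H3} (hγ : γ ∈ Γ) (x : H3) (hx : γ x = x) : γ = 1 := by
  have h : ∀ n : ℕ, (γ ^ n) x = x := by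
    intro n
    induction n with
    | zero => simp
    | succ n ih => rw [pow_succ, Equiv.Perm.mul_apply, hx, ih]
  have hni : ¬ Function.Injective (fun n : ℕ => γ ^ n) := by
    intro hinj
    refine Set.infinite_range_of_injective hinj ((hΓ x 0).subset ?_)
    rintro _ ⟨n, rfl⟩
    exact ⟨Γ.pow_mem hγ n, by simp only [h, rho_self]; exact le_refl _⟩
  obtain ⟨m, n, hmn, hne⟩ : ∃ m n : ℕ, γ ^ m = γ ^ n ∧ m < n := by
    rw [Function.Injective] at hni
    push Not at hni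
    obtain ⟨m, n, h1, h2⟩ := hni
    rcases lt_or_gt_of_ne h2 with h3 | h3
    · exact ⟨m, n, h1, h3⟩
    · exact ⟨n, m, h1.symm, h3⟩
  refine htf γ hγ (n - m) (by omega) ?_
  have : γ ^ n = γ ^ (n - m) * γ ^ m := by rw [← pow_add]; congr 1; omega
  rw [this] at hmn
  exact (mul_eq_right.1 hmn.symm)

theorem act_neg (g : SL2C) : act (-g) = act g := by
  refine Equiv.ext fun p => Subtype.ext (Prod.ext ?_ ?_)
  · have e : ∀ z : ℂ, (-g).1 1 0 * z + (-g).1 1 1 = -(g.1 1 0 * z + g.1 1 1) := by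
      intro z
      simp only [Matrix.SpecialLinearGroup.coe_neg, Matrix.neg_apply]
      ring
    rw [act_fst, act_fst, e, norm_neg, map_neg]
    simp only [Matrix.SpecialLinearGroup.coe_neg, Matrix.neg_apply, norm_neg, map_neg]
    congr 1
    ring
  · have e : ∀ z : ℂ, (-g).1 1 0 * z + (-g).1 1 1 = -(g.1 1 0 * z + g.1 1 1) := by
      intro z
      simp only [Matrix.SpecialLinearGroup.coe_neg, Matrix.neg_apply]
      ring
    rw [act_snd, act_snd, e, norm_neg]
    simp only [Matrix.SpecialLinearGroup.coe_neg, Matrix.neg_apply, norm_neg]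

instance : Nonempty H3 := ⟨jj⟩

theorem f_eq_four {τ : ℂ} (h : f τ = 4) : τ ^ 2 = ((‖τ‖ ^ 2 : ℝ) : ℂ) ∧ ‖τ‖ ^ 2 ≤ 4 ∧
    (starRingEnd ℂ) τ = τ := by
  unfold f at h
  have h0 : ‖τ ^ 2‖ = ‖τ‖ ^ 2 := norm_pow _ _
  set s := τ ^ 2 with hs
  have h1 : ‖s - 4‖ = 4 - ‖s‖ := by rw [h0]; linarith
  have h2 : ‖s - 4‖ ^ 2 = (s.re - 4) ^ 2 + s.im ^ 2 := by
    rw [← Complex.normSq_eq_norm_sq, Complex.normSq_apply]
    simp
    ring
  have h3 : ‖s‖ ^ 2 = s.re ^ 2 + s.im ^ 2 := by
    rw [← Complex.normSq_eq_norm_sq, Complex.normSq_apply]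
    ring
  rw [h1] at h2
  have h4 : s.re = ‖s‖ := by nlinarith
  have h5 : s.im = 0 := by
    have : s.im ^ 2 = 0 := by rw [← h4] at h3; linarith
    exact pow_eq_zero_iff (n := 2) (by norm_num) |>.1 this
  have h6 : s = ((‖τ‖ ^ 2 : ℝ) : ℂ) := by
    rw [← h0]
    apply Complex.ext
    · rw [Complex.ofReal_re, h4]
    · rw [Complex.ofReal_im, h5]
  refine ⟨h6, ?_, ?_⟩
  · have := norm_nonneg (s - 4)
    rw [h1] at this
    linarith
  · rcases eq_or_ne τ 0 with h7 | h7
    · simp [h7]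
    · have h8 : τ * (starRingEnd ℂ) τ = τ * τ := by
        rw [Complex.mul_conj, Complex.normSq_eq_norm_sq, ← h6, hs, sq]
      exact mul_left_cancel₀ h7 h8

theorem fixed_of_iInf_zero (g : SL2C) (htr : tr g ^ 2 ≠ 4)
    (hi : (⨅ x : H3, rho (act g x) x) = 0) : ∃ x, act g x = x := by
  have hdet := sl_det g
  have hbdd : BddBelow (Set.range fun x : H3 => rho (act g x) x) :=
    ⟨0, by rintro _ ⟨x, rfl⟩; exact rho_nonneg _ _⟩
  by_cases hc : g.1 1 0 = 0
  · rw [hc, mul_zero, sub_zero] at hdet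
    have ha : g.1 0 0 ≠ 0 := left_ne_zero_of_mul_eq_one hdet
    have ha' : 0 < ‖g.1 0 0‖ := norm_pos_iff.2 ha
    have hd : g.1 1 1 = (g.1 0 0)⁻¹ := eq_inv_of_mul_eq_one_right hdet
    by_cases h1 : ‖g.1 0 0‖ = 1
    · have h2 : 1 - g.1 0 0 ^ 2 ≠ 0 := by
        intro h2
        apply htr
        have h3 : g.1 0 0 ^ 2 = 1 := by linear_combination -h2
        unfold tr
        rw [hd]
        field_simp
        rw [h3]
        norm_num
      refine ⟨⟨(g.1 0 0 * g.1 0 1 / (1 - g.1 0 0 ^ 2), 1), one_pos⟩, ?_⟩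
      apply Subtype.ext
      rw [act_c0 g hc, h1]
      apply Prod.ext
      · simp only
        field_simp
        ring
      · simp
    · exfalso
      have h2 : ∀ x : H3, (‖g.1 0 0‖ ^ 2 - 1) ^ 2 / ‖g.1 0 0‖ ^ 2 ≤ rho (act g x) x := by
        intro x
        have hx := x.2
        unfold rho
        rw [act_c0 g hc]
        simp only
        rw [div_le_div_iff₀ (by positivity) (by positivity)]
        have : 0 ≤ ‖g.1 0 0 ^ 2 * x.1.1 + g.1 0 0 * g.1 0 1 - x.1.1‖ ^ 2 * ‖g.1 0 0‖ ^ 2 := by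
          positivity
        linarith [this]
      have h3 := le_ciInf h2
      rw [hi] at h3
      have h4 : 0 < (‖g.1 0 0‖ ^ 2 - 1) ^ 2 / ‖g.1 0 0‖ ^ 2 := by
        have : ‖g.1 0 0‖ ^ 2 - 1 ≠ 0 := by
          intro h5
          apply h1
          have : (‖g.1 0 0‖ - 1) * (‖g.1 0 0‖ + 1) = 0 := by linarith
          rcases mul_eq_zero.1 this with h | h
          · linarith
          · linarith
        positivity
      linarith
  · rw [iInf_rho g hc htr] at hi
    have hf : f (tr g) = 4 := by linarith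
    obtain ⟨h1, h2, h3⟩ := f_eq_four hf
    have hcn : 0 < ‖g.1 1 0‖ := norm_pos_iff.2 hc
    have h4 : ‖tr g‖ ^ 2 < 4 := by
      refine lt_of_le_of_ne h2 fun h => htr ?_
      rw [h1, h]
      norm_num
    set t : ℝ := Real.sqrt ((4 - ‖tr g‖ ^ 2) / (4 * ‖g.1 1 0‖ ^ 2)) with ht
    have ht2 : t ^ 2 = (4 - ‖tr g‖ ^ 2) / (4 * ‖g.1 1 0‖ ^ 2) := Real.sq_sqrt (by
      apply div_nonneg <;> nlinarith)
    have htpos : 0 < t := Real.sqrt_pos.2 (by
      apply div_pos
      · linarith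
      · positivity)
    set z : ℂ := (g.1 0 0 - g.1 1 1) / (2 * g.1 1 0) with hz
    have e1 : g.1 1 0 * z + g.1 1 1 = tr g / 2 := by
      rw [hz, tr]
      field_simp
      ring
    have e2 : ‖tr g / 2‖ ^ 2 + ‖g.1 1 0‖ ^ 2 * t ^ 2 = 1 := by
      rw [ht2, norm_div]
      simp only [Complex.norm_ofNat]
      field_simp
      ring
    refine ⟨⟨(z, t), htpos⟩, ?_⟩
    apply Subtype.ext
    apply Prod.ext
    · rw [act_fst]
      simp only
      rw [e1, e2]
      have e3 : (starRingEnd ℂ) (g.1 1 0) * (t : ℂ) ^ 2 = (4 - tr g ^ 2) / (4 * g.1 1 0) := by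
        have : ((t : ℂ)) ^ 2 = (((4 - ‖tr g‖ ^ 2) / (4 * ‖g.1 1 0‖ ^ 2) : ℝ) : ℂ) := by
          rw [← ht2]; push_cast; ring
        rw [this]
        have e4 : ((‖g.1 1 0‖ ^ 2 : ℝ) : ℂ) = g.1 1 0 * (starRingEnd ℂ) (g.1 1 0) := by
          rw [Complex.mul_conj, Complex.normSq_eq_norm_sq]
        have e5 : (starRingEnd ℂ) (g.1 1 0) ≠ 0 := by simpa using hc
        rw [Complex.ofReal_div, Complex.ofReal_sub, Complex.ofReal_mul, ← h1, e4]
        push_cast
        field_simp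
      rw [mul_assoc, e3, map_div₀, h3]
      have e6 : (starRingEnd ℂ) 2 = 2 := Complex.conj_ofNat 2
      rw [e6, hz, tr]
      simp only [Complex.ofReal_one, div_one]
      field_simp
      linear_combination (-8 * (g.1 0 0 + g.1 1 1)) * hdet
    · rw [act_snd]
      simp only
      rw [e1, e2, div_one]

theorem exists_conj_aux (g : SL2C) (htr : tr g = 2) (hne : g ≠ 1) :
    ∃ P : SL2C, g * P = P * T 1 := by
  have hdet := sl_det g
  have hd : g.1 1 1 = 2 - g.1 0 0 := by unfold tr at htr; linear_combination htr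
  rw [hd] at hdet
  by_cases hc : g.1 1 0 = 0
  · rw [hc] at hdet
    have ha : g.1 0 0 = 1 := by
      have : (g.1 0 0 - 1) ^ 2 = 0 := by linear_combination -hdet
      have := pow_eq_zero_iff (n := 2) (by norm_num) |>.1 this
      linear_combination this
    have hd1 : g.1 1 1 = 1 := by rw [hd, ha]; norm_num
    have hb : g.1 0 1 ≠ 0 := by
      intro hb
      apply hne
      apply ext4 <;> rw [one_e] <;> simp [ha, hb, hc, hd1]
    obtain ⟨k, hk⟩ := IsAlgClosed.exists_pow_nat_eq (g.1 0 1) (n := 2) (by norm_num)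
    have hk0 : k ≠ 0 := by
      rintro rfl
      apply hb
      rw [← hk]; norm_num
    refine ⟨mk k 0 0 k⁻¹ (by field_simp; ring), ?_⟩
    apply ext4 <;> rw [mul_e, mul_e] <;> simp only [mk_00, mk_01, mk_10, mk_11, T_00, T_01, T_10,
      T_11, ha, hc, hd1]
    · ring
    · rw [← hk]
      field_simp
      ring
    · ring
    · ring
  · obtain ⟨k, hk⟩ := IsAlgClosed.exists_pow_nat_eq (-1 / g.1 1 0) (n := 2) (by norm_num)
    have hk' : k * k * g.1 1 0 = -1 := by
      rw [← sq, hk]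
      field_simp
    refine ⟨mk (k * (g.1 0 0 - 1)) k (k * g.1 1 0) 0 (by linear_combination -hk'), ?_⟩
    apply ext4 <;> rw [mul_e, mul_e] <;> simp only [mk_00, mk_01, mk_10, mk_11, T_00, T_01, T_10,
      T_11, hd]
    · linear_combination (-k) * hdet
    · ring
    · ring
    · ring

theorem tr_neg (g : SL2C) : tr (-g) = -tr g := by
  simp only [tr, Matrix.SpecialLinearGroup.coe_neg, Matrix.neg_apply]
  ring

theorem exists_conj (g : SL2C) (htr : tr g ^ 2 = 4) (hne : act g ≠ 1) :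
    ∃ ψ : SL2C, act ψ * act g * (act ψ)⁻¹ = act (T 1) := by
  have key : ∀ g : SL2C, tr g = 2 → act g ≠ 1 →
      ∃ ψ : SL2C, act ψ * act g * (act ψ)⁻¹ = act (T 1) := by
    intro g htr hne
    obtain ⟨P, hP⟩ := exists_conj_aux g htr (by rintro rfl; exact hne (map_one act))
    refine ⟨P⁻¹, ?_⟩
    rw [← map_inv, ← map_mul, ← map_mul, inv_inv, mul_assoc, hP, inv_mul_cancel_left]
  have h : (tr g - 2) * (tr g + 2) = 0 := by linear_combination htr
  rcases mul_eq_zero.1 h with h | h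
  · exact key g (by linear_combination h) hne
  · have := key (-g) (by rw [tr_neg]; linear_combination -h) (by rwa [act_neg])
    rwa [act_neg] at this

end Pool.Agent.Work.MP_67f4ac_gt
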