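import Mathlib
import Pool.Agent.Work.MP_67f4ac_gt.Parabolic

set_option autoImplicit false

namespace Pool.Agent.Work.MP_67f4ac_gt

open Filter Topology MeasureTheory

theorem mp_c0 (g : SL2C) (hc : g.1 1 0 = 0) : MeasurePreserving (act g) mu mu := by
  have hdet := sl_det g
  rw [hc, mul_zero, sub_zero] at hdet
  have ha : g.1 0 0 ≠ 0 := left_ne_zero_of_mul_eq_one hdet
  refine mp_affine (act g) (g.1 0 0 ^ 2) (g.1 0 0 * g.1 0 1) (pow_ne_zero 2 ha) fun p => ?_
  rw [act_c0 g hc, norm_pow]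

/-- the inversion -/
noncomputable def J : SL2C := mk 0 (-1) 1 0 (by ring)

theorem mp_J : MeasurePreserving (act J) mu mu := by
  refine mp_inv (act J) fun p => ?_
  have e : ‖p.1.1‖ ^ 2 + p.1.2 ^ 2 = eN p.1 := by
    rw [eN, ← Complex.normSq_eq_norm_sq, Complex.normSq_apply]
    ring
  apply Prod.ext
  · rw [act_fst]
    simp only [J, mk_00, mk_01, mk_10, mk_11, one_mul, add_zero, zero_mul, zero_add, norm_one,
      one_pow, e]
    simp only [Prod.smul_mk, Complex.real_smul, Complex.ofReal_inv]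
    ring
  · rw [act_snd]
    simp only [J, mk_10, mk_11, one_mul, add_zero, norm_one, one_pow, e]
    simp only [Prod.smul_mk, smul_eq_mul]
    ring

theorem mp_act (g : SL2C) : MeasurePreserving (act g) mu mu := by
  by_cases hc : g.1 1 0 = 0
  · exact mp_c0 g hc
  · have hdet := sl_det g
    have e : g = T (g.1 0 0 / g.1 1 0) * (mk (1 / g.1 1 0) 0 0 (g.1 1 0) (by field_simp; ring)) *
        J * T (g.1 1 1 / g.1 1 0) := by
      apply ext4 <;> simp only [mul_e, J, mk_00, mk_01, mk_10, mk_11, T_00, T_01, T_10, T_11]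
      · field_simp
        ring
      · field_simp
        linear_combination (-g.1 1 0) * hdet
      · ring
      · field_simp
        ring
    have h1 := mp_c0 (T (g.1 0 0 / g.1 1 0)) (T_10 _)
    have h2 := mp_c0 (mk (1 / g.1 1 0) 0 0 (g.1 1 0) (by field_simp; ring)) (mk_10 _ _ _ _ _)
    have h3 := mp_c0 (T (g.1 1 1 / g.1 1 0)) (T_10 _)
    rw [e, map_mul, map_mul, map_mul, Equiv.Perm.coe_mul, Equiv.Perm.coe_mul, Equiv.Perm.coe_mul]
    exact ((h1.comp h2).comp mp_J).comp h3

theorem mp_of_iso (γ : Equiv.Perm H3) (h : IsIso γ) : MeasurePreserving γ mu mu := by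
  rcases iso_classification γ h with ⟨g, rfl⟩ | ⟨g, rfl⟩
  · exact mp_act g
  · rw [Equiv.Perm.coe_mul]
    exact (mp_act g).comp (mp_conj cj cj_apply)

end Pool.Agent.Work.MP_67f4ac_gt
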