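import Mathlib
import Pool.Agent.Work.MP_67f4ac_gt.MpIso

set_option autoImplicit false

namespace Pool.Agent.Work.MP_67f4ac_gt

open Filter Topology MeasureTheory ENNReal

theorem card_bound (Γ₁ Δ : Subgroup (Equiv.Perm H3)) (h1 : Disc Γ₁) (h1Δ : Γ₁ ≤ Δ)
    (hmp1 : ∀ γ ∈ Γ₁, MeasurePreserving γ mu mu) (F : Set H3) (hF : MeasurableSet F)
    (hFc : ∀ x, ∃ γ ∈ Γ₁, γ x ∈ F)
    (hΔ : ∀ γ ∈ Δ, IsIso γ) (hmpΔ : ∀ γ ∈ Δ, MeasurePreserving γ mu mu)
    (B : Finset (Equiv.Perm H3)) (hB : ∀ γ ∈ Δ, rho (γ jj) jj ≤ 1 → γ ∈ B)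
    (T : Finset (Equiv.Perm H3)) (hT : ∀ t ∈ T, t ∈ Δ)
    (hT' : ∀ t ∈ T, ∀ t' ∈ T, t ≠ t' → t⁻¹ * t' ∉ Γ₁) :
    (T.card : ℝ≥0∞) * mu (ball jj (1 / 13)) ≤ B.card * mu F := by
  classical
  set U := ball jj (1 / 13) with hU
  have hUm : MeasurableSet U := (isOpen_ball _ _).measurableSet
  have hmU : ∀ t ∈ Δ, Measurable fun x => U.indicator (1 : H3 → ℝ≥0∞) (t x) := fun t ht =>
    (measurable_one.indicator hUm).comp (hmpΔ t ht).measurable
  have hg : Measurable fun x => ∑ t ∈ T, U.indicator (1 : H3 → ℝ≥0∞) (t x) :=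
    Finset.measurable_sum _ fun t ht => hmU t (hT t ht)
  have h := unfold_le Γ₁ h1 hmp1 F hF hFc _ hg B.card (by
    intro x
    by_cases hex : ∃ δ ∈ Δ, δ x ∈ U
    · obtain ⟨δ, hδ, hδx⟩ := hex
      let C : Finset (Equiv.Perm H3) := B.image (fun α => α * δ)
      have hC : ∀ γ ∈ Δ, γ x ∈ U → γ ∈ C := by
        intro γ hγ hγx
        refine Finset.mem_image.2 ⟨γ * δ⁻¹, ?_, by group⟩
        refine hB _ (Δ.mul_mem hγ (Δ.inv_mem hδ)) ?_
        have e1 : rho ((γ * δ⁻¹) jj) (γ x) ≤ 1 / 13 := by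
          rw [Equiv.Perm.mul_apply, hΔ γ hγ, (hΔ δ hδ).symm_apply, rho_comm]
          exact le_of_lt hδx
        have e2 : rho jj (γ x) ≤ 1 / 13 := by
          rw [rho_comm]
          exact le_of_lt hγx
        have := quasi (by norm_num) e1 e2
        linarith
      have step1 : ∑' γ : Γ₁, ∑ t ∈ T, U.indicator (1 : H3 → ℝ≥0∞) (t (γ.1 x)) ≤
          ∑' p : Γ₁ × T, (C : Set (Equiv.Perm H3)).indicator (1 : Equiv.Perm H3 → ℝ≥0∞)
            (p.2.1 * p.1.1) := by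
        rw [ENNReal.tsum_prod (f := fun (γ : Γ₁) (t : T) =>
          (C : Set (Equiv.Perm H3)).indicator (1 : Equiv.Perm H3 → ℝ≥0∞) (t.1 * γ.1))]
        refine ENNReal.tsum_le_tsum fun γ => ?_
        rw [tsum_fintype, ← Finset.sum_coe_sort T]
        refine Finset.sum_le_sum fun t _ => ?_
        by_cases ht : t.1 (γ.1 x) ∈ U
        · have hmem : t.1 * γ.1 ∈ (C : Set (Equiv.Perm H3)) := by
            exact_mod_cast hC _ (Δ.mul_mem (hT _ t.2) (h1Δ γ.2)) ht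
          rw [Set.indicator_of_mem ht, Set.indicator_of_mem hmem]
          rfl
        · rw [Set.indicator_of_notMem ht]
          exact zero_le
      have hinj : Function.Injective fun p : Γ₁ × T => p.2.1 * p.1.1 := by
        rintro ⟨γ, t⟩ ⟨γ', t'⟩ heq
        simp only at heq
        have ht : t = t' := by
          by_contra hne
          refine hT' t.1 t.2 t'.1 t'.2 (fun h => hne (Subtype.ext h)) ?_
          have : t.1⁻¹ * t'.1 = γ.1 * γ'.1⁻¹ := by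
            rw [inv_mul_eq_iff_eq_mul, ← mul_assoc, heq]
            group
          rw [this]
          exact Γ₁.mul_mem γ.2 (Γ₁.inv_mem γ'.2)
        subst ht
        have : γ = γ' := Subtype.ext (mul_left_cancel heq)
        rw [this]
      refine step1.trans ?_
      refine (ENNReal.tsum_comp_le_tsum_of_injective hinj
        ((C : Set (Equiv.Perm H3)).indicator (1 : Equiv.Perm H3 → ℝ≥0∞))).trans ?_
      rw [tsum_eq_sum (s := C)]
      · rw [Finset.sum_congr rfl (g := fun _ => 1)]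
        · simp only [Finset.sum_const, nsmul_eq_mul, mul_one]
          have : C.card ≤ B.card := Finset.card_image_le
          exact_mod_cast this
        · intro γ hγ
          rw [Set.indicator_of_mem (by exact_mod_cast hγ)]
          rfl
      · intro γ hγ
        rw [Set.indicator_of_notMem (by exact_mod_cast hγ)]
    · push Not at hex
      have : ∀ γ : Γ₁, ∑ t ∈ T, U.indicator (1 : H3 → ℝ≥0∞) (t (γ.1 x)) = 0 := by
        intro γ
        refine Finset.sum_eq_zero fun t ht => ?_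
        exact Set.indicator_of_notMem (hex (t * γ.1) (Δ.mul_mem (hT t ht) (h1Δ γ.2))) _
      simp only [this, tsum_zero]
      exact zero_le)
  refine le_trans (le_of_eq ?_) h
  rw [lintegral_finsetSum' _ fun t ht => (hmU t (hT t ht)).aemeasurable]
  rw [Finset.sum_congr rfl (g := fun _ => mu U)]
  · simp
  · intro t ht
    have e := (hmpΔ t (hT t ht)).lintegral_comp (measurable_one.indicator hUm : Measurable (U.indicator (1 : H3 → ℝ≥0∞)))
    rw [e, lintegral_indicator_one hUm]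

/-- MODULE A3: finite index from covolume -/
theorem finite_index_of_covolume (Γ : Subgroup (Equiv.Perm H3)) (hiso : ∀ γ ∈ Γ, IsIso γ)
    (hdisc : ∀ x : H3, ∀ R : ℝ, Set.Finite {γ : Equiv.Perm H3 | γ ∈ Γ ∧ rho (γ x) x ≤ R})
    (hcov : ∃ F : Set (ℂ × ℝ), MeasurableSet F ∧ (∀ p ∈ F, 0 < p.2) ∧
      (∫⁻ p in F, ENNReal.ofReal (1 / p.2 ^ 3)) < ⊤ ∧ ∀ x : H3, ∃ γ ∈ Γ, (γ x).1 ∈ F)
    (Δ : Subgroup (Equiv.Perm H3)) (hΔ : ∀ γ ∈ Δ, IsIso γ)
    (hΔd : ∀ x : H3, ∀ R : ℝ, Set.Finite {γ : Equiv.Perm H3 | γ ∈ Δ ∧ rho (γ x) x ≤ R})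
    (Γ₁ : Subgroup (Equiv.Perm H3)) (h1 : Γ₁ ≤ Γ) (h2 : Γ₁ ≤ Δ)
    (hfi : ∃ S : Finset (Equiv.Perm H3), ∀ γ ∈ Γ, ∃ s ∈ S, s⁻¹ * γ ∈ Γ₁) :
    ∃ S : Finset (Equiv.Perm H3), ∀ δ ∈ Δ, ∃ s ∈ S, s⁻¹ * δ ∈ Γ₁ := by
  classical
  obtain ⟨F, hFm, hFf, hFc⟩ := exists_F Γ hcov
  obtain ⟨S, hS⟩ := hfi
  have hmp : ∀ γ ∈ Γ, MeasurePreserving γ mu mu := fun γ hγ => mp_of_iso γ (hiso γ hγ)
  set S' := S.filter (· ∈ Γ) with hS'
  set F₁ : Set H3 := ⋃ s ∈ S', (s : Equiv.Perm H3) ⁻¹' F with hF₁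
  have hF₁m : MeasurableSet F₁ :=
    Finset.measurableSet_biUnion _ fun s hs => (hmp s (Finset.mem_filter.1 hs).2).measurable hFm
  have hF₁f : mu F₁ < ⊤ := by
    refine (measure_biUnion_finset_le _ _).trans_lt ?_
    refine ENNReal.sum_lt_top.2 fun s hs => ?_
    rw [(hmp s (Finset.mem_filter.1 hs).2).measure_preimage hFm.nullMeasurableSet]
    exact hFf
  have hF₁c : ∀ x, ∃ γ ∈ Γ₁, γ x ∈ F₁ := by
    intro x
    obtain ⟨γ, hγ, hx⟩ := hFc x
    obtain ⟨s, hs, hsγ⟩ := hS γ hγ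
    refine ⟨s⁻¹ * γ, hsγ, ?_⟩
    simp only [hF₁, Set.mem_iUnion, exists_prop]
    refine ⟨s, Finset.mem_filter.2 ⟨hs, ?_⟩, ?_⟩
    · have : s = γ * (s⁻¹ * γ)⁻¹ := by group
      rw [this]
      exact Γ.mul_mem hγ (Γ.inv_mem (h1 hsγ))
    · simpa using hx
  have hd1 : Disc Γ₁ := fun x R => (hdisc x R).subset fun γ hγ => ⟨h1 hγ.1, hγ.2⟩
  set B := (hΔd jj 1).toFinset with hB
  let P : Finset (Equiv.Perm H3) → Prop := fun T =>
    (∀ t ∈ T, t ∈ Δ) ∧ (∀ t ∈ T, ∀ t' ∈ T, t ≠ t' → t⁻¹ * t' ∉ Γ₁)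
  have hb : ∀ T, P T → (T.card : ℝ≥0∞) * mu (ball jj (1 / 13)) ≤ B.card * mu F₁ := by
    rintro T ⟨hT, hT'⟩
    refine card_bound Γ₁ Δ hd1 h2 (fun γ hγ => hmp γ (h1 hγ)) F₁ hF₁m hF₁c hΔ
      (fun γ hγ => mp_of_iso γ (hΔ γ hγ)) B ?_ T hT hT'
    intro γ hγ hle
    rw [hB, Set.Finite.mem_toFinset]
    exact ⟨hγ, hle⟩
  have hpos : mu (ball jj (1 / 13)) ≠ 0 :=
    mu_pos (isOpen_ball _ _) ⟨jj, mem_ball_self _ (by norm_num)⟩
  have hKf : (B.card : ℝ≥0∞) * mu F₁ ≠ ⊤ := ENNReal.mul_ne_top (by simp) hF₁f.ne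
  obtain ⟨N, hN⟩ : ∃ N : ℕ, ∀ T, P T → T.card ≤ N := by
    obtain ⟨N, hN⟩ := ENNReal.exists_nat_gt (ENNReal.div_ne_top hKf hpos)
    refine ⟨N, fun T hT => ?_⟩
    have h3 : (T.card : ℝ≥0∞) ≤ (B.card : ℝ≥0∞) * mu F₁ / mu (ball jj (1 / 13)) :=
      (ENNReal.le_div_iff_mul_le (Or.inl hpos) (Or.inr hKf)).2 (hb T hT)
    have h4 : (T.card : ℝ≥0∞) < N := h3.trans_lt hN
    exact_mod_cast h4.le
  obtain ⟨T, hT, hmax⟩ : ∃ T, P T ∧ ∀ T', P T' → T'.card ≤ T.card := by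
    let Q : ℕ → Prop := fun n => ∃ T, P T ∧ T.card = n
    have hQ0 : Q 0 := ⟨∅, ⟨by simp, by simp⟩, rfl⟩
    have h3 : Q (Nat.findGreatest Q N) := Nat.findGreatest_spec (Nat.zero_le N) hQ0
    obtain ⟨T, hT, hc⟩ := h3
    refine ⟨T, hT, fun T' hT' => ?_⟩
    rw [hc]
    exact Nat.le_findGreatest (hN T' hT') ⟨T', hT', rfl⟩
  refine ⟨T, fun δ hδ => ?_⟩
  by_contra hcon
  push Not at hcon
  have hδT : δ ∉ T := by
    intro hmem
    refine hcon δ hmem ?_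
    rw [inv_mul_cancel]
    exact Γ₁.one_mem
  have : P (insert δ T) := by
    constructor
    · intro t ht
      rcases Finset.mem_insert.1 ht with rfl | ht
      · exact hδ
      · exact hT.1 t ht
    · intro t ht t' ht' hne
      rcases Finset.mem_insert.1 ht with rfl | h3 <;> rcases Finset.mem_insert.1 ht' with rfl | h4
      · exact absurd rfl hne
      · intro hmem
        refine hcon t' h4 ?_
        have := Γ₁.inv_mem hmem
        simpa using this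
      · exact hcon t h3
      · exact hT.2 t h3 t' h4 hne
  have := hmax _ this
  rw [Finset.card_insert_of_notMem hδT] at this
  omega

end Pool.Agent.Work.MP_67f4ac_gt
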