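import Mathlib
import Pool.Agent.Work.MP_67f4ac_gt.Parabolic

set_option autoImplicit false

namespace Pool.Agent.Work.MP_67f4ac_gt

open Filter Topology MeasureTheory

/-- complex conjugate matrix -/
noncomputable def gbar (g : SL2C) : SL2C :=
  mk ((starRingEnd ℂ) (g.1 0 0)) ((starRingEnd ℂ) (g.1 0 1)) ((starRingEnd ℂ) (g.1 1 0))
    ((starRingEnd ℂ) (g.1 1 1)) (by
      have := congrArg (starRingEnd ℂ) (sl_det g)
      simpa using this)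

theorem cj_act (g : SL2C) : cj * act g * cj = act (gbar g) := by
  refine Equiv.ext fun p => Subtype.ext ?_
  simp only [Equiv.Perm.mul_apply]
  have e : (starRingEnd ℂ) (g.1 1 0 * (starRingEnd ℂ) p.1.1 + g.1 1 1) =
      (starRingEnd ℂ) (g.1 1 0) * p.1.1 + (starRingEnd ℂ) (g.1 1 1) := by simp
  have e2 : ‖g.1 1 0 * (starRingEnd ℂ) p.1.1 + g.1 1 1‖ =
      ‖(starRingEnd ℂ) (g.1 1 0) * p.1.1 + (starRingEnd ℂ) (g.1 1 1)‖ := by
    rw [← e, Complex.norm_conj]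
  rw [cj_apply]
  apply Prod.ext
  · simp only
    rw [act_fst, act_fst, cj_apply]
    simp only [gbar, mk_00, mk_01, mk_10, mk_11]
    rw [map_div₀, Complex.conj_ofReal, e2, Complex.norm_conj]
    congr 1
    simp
  · simp only
    rw [act_snd, act_snd, cj_apply]
    simp only [gbar, mk_00, mk_01, mk_10, mk_11]
    rw [e2, Complex.norm_conj]

theorem sq_is_act (γ : Equiv.Perm H3) (h : IsIso γ) : ∃ g : SL2C, γ ^ 2 = act g := by
  rcases iso_classification γ h with ⟨g, rfl⟩ | ⟨g, rfl⟩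
  · exact ⟨g ^ 2, (map_pow act g 2).symm⟩
  · refine ⟨g * gbar g, ?_⟩
    rw [map_mul, ← cj_act, sq]
    simp only [mul_assoc]

theorem iInf_nonneg' (γ : Equiv.Perm H3) : 0 ≤ ⨅ x : H3, rho (γ x) x :=
  le_ciInf fun _ => rho_nonneg _ _

theorem iInf_le' (γ : Equiv.Perm H3) (x : H3) : (⨅ x : H3, rho (γ x) x) ≤ rho (γ x) x :=
  ciInf_le ⟨0, by rintro _ ⟨x, rfl⟩; exact rho_nonneg _ _⟩ x

theorem exists_gap (Γ : Subgroup (Equiv.Perm H3))
    (hfin : ∃ N : ℝ, 0 < N ∧ {ℓ : ℝ | 0 < ℓ ∧ ℓ ≤ N ∧ ∃ γ ∈ Γ,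
      Real.cosh ℓ = 1 + (⨅ x : H3, rho (γ x) x) / 2}.Finite) :
    ∃ ε : ℝ, 0 < ε ∧ ∀ γ ∈ Γ, (⨅ x : H3, rho (γ x) x) < ε → (⨅ x : H3, rho (γ x) x) = 0 := by
  obtain ⟨N, hN, hfin⟩ := hfin
  obtain ⟨m, hm, hmin⟩ := Set.exists_min_image _ id (hfin.insert N) ⟨N, Set.mem_insert _ _⟩
  have hm0 : 0 < m := by
    rcases hm with rfl | hm
    · exact hN
    · exact hm.1
  have hmN : m ≤ N := hmin N (Set.mem_insert _ _)
  refine ⟨2 * (Real.cosh m - 1), by have := Real.one_lt_cosh.2 hm0.ne'; linarith, ?_⟩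
  intro γ hγ hlt
  by_contra hne
  have hpos : 0 < ⨅ x : H3, rho (γ x) x := lt_of_le_of_ne (iInf_nonneg' γ) (Ne.symm hne)
  set i := ⨅ x : H3, rho (γ x) x with hi
  have h1 : Real.cosh (Real.arcosh (1 + i / 2)) = 1 + i / 2 := Real.cosh_arcosh (by linarith)
  have h0 : 0 < Real.arcosh (1 + i / 2) := by
    apply Real.arcosh_pos
    linarith
  have h2 : Real.arcosh (1 + i / 2) < m := by
    by_contra hle
    push Not at hle
    have := Real.cosh_le_cosh.2 (by rwa [abs_of_pos hm0, abs_of_pos h0] : |m| ≤ |Real.arcosh (1 + i / 2)|)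
    linarith
  have h3 := hmin (Real.arcosh (1 + i / 2)) (Set.mem_insert_of_mem _ ⟨h0, by linarith, γ, hγ, h1⟩)
  simp only [id_eq] at h3
  linarith

theorem exists_parabolic (Γ : Subgroup (Equiv.Perm H3)) (hΓ : Disc Γ)
    (hiso : ∀ γ ∈ Γ, IsIso γ) (htf : TF Γ)
    (hmp : ∀ γ ∈ Γ, MeasurePreserving γ mu mu) (hF : FinCov Γ)
    (hncpt : ¬ ∃ K : Set H3, IsCompact K ∧ ∀ x : H3, ∃ γ ∈ Γ, γ x ∈ K)
    (hfin : ∃ N : ℝ, 0 < N ∧ {ℓ : ℝ | 0 < ℓ ∧ ℓ ≤ N ∧ ∃ γ ∈ Γ,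
      Real.cosh ℓ = 1 + (⨅ x : H3, rho (γ x) x) / 2}.Finite) :
    ∃ ψ : SL2C, (act ψ)⁻¹ * act (T 1) * act ψ ∈ Γ := by
  obtain ⟨ε, hε, hgap⟩ := exists_gap Γ hfin
  obtain ⟨γ, hγ, hne, x, hx⟩ := small_displacement Γ hΓ hiso hmp hF hncpt (min ε 1 / 13) (by positivity)
  have hγ2 : γ ^ 2 ∈ Γ := Γ.pow_mem hγ 2
  have hne2 : γ ^ 2 ≠ 1 := fun h => hne (htf γ hγ 2 (by norm_num) h)
  obtain ⟨h, hh⟩ := sq_is_act γ (hiso γ hγ)
  have h1 : (⨅ x : H3, rho ((γ ^ 2) x) x) = 0 := by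
    refine hgap _ hγ2 (lt_of_le_of_lt (iInf_le' _ x) ?_)
    have h2 : rho (γ (γ x)) (γ x) ≤ min ε 1 / 13 := by
      rw [hiso γ hγ]
      exact hx.le
    have h3 : rho x (γ x) ≤ min ε 1 / 13 := by rw [rho_comm]; exact hx.le
    have h4 := quasi (by have := min_le_right ε 1; linarith) h2 h3
    have h5 : 12 * (min ε 1 / 13) < ε := by
      have := min_le_left ε 1
      have h0 : 0 < min ε 1 := by positivity
      linarith
    rw [sq, Equiv.Perm.mul_apply]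
    linarith
  rw [hh] at hγ2 hne2 h1
  have htr : tr h ^ 2 = 4 := by
    by_contra htr
    obtain ⟨y, hy⟩ := fixed_of_iInf_zero h htr h1
    exact hne2 (fixed_point hΓ htf hγ2 y hy)
  obtain ⟨ψ, hψ⟩ := exists_conj h htr hne2
  refine ⟨ψ, ?_⟩
  rw [← hψ]
  convert hγ2 using 1
  group

end Pool.Agent.Work.MP_67f4ac_gt
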