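import Mathlib
import Pool.Agent.Work.MP_67f4ac_gt.ExistsParabolic

set_option autoImplicit false

namespace Pool.Agent.Work.MP_67f4ac_gt

open Filter Topology MeasureTheory

variable {G : Subgroup (Equiv.Perm H3)}

theorem rho_T (w : ℂ) : rho (act (T w) jj) jj = ‖w‖ ^ 2 := by
  unfold rho
  rw [act_T]
  simp [jj]

theorem act_T_inj {w w' : ℂ} (h : act (T w) = act (T w')) : w = w' := by
  have h1 := act_T w jj
  have h2 := act_T w' jj
  rw [h, h2] at h1
  simpa [jj] using (congrArg Prod.fst h1).symm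

theorem conj_T (g : SL2C) (hc : g.1 1 0 = 0) (w : ℂ) : g * T w * g⁻¹ = T (g.1 0 0 ^ 2 * w) := by
  have hdet := sl_det g
  rw [hc, mul_zero, sub_zero] at hdet
  rw [mul_inv_eq_iff_eq_mul]
  apply ext4 <;> rw [mul_e, mul_e] <;> simp only [T_00, T_01, T_10, T_11, hc]
  · ring
  · linear_combination (-(g.1 0 0 * w)) * hdet
  · ring
  · ring

theorem shrink (hG : Disc G) (h1 : act (T 1) ∈ G) (u : ℂ) (hu : u ≠ 0) (hu1 : ‖u‖ < 1)
    (h : ∀ w, act (T w) ∈ G → act (T (u * w)) ∈ G) : False := by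
  have hmem : ∀ n : ℕ, act (T (u ^ n)) ∈ G := by
    intro n
    induction n with
    | zero => simpa using h1
    | succ n ih => rw [pow_succ']; exact h _ ih
  have hinj : Function.Injective (fun n : ℕ => act (T (u ^ n))) := by
    intro m n hmn
    have h2 := act_T_inj hmn
    have h3 : ‖u‖ ^ m = ‖u‖ ^ n := by rw [← norm_pow, h2, norm_pow]
    exact (pow_right_strictAnti₀ (norm_pos_iff.2 hu) hu1).injective h3
  refine Set.infinite_range_of_injective hinj ((hG jj 1).subset ?_)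
  rintro _ ⟨n, rfl⟩
  refine ⟨hmem n, ?_⟩
  simp only [rho_T]
  have : ‖u ^ n‖ ≤ 1 := by
    rw [norm_pow]
    exact pow_le_one₀ (norm_nonneg _) hu1.le
  exact pow_le_one₀ (norm_nonneg _) this

theorem c_zero (hG : Disc G) (htf : TF G) (h1 : act (T 1) ∈ G) (g : SL2C) (hg : act g ∈ G)
    (hc : g.1 1 0 = 0) : g.1 0 0 = 1 ∨ g.1 0 0 = -1 := by
  have hdet := sl_det g
  rw [hc, mul_zero, sub_zero] at hdet
  have ha : g.1 0 0 ≠ 0 := left_ne_zero_of_mul_eq_one hdet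
  have key : ∀ g : SL2C, act g ∈ G → g.1 1 0 = 0 → ¬ ‖g.1 0 0‖ < 1 := by
    intro g hg hc hlt
    have hdet := sl_det g
    rw [hc, mul_zero, sub_zero] at hdet
    have ha : g.1 0 0 ≠ 0 := left_ne_zero_of_mul_eq_one hdet
    refine shrink hG h1 (g.1 0 0 ^ 2) (pow_ne_zero 2 ha) ?_ ?_
    · rw [norm_pow]
      exact pow_lt_one₀ (norm_nonneg _) hlt (by norm_num)
    · intro w hw
      rw [← conj_T g hc, map_mul, map_mul, map_inv]
      exact G.mul_mem (G.mul_mem hg hw) (G.inv_mem hg)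
  have h2 : ‖g.1 0 0‖ = 1 := by
    apply le_antisymm
    · by_contra hlt
      push Not at hlt
      refine key g⁻¹ (by rw [map_inv]; exact G.inv_mem hg) ?_ ?_
      · rw [(inv_e g).2.2.1, hc, neg_zero]
      · rw [(inv_e g).1]
        have : ‖g.1 0 0‖ * ‖g.1 1 1‖ = 1 := by rw [← norm_mul, hdet, norm_one]
        by_contra hcon
        push Not at hcon
        nlinarith
    · exact not_lt.1 (key g hg hc)
  by_contra hne
  push Not at hne
  have h3 : g.1 0 0 ^ 2 ≠ 1 := by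
    intro h3
    have h : (g.1 0 0 - 1) * (g.1 0 0 + 1) = 0 := by linear_combination h3
    rcases mul_eq_zero.1 h with h | h
    · exact hne.1 (by linear_combination h)
    · exact hne.2 (by linear_combination h)
  have h4 : 1 - g.1 0 0 ^ 2 ≠ 0 := sub_ne_zero.2 (Ne.symm h3)
  have h5 : act g = 1 := by
    refine fixed_point hG htf hg ⟨(g.1 0 0 * g.1 0 1 / (1 - g.1 0 0 ^ 2), 1), one_pos⟩ ?_
    apply Subtype.ext
    rw [act_c0 g hc, h2]
    apply Prod.ext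
    · simp only
      field_simp
      ring
    · simp
  have e0 := act_c0 g hc ⟨(0, 1), one_pos⟩
  have e1 := act_c0 g hc ⟨(1, 1), one_pos⟩
  rw [h5] at e0 e1
  have f0 := congrArg Prod.fst e0
  have f1 := congrArg Prod.fst e1
  simp only [Equiv.Perm.coe_one, id_eq] at f0 f1
  apply h3
  linear_combination f0 - f1

theorem rho_jj_le (g : SL2C) : rho (act g jj) jj ≤
    2 * (‖g.1 0 0‖ ^ 2 + ‖g.1 0 1‖ ^ 2) + (‖g.1 1 0‖ ^ 2 + ‖g.1 1 1‖ ^ 2) := by
  have hdet := sl_det g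
  set a := g.1 0 0
  set b := g.1 0 1
  set c := g.1 1 0
  set d := g.1 1 1
  have hD : 1 ≤ (‖a‖ ^ 2 + ‖b‖ ^ 2) * (‖c‖ ^ 2 + ‖d‖ ^ 2) := by
    have h1 : 1 ≤ ‖a‖ * ‖d‖ + ‖b‖ * ‖c‖ := by
      calc (1:ℝ) = ‖a * d - b * c‖ := by rw [hdet, norm_one]
        _ ≤ ‖a * d‖ + ‖b * c‖ := norm_sub_le _ _
        _ = _ := by rw [norm_mul, norm_mul]
    have h2 : 1 ≤ (‖a‖ * ‖d‖ + ‖b‖ * ‖c‖) ^ 2 := one_le_pow₀ h1
    nlinarith [sq_nonneg (‖a‖ * ‖c‖ - ‖b‖ * ‖d‖)]
  have hDpos : 0 < ‖c‖ ^ 2 + ‖d‖ ^ 2 := by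
    by_contra h
    push Not at h
    nlinarith [sq_nonneg ‖a‖, sq_nonneg ‖b‖]
  set D := ‖c‖ ^ 2 + ‖d‖ ^ 2 with hDdef
  have e1 : (act g jj).1.2 = 1 / D := by
    rw [act_snd]
    simp only [jj, mul_zero, zero_add, one_pow, mul_one]
    rw [hDdef, add_comm]
  have e2 : (act g jj).1.1 = (b * (starRingEnd ℂ) d + a * (starRingEnd ℂ) c) / (D : ℂ) := by
    rw [act_fst]
    simp only [jj, mul_zero, zero_add, one_pow, mul_one, Complex.ofReal_one]
    rw [hDdef, add_comm (‖c‖ ^ 2)]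
  have e3 : ‖(act g jj).1.1‖ ^ 2 ≤ (‖a‖ ^ 2 + ‖b‖ ^ 2) / D := by
    rw [e2, norm_div, div_pow, Complex.norm_real, Real.norm_of_nonneg hDpos.le]
    rw [div_le_div_iff₀ (by positivity) hDpos]
    have h1 : ‖b * (starRingEnd ℂ) d + a * (starRingEnd ℂ) c‖ ≤ ‖b‖ * ‖d‖ + ‖a‖ * ‖c‖ := by
      refine (norm_add_le _ _).trans (le_of_eq ?_)
      rw [norm_mul, norm_mul, Complex.norm_conj, Complex.norm_conj]
    have h2 : ‖b * (starRingEnd ℂ) d + a * (starRingEnd ℂ) c‖ ^ 2 ≤ (‖a‖ ^ 2 + ‖b‖ ^ 2) * D := by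
      refine (pow_le_pow_left₀ (norm_nonneg _) h1 2).trans ?_
      rw [hDdef]
      nlinarith [sq_nonneg (‖a‖ * ‖d‖ - ‖b‖ * ‖c‖)]
    calc _ ≤ ((‖a‖ ^ 2 + ‖b‖ ^ 2) * D) * D := mul_le_mul_of_nonneg_right h2 hDpos.le
      _ = _ := by ring
  have e4 : rho (act g jj) jj = (‖(act g jj).1.1‖ ^ 2 + (1 / D - 1) ^ 2) * D := by
    unfold rho
    rw [e1]
    simp only [jj, sub_zero, mul_one]
    field_simp
  rw [e4]
  have e5 : ‖(act g jj).1.1‖ ^ 2 * D ≤ ‖a‖ ^ 2 + ‖b‖ ^ 2 := by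
    rwa [le_div_iff₀ hDpos] at e3
  have e6 : 1 / D ≤ ‖a‖ ^ 2 + ‖b‖ ^ 2 := by
    rw [div_le_iff₀ hDpos]
    exact hD
  have e7 : (1 / D - 1) ^ 2 * D = 1 / D - 2 + D := by
    field_simp
    ring
  rw [add_mul, e7]
  linarith

theorem act_eq_c {g h : SL2C} (e : act g = act h) : ‖g.1 1 0‖ = ‖h.1 1 0‖ := by
  have key : ∀ g : SL2C, 1 / (act g ⟨(0, 1), one_pos⟩).1.2 = ‖g.1 1 1‖ ^ 2 + ‖g.1 1 0‖ ^ 2 ∧
      2 / (act g ⟨(0, 2), two_pos⟩).1.2 = ‖g.1 1 1‖ ^ 2 + ‖g.1 1 0‖ ^ 2 * 4 := by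
    intro g
    rw [act_snd, act_snd]
    constructor
    · simp
    · simp only [mul_zero, zero_add]
      rw [div_div_cancel₀ (by norm_num)]
      norm_num
  obtain ⟨h1, h2⟩ := key g
  obtain ⟨h3, h4⟩ := key h
  rw [e] at h1 h2
  have h5 : ‖g.1 1 0‖ ^ 2 = ‖h.1 1 0‖ ^ 2 := by linarith
  exact (pow_left_inj₀ (norm_nonneg _) (norm_nonneg _) (by norm_num)).1 h5

/-- the Shimizu sequence -/
noncomputable def shim (g : SL2C) : ℕ → SL2C
  | 0 => g
  | n + 1 => shim g n * T 1 * (shim g n)⁻¹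

theorem shim_e (g : SL2C) (n : ℕ) :
    (shim g (n + 1)).1 0 0 = 1 - (shim g n).1 0 0 * (shim g n).1 1 0 ∧
    (shim g (n + 1)).1 0 1 = (shim g n).1 0 0 ^ 2 ∧
    (shim g (n + 1)).1 1 0 = -(shim g n).1 1 0 ^ 2 ∧
    (shim g (n + 1)).1 1 1 = 1 + (shim g n).1 0 0 * (shim g n).1 1 0 := by
  have hdet := sl_det (shim g n)
  obtain ⟨i1, i2, i3, i4⟩ := inv_e (shim g n)
  simp only [shim, mul_e, i1, i2, i3, i4, T_00, T_01, T_10, T_11]
  refine ⟨?_, ?_, ?_, ?_⟩
  · linear_combination hdet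
  · ring
  · ring
  · linear_combination hdet

theorem shimizu (hG : Disc G) (h1 : act (T 1) ∈ G) (g : SL2C) (hg : act g ∈ G)
    (hc : g.1 1 0 ≠ 0) : 1 ≤ ‖g.1 1 0‖ := by
  by_contra hlt
  push Not at hlt
  have hc0 : 0 < ‖g.1 1 0‖ := norm_pos_iff.2 hc
  set A : ℝ := max ‖g.1 0 0‖ (1 / (1 - ‖g.1 1 0‖)) with hA
  have hA1 : 1 ≤ A * (1 - ‖g.1 1 0‖) := by
    have := le_max_right ‖g.1 0 0‖ (1 / (1 - ‖g.1 1 0‖))
    rw [← hA, div_le_iff₀ (by linarith)] at this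
    exact this
  have hA0 : 0 ≤ A := (norm_nonneg _).trans (le_max_left _ _)
  have hmem : ∀ n, act (shim g n) ∈ G := by
    intro n
    induction n with
    | zero => exact hg
    | succ n ih =>
      rw [shim, map_mul, map_mul, map_inv]
      exact G.mul_mem (G.mul_mem ih h1) (G.inv_mem ih)
  have hinv : ∀ n, 0 < ‖(shim g n).1 1 0‖ ∧ ‖(shim g n).1 1 0‖ ≤ ‖g.1 1 0‖ ∧
      ‖(shim g n).1 0 0‖ ≤ A := by
    intro n
    induction n with
    | zero => exact ⟨hc0, le_refl _, le_max_left _ _⟩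
    | succ n ih =>
      obtain ⟨i1, i2, i3⟩ := ih
      obtain ⟨e1, _, e3, _⟩ := shim_e g n
      rw [e1, e3]
      refine ⟨?_, ?_, ?_⟩
      · rw [norm_neg, norm_pow]; positivity
      · rw [norm_neg, norm_pow]; nlinarith
      · calc ‖1 - (shim g n).1 0 0 * (shim g n).1 1 0‖ ≤
              ‖(1:ℂ)‖ + ‖(shim g n).1 0 0 * (shim g n).1 1 0‖ := norm_sub_le _ _
          _ = 1 + ‖(shim g n).1 0 0‖ * ‖(shim g n).1 1 0‖ := by rw [norm_one, norm_mul]
          _ ≤ 1 + A * ‖g.1 1 0‖ := by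
            have := mul_le_mul i3 i2 i1.le hA0
            linarith
          _ ≤ A := by linarith
  have hanti : StrictAnti fun n => ‖(shim g n).1 1 0‖ := by
    refine strictAnti_nat_of_succ_lt fun n => ?_
    obtain ⟨_, _, e3, _⟩ := shim_e g n
    obtain ⟨i1, i2, _⟩ := hinv n
    rw [e3, norm_neg, norm_pow]
    nlinarith
  have hinj : Function.Injective fun n => act (shim g (n + 1)) := by
    intro m n hmn
    have := act_eq_c hmn
    have := hanti.injective this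
    omega
  refine Set.infinite_range_of_injective hinj
    ((hG jj (2 * (A ^ 2 + (A ^ 2) ^ 2) + (1 ^ 2 + (1 + A) ^ 2))).subset ?_)
  rintro _ ⟨n, rfl⟩
  refine ⟨hmem _, (rho_jj_le _).trans ?_⟩
  obtain ⟨e1, e2, e3, e4⟩ := shim_e g n
  obtain ⟨i1, i2, i3⟩ := hinv n
  obtain ⟨j1, j2, j3⟩ := hinv (n + 1)
  have k2 : ‖(shim g (n + 1)).1 0 1‖ ≤ A ^ 2 := by
    rw [e2, norm_pow]
    exact pow_le_pow_left₀ (norm_nonneg _) i3 2
  have k4 : ‖(shim g (n + 1)).1 1 1‖ ≤ 1 + A := by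
    rw [e4]
    calc ‖1 + (shim g n).1 0 0 * (shim g n).1 1 0‖ ≤
              ‖(1:ℂ)‖ + ‖(shim g n).1 0 0 * (shim g n).1 1 0‖ := norm_add_le _ _
      _ = 1 + ‖(shim g n).1 0 0‖ * ‖(shim g n).1 1 0‖ := by rw [norm_one, norm_mul]
      _ ≤ 1 + A * 1 := by
        have := mul_le_mul i3 (i2.trans hlt.le) i1.le hA0
        linarith
      _ = 1 + A := by ring
  have l1 := pow_le_pow_left₀ (norm_nonneg _) j3 2
  have l2 := pow_le_pow_left₀ (norm_nonneg _) k2 2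
  have l3 := pow_le_pow_left₀ (norm_nonneg _) (j2.trans hlt.le) 2
  have l4 := pow_le_pow_left₀ (norm_nonneg _) k4 2
  linarith

/-- counting lemma -/
theorem count (hG : Disc G) (hiso : ∀ γ ∈ G, IsIso γ) (E : Set H3)
    (h : ∀ y ∈ E, ∀ g : SL2C, act g ∈ G → act g y ∈ E → ∃ w, act g = act (T w) ∧ ‖w‖ ≤ 2) :
    ∃ M : ℕ, ∀ x, ∃ S : Finset (Equiv.Perm H3), S.card ≤ M ∧ ∀ γ ∈ G, γ x ∈ E → γ ∈ S := by
  classical
  have hfin := hG jj 4
  set A := hfin.toFinset with hA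
  refine ⟨2 * A.card, fun x => ?_⟩
  have key : ∀ P : Equiv.Perm H3 → Prop,
      (∀ γ ∈ G, ∀ γ' ∈ G, P γ → P γ' → ∃ g : SL2C, γ' * γ⁻¹ = act g) →
      ∃ S : Finset (Equiv.Perm H3), S.card ≤ A.card ∧ ∀ γ ∈ G, P γ → γ x ∈ E → γ ∈ S := by
    intro P hP
    by_cases hex : ∃ γ ∈ G, P γ ∧ γ x ∈ E
    · obtain ⟨γ, hγ, hPγ, hx⟩ := hex
      refine ⟨A.image (fun α => α * γ), Finset.card_image_le, ?_⟩
      intro γ' hγ' hPγ' hx'
      obtain ⟨g, hg⟩ := hP γ hγ γ' hγ' hPγ hPγ'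
      have hgG : act g ∈ G := by
        rw [← hg]
        exact G.mul_mem hγ' (G.inv_mem hγ)
      obtain ⟨w, hw, hw2⟩ := h (γ x) hx g hgG (by
        rw [← hg]
        simpa using hx')
      rw [Finset.mem_image]
      refine ⟨act g, ?_, ?_⟩
      · rw [hA, Set.Finite.mem_toFinset]
        refine ⟨hgG, ?_⟩
        rw [hw, rho_T]
        nlinarith [norm_nonneg w]
      · rw [← hg]
        simp
    · push Not at hex
      exact ⟨∅, by simp, fun γ hγ hPγ hx => absurd hx (hex γ hγ hPγ)⟩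
  obtain ⟨S1, hS1, hS1'⟩ := key (fun γ => ∃ g : SL2C, γ = act g) (by
    rintro γ hγ γ' hγ' ⟨g, rfl⟩ ⟨g', rfl⟩
    exact ⟨g' * g⁻¹, by rw [map_mul, map_inv]⟩)
  obtain ⟨S2, hS2, hS2'⟩ := key (fun γ => ∃ g : SL2C, γ = act g * cj) (by
    rintro γ hγ γ' hγ' ⟨g, rfl⟩ ⟨g', rfl⟩
    refine ⟨g' * g⁻¹, ?_⟩
    rw [map_mul, map_inv]
    group)
  refine ⟨S1 ∪ S2, (Finset.card_union_le _ _).trans (by omega), ?_⟩
  intro γ hγ hx
  rw [Finset.mem_union]
  rcases iso_classification γ (hiso γ hγ) with h1 | h1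
  · exact Or.inl (hS1' γ hγ h1 hx)
  · exact Or.inr (hS2' γ hγ h1 hx)

theorem act_of_c_zero (hG : Disc G) (htf : TF G) (h1 : act (T 1) ∈ G) (g : SL2C)
    (hg : act g ∈ G) (hc : g.1 1 0 = 0) : ∃ w, act g = act (T w) := by
  have hdet := sl_det g
  rw [hc, mul_zero, sub_zero] at hdet
  rcases c_zero hG htf h1 g hg hc with ha | ha
  · refine ⟨g.1 0 1, ?_⟩
    congr 1
    apply ext4 <;> simp only [T_00, T_01, T_10, T_11]
    · exact ha
    · exact hc
    · rw [ha, one_mul] at hdet; exact hdet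
  · refine ⟨-g.1 0 1, ?_⟩
    rw [← act_neg g]
    congr 1
    apply ext4 <;> simp only [T_00, T_01, T_10, T_11, Matrix.SpecialLinearGroup.coe_neg,
      Matrix.neg_apply]
    · rw [ha]; norm_num
    · rw [hc, neg_zero]
    · rw [ha] at hdet; linear_combination hdet

theorem height (g : SL2C) (hc : 1 ≤ ‖g.1 1 0‖) (y : H3) (hy : 1 < y.1.2) :
    (act g y).1.2 < 1 := by
  rw [act_snd]
  have h1 : y.1.2 ^ 2 ≤ ‖g.1 1 0 * y.1.1 + g.1 1 1‖ ^ 2 + ‖g.1 1 0‖ ^ 2 * y.1.2 ^ 2 := by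
    have h2 : 1 ≤ ‖g.1 1 0‖ ^ 2 := one_le_pow₀ hc
    have h3 : 0 ≤ ‖g.1 1 0 * y.1.1 + g.1 1 1‖ ^ 2 := by positivity
    nlinarith [sq_nonneg y.1.2]
  have h0 : 0 < y.1.2 ^ 2 := by positivity
  rw [div_lt_one (by linarith)]
  nlinarith

theorem vol_strip : mu {x : H3 | 0 ≤ x.1.1.re ∧ x.1.1.re < 1 ∧ 1 < x.1.2} = ⊤ := by
  set φ := aff 1 Complex.I one_ne_zero with hφ
  have hpow : ∀ n : ℕ, ∀ x : H3, ((φ ^ n) x).1 = (x.1.1 + n * Complex.I, x.1.2) := by
    intro n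
    induction n with
    | zero => intro x; simp
    | succ n ih =>
      intro x
      rw [pow_succ, Equiv.Perm.mul_apply, ih]
      simp only [hφ, aff, Equiv.coe_fn_mk, norm_one, one_mul]
      push_cast
      congr 1
      ring
  refine mu_eq_top φ (aff_mp _ _ _) _
    {x : H3 | 0 ≤ x.1.1.re ∧ x.1.1.re < 1 ∧ 0 ≤ x.1.1.im ∧ x.1.1.im < 1 ∧ 1 < x.1.2} ?_ ?_ ?_ ?_
  · have m1 : Measurable fun x : H3 => x.1.1.re := by fun_prop
    have m2 : Measurable fun x : H3 => x.1.1.im := by fun_prop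
    have m3 : Measurable fun x : H3 => x.1.2 := by fun_prop
    exact (measurableSet_le measurable_const m1).inter ((measurableSet_lt m1 measurable_const).inter
      ((measurableSet_le measurable_const m2).inter ((measurableSet_lt m2 measurable_const).inter
      (measurableSet_lt measurable_const m3))))
  · have hopen : IsOpen {x : H3 | 0 < x.1.1.re ∧ x.1.1.re < 1 ∧ 0 < x.1.1.im ∧ x.1.1.im < 1 ∧ 1 < x.1.2} := by
      have m1 : Continuous fun x : H3 => x.1.1.re := by fun_prop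
      have m2 : Continuous fun x : H3 => x.1.1.im := by fun_prop
      have m3 : Continuous fun x : H3 => x.1.2 := by fun_prop
      exact (isOpen_lt continuous_const m1).inter ((isOpen_lt m1 continuous_const).inter
        ((isOpen_lt continuous_const m2).inter ((isOpen_lt m2 continuous_const).inter
        (isOpen_lt continuous_const m3))))
    intro h0
    refine mu_pos hopen ⟨⟨(⟨1/2, 1/2⟩, 2), two_pos⟩, ?_⟩ (measure_mono_null ?_ h0)
    · refine ⟨?_, ?_, ?_, ?_, ?_⟩ <;> norm_num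
    · rintro x ⟨a1, a2, a3, a4, a5⟩
      exact ⟨a1.le, a2, a3.le, a4, a5⟩
  · intro m n hmn
    refine Set.disjoint_left.2 ?_
    intro x hx hy
    obtain ⟨_, _, a3, a4, _⟩ := hx
    obtain ⟨_, _, b3, b4, _⟩ := hy
    rw [hpow] at a3 a4 b3 b4
    simp at a3 a4 b3 b4
    apply hmn
    have h1 : (m : ℝ) < n + 1 := by linarith
    have h2 : (n : ℝ) < m + 1 := by linarith
    have h3 : m < n + 1 := by exact_mod_cast h1
    have h4 : n < m + 1 := by exact_mod_cast h2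
    omega
  · intro n x hx
    obtain ⟨a1, a2, _, _, a5⟩ := hx
    rw [hpow] at a1 a2 a5
    simp at a1 a2 a5
    exact ⟨a1, a2, a5⟩

theorem vol_low : mu {x : H3 | ‖x.1.1‖ < 1 ∧ x.1.2 < 1} = ⊤ := by
  set φ := aff 2 0 two_ne_zero with hφ
  have hpow : ∀ n : ℕ, ∀ x : H3, ((φ ^ n) x).1 = (2 ^ n * x.1.1, 2 ^ n * x.1.2) := by
    intro n
    induction n with
    | zero => intro x; simp
    | succ n ih =>
      intro x
      rw [pow_succ, Equiv.Perm.mul_apply, ih]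
      simp only [hφ, aff, Equiv.coe_fn_mk, Complex.norm_ofNat, add_zero]
      congr 1 <;> ring
  refine mu_eq_top φ (aff_mp _ _ _) _
    {x : H3 | ‖x.1.1‖ < 1 ∧ 1 / 2 ≤ x.1.2 ∧ x.1.2 < 1} ?_ ?_ ?_ ?_
  · have m1 : Measurable fun x : H3 => ‖x.1.1‖ := by fun_prop
    have m3 : Measurable fun x : H3 => x.1.2 := by fun_prop
    exact (measurableSet_lt m1 measurable_const).inter ((measurableSet_le measurable_const m3).inter
      (measurableSet_lt m3 measurable_const))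
  · have hopen : IsOpen {x : H3 | ‖x.1.1‖ < 1 ∧ 1 / 2 < x.1.2 ∧ x.1.2 < 1} := by
      have m1 : Continuous fun x : H3 => ‖x.1.1‖ := by fun_prop
      have m3 : Continuous fun x : H3 => x.1.2 := by fun_prop
      exact (isOpen_lt m1 continuous_const).inter ((isOpen_lt continuous_const m3).inter
        (isOpen_lt m3 continuous_const))
    intro h0
    refine mu_pos hopen ⟨⟨(0, 3/4), by norm_num⟩, ?_⟩ (measure_mono_null ?_ h0)
    · refine ⟨?_, ?_, ?_⟩ <;> norm_num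
    · rintro x ⟨a1, a2, a3⟩
      exact ⟨a1, a2.le, a3⟩
  · have key : ∀ m n : ℕ, m < n → ∀ t : ℝ, 1 / 2 ≤ 2 ^ m * t → 2 ^ n * t < 1 → False := by
      intro m n hmn t h1 h2
      have ht : 0 < t := by
        by_contra hc
        push Not at hc
        have : (2:ℝ) ^ m * t ≤ 0 := mul_nonpos_of_nonneg_of_nonpos (by positivity) hc
        linarith
      have h3 : (2:ℝ) ^ (m + 1) ≤ 2 ^ n := pow_le_pow_right₀ (by norm_num) hmn
      have h4 := mul_le_mul_of_nonneg_right h3 ht.le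
      rw [pow_succ] at h4
      linarith
    intro m n hmn
    refine Set.disjoint_left.2 ?_
    intro x hx hy
    obtain ⟨_, a2, a3⟩ := hx
    obtain ⟨_, b2, b3⟩ := hy
    rw [hpow] at a2 a3 b2 b3
    rcases lt_or_gt_of_ne hmn with h | h
    · exact key m n h _ a2 b3
    · exact key n m h _ b2 a3
  · intro n x hx
    obtain ⟨a1, a2, a3⟩ := hx
    rw [hpow] at a1 a2 a3
    simp only at a1 a2 a3
    have h1 : (1:ℝ) ≤ 2 ^ n := one_le_pow₀ (by norm_num)
    have hx := x.2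
    refine ⟨?_, ?_⟩
    · rw [norm_mul, norm_pow, Complex.norm_ofNat] at a1
      nlinarith [norm_nonneg x.1.1]
    · nlinarith

/-- the cusp group has rank two and there are elements outside the cusp group -/
theorem cusp_main (hG : Disc G) (hiso : ∀ γ ∈ G, IsIso γ) (htf : TF G)
    (hmp : ∀ γ ∈ G, MeasurePreserving γ mu mu) (hF : FinCov G) (h1 : act (T 1) ∈ G) :
    (∃ ω : ℂ, ω.im ≠ 0 ∧ act (T ω) ∈ G) ∧ (∃ g : SL2C, act g ∈ G ∧ g.1 1 0 ≠ 0) := by
  constructor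
  · by_contra hcon
    push Not at hcon
    obtain ⟨M, hM⟩ := count hG hiso {x : H3 | 0 ≤ x.1.1.re ∧ x.1.1.re < 1 ∧ 1 < x.1.2} (by
      rintro y ⟨y1, y2, y3⟩ g hg ⟨z1, z2, z3⟩
      have hc : g.1 1 0 = 0 := by
        by_contra hc
        have := height g (shimizu hG h1 g hg hc) y y3
        linarith
      obtain ⟨w, hw⟩ := act_of_c_zero hG htf h1 g hg hc
      refine ⟨w, hw, ?_⟩
      have him : w.im = 0 := by
        by_contra him
        exact hcon w him (hw ▸ hg)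
      rw [hw, act_T] at z1 z2
      simp only [Complex.add_re] at z1 z2
      have hwr : w = (w.re : ℂ) := by
        apply Complex.ext
        · simp
        · simp [him]
      rw [hwr, Complex.norm_real, Real.norm_eq_abs]
      apply abs_le.2
      constructor <;> linarith)
    have := packing G hG hmp hF _ (by
      have m1 : Measurable fun x : H3 => x.1.1.re := by fun_prop
      have m3 : Measurable fun x : H3 => x.1.2 := by fun_prop
      exact (measurableSet_le measurable_const m1).inter ((measurableSet_lt m1 measurable_const).inter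
        (measurableSet_lt measurable_const m3))) M hM
    rw [vol_strip] at this
    exact lt_irrefl _ this
  · by_contra hcon
    push Not at hcon
    obtain ⟨M, hM⟩ := count hG hiso {x : H3 | ‖x.1.1‖ < 1 ∧ x.1.2 < 1} (by
      rintro y ⟨y1, y2⟩ g hg ⟨z1, z2⟩
      obtain ⟨w, hw⟩ := act_of_c_zero hG htf h1 g hg (hcon g hg)
      refine ⟨w, hw, ?_⟩
      rw [hw, act_T] at z1
      simp only at z1
      calc ‖w‖ = ‖(y.1.1 + w) - y.1.1‖ := by congr 1; ring
        _ ≤ ‖y.1.1 + w‖ + ‖y.1.1‖ := norm_sub_le _ _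
        _ ≤ 2 := by linarith)
    have := packing G hG hmp hF _ (by
      have m1 : Measurable fun x : H3 => ‖x.1.1‖ := by fun_prop
      have m3 : Measurable fun x : H3 => x.1.2 := by fun_prop
      exact (measurableSet_lt m1 measurable_const).inter
        (measurableSet_lt m3 measurable_const)) M hM
    rw [vol_low] at this
    exact lt_irrefl _ this

end Pool.Agent.Work.MP_67f4ac_gt
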