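import Mathlib
import Pool.Agent.Work.MP_67f4ac_gt.Cusp
import Pool.Agent.Work.MP_67f4ac_gt.MpIso

set_option autoImplicit false

namespace Pool.Agent.Work.MP_67f4ac_gt

open Filter Topology MeasureTheory

theorem IsIso.mul {γ δ : Equiv.Perm H3} (h1 : IsIso γ) (h2 : IsIso δ) : IsIso (γ * δ) := by
  intro x y
  rw [Equiv.Perm.mul_apply, Equiv.Perm.mul_apply, h1, h2]

theorem IsIso.inv {γ : Equiv.Perm H3} (h1 : IsIso γ) : IsIso γ⁻¹ := by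
  intro x y
  rw [h1.symm_apply]
  simp

/-- conjugate subgroup -/
def cg (φ : Equiv.Perm H3) (Γ : Subgroup (Equiv.Perm H3)) : Subgroup (Equiv.Perm H3) :=
  Γ.map (MulAut.conj φ).toMonoidHom

theorem mem_cg {φ γ : Equiv.Perm H3} {Γ : Subgroup (Equiv.Perm H3)} :
    γ ∈ cg φ Γ ↔ φ⁻¹ * γ * φ ∈ Γ := by
  unfold cg
  rw [Subgroup.mem_map]
  constructor
  · rintro ⟨δ, hδ, rfl⟩
    simp only [MulEquiv.coe_toMonoidHom, MulAut.conj_apply]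
    convert hδ using 1
    group
  · intro h
    refine ⟨_, h, ?_⟩
    simp only [MulEquiv.coe_toMonoidHom, MulAut.conj_apply]
    group

/-- MODULE A2: the cusp -/
theorem geometry (Γ : Subgroup (Equiv.Perm H3)) (hiso : ∀ γ ∈ Γ, IsIso γ)
    (hdisc : ∀ x : H3, ∀ R : ℝ, Set.Finite {γ : Equiv.Perm H3 | γ ∈ Γ ∧ rho (γ x) x ≤ R})
    (htf : ∀ γ ∈ Γ, ∀ n : ℕ, 0 < n → γ ^ n = 1 → γ = 1)
    (hcov : ∃ F : Set (ℂ × ℝ), MeasurableSet F ∧ (∀ p ∈ F, 0 < p.2) ∧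
      (∫⁻ p in F, ENNReal.ofReal (1 / p.2 ^ 3)) < ⊤ ∧ ∀ x : H3, ∃ γ ∈ Γ, (γ x).1 ∈ F)
    (hncpt : ¬ ∃ K : Set H3, IsCompact K ∧ ∀ x : H3, ∃ γ ∈ Γ, γ x ∈ K)
    (hfin : ∃ N : ℝ, 0 < N ∧ {ℓ : ℝ | 0 < ℓ ∧ ℓ ≤ N ∧ ∃ γ ∈ Γ,
      Real.cosh ℓ = 1 + (⨅ x : H3, rho (γ x) x) / 2}.Finite) :
    ∃ (ψ : SL2C) (ω : ℂ), ω.im ≠ 0 ∧
      (act ψ)⁻¹ * act (T 1) * act ψ ∈ Γ ∧ (act ψ)⁻¹ * act (T ω) * act ψ ∈ Γ ∧
      (∀ g : SL2C, (act ψ)⁻¹ * act g * act ψ ∈ Γ → g.1 1 0 = 0 → g.1 0 0 = 1 ∨ g.1 0 0 = -1) ∧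
      (∃ g : SL2C, (act ψ)⁻¹ * act g * act ψ ∈ Γ ∧ g.1 1 0 ≠ 0) := by
  have hF : FinCov Γ := exists_F Γ hcov
  obtain ⟨ψ, hψ⟩ := exists_parabolic Γ hdisc hiso htf (fun γ hγ => mp_of_iso γ (hiso γ hγ)) hF
    hncpt hfin
  set φ := act ψ with hφ
  have hφiso : IsIso φ := act_iso ψ
  have hφmp : MeasurePreserving φ mu mu := mp_of_iso φ hφiso
  have hφimp : MeasurePreserving (φ⁻¹ : Equiv.Perm H3) mu mu := mp_of_iso _ hφiso.inv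
  set G := cg φ Γ with hG
  have hGiso : ∀ γ ∈ G, IsIso γ := by
    intro γ hγ
    have h := hiso _ (mem_cg.1 hγ)
    have : γ = φ * (φ⁻¹ * γ * φ) * φ⁻¹ := by group
    rw [this]
    exact (hφiso.mul h).mul hφiso.inv
  have hGdisc : Disc G := by
    intro x R
    refine ((hdisc (φ⁻¹ x) R).image (fun γ => φ * γ * φ⁻¹)).subset ?_
    rintro γ ⟨hγ, hx⟩
    refine ⟨φ⁻¹ * γ * φ, ⟨mem_cg.1 hγ, ?_⟩, ?_⟩
    · have := hφiso.inv (γ x) x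
      rw [← this] at hx
      simpa using hx
    · simp only
      group
  have hGtf : TF G := by
    intro γ hγ n hn h
    have h1 : (φ⁻¹ * γ * φ) ^ n = 1 := by
      have := conj_pow (a := φ⁻¹) (b := γ) (i := n)
      rw [inv_inv] at this
      rw [this, h]
      group
    have h2 := htf _ (mem_cg.1 hγ) n hn h1
    have : γ = φ * (φ⁻¹ * γ * φ) * φ⁻¹ := by group
    rw [this, h2]
    group
  have hGF : FinCov G := by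
    obtain ⟨F, hFm, hFf, hFc⟩ := hF
    refine ⟨(φ⁻¹ : Equiv.Perm H3) ⁻¹' F, hφimp.measurable hFm, ?_, ?_⟩
    · rw [hφimp.measure_preimage hFm.nullMeasurableSet]
      exact hFf
    · intro x
      obtain ⟨γ, hγ, hx⟩ := hFc (φ⁻¹ x)
      refine ⟨φ * γ * φ⁻¹, ?_, ?_⟩
      · rw [hG, mem_cg]
        convert hγ using 1
        group
      · simpa using hx
  have h1 : act (T 1) ∈ G := mem_cg.2 hψ
  obtain ⟨⟨ω, hω, hω'⟩, g, hg, hgc⟩ := cusp_main hGdisc hGiso hGtf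
    (fun γ hγ => mp_of_iso γ (hGiso γ hγ)) hGF h1
  exact ⟨ψ, ω, hω, hψ, mem_cg.1 hω', fun g hg hc => c_zero hGdisc hGtf h1 g (mem_cg.2 hg) hc,
    g, mem_cg.1 hg, hgc⟩

end Pool.Agent.Work.MP_67f4ac_gt
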