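import Mathlib
import Pool.Agent.Work.MP_67f4ac_gt.Bianchi
import Pool.Agent.Work.MP_67f4ac_gt.Geometry
import Pool.Agent.Work.MP_67f4ac_gt.FiniteIndex

set_option autoImplicit false
set_option linter.all false

namespace Pool.Agent.Work.MP_67f4ac_gt

open Filter Topology NumberField

lemma f_ge (τ : ℂ) : 4 ≤ f τ := by
  unfold f
  have h1 : ‖(4 : ℂ)‖ ≤ ‖τ ^ 2‖ + ‖τ ^ 2 - 4‖ := by
    have : (4 : ℂ) = τ ^ 2 - (τ ^ 2 - 4) := by ring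
    calc ‖(4 : ℂ)‖ = ‖τ ^ 2 - (τ ^ 2 - 4)‖ := by rw [← this]
      _ ≤ _ := norm_sub_le _ _
  rw [norm_pow] at h1
  have h2 : ‖(4 : ℂ)‖ = 4 := by simp
  linarith

lemma f_eq_four_of_sq {τ : ℂ} (h : τ ^ 2 = 4) : f τ = 4 := by
  unfold f
  rw [← norm_pow, h]; simp

/-- the set of lengths -/
def Lset (Γ : Subgroup (Equiv.Perm H3)) (n : ℝ) : Set ℝ :=
  {ℓ : ℝ | 0 < ℓ ∧ ℓ ≤ n ∧ ∃ γ ∈ Γ, Real.cosh ℓ = 1 + (⨅ x : H3, rho (γ x) x) / 2}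

lemma growth (Γ : Subgroup (Equiv.Perm H3)) (G : Subgroup SL2C) (ψ : SL2C)
    (hG : ∀ g, g ∈ G ↔ (act ψ)⁻¹ * act g * act ψ ∈ Γ)
    (hc0 : ∀ g ∈ G, g.1 1 0 = 0 → g.1 0 0 = 1 ∨ g.1 0 0 = -1)
    (hc : ∃ c : ℝ, 0 < c ∧ ∀ᶠ n : ℕ in atTop, c ≤ Real.exp (-(n : ℝ)) * ((Lset Γ n).ncard : ℝ))
    (hC : ∃ C : ℝ, ∃ᶠ n : ℕ in atTop, Real.exp (-(n : ℝ)) * ((Lset Γ n).ncard : ℝ) ≤ C) :
    BoundedGrowth G := by
  obtain ⟨c, hc0', hc⟩ := hc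
  obtain ⟨C, hC⟩ := hC
  refine ⟨|C| + 1, (hC.and_eventually hc).mono ?_⟩
  rintro n ⟨hn1, hn2⟩
  have hfin : (Lset Γ n).Finite := by
    by_contra hinf
    have : (Lset Γ n).ncard = 0 := Set.Infinite.ncard hinf
    rw [this] at hn2
    simp at hn2
    linarith
  have hsub : {v : ℝ | v ≤ 4 * Real.cosh n ∧ ∃ g ∈ G, v = f (tr g)} ⊆
      insert 4 ((fun ℓ : ℝ => 4 * Real.cosh ℓ) '' (Lset Γ n)) := by
    rintro v ⟨hv, g, hg, rfl⟩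
    rw [Set.mem_insert_iff]
    by_cases h4 : f (tr g) = 4
    · left; exact h4
    right
    have hgt : 4 < f (tr g) := lt_of_le_of_ne (f_ge _) (Ne.symm h4)
    have hcne : g.1 1 0 ≠ 0 := by
      intro h0
      apply h4
      apply f_eq_four_of_sq
      have hdet := det_eq g
      rw [h0] at hdet
      unfold tr
      rcases hc0 g hg h0 with h1 | h1
      · rw [h1] at hdet ⊢
        have : g.1 1 1 = 1 := by linear_combination hdet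
        rw [this]; norm_num
      · rw [h1] at hdet ⊢
        have : g.1 1 1 = -1 := by linear_combination -hdet
        rw [this]; norm_num
    have htr : tr g ^ 2 ≠ 4 := fun h => h4 (f_eq_four_of_sq h)
    have hinf := iInf_rho g hcne htr
    set γ : Equiv.Perm H3 := (act ψ)⁻¹ * act g * act ψ with hγ
    have hγΓ : γ ∈ Γ := (hG g).mp hg
    have hinf2 : (⨅ x : H3, rho (γ x) x) = ⨅ x : H3, rho (act g x) x := by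
      have h1 : ∀ x : H3, rho (γ x) x = rho (act g (act ψ x)) (act ψ x) := by
        intro x
        rw [← act_iso ψ (γ x) x]
        have : act ψ (γ x) = act g (act ψ x) := by
          rw [hγ]
          show act ψ ((act ψ)⁻¹ (act g (act ψ x))) = _
          exact Equiv.apply_symm_apply _ _
        rw [this]
      simp_rw [h1]
      exact (act ψ).surjective.iInf_comp (fun y => rho (act g y) y)
    set ℓ : ℝ := Real.arcosh (f (tr g) / 4) with hℓ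
    have hcosh : Real.cosh ℓ = f (tr g) / 4 := Real.cosh_arcosh (by linarith)
    have hℓ0 : 0 < ℓ := by
      have h1 : 0 ≤ ℓ := Real.arcosh_nonneg (by linarith)
      rcases h1.eq_or_lt with h2 | h2
      · rw [← h2, Real.cosh_zero] at hcosh; linarith
      · exact h2
    refine ⟨ℓ, ⟨hℓ0, ?_, γ, hγΓ, ?_⟩, ?_⟩
    · have h1 : Real.cosh ℓ ≤ Real.cosh n := by rw [hcosh]; linarith
      have h2 := Real.cosh_le_cosh.mp h1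
      rw [abs_of_pos hℓ0, abs_of_nonneg (Nat.cast_nonneg n)] at h2
      exact h2
    · rw [hcosh, hinf2, hinf]; ring
    · show 4 * Real.cosh ℓ = _
      rw [hcosh]; ring
  have hfin' : (insert 4 ((fun ℓ : ℝ => 4 * Real.cosh ℓ) '' (Lset Γ n))).Finite :=
    (hfin.image _).insert _
  refine ⟨hfin'.subset hsub, ?_⟩
  have h1 : {v : ℝ | v ≤ 4 * Real.cosh n ∧ ∃ g ∈ G, v = f (tr g)}.ncard ≤ (Lset Γ n).ncard + 1 := by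
    refine (Set.ncard_le_ncard hsub hfin').trans ?_
    refine (Set.ncard_insert_le _ _).trans ?_
    exact Nat.add_le_add_right (Set.ncard_image_le hfin) 1
  have h2 : ({v : ℝ | v ≤ 4 * Real.cosh n ∧ ∃ g ∈ G, v = f (tr g)}.ncard : ℝ) ≤ ((Lset Γ n).ncard : ℝ) + 1 := by
    exact_mod_cast h1
  refine h2.trans ?_
  have h3 : ((Lset Γ n).ncard : ℝ) ≤ C * Real.exp n := by
    have h4 : ((Lset Γ n).ncard : ℝ) = (Real.exp (-(n : ℝ)) * ((Lset Γ n).ncard : ℝ)) * Real.exp n := by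
      rw [mul_comm (Real.exp (-(n : ℝ))), mul_assoc, ← Real.exp_add]
      simp
    rw [h4]
    exact mul_le_mul_of_nonneg_right hn1 (Real.exp_pos _).le
  have h5 : C * Real.exp n ≤ |C| * Real.exp n := mul_le_mul_of_nonneg_right (le_abs_self C) (Real.exp_pos _).le
  have h6 : (1 : ℝ) ≤ Real.exp n := Real.one_le_exp (Nat.cast_nonneg n)
  linarith

/-- conjugation by complex conjugation -/
lemma cj_act_cj (g : SL2C) : ∃ g' : SL2C, cj⁻¹ * act g * cj = act g' := by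
  have hdet : (starRingEnd ℂ) (g.1 0 0) * (starRingEnd ℂ) (g.1 1 1) - (starRingEnd ℂ) (g.1 0 1) *
      (starRingEnd ℂ) (g.1 1 0) = 1 := by
    rw [← map_mul, ← map_mul, ← map_sub, det_eq, map_one]
  refine ⟨⟨!![(starRingEnd ℂ) (g.1 0 0), (starRingEnd ℂ) (g.1 0 1); (starRingEnd ℂ) (g.1 1 0),
    (starRingEnd ℂ) (g.1 1 1)], by rw [Matrix.det_fin_two_of]; exact hdet⟩, ?_⟩
  set g' : SL2C := ⟨!![(starRingEnd ℂ) (g.1 0 0), (starRingEnd ℂ) (g.1 0 1); (starRingEnd ℂ) (g.1 1 0),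
    (starRingEnd ℂ) (g.1 1 1)], by rw [Matrix.det_fin_two_of]; exact hdet⟩ with hg'
  have e00 : g'.1 0 0 = (starRingEnd ℂ) (g.1 0 0) := rfl
  have e01 : g'.1 0 1 = (starRingEnd ℂ) (g.1 0 1) := rfl
  have e10 : g'.1 1 0 = (starRingEnd ℂ) (g.1 1 0) := rfl
  have e11 : g'.1 1 1 = (starRingEnd ℂ) (g.1 1 1) := rfl
  rw [mul_assoc, inv_mul_eq_iff_eq_mul]
  apply Equiv.ext
  intro p
  show act g (cj p) = cj (act g' p)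
  have hcp := cj_apply p
  have h1 : (cj p).1.1 = (starRingEnd ℂ) p.1.1 := by rw [hcp]
  have h2 : (cj p).1.2 = p.1.2 := by rw [hcp]
  have hn1 : ‖(starRingEnd ℂ) (g.1 1 0) * p.1.1 + (starRingEnd ℂ) (g.1 1 1)‖ =
      ‖g.1 1 0 * (starRingEnd ℂ) p.1.1 + g.1 1 1‖ := by
    have : (starRingEnd ℂ) (g.1 1 0) * p.1.1 + (starRingEnd ℂ) (g.1 1 1) =
        (starRingEnd ℂ) (g.1 1 0 * (starRingEnd ℂ) p.1.1 + g.1 1 1) := by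
      rw [map_add, map_mul, Complex.conj_conj]
    rw [this, Complex.norm_conj]
  apply Subtype.ext
  apply Prod.ext
  · rw [act_fst, h1, h2, cj_apply]
    show _ = (starRingEnd ℂ) (act g' p).1.1
    rw [act_fst, e00, e01, e10, e11, hn1, Complex.norm_conj]
    simp only [map_div₀, map_add, map_mul, map_pow, Complex.conj_conj, Complex.conj_ofReal]
  · rw [act_snd, h1, h2, cj_apply]
    show _ = (act g' p).1.2
    rw [act_snd, e10, e11, hn1, Complex.norm_conj]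

theorem final_core (hs : SieveStatement) (Γ : Subgroup (Equiv.Perm H3)) (hiso : ∀ γ ∈ Γ, IsIso γ)
    (hdisc : ∀ x : H3, ∀ R : ℝ, Set.Finite {γ : Equiv.Perm H3 | γ ∈ Γ ∧ rho (γ x) x ≤ R})
    (htf : ∀ γ ∈ Γ, ∀ n : ℕ, 0 < n → γ ^ n = 1 → γ = 1)
    (hcov : ∃ F : Set (ℂ × ℝ), MeasurableSet F ∧ (∀ p ∈ F, 0 < p.2) ∧
      (∫⁻ p in F, ENNReal.ofReal (1 / p.2 ^ 3)) < ⊤ ∧ ∀ x : H3, ∃ γ ∈ Γ, (γ x).1 ∈ F)
    (hncpt : ¬ ∃ K : Set H3, IsCompact K ∧ ∀ x : H3, ∃ γ ∈ Γ, γ x ∈ K)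
    (hc : ∃ c : ℝ, 0 < c ∧ ∀ᶠ n : ℕ in atTop, c ≤ Real.exp (-(n : ℝ)) * ((Lset Γ n).ncard : ℝ))
    (hC : ∃ C : ℝ, ∃ᶠ n : ℕ in atTop, Real.exp (-(n : ℝ)) * ((Lset Γ n).ncard : ℝ) ≤ C) :
    ∃ d : ℕ, 0 < d ∧ ∃ φ : Equiv.Perm H3, IsIso φ ∧
      (∃ S : Finset (Equiv.Perm H3), ∀ γ ∈ Γ, ∃ s ∈ S, s⁻¹ * γ ∈ Γ ∧
        ∃ g : SL2C, IsBianchi d g ∧ φ * (s⁻¹ * γ) * φ⁻¹ = act g) ∧
      (∃ S : Finset (Equiv.Perm H3), ∀ δ : Equiv.Perm H3,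
        (∃ g : SL2C, IsBianchi d g ∧ φ * δ * φ⁻¹ = act g) →
        ∃ s ∈ S, s⁻¹ * δ ∈ Γ ∧ ∃ g : SL2C, IsBianchi d g ∧ φ * (s⁻¹ * δ) * φ⁻¹ = act g) := by
  classical
  -- finiteness of lengths
  have hfin : ∃ N : ℝ, 0 < N ∧ {ℓ : ℝ | 0 < ℓ ∧ ℓ ≤ N ∧ ∃ γ ∈ Γ,
      Real.cosh ℓ = 1 + (⨅ x : H3, rho (γ x) x) / 2}.Finite := by
    obtain ⟨c, hc0, hc⟩ := hc
    obtain ⟨n, hn, hn1⟩ := (hc.and (eventually_ge_atTop 1)).exists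
    refine ⟨n, by exact_mod_cast hn1, ?_⟩
    by_contra hinf
    have : (Lset Γ n).ncard = 0 := Set.Infinite.ncard hinf
    rw [this] at hn
    simp at hn
    linarith
  obtain ⟨ψ, ω, hω, hT1, hTω, hc0, hne⟩ := geometry Γ hiso hdisc htf hcov hncpt hfin
  -- the pulled back group
  let G : Subgroup SL2C := Γ.comap ((MulAut.conj (act ψ)⁻¹).toMonoidHom.comp act)
  have hG : ∀ g, g ∈ G ↔ (act ψ)⁻¹ * act g * act ψ ∈ Γ := by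
    intro g
    show (act ψ)⁻¹ * act g * ((act ψ)⁻¹)⁻¹ ∈ Γ ↔ _
    rw [inv_inv]
  have hGc0 : ∀ g ∈ G, g.1 1 0 = 0 → g.1 0 0 = 1 ∨ g.1 0 0 = -1 := fun g hg => hc0 g ((hG g).mp hg)
  have hgrowth : BoundedGrowth G := growth Γ G ψ hG hGc0 hc hC
  have hGne : ∃ g ∈ G, g.1 1 0 ≠ 0 := by
    obtain ⟨g, hg, hgc⟩ := hne
    exact ⟨g, (hG g).mpr hg, hgc⟩
  obtain ⟨d, hd, h, S₀, hS₀, hS₀'⟩ := nt_main hs G ω hω ((hG _).mpr hT1) ((hG _).mpr hTω) hGc0 hGne hgrowth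
  set φ : Equiv.Perm H3 := act h * act ψ with hφ
  have hφiso : IsIso φ := by
    intro x y
    show rho (act h (act ψ x)) (act h (act ψ y)) = _
    rw [act_iso, act_iso]
  -- orientation preserving elements
  have hpres : ∀ g : SL2C, act g ∈ Γ → ∃ s ∈ S₀.image (fun s => (act ψ)⁻¹ * act s * act ψ),
      s⁻¹ * act g ∈ Γ ∧ ∃ b : SL2C, IsBianchi d b ∧ φ * (s⁻¹ * act g) * φ⁻¹ = act b := by
    intro g hg
    have hg' : ψ * g * ψ⁻¹ ∈ G := by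
      rw [hG, map_mul, map_mul, map_inv]
      have : (act ψ)⁻¹ * (act ψ * act g * (act ψ)⁻¹) * act ψ = act g := by group
      rw [this]; exact hg
    obtain ⟨s, hsS, hsB⟩ := hS₀' _ hg'
    refine ⟨(act ψ)⁻¹ * act s * act ψ, Finset.mem_image.mpr ⟨s, hsS, rfl⟩, ?_, ?_⟩
    · exact Γ.mul_mem (Γ.inv_mem ((hG s).mp (hS₀ s hsS))) hg
    · refine ⟨_, hsB, ?_⟩
      rw [hφ]
      simp only [map_mul, map_inv]
      group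
  -- all elements
  have hfirst : ∃ S : Finset (Equiv.Perm H3), ∀ γ ∈ Γ, ∃ s ∈ S, s⁻¹ * γ ∈ Γ ∧
        ∃ g : SL2C, IsBianchi d g ∧ φ * (s⁻¹ * γ) * φ⁻¹ = act g := by
    set S₁ := S₀.image (fun s => (act ψ)⁻¹ * act s * act ψ) with hS₁
    by_cases hrev : ∃ γ₀ ∈ Γ, ¬ ∃ g : SL2C, γ₀ = act g
    · obtain ⟨γ₀, hγ₀, hγ₀n⟩ := hrev
      refine ⟨S₁ ∪ S₁.image (fun s => γ₀ * s), ?_⟩
      intro γ hγ
      by_cases hor : ∃ g : SL2C, γ = act g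
      · obtain ⟨g, rfl⟩ := hor
        obtain ⟨s, hs1, hs2, hs3⟩ := hpres g hγ
        exact ⟨s, Finset.mem_union_left _ hs1, hs2, hs3⟩
      · have h1 : ∃ g : SL2C, γ₀ = act g * cj := by
          rcases iso_classification γ₀ (hiso γ₀ hγ₀) with h | h
          · exact absurd h hγ₀n
          · exact h
        have h2 : ∃ g : SL2C, γ = act g * cj := by
          rcases iso_classification γ (hiso γ hγ) with h | h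
          · exact absurd h hor
          · exact h
        obtain ⟨g₀, hg₀⟩ := h1
        obtain ⟨g₁, hg₁⟩ := h2
        obtain ⟨g', hg'⟩ := cj_act_cj (g₀⁻¹ * g₁)
        have h3 : γ₀⁻¹ * γ = act g' := by
          rw [← hg', hg₀, hg₁, map_mul, map_inv]; group
        have h4 : act g' ∈ Γ := by rw [← h3]; exact Γ.mul_mem (Γ.inv_mem hγ₀) hγ
        obtain ⟨s, hs1, hs2, hs3⟩ := hpres g' h4
        refine ⟨γ₀ * s, Finset.mem_union_right _ (Finset.mem_image.mpr ⟨s, hs1, rfl⟩), ?_, ?_⟩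
        · have : (γ₀ * s)⁻¹ * γ = s⁻¹ * act g' := by rw [← h3]; group
          rw [this]; exact hs2
        · have : (γ₀ * s)⁻¹ * γ = s⁻¹ * act g' := by rw [← h3]; group
          rw [this]; exact hs3
    · push Not at hrev
      refine ⟨S₁, ?_⟩
      intro γ hγ
      obtain ⟨g, rfl⟩ := hrev γ hγ
      exact hpres g hγ
  refine ⟨d, hd, φ, hφiso, hfirst, ?_⟩
  -- the converse
  let Δ : Subgroup (Equiv.Perm H3) := ((Bi d).map act).comap (MulAut.conj φ).toMonoidHom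
  have hΔ : ∀ δ, δ ∈ Δ ↔ ∃ g : SL2C, IsBianchi d g ∧ φ * δ * φ⁻¹ = act g := by
    intro δ
    show φ * δ * φ⁻¹ ∈ (Bi d).map act ↔ _
    rw [Subgroup.mem_map]
    constructor
    · rintro ⟨g, hg, hgδ⟩
      exact ⟨g, mem_Bi_iff.mp hg, hgδ.symm⟩
    · rintro ⟨g, hg, hgδ⟩
      exact ⟨g, mem_Bi_iff.mpr hg, hgδ.symm⟩
  have hφinv : ∀ x y : H3, rho (φ⁻¹ x) (φ⁻¹ y) = rho x y := by
    intro x y
    rw [← hφiso (φ⁻¹ x) (φ⁻¹ y)]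
    have e1 : φ (φ⁻¹ x) = x := Equiv.apply_symm_apply _ _
    have e2 : φ (φ⁻¹ y) = y := Equiv.apply_symm_apply _ _
    rw [e1, e2]
  have hΔform : ∀ δ (g : SL2C), φ * δ * φ⁻¹ = act g → δ = φ⁻¹ * act g * φ := by
    intro δ g h
    rw [← h]; group
  have hΔiso : ∀ δ ∈ Δ, IsIso δ := by
    intro δ hδ
    obtain ⟨g, _, hg⟩ := (hΔ δ).mp hδ
    rw [hΔform δ g hg]
    intro x y
    show rho (φ⁻¹ (act g (φ x))) (φ⁻¹ (act g (φ y))) = _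
    rw [hφinv, act_iso, hφiso]
  have hΔdisc : ∀ x : H3, ∀ R : ℝ, Set.Finite {δ : Equiv.Perm H3 | δ ∈ Δ ∧ rho (δ x) x ≤ R} := by
    intro x R
    refine ((Bi_discrete hd (φ x) R).image (fun g => φ⁻¹ * act g * φ)).subset ?_
    rintro δ ⟨hδ, hr⟩
    obtain ⟨g, hgB, hg⟩ := (hΔ δ).mp hδ
    refine ⟨g, ⟨mem_Bi_iff.mpr hgB, ?_⟩, (hΔform δ g hg).symm⟩
    have h1 : rho (act g (φ x)) (φ x) = rho (δ x) x := by
      rw [← hφiso (δ x) x]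
      have : φ (δ x) = act g (φ x) := by
        rw [hΔform δ g hg]
        show φ (φ⁻¹ (act g (φ x))) = _
        exact Equiv.apply_symm_apply _ _
      rw [this]
    rw [h1]; exact hr
  obtain ⟨S, hS⟩ := finite_index_of_covolume Γ hiso hdisc hcov Δ hΔiso hΔdisc (Γ ⊓ Δ) inf_le_left
    inf_le_right (by
      obtain ⟨S, hS⟩ := hfirst
      refine ⟨S, fun γ hγ => ?_⟩
      obtain ⟨s, hsS, hs1, hs2⟩ := hS γ hγ
      exact ⟨s, hsS, hs1, (hΔ _).mpr hs2⟩)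
  refine ⟨S, ?_⟩
  intro δ hδ
  obtain ⟨s, hsS, hs1, hs2⟩ := hS δ ((hΔ δ).mpr hδ)
  exact ⟨s, hsS, hs1, (hΔ _).mp hs2⟩

lemma frozen_iff (d : ℕ) (P : Equiv.Perm H3) : (∃ g : SL2C, IsBianchi d g ∧ P = act g) ↔
    (∃ a b c e : ℂ, (∀ z ∈ ({a, b, c, e} : Set ℂ), IsIntegral ℤ z ∧
            ∃ u v : ℚ, z = (u : ℂ) + (v : ℂ) * ((Real.sqrt (d : ℝ) : ℂ) * Complex.I)) ∧
          a * e - b * c = 1 ∧ ∀ p : H3,
            (P p).1.1 =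
              ((a * p.1.1 + b) * (starRingEnd ℂ) (c * p.1.1 + e) + a * (starRingEnd ℂ) c * ((p.1.2 : ℂ) ^ 2))
                / (((‖c * p.1.1 + e‖ ^ 2 + ‖c‖ ^ 2 * p.1.2 ^ 2 : ℝ)) : ℂ) ∧
            (P p).1.2 = p.1.2 / (‖c * p.1.1 + e‖ ^ 2 + ‖c‖ ^ 2 * p.1.2 ^ 2)) := by
  constructor
  · rintro ⟨g, hg, rfl⟩
    refine ⟨g.1 0 0, g.1 0 1, g.1 1 0, g.1 1 1, ?_, det_eq g, fun p => ⟨act_fst g p, act_snd g p⟩⟩
    intro z hz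
    simp only [Set.mem_insert_iff, Set.mem_singleton_iff] at hz
    rcases hz with rfl | rfl | rfl | rfl
    · exact hg 0 0
    · exact hg 0 1
    · exact hg 1 0
    · exact hg 1 1
  · rintro ⟨a, b, c, e, hz, hdet, hP⟩
    let g : SL2C := ⟨!![a, b; c, e], by rw [Matrix.det_fin_two_of]; exact hdet⟩
    refine ⟨g, ?_, ?_⟩
    · intro i j
      fin_cases i <;> fin_cases j
      · exact hz a (by simp)
      · exact hz b (by simp)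
      · exact hz c (by simp)
      · exact hz e (by simp)
    · apply Equiv.ext
      intro p
      apply Subtype.ext
      apply Prod.ext
      · rw [(hP p).1, act_fst]; rfl
      · rw [(hP p).2, act_snd]; rfl

theorem main_of_sieve (hs : SieveStatement) :
  ∀ Γ : Subgroup (Equiv.Perm {p : ℂ × ℝ // 0 < p.2}),
    (∀ γ ∈ Γ, ∀ x y : {p : ℂ × ℝ // 0 < p.2},
      (‖(γ x).1.1 - (γ y).1.1‖ ^ 2 + ((γ x).1.2 - (γ y).1.2) ^ 2) / ((γ x).1.2 * (γ y).1.2)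
        = (‖x.1.1 - y.1.1‖ ^ 2 + (x.1.2 - y.1.2) ^ 2) / (x.1.2 * y.1.2)) →
    (∀ x : {p : ℂ × ℝ // 0 < p.2}, ∀ R : ℝ,
      Set.Finite {γ : Equiv.Perm {p : ℂ × ℝ // 0 < p.2} | γ ∈ Γ ∧
        (‖(γ x).1.1 - x.1.1‖ ^ 2 + ((γ x).1.2 - x.1.2) ^ 2) / ((γ x).1.2 * x.1.2) ≤ R}) →
    (∀ γ ∈ Γ, ∀ n : ℕ, 0 < n → γ ^ n = 1 → γ = 1) →
    (∃ F : Set (ℂ × ℝ), MeasurableSet F ∧ (∀ p ∈ F, 0 < p.2) ∧
      (∫⁻ p in F, ENNReal.ofReal (1 / p.2 ^ 3)) < ⊤ ∧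
      ∀ x : {p : ℂ × ℝ // 0 < p.2}, ∃ γ ∈ Γ, (γ x).1 ∈ F) →
    (¬ ∃ K : Set {p : ℂ × ℝ // 0 < p.2}, IsCompact K ∧
      ∀ x : {p : ℂ × ℝ // 0 < p.2}, ∃ γ ∈ Γ, γ x ∈ K) →
    (∃ c : ℝ, 0 < c ∧ ∀ᶠ n : ℕ in Filter.atTop,
      c ≤ Real.exp (-(n : ℝ)) * (Set.ncard {ℓ : ℝ | 0 < ℓ ∧ ℓ ≤ (n : ℝ) ∧ ∃ γ ∈ Γ,
        Real.cosh ℓ = 1 + (⨅ x : {p : ℂ × ℝ // 0 < p.2},
          (‖(γ x).1.1 - x.1.1‖ ^ 2 + ((γ x).1.2 - x.1.2) ^ 2) / ((γ x).1.2 * x.1.2)) / 2} : ℝ)) →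
    (∃ C : ℝ, ∃ᶠ n : ℕ in Filter.atTop,
      Real.exp (-(n : ℝ)) * (Set.ncard {ℓ : ℝ | 0 < ℓ ∧ ℓ ≤ (n : ℝ) ∧ ∃ γ ∈ Γ,
        Real.cosh ℓ = 1 + (⨅ x : {p : ℂ × ℝ // 0 < p.2},
          (‖(γ x).1.1 - x.1.1‖ ^ 2 + ((γ x).1.2 - x.1.2) ^ 2) / ((γ x).1.2 * x.1.2)) / 2} : ℝ) ≤ C) →
    ∃ d : ℕ, 0 < d ∧ ∃ φ : Equiv.Perm {p : ℂ × ℝ // 0 < p.2},
      (∀ x y : {p : ℂ × ℝ // 0 < p.2},
        (‖(φ x).1.1 - (φ y).1.1‖ ^ 2 + ((φ x).1.2 - (φ y).1.2) ^ 2) / ((φ x).1.2 * (φ y).1.2)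
          = (‖x.1.1 - y.1.1‖ ^ 2 + (x.1.2 - y.1.2) ^ 2) / (x.1.2 * y.1.2)) ∧
      (∃ S : Finset (Equiv.Perm {p : ℂ × ℝ // 0 < p.2}), ∀ γ ∈ Γ, ∃ s ∈ S, s⁻¹ * γ ∈ Γ ∧
        ∃ a b c e : ℂ, (∀ z ∈ ({a, b, c, e} : Set ℂ), IsIntegral ℤ z ∧
            ∃ u v : ℚ, z = (u : ℂ) + (v : ℂ) * ((Real.sqrt (d : ℝ) : ℂ) * Complex.I)) ∧
          a * e - b * c = 1 ∧ ∀ p : {p : ℂ × ℝ // 0 < p.2},
            ((φ * (s⁻¹ * γ) * φ⁻¹) p).1.1 =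
              ((a * p.1.1 + b) * (starRingEnd ℂ) (c * p.1.1 + e) + a * (starRingEnd ℂ) c * ((p.1.2 : ℂ) ^ 2))
                / (((‖c * p.1.1 + e‖ ^ 2 + ‖c‖ ^ 2 * p.1.2 ^ 2 : ℝ)) : ℂ) ∧
            ((φ * (s⁻¹ * γ) * φ⁻¹) p).1.2 = p.1.2 / (‖c * p.1.1 + e‖ ^ 2 + ‖c‖ ^ 2 * p.1.2 ^ 2)) ∧
      (∃ S : Finset (Equiv.Perm {p : ℂ × ℝ // 0 < p.2}), ∀ δ : Equiv.Perm {p : ℂ × ℝ // 0 < p.2},
        (∃ a b c e : ℂ, (∀ z ∈ ({a, b, c, e} : Set ℂ), IsIntegral ℤ z ∧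
            ∃ u v : ℚ, z = (u : ℂ) + (v : ℂ) * ((Real.sqrt (d : ℝ) : ℂ) * Complex.I)) ∧
          a * e - b * c = 1 ∧ ∀ p : {p : ℂ × ℝ // 0 < p.2},
            ((φ * δ * φ⁻¹) p).1.1 =
              ((a * p.1.1 + b) * (starRingEnd ℂ) (c * p.1.1 + e) + a * (starRingEnd ℂ) c * ((p.1.2 : ℂ) ^ 2))
                / (((‖c * p.1.1 + e‖ ^ 2 + ‖c‖ ^ 2 * p.1.2 ^ 2 : ℝ)) : ℂ) ∧
            ((φ * δ * φ⁻¹) p).1.2 = p.1.2 / (‖c * p.1.1 + e‖ ^ 2 + ‖c‖ ^ 2 * p.1.2 ^ 2)) →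
        ∃ s ∈ S, s⁻¹ * δ ∈ Γ ∧
          ∃ a b c e : ℂ, (∀ z ∈ ({a, b, c, e} : Set ℂ), IsIntegral ℤ z ∧
              ∃ u v : ℚ, z = (u : ℂ) + (v : ℂ) * ((Real.sqrt (d : ℝ) : ℂ) * Complex.I)) ∧
            a * e - b * c = 1 ∧ ∀ p : {p : ℂ × ℝ // 0 < p.2},
              ((φ * (s⁻¹ * δ) * φ⁻¹) p).1.1 =
                ((a * p.1.1 + b) * (starRingEnd ℂ) (c * p.1.1 + e) + a * (starRingEnd ℂ) c * ((p.1.2 : ℂ) ^ 2))
                  / (((‖c * p.1.1 + e‖ ^ 2 + ‖c‖ ^ 2 * p.1.2 ^ 2 : ℝ)) : ℂ) ∧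
              ((φ * (s⁻¹ * δ) * φ⁻¹) p).1.2 = p.1.2 / (‖c * p.1.1 + e‖ ^ 2 + ‖c‖ ^ 2 * p.1.2 ^ 2)) := by
  intro Γ hiso hdisc htf hcov hncpt hc hC
  obtain ⟨d, hd, φ, hφ, h1, h2⟩ := final_core hs Γ hiso hdisc htf hcov hncpt hc hC
  refine ⟨d, hd, φ, hφ, ?_, ?_⟩
  · obtain ⟨S, hS⟩ := h1
    refine ⟨S, fun γ hγ => ?_⟩
    obtain ⟨s, hsS, hs1, hs2⟩ := hS γ hγ
    exact ⟨s, hsS, hs1, (frozen_iff d _).mp hs2⟩
  · obtain ⟨S, hS⟩ := h2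
    refine ⟨S, fun δ hδ => ?_⟩
    obtain ⟨s, hsS, hs1, hs2⟩ := hS δ ((frozen_iff d _).mpr hδ)
    exact ⟨s, hsS, hs1, (frozen_iff d _).mp hs2⟩

end Pool.Agent.Work.MP_67f4ac_gt
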