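import Mathlib
import Pool.Agent.Work.MP_67f4ac_gt.Final

set_option autoImplicit false
set_option linter.all false

namespace Pool.Agent.Work.MP_67f4ac_gt

open Filter Topology

/-- the point `(0, e^t)` -/
noncomputable def vline (t : ℝ) : H3 := ⟨(0, Real.exp t), Real.exp_pos t⟩

theorem rho_vline (s t : ℝ) : rho (vline s) (vline t) = 2 * Real.cosh (s - t) - 2 := by
  unfold rho vline
  have hs := Real.exp_pos s
  have ht := Real.exp_pos t
  simp only [sub_self, norm_zero]
  rw [Real.cosh_eq]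
  have e1 : Real.exp (s - t) = Real.exp s / Real.exp t := Real.exp_sub s t
  have e2 : Real.exp (-(s - t)) = Real.exp t / Real.exp s := by
    rw [neg_sub]; exact Real.exp_sub t s
  rw [e1, e2]
  field_simp
  ring

theorem exists_diag' (g : SL2C) (h : tr g ^ 2 ≠ 4) :
    ∃ k : SL2C, (k⁻¹ * g * k).1 0 1 = 0 ∧ (k⁻¹ * g * k).1 1 0 = 0 := by
  by_cases hc : g.1 1 0 = 0
  · by_cases hb : g.1 0 1 = 0
    · refine ⟨1, ?_, ?_⟩
      · simpa using hb
      · simpa using hc
    · have h1 : (J⁻¹ * g * J).1 1 0 ≠ 0 := by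
        have hi := inv_e J
        rw [mul_e, mul_e, mul_e, hi.2.2.1, hi.2.2.2]
        have e1 : J.1 0 0 = 0 := rfl
        have e2 : J.1 1 0 = 1 := rfl
        rw [e1, e2]
        intro h0
        apply hb
        linear_combination -h0
      have h2 : tr (J⁻¹ * g * J) ^ 2 ≠ 4 := by rw [tr_conj']; exact h
      obtain ⟨k, hk1, hk2⟩ := exists_diag _ h1 h2
      refine ⟨J * k, ?_, ?_⟩
      · have : (J * k)⁻¹ * g * (J * k) = k⁻¹ * (J⁻¹ * g * J) * k := by group
        rw [this]; exact hk1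
      · have : (J * k)⁻¹ * g * (J * k) = k⁻¹ * (J⁻¹ * g * J) * k := by group
        rw [this]; exact hk2
  · exact exists_diag g hc h

/-- every element with `tr ^ 2 ≠ 4` translates a line -/
theorem exists_line (g : SL2C) (h : tr g ^ 2 ≠ 4) :
    ∃ (k : SL2C) (r : ℝ), (∀ t, act g (act k (vline t)) = act k (vline (t + r))) ∧
      f (tr g) = 4 * Real.cosh r := by
  obtain ⟨k, h01, h10⟩ := exists_diag' g h
  set m := k⁻¹ * g * k with hm
  have hdet := sl_det m
  rw [h01, h10, mul_zero, sub_zero] at hdet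
  have ha : m.1 0 0 ≠ 0 := left_ne_zero_of_mul_eq_one hdet
  have hd : m.1 1 1 = (m.1 0 0)⁻¹ := eq_inv_of_mul_eq_one_right hdet
  have ha' : 0 < ‖m.1 0 0‖ := norm_pos_iff.2 ha
  refine ⟨k, 2 * Real.log ‖m.1 0 0‖, ?_, ?_⟩
  · intro t
    have h1 : act m (vline t) = vline (t + 2 * Real.log ‖m.1 0 0‖) := by
      apply Subtype.ext
      apply Prod.ext
      · rw [act_fst, h01, h10]
        simp [vline]
      · rw [act_snd, h10, hd]
        simp only [vline, mul_zero, zero_add, norm_zero, norm_inv]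
        rw [Real.exp_add, two_mul, Real.exp_add, Real.exp_log ha']
        field_simp
        ring
    have h2 : act g (act k (vline t)) = act k (act m (vline t)) := by
      have : g * k = k * m := by rw [hm]; group
      have h3 : act (g * k) (vline t) = act (k * m) (vline t) := by rw [this]
      rw [map_mul, map_mul] at h3
      exact h3
    rw [h2, h1]
  · have h1 : tr g = m.1 0 0 + m.1 1 1 := by rw [← tr_conj' g k]; rfl
    rw [h1]
    unfold f
    have e1 : (m.1 0 0 + m.1 1 1) ^ 2 - 4 = (m.1 0 0 - m.1 1 1) ^ 2 := by linear_combination 4 * hdet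
    rw [e1, norm_pow]
    have e3 := parallelogram_law_with_norm ℝ (m.1 0 0) (m.1 1 1)
    have e4 : ‖m.1 1 1‖ = ‖m.1 0 0‖⁻¹ := by rw [hd, norm_inv]
    rw [Real.cosh_eq]
    have e5 : Real.exp (2 * Real.log ‖m.1 0 0‖) = ‖m.1 0 0‖ * ‖m.1 0 0‖ := by
      rw [two_mul, Real.exp_add, Real.exp_log ha']
    have e6 : Real.exp (-(2 * Real.log ‖m.1 0 0‖)) = ‖m.1 1 1‖ * ‖m.1 1 1‖ := by
      rw [Real.exp_neg, e5, e4, mul_inv]
    rw [e5, e6]
    nlinarith [e3]

/-- an elliptic element has a fixed point -/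
theorem fixed_of_f_four (g : SL2C) (h : tr g ^ 2 ≠ 4) (hf : f (tr g) = 4) : ∃ x, act g x = x := by
  obtain ⟨k, r, h1, h2⟩ := exists_line g h
  have hr : r = 0 := by
    have : Real.cosh r = 1 := by linarith
    by_contra hr
    exact absurd this (Real.one_lt_cosh.2 hr).ne'
  exact ⟨act k (vline 0), by rw [h1, hr, add_zero]⟩

/-- a loxodromic element translates a geodesic line by its translation length -/
theorem exists_axis (g : SL2C) (h : 4 < f (tr g)) {ℓ : ℝ} (hℓ : 0 < ℓ) (hc : Real.cosh ℓ = f (tr g) / 4) :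
    ∃ c : ℝ → H3, (∀ s t, rho (c s) (c t) = 2 * Real.cosh (s - t) - 2) ∧
      ∀ t, act g (c t) = c (t + ℓ) := by
  have htr : tr g ^ 2 ≠ 4 := fun h0 => h.ne' (f_eq_four_of_sq h0)
  obtain ⟨k, r, h1, h2⟩ := exists_line g htr
  have h3 : Real.cosh r = Real.cosh ℓ := by rw [hc]; linarith
  have h4 : |r| = |ℓ| := le_antisymm (Real.cosh_le_cosh.1 h3.le) (Real.cosh_le_cosh.1 h3.ge)
  rw [abs_of_pos hℓ] at h4
  rcases abs_choice r with h5 | h5
  · have hr : r = ℓ := by rw [← h4, h5]
    refine ⟨fun t => act k (vline t), ?_, ?_⟩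
    · intro s t
      rw [act_iso, rho_vline]
    · intro t
      show act g (act k (vline t)) = act k (vline (t + ℓ))
      rw [h1, hr]
  · have hr : r = -ℓ := by rw [← h4, h5, neg_neg]
    refine ⟨fun t => act k (vline (-t)), ?_, ?_⟩
    · intro s t
      rw [act_iso, rho_vline]
      have : -s - -t = -(s - t) := by ring
      rw [this, Real.cosh_neg]
    · intro t
      show act g (act k (vline (-t))) = act k (vline (-(t + ℓ)))
      rw [h1, hr, neg_add]

end Pool.Agent.Work.MP_67f4ac_gt
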