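import Mathlib
import Pool.Agent.Work.MP_67f4ac_gt.Final
import Pool.Agent.Work.MP_67f4ac_gt.TwinAxis

set_option autoImplicit false
set_option linter.all false

namespace Pool.Agent.Work.MP_67f4ac_gt

open Filter Topology MeasureTheory NumberField

/-- the lengths of the orientation preserving loxodromic elements, via the trace -/
def LT (Γ : Subgroup (Equiv.Perm H3)) (n : ℝ) : Set ℝ :=
  {ℓ : ℝ | 0 < ℓ ∧ ℓ ≤ n ∧ ∃ g : SL2C, act g ∈ Γ ∧ Real.cosh ℓ = f (tr g) / 4}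

lemma growthT (Γ : Subgroup (Equiv.Perm H3)) (G : Subgroup SL2C) (ψ : SL2C)
    (hG : ∀ g, g ∈ G ↔ (act ψ)⁻¹ * act g * act ψ ∈ Γ)
    (hC : ∃ C : ℝ, ∃ᶠ n : ℕ in atTop, (LT Γ n).Finite ∧ ((LT Γ n).ncard : ℝ) ≤ C * Real.exp n) :
    BoundedGrowth G := by
  obtain ⟨C, hC⟩ := hC
  refine ⟨|C| + 1, hC.mono ?_⟩
  rintro n ⟨hfin, hn1⟩
  have hsub : {v : ℝ | v ≤ 4 * Real.cosh n ∧ ∃ g ∈ G, v = f (tr g)} ⊆
      insert 4 ((fun ℓ : ℝ => 4 * Real.cosh ℓ) '' (LT Γ n)) := by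
    rintro v ⟨hv, g, hg, rfl⟩
    rw [Set.mem_insert_iff]
    by_cases h4 : f (tr g) = 4
    · left; exact h4
    right
    have hgt : 4 < f (tr g) := lt_of_le_of_ne (f_ge _) (Ne.symm h4)
    set ℓ : ℝ := Real.arcosh (f (tr g) / 4) with hℓ
    have hcosh : Real.cosh ℓ = f (tr g) / 4 := Real.cosh_arcosh (by linarith)
    have hℓ0 : 0 < ℓ := by
      have h1 : 0 ≤ ℓ := Real.arcosh_nonneg (by linarith)
      rcases h1.eq_or_lt with h2 | h2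
      · rw [← h2, Real.cosh_zero] at hcosh; linarith
      · exact h2
    refine ⟨ℓ, ⟨hℓ0, ?_, ψ⁻¹ * g * ψ, ?_, ?_⟩, ?_⟩
    · have h1 : Real.cosh ℓ ≤ Real.cosh n := by rw [hcosh]; linarith
      have h2 := Real.cosh_le_cosh.mp h1
      rw [abs_of_pos hℓ0, abs_of_nonneg (Nat.cast_nonneg n)] at h2
      exact h2
    · rw [map_mul, map_mul, map_inv]; exact (hG g).mp hg
    · rw [tr_conj', hcosh]
    · show 4 * Real.cosh ℓ = _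
      rw [hcosh]; ring
  have hfin' : (insert 4 ((fun ℓ : ℝ => 4 * Real.cosh ℓ) '' (LT Γ n))).Finite :=
    (hfin.image _).insert _
  refine ⟨hfin'.subset hsub, ?_⟩
  have h1 : {v : ℝ | v ≤ 4 * Real.cosh n ∧ ∃ g ∈ G, v = f (tr g)}.ncard ≤ (LT Γ n).ncard + 1 := by
    refine (Set.ncard_le_ncard hsub hfin').trans ?_
    refine (Set.ncard_insert_le _ _).trans ?_
    exact Nat.add_le_add_right (Set.ncard_image_le hfin) 1
  have h2 : ({v : ℝ | v ≤ 4 * Real.cosh n ∧ ∃ g ∈ G, v = f (tr g)}.ncard : ℝ) ≤ ((LT Γ n).ncard : ℝ) + 1 := by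
    exact_mod_cast h1
  refine h2.trans ?_
  have h5 : C * Real.exp n ≤ |C| * Real.exp n := mul_le_mul_of_nonneg_right (le_abs_self C) (Real.exp_pos _).le
  have h6 : (1 : ℝ) ≤ Real.exp n := Real.one_le_exp (Nat.cast_nonneg n)
  linarith

theorem gapT (Γ : Subgroup (Equiv.Perm H3))
    (hfin : ∃ N : ℝ, 0 < N ∧ (LT Γ N).Finite) :
    ∃ ε : ℝ, 0 < ε ∧ ∀ g : SL2C, act g ∈ Γ → ∀ x : H3, rho (act g x) x < ε → f (tr g) = 4 := by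
  obtain ⟨N, hN, hfin⟩ := hfin
  obtain ⟨m, hm, hmin⟩ := Set.exists_min_image _ id (hfin.insert N) ⟨N, Set.mem_insert _ _⟩
  have hm0 : 0 < m := by
    rcases hm with rfl | hm
    · exact hN
    · exact hm.1
  have hmN : m ≤ N := hmin N (Set.mem_insert _ _)
  refine ⟨2 * (Real.cosh m - 1), by have := Real.one_lt_cosh.2 hm0.ne'; linarith, ?_⟩
  intro g hg x hlt
  by_contra hne
  have hge := rho_ge g x
  have h4 : 4 < f (tr g) := lt_of_le_of_ne (f_ge _) (Ne.symm hne)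
  have h1 : Real.cosh (Real.arcosh (f (tr g) / 4)) = f (tr g) / 4 := Real.cosh_arcosh (by linarith)
  have h0 : 0 < Real.arcosh (f (tr g) / 4) := by
    apply Real.arcosh_pos
    linarith
  have h2 : Real.arcosh (f (tr g) / 4) < m := by
    by_contra hle
    push Not at hle
    have := Real.cosh_le_cosh.2 (by rwa [abs_of_pos hm0, abs_of_pos h0] : |m| ≤ |Real.arcosh (f (tr g) / 4)|)
    linarith
  have h3 := hmin (Real.arcosh (f (tr g) / 4)) (Set.mem_insert_of_mem _ ⟨h0, by linarith, g, hg, h1⟩)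
  simp only [id_eq] at h3
  linarith

theorem exists_parabolicT (Γ : Subgroup (Equiv.Perm H3)) (hΓ : Disc Γ)
    (hiso : ∀ γ ∈ Γ, IsIso γ) (htf : TF Γ)
    (hmp : ∀ γ ∈ Γ, MeasurePreserving γ mu mu) (hF : FinCov Γ)
    (hncpt : ¬ ∃ K : Set H3, IsCompact K ∧ ∀ x : H3, ∃ γ ∈ Γ, γ x ∈ K)
    (hfin : ∃ N : ℝ, 0 < N ∧ (LT Γ N).Finite) :
    ∃ ψ : SL2C, (act ψ)⁻¹ * act (T 1) * act ψ ∈ Γ := by
  obtain ⟨ε, hε, hgap⟩ := gapT Γ hfin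
  obtain ⟨γ, hγ, hne, x, hx⟩ := small_displacement Γ hΓ hiso hmp hF hncpt (min ε 1 / 13) (by positivity)
  have hγ2 : γ ^ 2 ∈ Γ := Γ.pow_mem hγ 2
  have hne2 : γ ^ 2 ≠ 1 := fun h => hne (htf γ hγ 2 (by norm_num) h)
  obtain ⟨h, hh⟩ := sq_is_act γ (hiso γ hγ)
  have h1 : f (tr h) = 4 := by
    refine hgap h (by rw [← hh]; exact hγ2) x ?_
    rw [← hh]
    have h2 : rho (γ (γ x)) (γ x) ≤ min ε 1 / 13 := by
      rw [hiso γ hγ]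
      exact hx.le
    have h3 : rho x (γ x) ≤ min ε 1 / 13 := by rw [rho_comm]; exact hx.le
    have h4 := quasi (by have := min_le_right ε 1; linarith) h2 h3
    have h5 : 12 * (min ε 1 / 13) < ε := by
      have := min_le_left ε 1
      have h0 : 0 < min ε 1 := by positivity
      linarith
    rw [sq, Equiv.Perm.mul_apply]
    linarith
  rw [hh] at hγ2 hne2
  have htr : tr h ^ 2 = 4 := by
    by_contra htr
    obtain ⟨y, hy⟩ := fixed_of_f_four h htr h1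
    exact hne2 (fixed_point hΓ htf hγ2 y hy)
  obtain ⟨ψ, hψ⟩ := exists_conj h htr hne2
  refine ⟨ψ, ?_⟩
  rw [← hψ]
  convert hγ2 using 1
  group

/-- MODULE A2: the cusp -/
theorem geometryT (Γ : Subgroup (Equiv.Perm H3)) (hiso : ∀ γ ∈ Γ, IsIso γ)
    (hdisc : ∀ x : H3, ∀ R : ℝ, Set.Finite {γ : Equiv.Perm H3 | γ ∈ Γ ∧ rho (γ x) x ≤ R})
    (htf : ∀ γ ∈ Γ, ∀ n : ℕ, 0 < n → γ ^ n = 1 → γ = 1)
    (hcov : ∃ F : Set (ℂ × ℝ), MeasurableSet F ∧ (∀ p ∈ F, 0 < p.2) ∧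
      (∫⁻ p in F, ENNReal.ofReal (1 / p.2 ^ 3)) < ⊤ ∧ ∀ x : H3, ∃ γ ∈ Γ, (γ x).1 ∈ F)
    (hncpt : ¬ ∃ K : Set H3, IsCompact K ∧ ∀ x : H3, ∃ γ ∈ Γ, γ x ∈ K)
    (hfin : ∃ N : ℝ, 0 < N ∧ (LT Γ N).Finite) :
    ∃ (ψ : SL2C) (ω : ℂ), ω.im ≠ 0 ∧
      (act ψ)⁻¹ * act (T 1) * act ψ ∈ Γ ∧ (act ψ)⁻¹ * act (T ω) * act ψ ∈ Γ ∧
      (∀ g : SL2C, (act ψ)⁻¹ * act g * act ψ ∈ Γ → g.1 1 0 = 0 → g.1 0 0 = 1 ∨ g.1 0 0 = -1) ∧
      (∃ g : SL2C, (act ψ)⁻¹ * act g * act ψ ∈ Γ ∧ g.1 1 0 ≠ 0) := by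
  have hF : FinCov Γ := exists_F Γ hcov
  obtain ⟨ψ, hψ⟩ := exists_parabolicT Γ hdisc hiso htf (fun γ hγ => mp_of_iso γ (hiso γ hγ)) hF
    hncpt hfin
  set φ := act ψ with hφ
  have hφiso : IsIso φ := act_iso ψ
  have hφmp : MeasurePreserving φ mu mu := mp_of_iso φ hφiso
  have hφimp : MeasurePreserving (φ⁻¹ : Equiv.Perm H3) mu mu := mp_of_iso _ hφiso.inv
  set G := cg φ Γ with hG
  have hGiso : ∀ γ ∈ G, IsIso γ := by
    intro γ hγ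
    have h := hiso _ (mem_cg.1 hγ)
    have : γ = φ * (φ⁻¹ * γ * φ) * φ⁻¹ := by group
    rw [this]
    exact (hφiso.mul h).mul hφiso.inv
  have hGdisc : Disc G := by
    intro x R
    refine ((hdisc (φ⁻¹ x) R).image (fun γ => φ * γ * φ⁻¹)).subset ?_
    rintro γ ⟨hγ, hx⟩
    refine ⟨φ⁻¹ * γ * φ, ⟨mem_cg.1 hγ, ?_⟩, ?_⟩
    · have := hφiso.inv (γ x) x
      rw [← this] at hx
      simpa using hx
    · simp only
      group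
  have hGtf : TF G := by
    intro γ hγ n hn h
    have h1 : (φ⁻¹ * γ * φ) ^ n = 1 := by
      have := conj_pow (a := φ⁻¹) (b := γ) (i := n)
      rw [inv_inv] at this
      rw [this, h]
      group
    have h2 := htf _ (mem_cg.1 hγ) n hn h1
    have : γ = φ * (φ⁻¹ * γ * φ) * φ⁻¹ := by group
    rw [this, h2]
    group
  have hGF : FinCov G := by
    obtain ⟨F, hFm, hFf, hFc⟩ := hF
    refine ⟨(φ⁻¹ : Equiv.Perm H3) ⁻¹' F, hφimp.measurable hFm, ?_, ?_⟩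
    · rw [hφimp.measure_preimage hFm.nullMeasurableSet]
      exact hFf
    · intro x
      obtain ⟨γ, hγ, hx⟩ := hFc (φ⁻¹ x)
      refine ⟨φ * γ * φ⁻¹, ?_, ?_⟩
      · rw [hG, mem_cg]
        convert hγ using 1
        group
      · simpa using hx
  have h1 : act (T 1) ∈ G := mem_cg.2 hψ
  obtain ⟨⟨ω, hω, hω'⟩, g, hg, hgc⟩ := cusp_main hGdisc hGiso hGtf
    (fun γ hγ => mp_of_iso γ (hGiso γ hγ)) hGF h1
  exact ⟨ψ, ω, hω, hψ, mem_cg.1 hω', fun g hg hc => c_zero hGdisc hGtf h1 g (mem_cg.2 hg) hc,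
    g, mem_cg.1 hg, hgc⟩

theorem final_coreT (hs : SieveStatement) (Γ : Subgroup (Equiv.Perm H3)) (hiso : ∀ γ ∈ Γ, IsIso γ)
    (hdisc : ∀ x : H3, ∀ R : ℝ, Set.Finite {γ : Equiv.Perm H3 | γ ∈ Γ ∧ rho (γ x) x ≤ R})
    (htf : ∀ γ ∈ Γ, ∀ n : ℕ, 0 < n → γ ^ n = 1 → γ = 1)
    (hcov : ∃ F : Set (ℂ × ℝ), MeasurableSet F ∧ (∀ p ∈ F, 0 < p.2) ∧
      (∫⁻ p in F, ENNReal.ofReal (1 / p.2 ^ 3)) < ⊤ ∧ ∀ x : H3, ∃ γ ∈ Γ, (γ x).1 ∈ F)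
    (hncpt : ¬ ∃ K : Set H3, IsCompact K ∧ ∀ x : H3, ∃ γ ∈ Γ, γ x ∈ K)
    (hC : ∃ C : ℝ, ∃ᶠ n : ℕ in atTop, (LT Γ n).Finite ∧ ((LT Γ n).ncard : ℝ) ≤ C * Real.exp n) :
    ∃ d : ℕ, 0 < d ∧ ∃ φ : Equiv.Perm H3, (∃ k : SL2C, φ = act k) ∧
      (∃ S : Finset (Equiv.Perm H3), ∀ γ ∈ Γ, ∃ s ∈ S, s⁻¹ * γ ∈ Γ ∧
        ∃ g : SL2C, IsBianchi d g ∧ φ * (s⁻¹ * γ) * φ⁻¹ = act g) ∧
      (∃ S : Finset (Equiv.Perm H3), ∀ δ : Equiv.Perm H3,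
        (∃ g : SL2C, IsBianchi d g ∧ φ * δ * φ⁻¹ = act g) →
        ∃ s ∈ S, s⁻¹ * δ ∈ Γ ∧ ∃ g : SL2C, IsBianchi d g ∧ φ * (s⁻¹ * δ) * φ⁻¹ = act g) := by
  classical
  -- finiteness of lengths
  have hfin : ∃ N : ℝ, 0 < N ∧ (LT Γ N).Finite := by
    obtain ⟨C, hC⟩ := hC
    obtain ⟨n, hn, hn1⟩ := (hC.and_eventually (eventually_ge_atTop 1)).exists
    exact ⟨n, by exact_mod_cast hn1, hn.1⟩
  obtain ⟨ψ, ω, hω, hT1, hTω, hc0, hne⟩ := geometryT Γ hiso hdisc htf hcov hncpt hfin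
  -- the pulled back group
  let G : Subgroup SL2C := Γ.comap ((MulAut.conj (act ψ)⁻¹).toMonoidHom.comp act)
  have hG : ∀ g, g ∈ G ↔ (act ψ)⁻¹ * act g * act ψ ∈ Γ := by
    intro g
    show (act ψ)⁻¹ * act g * ((act ψ)⁻¹)⁻¹ ∈ Γ ↔ _
    rw [inv_inv]
  have hGc0 : ∀ g ∈ G, g.1 1 0 = 0 → g.1 0 0 = 1 ∨ g.1 0 0 = -1 := fun g hg => hc0 g ((hG g).mp hg)
  have hgrowth : BoundedGrowth G := growthT Γ G ψ hG hC
  have hGne : ∃ g ∈ G, g.1 1 0 ≠ 0 := by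
    obtain ⟨g, hg, hgc⟩ := hne
    exact ⟨g, (hG g).mpr hg, hgc⟩
  obtain ⟨d, hd, h, S₀, hS₀, hS₀'⟩ := nt_main hs G ω hω ((hG _).mpr hT1) ((hG _).mpr hTω) hGc0 hGne hgrowth
  set φ : Equiv.Perm H3 := act h * act ψ with hφ
  have hφiso : IsIso φ := by
    intro x y
    show rho (act h (act ψ x)) (act h (act ψ y)) = _
    rw [act_iso, act_iso]
  -- orientation preserving elements
  have hpres : ∀ g : SL2C, act g ∈ Γ → ∃ s ∈ S₀.image (fun s => (act ψ)⁻¹ * act s * act ψ),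
      s⁻¹ * act g ∈ Γ ∧ ∃ b : SL2C, IsBianchi d b ∧ φ * (s⁻¹ * act g) * φ⁻¹ = act b := by
    intro g hg
    have hg' : ψ * g * ψ⁻¹ ∈ G := by
      rw [hG, map_mul, map_mul, map_inv]
      have : (act ψ)⁻¹ * (act ψ * act g * (act ψ)⁻¹) * act ψ = act g := by group
      rw [this]; exact hg
    obtain ⟨s, hsS, hsB⟩ := hS₀' _ hg'
    refine ⟨(act ψ)⁻¹ * act s * act ψ, Finset.mem_image.mpr ⟨s, hsS, rfl⟩, ?_, ?_⟩
    · exact Γ.mul_mem (Γ.inv_mem ((hG s).mp (hS₀ s hsS))) hg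
    · refine ⟨_, hsB, ?_⟩
      rw [hφ]
      simp only [map_mul, map_inv]
      group
  -- all elements
  have hfirst : ∃ S : Finset (Equiv.Perm H3), ∀ γ ∈ Γ, ∃ s ∈ S, s⁻¹ * γ ∈ Γ ∧
        ∃ g : SL2C, IsBianchi d g ∧ φ * (s⁻¹ * γ) * φ⁻¹ = act g := by
    set S₁ := S₀.image (fun s => (act ψ)⁻¹ * act s * act ψ) with hS₁
    by_cases hrev : ∃ γ₀ ∈ Γ, ¬ ∃ g : SL2C, γ₀ = act g
    · obtain ⟨γ₀, hγ₀, hγ₀n⟩ := hrev
      refine ⟨S₁ ∪ S₁.image (fun s => γ₀ * s), ?_⟩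
      intro γ hγ
      by_cases hor : ∃ g : SL2C, γ = act g
      · obtain ⟨g, rfl⟩ := hor
        obtain ⟨s, hs1, hs2, hs3⟩ := hpres g hγ
        exact ⟨s, Finset.mem_union_left _ hs1, hs2, hs3⟩
      · have h1 : ∃ g : SL2C, γ₀ = act g * cj := by
          rcases iso_classification γ₀ (hiso γ₀ hγ₀) with h | h
          · exact absurd h hγ₀n
          · exact h
        have h2 : ∃ g : SL2C, γ = act g * cj := by
          rcases iso_classification γ (hiso γ hγ) with h | h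
          · exact absurd h hor
          · exact h
        obtain ⟨g₀, hg₀⟩ := h1
        obtain ⟨g₁, hg₁⟩ := h2
        obtain ⟨g', hg'⟩ := cj_act_cj (g₀⁻¹ * g₁)
        have h3 : γ₀⁻¹ * γ = act g' := by
          rw [← hg', hg₀, hg₁, map_mul, map_inv]; group
        have h4 : act g' ∈ Γ := by rw [← h3]; exact Γ.mul_mem (Γ.inv_mem hγ₀) hγ
        obtain ⟨s, hs1, hs2, hs3⟩ := hpres g' h4
        refine ⟨γ₀ * s, Finset.mem_union_right _ (Finset.mem_image.mpr ⟨s, hs1, rfl⟩), ?_, ?_⟩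
        · have : (γ₀ * s)⁻¹ * γ = s⁻¹ * act g' := by rw [← h3]; group
          rw [this]; exact hs2
        · have : (γ₀ * s)⁻¹ * γ = s⁻¹ * act g' := by rw [← h3]; group
          rw [this]; exact hs3
    · push Not at hrev
      refine ⟨S₁, ?_⟩
      intro γ hγ
      obtain ⟨g, rfl⟩ := hrev γ hγ
      exact hpres g hγ
  refine ⟨d, hd, φ, ⟨h * ψ, by rw [hφ, map_mul]⟩, hfirst, ?_⟩
  -- the converse
  let Δ : Subgroup (Equiv.Perm H3) := ((Bi d).map act).comap (MulAut.conj φ).toMonoidHom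
  have hΔ : ∀ δ, δ ∈ Δ ↔ ∃ g : SL2C, IsBianchi d g ∧ φ * δ * φ⁻¹ = act g := by
    intro δ
    show φ * δ * φ⁻¹ ∈ (Bi d).map act ↔ _
    rw [Subgroup.mem_map]
    constructor
    · rintro ⟨g, hg, hgδ⟩
      exact ⟨g, mem_Bi_iff.mp hg, hgδ.symm⟩
    · rintro ⟨g, hg, hgδ⟩
      exact ⟨g, mem_Bi_iff.mpr hg, hgδ.symm⟩
  have hφinv : ∀ x y : H3, rho (φ⁻¹ x) (φ⁻¹ y) = rho x y := by
    intro x y
    rw [← hφiso (φ⁻¹ x) (φ⁻¹ y)]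
    have e1 : φ (φ⁻¹ x) = x := Equiv.apply_symm_apply _ _
    have e2 : φ (φ⁻¹ y) = y := Equiv.apply_symm_apply _ _
    rw [e1, e2]
  have hΔform : ∀ δ (g : SL2C), φ * δ * φ⁻¹ = act g → δ = φ⁻¹ * act g * φ := by
    intro δ g h
    rw [← h]; group
  have hΔiso : ∀ δ ∈ Δ, IsIso δ := by
    intro δ hδ
    obtain ⟨g, _, hg⟩ := (hΔ δ).mp hδ
    rw [hΔform δ g hg]
    intro x y
    show rho (φ⁻¹ (act g (φ x))) (φ⁻¹ (act g (φ y))) = _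
    rw [hφinv, act_iso, hφiso]
  have hΔdisc : ∀ x : H3, ∀ R : ℝ, Set.Finite {δ : Equiv.Perm H3 | δ ∈ Δ ∧ rho (δ x) x ≤ R} := by
    intro x R
    refine ((Bi_discrete hd (φ x) R).image (fun g => φ⁻¹ * act g * φ)).subset ?_
    rintro δ ⟨hδ, hr⟩
    obtain ⟨g, hgB, hg⟩ := (hΔ δ).mp hδ
    refine ⟨g, ⟨mem_Bi_iff.mpr hgB, ?_⟩, (hΔform δ g hg).symm⟩
    have h1 : rho (act g (φ x)) (φ x) = rho (δ x) x := by
      rw [← hφiso (δ x) x]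
      have : φ (δ x) = act g (φ x) := by
        rw [hΔform δ g hg]
        show φ (φ⁻¹ (act g (φ x))) = _
        exact Equiv.apply_symm_apply _ _
      rw [this]
    rw [h1]; exact hr
  obtain ⟨S, hS⟩ := finite_index_of_covolume Γ hiso hdisc hcov Δ hΔiso hΔdisc (Γ ⊓ Δ) inf_le_left
    inf_le_right (by
      obtain ⟨S, hS⟩ := hfirst
      refine ⟨S, fun γ hγ => ?_⟩
      obtain ⟨s, hsS, hs1, hs2⟩ := hS γ hγ
      exact ⟨s, hsS, hs1, (hΔ _).mpr hs2⟩)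
  refine ⟨S, ?_⟩
  intro δ hδ
  obtain ⟨s, hsS, hs1, hs2⟩ := hS δ ((hΔ δ).mpr hδ)
  exact ⟨s, hsS, hs1, (hΔ _).mp hs2⟩

end Pool.Agent.Work.MP_67f4ac_gt
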